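import Pool.Agent.EQT.St

/-!
# EQT, module ADQ: quotients of admissible functions (helper26)
-/

set_option autoImplicit false
set_option linter.unusedSectionVars false
set_option linter.unusedVariables false

namespace Pool.Agent.EQT

open Submodule Module

attribute [local instance] Classical.propDecidable Fintype.ofFinite

private theorem ADQ_le {V : Type} [AddCommGroup V] [Module F2 V] (I : Submodule F2 V)
    (U : Submodule F2 (V ⧸ I)) : I ≤ U.comap I.mkQ := by
  intro x hx
  rw [Submodule.mem_comap, Submodule.mkQ_apply, (Submodule.Quotient.mk_eq_zero I).2 hx]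
  exact U.zero_mem

private theorem ADQ_comap {V : Type} [AddCommGroup V] [Module F2 V] (I : Submodule F2 V)
    (U : Submodule F2 (V ⧸ I)) (s : V) :
    (U ⊔ ln (I.mkQ s)).comap I.mkQ = U.comap I.mkQ ⊔ ln s := by
  have h1 : I ≤ U.comap I.mkQ ⊔ ln s := (ADQ_le I U).trans le_sup_left
  have h2 : (U.comap I.mkQ ⊔ ln s).map I.mkQ = U ⊔ ln (I.mkQ s) := by
    rw [Submodule.map_sup, Submodule.map_comap_eq_of_surjective (Submodule.mkQ_surjective I),
      Submodule.map_span, Set.image_singleton]
  rw [← h2, Submodule.comap_map_eq, Submodule.ker_mkQ, sup_eq_left.2 h1]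

private theorem ADQ_fin {V : Type} [AddCommGroup V] [Module F2 V] [Finite V]
    (I : Submodule F2 V) (U : Submodule F2 (V ⧸ I)) :
    finrank F2 (U.comap I.mkQ) = finrank F2 U + finrank F2 I := by
  have hle := ADQ_le I U
  have h1 := LinearMap.finrank_range_add_finrank_ker (I.mkQ.domRestrict (U.comap I.mkQ))
  have h2 : LinearMap.range (I.mkQ.domRestrict (U.comap I.mkQ)) = U := by
    rw [LinearMap.range_domRestrict,
      Submodule.map_comap_eq_of_surjective (Submodule.mkQ_surjective I)]
  have h3 : LinearMap.ker (I.mkQ.domRestrict (U.comap I.mkQ)) =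
      I.comap (U.comap I.mkQ).subtype := by
    rw [LinearMap.ker_domRestrict, Submodule.ker_mkQ]
  rw [h2, h3, LinearEquiv.finrank_eq (Submodule.comapSubtypeEquivOfLe hle)] at h1
  exact h1.symm

theorem thm_ADQ (hQ : St_QUO) : St_ADQ := by
  intro V _ _ _ δ m I h
  have hq : ∀ U : Submodule F2 (V ⧸ I), cc (quo δ m I) U =
      (-δ) ^ finrank F2 I * cc m (U.comap I.mkQ) := (hQ V ℝ δ m I).2
  refine ⟨?_, fun H' hH' => ?_⟩
  · have h1 : finrank F2 (V ⧸ I) + finrank F2 I = finrank F2 V :=
      Submodule.finrank_quotient_add_finrank I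
    unfold quo
    rw [Submodule.comap_top, ← mul_assoc, ← pow_add, h1]
    exact h.top
  · have hH : finrank F2 (H'.comap I.mkQ) + 1 = finrank F2 V := by
      have h1 : finrank F2 (V ⧸ I) + finrank F2 I = finrank F2 V :=
        Submodule.finrank_quotient_add_finrank I
      have h2 := ADQ_fin I H'
      omega
    obtain ⟨s, hs⟩ := h.hyp _ hH
    refine ⟨I.mkQ s, ?_⟩
    rcases hs with ⟨hs, hU⟩ | ⟨hs, hU⟩
    · refine Or.inl ⟨hs, fun U hUH => ?_⟩
      rw [hq, hq, ADQ_comap, hU _ (Submodule.comap_mono hUH)]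
      ring
    · refine Or.inr ⟨hs, fun U hUH e he => ?_⟩
      obtain ⟨e, rfl⟩ := Submodule.mkQ_surjective I e
      rw [hq, hq, ADQ_comap, ADQ_comap, hU _ (Submodule.comap_mono hUH) e he]
      ring

end Pool.Agent.EQT
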