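import Pool.Agent.EQT.St

/-!
# EQT: AFF
-/

set_option autoImplicit false
set_option linter.unusedSectionVars false
set_option linter.unusedVariables false

namespace Pool.Agent.EQT

open Submodule Module

attribute [local instance] Classical.propDecidable Fintype.ofFinite

private theorem AFF_in {V : Type} [AddCommGroup V] [Module F2 V] [Finite V] {R : Type}
    [CommRing R] (e : V) (x : V → R) (t : R) (U : Submodule F2 V) (h : e ∈ U) :
    ∏ v with v ∈ U, Function.update x e t v =
      t * ∏ v ∈ (Finset.univ.filter fun v => v ∈ U) \ {e}, x v :=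
  Finset.prod_update_of_mem (by simpa using h) x t

private theorem AFF_out {V : Type} [AddCommGroup V] [Module F2 V] [Finite V] {R : Type}
    [CommRing R] (e : V) (x : V → R) (t : R) (U : Submodule F2 V) (h : e ∉ U) :
    ∏ v with v ∈ U, Function.update x e t v = ∏ v with v ∈ U, x v :=
  Finset.prod_update_of_notMem (by simpa using h) x t

private theorem AFF_self {V : Type} [AddCommGroup V] [Module F2 V] [Finite V] {R : Type}
    [CommRing R] (e : V) (x : V → R) (U : Submodule F2 V) (h : e ∈ U) :
    ∏ v with v ∈ U, x v = x e * ∏ v ∈ (Finset.univ.filter fun v => v ∈ U) \ {e}, x v := by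
  have h1 := AFF_in e x (x e) U h
  rw [Function.update_eq_self] at h1
  exact h1

theorem thm_AFF : St_AFF := by
  intro V _ _ _ R _ m e x
  refine ⟨⟨∑ U, if e ∈ U then 0 else m U * ∏ v with v ∈ U, x v,
    ∑ U, if e ∈ U then m U * ∏ v ∈ (Finset.univ.filter fun v => v ∈ U) \ {e}, x v else 0,
    fun t => ?_⟩, fun l => ?_⟩
  · unfold W
    rw [Finset.mul_sum, ← Finset.sum_add_distrib]
    refine Finset.sum_congr rfl fun U _ => ?_
    by_cases h : e ∈ U
    · rw [if_pos h, if_pos h, AFF_in e x t U h]
      ring
    · rw [if_neg h, if_neg h, AFF_out e x t U h]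
      ring
  · unfold W Ws
    rw [Finset.sum_filter, Finset.mul_sum, ← Finset.sum_add_distrib]
    refine Finset.sum_congr rfl fun U _ => ?_
    by_cases h : e ∈ U
    · rw [if_pos h, AFF_in e x (l * x e) U h, AFF_self e x U h]
      ring
    · rw [if_neg h, AFF_out e x (l * x e) U h]
      ring

end Pool.Agent.EQT
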