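import Pool.Agent.EQT.St

/-!
# EQT: the comparison [CC]

Proof of `St_CC` by induction on the dimension of `F`, see the docstring in `St.lean`.
-/

set_option autoImplicit false
set_option linter.unusedSectionVars false
set_option linter.unusedVariables false

namespace Pool.Agent.EQT

open Submodule Module

attribute [local instance] Classical.propDecidable Fintype.ofFinite

/-- the statement for `finrank F = k` -/
private def CC_P (δ : ℝ) (N k : ℕ) : Prop :=
  ∀ (V : Type) [AddCommGroup V] [Module F2 V] [Finite V] (m : Submodule F2 V → ℝ), Adm δ m →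
    finrank F2 V ≤ N → ∀ (F G : Submodule F2 V) (z : V → ℝ), IsCompl F G → Alw δ z →
    (∀ v, v ∉ G → z v = 1) → span F2 {v | z v ≠ 1} = G → finrank F2 F = k →
    0 ≤ W m (setv F 0 z) ∧ W m z ≤ W m (setv F 0 z) ∧
      - δ ^ 2 * W m (setv F 0 z) ≤ (1 - δ ^ 2) * W m z

section

variable {V : Type} [AddCommGroup V] [Module F2 V] [Finite V]

/-- elements of `F`, not zero, are not in `G` -/
private lemma CC_not_mem {F G : Submodule F2 V} (h : IsCompl F G) {v : V} (hv : v ∈ F)
    (h0 : v ≠ 0) : v ∉ G := by
  intro hG
  have := h.disjoint.le_bot (show v ∈ F ⊓ G from ⟨hv, hG⟩)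
  exact h0 ((Submodule.mem_bot F2).1 this)

/-- a hyperplane of `F` -/
private lemma CC_hyp (F : Submodule F2 V) (k : ℕ) (hk : finrank F2 F = k + 1) :
    ∃ F₁ : Submodule F2 V, F₁ ≤ F ∧ finrank F2 F₁ = k := by
  have hne : F ≠ ⊥ := by
    rintro rfl
    rw [finrank_bot] at hk
    omega
  obtain ⟨e, heF, he0⟩ := (Submodule.ne_bot_iff F).1 hne
  let e' : F := ⟨e, heF⟩
  have he' : e' ≠ 0 := by
    intro h
    exact he0 (congrArg Subtype.val h)
  obtain ⟨C, hC⟩ := Submodule.exists_isCompl (span F2 {e'})
  refine ⟨C.map F.subtype, ?_, ?_⟩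
  · exact Submodule.map_subtype_le F C
  · have h1 := Submodule.finrank_add_eq_of_isCompl hC
    rw [finrank_span_singleton he', hk] at h1
    rw [Submodule.finrank_map_subtype_eq]
    omega

/-- a line has two elements -/
private lemma CC_mem_ln {g x : V} : x ∈ ln g ↔ x = 0 ∨ x = g := by
  unfold ln
  rw [Submodule.mem_span_singleton]
  constructor
  · rintro ⟨a, rfl⟩
    fin_cases a
    · left
      exact zero_smul _ _
    · right
      exact one_smul _ _
  · rintro (h | h)
    · exact ⟨0, by rw [h, zero_smul]⟩
    · exact ⟨1, by rw [h, one_smul]⟩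

/-- hyperplane and line -/
private lemma CC_sup (F F₁ : Submodule F2 V) (g : V) (k : ℕ) (hle : F₁ ≤ F)
    (h1 : finrank F2 F₁ = k) (hF : finrank F2 F = k + 1) (hg : g ∈ F) (hg1 : g ∉ F₁) :
    F₁ ⊔ ln g = F := by
  have hle' : F₁ ⊔ ln g ≤ F := sup_le hle ((Submodule.span_singleton_le_iff_mem g F).2 hg)
  have hlt : F₁ < F₁ ⊔ ln g := by
    refine lt_of_le_of_ne le_sup_left ?_
    intro h
    apply hg1
    rw [h]
    exact (le_sup_right : ln g ≤ F₁ ⊔ ln g) (Submodule.mem_span_singleton_self g)
  have := Submodule.finrank_lt_finrank_of_lt hlt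
  exact Submodule.eq_of_le_of_finrank_le hle' (by omega)

/-- complement -/
private lemma CC_compl (F F₁ G : Submodule F2 V) (g : V) (k : ℕ) (h : IsCompl F G) (hle : F₁ ≤ F)
    (h1 : finrank F2 F₁ = k) (hF : finrank F2 F = k + 1) (hg : g ∈ F) (hg1 : g ∉ F₁) :
    IsCompl F₁ (G ⊔ ln g) := by
  refine ⟨?_, ?_⟩
  · rw [Submodule.disjoint_def]
    intro x hx hx'
    obtain ⟨c, hc, e, he, hce⟩ := Submodule.mem_sup.1 hx'
    have heF : e ∈ F := (Submodule.span_singleton_le_iff_mem g F).2 hg he
    have hcF : c ∈ F := by
      have : c = x - e := by rw [← hce]; abel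
      rw [this]
      exact F.sub_mem (hle hx) heF
    have hc0 : c = 0 := by
      by_contra hc0
      exact CC_not_mem h hcF hc0 hc
    have hxe : x = e := by rw [← hce, hc0, zero_add]
    rcases CC_mem_ln.1 he with h0 | h0
    · rw [hxe, h0]
    · exfalso
      apply hg1
      rw [← h0, ← hxe]
      exact hx
  · rw [codisjoint_iff]
    have h2 := CC_sup F F₁ g k hle h1 hF hg hg1
    have h3 : F₁ ⊔ (G ⊔ ln g) = (F₁ ⊔ ln g) ⊔ G := by
      rw [sup_assoc, sup_comm G (ln g)]
    rw [h3, h2]
    exact h.sup_eq_top

/-- [TB] for the values `0` on `F` -/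
private lemma CC_nonneg (δ κ : ℝ) (hp : Par δ κ) (N : ℕ) (hTB : ∀ n ≤ N, ∀ k, TB δ n k)
    (m : Submodule F2 V → ℝ) (hm : Adm δ m) (hN : finrank F2 V ≤ N) (F G : Submodule F2 V)
    (z : V → ℝ) (h : IsCompl F G) (hz : Alw δ z) (hz1 : ∀ v, v ∉ G → z v = 1)
    (hsp : span F2 {v | z v ≠ 1} = G) : 0 ≤ W m (setv F 0 z) := by
  have hq := hp.le
  refine hTB _ hN ({v | setv (F : Set V) 0 z v ≠ 1}.ncard) V m hm rfl (setv F 0 z) ?_ le_rfl ?_
  · refine ⟨?_, ?_⟩
    · unfold setv
      rw [if_neg (fun h => h.2 rfl)]
      exact hz.1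
    · intro v
      unfold setv
      split_ifs with hv
      · right
        constructor <;> linarith
      · exact hz.2 v
  · rw [eq_top_iff, ← h.sup_eq_top]
    refine sup_le ?_ ?_
    · intro f hf
      by_cases hf0 : f = 0
      · rw [hf0]
        exact Submodule.zero_mem _
      · apply Submodule.subset_span
        show setv (F : Set V) 0 z f ≠ 1
        unfold setv
        rw [if_pos ⟨hf, hf0⟩]
        exact zero_ne_one
    · rw [← hsp]
      apply Submodule.span_mono
      intro v hv
      show setv (F : Set V) 0 z v ≠ 1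
      have hv' : z v ≠ 1 := hv
      have hvG : v ∈ G := by
        by_contra hvG
        exact hv' (hz1 v hvG)
      unfold setv
      rw [if_neg]
      · exact hv'
      · rintro ⟨h1, h2⟩
        exact CC_not_mem h h1 h2 hvG

/-- `push` does not depend on the value at `g` -/
private lemma CC_push (g : V) (x x' : V → ℝ) (h : ∀ v, v ≠ g → x v = x' v) :
    push (ln g) x = push (ln g) x' := by
  funext w
  unfold push
  split_ifs with hw
  · rfl
  · apply Finset.prod_congr rfl
    intro v hv
    apply h
    rintro rfl
    apply hw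
    rw [← (Finset.mem_filter.1 hv).2]
    rw [Submodule.mkQ_apply, Submodule.Quotient.mk_eq_zero]
    exact Submodule.mem_span_singleton_self v

end

/-- the final inequalities -/
private lemma CC_num (δ κ : ℝ) (hp : Par δ κ) (n : ℝ) (a u0 u1 A S : ℝ) (hn : 1 ≤ n)
    (hA : 0 ≤ A) (ha : a = u0 + 1 / δ * A) (h1 : n * u1 + δ * S ≤ n * u0 + δ * A)
    (h2 : - δ ^ 2 * (n * u0 + δ * A) ≤ (1 - δ ^ 2) * (n * u1 + δ * S)) (h3 : S ≤ A)
    (h4 : - δ ^ 2 * A ≤ (1 - δ ^ 2) * S) (h5 : S = A ∨ 2 ≤ n) :
    u1 ≤ a ∧ - δ ^ 2 * a ≤ (1 - δ ^ 2) * u1 := by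
  have hδ := hp.pos
  have hq := hp.le
  have hq0 : 0 < δ ^ 2 := by positivity
  have hn0 : 0 < n := by linarith
  constructor
  · have h6 : δ * (A - S) ≤ n * (1 / δ * A) := by
      have h7 : δ ^ 2 * (A - S) ≤ n * A := by
        rcases h5 with h5 | h5
        · rw [h5]
          have : 0 ≤ n * A := mul_nonneg hn0.le hA
          linarith
        · have h8 : (A - S) * (1 - δ ^ 2) ≤ A := by nlinarith
          have h9 : δ ^ 2 * (A - S) ≤ 2 * A := by
            have h10 : 0 ≤ A - S := by linarith
            have h11 : δ ^ 2 ≤ 2 * (1 - δ ^ 2) := by linarith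
            calc δ ^ 2 * (A - S) ≤ 2 * (1 - δ ^ 2) * (A - S) :=
                  mul_le_mul_of_nonneg_right h11 h10
              _ = 2 * ((A - S) * (1 - δ ^ 2)) := by ring
              _ ≤ 2 * A := by linarith
          have h12 : 2 * A ≤ n * A := mul_le_mul_of_nonneg_right h5 hA
          linarith
      have h8 : n * (1 / δ * A) = (n * A) / δ := by
        field_simp
      rw [h8, le_div_iff₀ hδ]
      calc δ * (A - S) * δ = δ ^ 2 * (A - S) := by ring
        _ ≤ n * A := h7
    have h7 : n * u1 ≤ n * a := by
      rw [ha]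
      nlinarith
    exact le_of_mul_le_mul_left h7 hn0
  · have h6 : n * (- δ ^ 2 * a) ≤ n * ((1 - δ ^ 2) * u1) := by
      have h7 : n * (- δ ^ 2 * a) = - δ ^ 2 * n * u0 - n * δ * A := by
        rw [ha]
        field_simp
        ring
      rw [h7]
      have h8 : (1 - δ ^ 2) * δ * S ≤ (1 - δ ^ 2) * δ * A :=
        mul_le_mul_of_nonneg_left h3 (mul_nonneg (by linarith) hδ.le)
      have h9 : δ * A ≤ n * (δ * A) := by
        have : 0 ≤ δ * A := mul_nonneg hδ.le hA
        nlinarith
      nlinarith
    exact le_of_mul_le_mul_left h6 hn0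

/-- [CC] -/
theorem thm_CC (hADQ : St_ADQ) (hDC : St_DC) (hE2 : St_E2) (hPSF : St_PSF) : St_CC := by
  intro δ κ hp N hTB
  have key : ∀ k, CC_P δ N k := by
    intro k
    induction k with
    | zero =>
      intro V _ _ _ m hm hN F G z h hz hz1 hsp hk
      have ha := CC_nonneg δ κ hp N hTB m hm hN F G z h hz hz1 hsp
      have hF : F = ⊥ := Submodule.finrank_eq_zero.1 hk
      have hs : setv (F : Set V) 0 z = z := by
        funext v
        unfold setv
        rw [if_neg]
        rintro ⟨h1, h2⟩
        rw [hF] at h1
        exact h2 ((Submodule.mem_bot F2).1 h1)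
      rw [hs] at ha ⊢
      refine ⟨ha, le_rfl, ?_⟩
      have : 0 < δ ^ 2 := by have := hp.pos; positivity
      nlinarith
    | succ k ih =>
      intro V _ _ _ m hm hN F G z h hz hz1 hsp hk
      have hδ := hp.pos
      have hq := hp.le
      have hq0 : 0 < δ ^ 2 := by positivity
      have ha := CC_nonneg δ κ hp N hTB m hm hN F G z h hz hz1 hsp
      obtain ⟨F₁, hle, hF1⟩ := CC_hyp F k hk
      have hF1' : finrank F2 F₁ + 1 = finrank F2 F := by omega
      -- the set of the `g`
      let T : Finset V := Finset.univ.filter (fun g => g ∈ F ∧ g ∉ F₁)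
      have hT : ∀ g, g ∈ T ↔ g ∈ F ∧ g ∉ F₁ := fun g => by
        simp only [T, Finset.mem_filter, Finset.mem_univ, true_and]
      have hne : ∃ g, g ∈ T := by
        by_contra hcon
        push Not at hcon
        have hFF : F ≤ F₁ := by
          intro g hg
          by_contra hg1
          exact hcon g ((hT g).2 ⟨hg, hg1⟩)
        have := Submodule.finrank_mono hFF
        omega
      -- values
      let aa : V → ℝ := fun g => W (quo δ m (ln g)) (setv ((F.map (ln g).mkQ : Submodule F2 _) : Set _) 0 (push (ln g) z))
      let ww : V → ℝ := fun g => W (quo δ m (ln g)) (push (ln g) z)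
      set u0 := W m (setv F₁ 0 z) with hu0
      have hzF : ∀ v ∈ F, v ≠ 0 → z v = 1 := fun v hv hv0 => hz1 v (CC_not_mem h hv hv0)
      -- the facts for each `g`
      have hg0 : ∀ g ∈ T, g ≠ 0 := by
        intro g hg hg0
        apply ((hT g).1 hg).2
        rw [hg0]
        exact F₁.zero_mem
      have hpush1 : ∀ g ∈ T, push (ln g) (setv F 0 z) =
          setv ((F.map (ln g).mkQ : Submodule F2 _) : Set _) 0 (push (ln g) z) := by
        intro g hg
        obtain ⟨-, -, -, -, h5, -⟩ := hPSF V F G g h ((hT g).1 hg).1 (hg0 g hg)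
        have := (h5 z hz.1 hz1).2.2.1 0
        rw [this]
        norm_num
      have hpush2 : ∀ g ∈ T, push (ln g) (setv F₁ 0 z) =
          setv ((F.map (ln g).mkQ : Submodule F2 _) : Set _) 0 (push (ln g) z) := by
        intro g hg
        obtain ⟨-, -, -, -, h5, -⟩ := hPSF V F G g h ((hT g).1 hg).1 (hg0 g hg)
        exact (h5 z hz.1 hz1).2.2.2 F₁ hle hF1' ((hT g).1 hg).2 0
      -- quotient
      have hquo : ∀ g ∈ T, 0 ≤ aa g ∧ ww g ≤ aa g ∧ - δ ^ 2 * aa g ≤ (1 - δ ^ 2) * ww g := by
        intro g hg
        obtain ⟨h1, h2, h3, h4, h5, -⟩ := hPSF V F G g h ((hT g).1 hg).1 (hg0 g hg)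
        obtain ⟨h51, h52, -, -⟩ := h5 z hz.1 hz1
        refine ih (V ⧸ ln g) (quo δ m (ln g)) (hADQ V δ m (ln g) hm) (by omega)
          (F.map (ln g).mkQ) (G.map (ln g).mkQ) (push (ln g) z) h1 ?_ h52 ?_ (by omega)
        · refine ⟨?_, ?_⟩
          · unfold push
            rw [if_pos rfl]
          · intro w
            by_cases hw : w ∈ G.map (ln g).mkQ
            · obtain ⟨c, hc, rfl⟩ := hw
              rw [h51 c hc]
              exact hz.2 c
            · left
              exact h52 w hw
        · have hset : {w | push (ln g) z w ≠ 1} = (ln g).mkQ '' {v | z v ≠ 1} := by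
            ext w
            constructor
            · intro hw
              have hw' : push (ln g) z w ≠ 1 := hw
              have hwG : w ∈ G.map (ln g).mkQ := by
                by_contra hwG
                exact hw' (h52 w hwG)
              obtain ⟨c, hc, rfl⟩ := hwG
              refine ⟨c, ?_, rfl⟩
              rw [h51 c hc] at hw'
              exact hw'
            · rintro ⟨c, hc, rfl⟩
              have hc' : z c ≠ 1 := hc
              have hcG : c ∈ G := by
                by_contra hcG
                exact hc' (hz1 c hcG)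
              show push (ln g) z ((ln g).mkQ c) ≠ 1
              rw [h51 c hcG]
              exact hc'
          rw [hset, ← Submodule.map_span, hsp]
      -- E2
      have hsum : W m (setv F 0 z) = u0 + 1 / δ * ∑ g ∈ T, aa g := by
        rw [hE2 V δ m F₁ F z hδ.ne' hle hF1' hz.1]
        have hz' : setv {v | v ∈ F ∧ v ∉ F₁} 1 z = z := by
          funext v
          unfold setv
          split_ifs with hv
          · exact (hzF v hv.1.1 hv.2).symm
          · rfl
        rw [hz']
        congr 2
        apply Finset.sum_congr rfl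
        intro g hg
        rw [hpush1 g hg]
      -- the modified function
      have hmod : ∀ g ∈ T, W m z + δ * ww g ≤ u0 + δ * aa g ∧
          - δ ^ 2 * (u0 + δ * aa g) ≤ (1 - δ ^ 2) * (W m z + δ * ww g) := by
        intro g hg
        have hgF := ((hT g).1 hg).1
        have hgF1 := ((hT g).1 hg).2
        have hgz : z g = 1 := hzF g hgF (hg0 g hg)
        set y : V → ℝ := Function.update z g (1 - δ ^ 2) with hy
        have hyg : y g = 1 - δ ^ 2 := by rw [hy, Function.update_self]
        have hyv : ∀ v, v ≠ g → y v = z v := fun v hv => by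
          rw [hy, Function.update_of_ne hv]
        have hy0 : y 0 = 1 := by
          rw [hyv 0 (hg0 g hg).symm]
          exact hz.1
        have hsg : setv (F₁ : Set V) 0 y g = 1 - δ ^ 2 := by
          unfold setv
          rw [if_neg (fun h => hgF1 h.1), hyg]
        have hs0 : setv (F₁ : Set V) 0 y 0 = 1 := by
          unfold setv
          rw [if_neg (fun h => h.2 rfl), hy0]
        have hcoef : (1 - (1 - δ ^ 2)) / δ = δ := by
          field_simp
          ring
        -- first evaluation
        have e1 : W m (setv F₁ 0 y) = u0 + δ * aa g := by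
          rw [hDC V δ m g (setv F₁ 0 y) hδ.ne' (hg0 g hg) hs0, hsg, hcoef]
          have e11 : Function.update (setv (F₁ : Set V) 0 y) g 1 = setv F₁ 0 z := by
            funext v
            by_cases hv : v = g
            · rw [hv, Function.update_self]
              unfold setv
              rw [if_neg (fun h => hgF1 h.1), hgz]
            · rw [Function.update_of_ne hv]
              unfold setv
              rw [hyv v hv]
          have e12 : push (ln g) (setv (F₁ : Set V) 0 y) = push (ln g) (setv F₁ 0 z) := by
            apply CC_push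
            intro v hv
            unfold setv
            rw [hyv v hv]
          rw [e11, e12, hpush2 g hg]
        have e2 : W m y = W m z + δ * ww g := by
          rw [hDC V δ m g y hδ.ne' (hg0 g hg) hy0, hyg, hcoef]
          have e21 : Function.update y g 1 = z := by
            funext v
            by_cases hv : v = g
            · rw [hv, Function.update_self, hgz]
            · rw [Function.update_of_ne hv, hyv v hv]
          have e22 : push (ln g) y = push (ln g) z := CC_push g y z hyv
          rw [e21, e22]
        have hIH := ih V m hm hN F₁ (G ⊔ ln g) y (CC_compl F F₁ G g k h hle hF1 hk hgF hgF1)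
          ?_ ?_ ?_ hF1
        · rw [e1, e2] at hIH
          exact hIH.2
        · refine ⟨hy0, ?_⟩
          intro v
          by_cases hv : v = g
          · right
            rw [hv, hyg]
            constructor <;> linarith
          · rw [hyv v hv]
            exact hz.2 v
        · intro v hv
          have hvg : v ≠ g := by
            rintro rfl
            exact hv ((le_sup_right : ln v ≤ G ⊔ ln v) (Submodule.mem_span_singleton_self v))
          rw [hyv v hvg]
          apply hz1
          intro hvG
          exact hv ((le_sup_left : G ≤ G ⊔ ln g) hvG)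
        · have hset : {v | y v ≠ 1} = {v | z v ≠ 1} ∪ {g} := by
            ext v
            simp only [Set.mem_ofPred_eq, Set.mem_union, Set.mem_singleton_iff]
            by_cases hv : v = g
            · rw [hv, hyg]
              constructor
              · intro _
                right
                rfl
              · intro _ h1
                linarith
            · rw [hyv v hv]
              constructor
              · intro h1
                left
                exact h1
              · rintro (h1 | h1)
                · exact h1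
                · exact absurd h1 hv
          rw [hset, Submodule.span_union, hsp]
      -- sums
      have hcard : (T.card : ℝ) = ∑ g ∈ T, (1 : ℝ) := by simp
      have hs1 : (T.card : ℝ) * W m z + δ * ∑ g ∈ T, ww g ≤
          (T.card : ℝ) * u0 + δ * ∑ g ∈ T, aa g := by
        have := Finset.sum_le_sum (fun g hg => (hmod g hg).1)
        rw [Finset.sum_add_distrib, Finset.sum_add_distrib, Finset.sum_const, Finset.sum_const,
          ← Finset.mul_sum, ← Finset.mul_sum, nsmul_eq_mul, nsmul_eq_mul] at this
        exact this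
      have hs2 : - δ ^ 2 * ((T.card : ℝ) * u0 + δ * ∑ g ∈ T, aa g) ≤
          (1 - δ ^ 2) * ((T.card : ℝ) * W m z + δ * ∑ g ∈ T, ww g) := by
        have := Finset.sum_le_sum (fun g hg => (hmod g hg).2)
        rw [← Finset.mul_sum, ← Finset.mul_sum, Finset.sum_add_distrib, Finset.sum_add_distrib,
          Finset.sum_const, Finset.sum_const,
          ← Finset.mul_sum, ← Finset.mul_sum, nsmul_eq_mul, nsmul_eq_mul] at this
        exact this
      have hs3 : ∑ g ∈ T, ww g ≤ ∑ g ∈ T, aa g := Finset.sum_le_sum (fun g hg => (hquo g hg).2.1)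
      have hs4 : - δ ^ 2 * ∑ g ∈ T, aa g ≤ (1 - δ ^ 2) * ∑ g ∈ T, ww g := by
        rw [Finset.mul_sum, Finset.mul_sum]
        exact Finset.sum_le_sum (fun g hg => (hquo g hg).2.2)
      have hs0 : 0 ≤ ∑ g ∈ T, aa g := Finset.sum_nonneg (fun g hg => (hquo g hg).1)
      have hn1 : (1 : ℝ) ≤ (T.card : ℝ) := by
        obtain ⟨g, hg⟩ := hne
        exact_mod_cast Finset.card_pos.2 ⟨g, hg⟩
      have hs5 : ∑ g ∈ T, ww g = ∑ g ∈ T, aa g ∨ (2 : ℝ) ≤ (T.card : ℝ) := by
        rcases Nat.eq_zero_or_pos k with hk0 | hk0
        · left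
          apply Finset.sum_congr rfl
          intro g hg
          obtain ⟨-, h2, -, -, -, -⟩ := hPSF V F G g h ((hT g).1 hg).1 (hg0 g hg)
          have hbot : F.map (ln g).mkQ = ⊥ := by
            apply Submodule.finrank_eq_zero.1
            omega
          show W (quo δ m (ln g)) (push (ln g) z) = W (quo δ m (ln g)) (setv ((F.map (ln g).mkQ : Submodule F2 _) : Set _) 0 (push (ln g) z))
          congr 1
          funext w
          unfold setv
          rw [if_neg]
          rintro ⟨hw1, hw2⟩
          rw [hbot] at hw1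
          exact hw2 ((Submodule.mem_bot F2).1 hw1)
        · right
          have hF1ne : F₁ ≠ ⊥ := by
            intro hb
            rw [hb, finrank_bot] at hF1
            omega
          obtain ⟨f, hf, hf0⟩ := (Submodule.ne_bot_iff F₁).1 hF1ne
          obtain ⟨g, hg⟩ := hne
          have hgf : g + f ∈ T := by
            rw [hT]
            refine ⟨F.add_mem ((hT g).1 hg).1 (hle hf), ?_⟩
            intro hgf
            apply ((hT g).1 hg).2
            have := F₁.sub_mem hgf hf
            rwa [add_sub_cancel_right] at this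
          have h2 : 1 < T.card := Finset.one_lt_card.2 ⟨g, hg, g + f, hgf, by
            intro h3
            apply hf0
            exact (left_eq_add.1 h3)⟩
          exact_mod_cast h2
      obtain ⟨hr1, hr2⟩ := CC_num δ κ hp (T.card : ℝ) (W m (setv F 0 z)) u0 (W m z)
        (∑ g ∈ T, aa g) (∑ g ∈ T, ww g) hn1 hs0 hsum hs1 hs2 hs3 hs4 hs5
      exact ⟨ha, hr1, hr2⟩
  intro V _ _ _ m hm hN F G z h hz hz1 hsp
  exact key (finrank F2 F) V m hm hN F G z h hz hz1 hsp rfl

end Pool.Agent.EQT
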