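import Pool.Agent.EQT.St

/-!
# EQT [CNE]: Theorem A, the case with a full coset (helper91)
-/

set_option autoImplicit false
set_option linter.unusedSectionVars false
set_option linter.unusedVariables false

namespace Pool.Agent.EQT

open Submodule Module

attribute [local instance] Classical.propDecidable Fintype.ofFinite

section

variable {V : Type} [AddCommGroup V] [Module F2 V] [Finite V]

private theorem CNE_mem_ln {g v : V} : v ∈ ln g ↔ v = 0 ∨ v = g := by
  rw [mem_span_singleton]
  constructor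
  · rintro ⟨a, rfl⟩
    have h : ∀ a : ZMod 2, a = 0 ∨ a = 1 := by decide
    rcases h a with h | h
    · left
      rw [h, zero_smul]
    · right
      rw [h, one_smul]
  · rintro (rfl | rfl)
    · exact ⟨0, zero_smul _ _⟩
    · exact ⟨1, one_smul _ _⟩

private theorem CNE_push {g v : V} (hg : g ≠ 0) (hv : v ∉ ln g) (z : V → ℝ) :
    push (ln g) z ((ln g).mkQ v) = z v * z (v + g) := by
  unfold push
  have h0 : (ln g).mkQ v ≠ 0 := by
    rw [mkQ_apply, Ne, Submodule.Quotient.mk_eq_zero]
    exact hv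
  rw [if_neg h0]
  have h1 : (Finset.univ.filter (fun v' => (ln g).mkQ v' = (ln g).mkQ v)) = {v, v + g} := by
    ext v'
    rw [Finset.mem_filter, Finset.mem_insert, Finset.mem_singleton, mkQ_apply, mkQ_apply,
      Submodule.Quotient.eq, CNE_mem_ln]
    constructor
    · rintro ⟨-, h | h⟩
      · left
        exact sub_eq_zero.1 h
      · right
        rw [← h]
        abel
    · rintro (rfl | rfl)
      · exact ⟨Finset.mem_univ _, Or.inl (sub_self _)⟩
      · refine ⟨Finset.mem_univ _, Or.inr ?_⟩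
        abel
  rw [h1, Finset.prod_pair]
  intro h
  exact hg (left_eq_add.1 h)

private theorem CNE_hyp (F : Submodule F2 V) (hF : 1 ≤ finrank F2 F) :
    ∃ F₁ ≤ F, finrank F2 F₁ + 1 = finrank F2 F := by
  have h0 : F ≠ ⊥ := by
    rintro rfl
    rw [finrank_bot] at hF
    omega
  obtain ⟨f, hf, hf0⟩ := Submodule.exists_mem_ne_zero_of_ne_bot h0
  obtain ⟨C, hC⟩ := Submodule.exists_isCompl (ln f)
  have hle : ln f ≤ F := by
    rw [span_singleton_le_iff_mem]
    exact hf
  refine ⟨C ⊓ F, inf_le_right, ?_⟩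
  have h1 : ln f ⊔ (C ⊓ F) = F := by
    rw [← sup_inf_assoc_of_le C hle, hC.sup_eq_top, top_inf_eq]
  have h2 := Submodule.finrank_sup_add_finrank_inf_eq (ln f) (C ⊓ F)
  have h3 : ln f ⊓ (C ⊓ F) = ⊥ := by
    rw [← inf_assoc, hC.inf_eq_bot, bot_inf_eq]
  rw [h1, h3, finrank_bot, finrank_span_singleton hf0] at h2
  omega

private theorem CNE_other (F : Submodule F2 V) (hF : 2 ≤ finrank F2 F) (f : V) (hf : f ∈ F) :
    ∃ f' ∈ F, f' ≠ 0 ∧ f' ≠ f := by
  by_contra hn
  push Not at hn
  have h1 : F ≤ ln f := by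
    intro v hv
    rw [CNE_mem_ln]
    by_cases h0 : v = 0
    · exact Or.inl h0
    · exact Or.inr (hn v hv h0)
  have h2 := Submodule.finrank_mono h1
  have h3 : finrank F2 (ln f) ≤ 1 := by
    by_cases h0 : f = 0
    · have h4 : ln f = ⊥ := by
        rw [h0]
        exact span_zero_singleton F2
      rw [h4, finrank_bot]
      exact Nat.zero_le _
    · rw [finrank_span_singleton h0]
  omega

end

theorem thm_CNE (hE1 : St_E1) (hE2 : St_E2) (hADQ : St_ADQ) : St_CNE := by
  intro δ κ hp V _ _ _ m hm n k hn hTB hTA F G P hP0 hPk hPs hFG hF2 hFP hC hZ hc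
  obtain ⟨c₀, hc₀G, hc₀0, hc₀⟩ := hc
  obtain ⟨F₁, hF₁, hF₁r⟩ := CNE_hyp F (by omega)
  have hFG0 : ∀ v, v ∈ F → v ∈ G → v = 0 := by
    intro v h1 h2
    have h3 : v ∈ F ⊓ G := ⟨h1, h2⟩
    rw [hFG.inf_eq_bot] at h3
    exact (Submodule.mem_bot F2).1 h3
  have hcF : ∀ c ∈ G, c ≠ 0 → ∀ f ∈ F, c + f ∉ F := by
    intro c hc hc0 f hf h
    exact hc0 (hFG0 c ((Submodule.add_mem_iff_left F hf).1 h) hc)
  set x : V → ℝ := chi P with hx
  have hx0 : x 0 = 1 := if_neg hP0
  set D : Set V := {v | v ∈ F ∧ v ∉ F₁} with hD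
  set x' : V → ℝ := setv D 1 x with hx'
  set Q : Set V := {v | v ∈ P ∧ v ∉ D} with hQ
  have hDne : ∀ v ∈ D, v ≠ 0 := by
    rintro v ⟨h1, h2⟩ rfl
    exact h2 F₁.zero_mem
  -- a vector of `F` outside of `F₁`
  obtain ⟨g₀, hg₀⟩ : ∃ g, g ∈ D := by
    by_contra hno
    push Not at hno
    have h1 : F ≤ F₁ := by
      intro v hv
      by_contra hv1
      exact hno v ⟨hv, hv1⟩
    have h2 := Submodule.finrank_mono h1
    omega
  have hQP : Q ⊆ P := fun v hv => hv.1
  have hQ0 : (0 : V) ∉ Q := fun h => hP0 h.1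
  have hQk : Q.ncard ≤ k := by
    have h1 : Q.ncard < P.ncard := by
      refine Set.ncard_lt_ncard ⟨hQP, fun h => ?_⟩ (Set.toFinite P)
      exact (h (hFP g₀ hg₀.1 (hDne g₀ hg₀))).2 hg₀
    omega
  have hcQ : ∀ f ∈ F, f ≠ 0 → c₀ + f ∈ Q := by
    intro f hf hf0
    exact ⟨hc₀ f hf hf0, fun h => hcF c₀ hc₀G hc₀0 f hf h.1⟩
  have hFQ : F ≤ span F2 Q := by
    intro f hf
    by_cases hf0 : f = 0
    · rw [hf0]
      exact Submodule.zero_mem _
    obtain ⟨f', hf', hf'0, hf'f⟩ := CNE_other F hF2 f hf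
    have h1 : f + f' ≠ 0 := by
      intro h
      apply hf'f
      have h2 : f' = -f := by
        rw [eq_neg_iff_add_eq_zero, add_comm]
        exact h
      rw [h2, ZModModule.neg_eq_self]
    have h2 := Submodule.add_mem (span F2 Q) (subset_span (hcQ f' hf' hf'0))
      (subset_span (hcQ (f + f') (F.add_mem hf hf') h1))
    have h3 : c₀ + f' + (c₀ + (f + f')) = f := by
      have e1 : c₀ + f' + (c₀ + (f + f')) = (c₀ + c₀) + (f' + f') + f := by abel
      rw [e1, ZModModule.add_self, ZModModule.add_self, zero_add, zero_add]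
    rw [h3] at h2
    exact h2
  have hQs : span F2 Q = ⊤ := by
    rw [eq_top_iff, ← hPs, span_le]
    intro p hp'
    by_cases h : p ∈ D
    · exact hFQ h.1
    · exact subset_span ⟨hp', h⟩
  have hA : κ ^ (n + 1) ≤ W m (chi Q) := hTA V m hm hn Q hQk hQ0 hQs
  -- the identities
  have e1 : setv (F : Set V) (-1) x = chi P := by
    funext v
    unfold setv
    by_cases h : v ∈ (F : Set V) ∧ v ≠ 0
    · rw [if_pos h]
      exact (if_pos (hFP v h.1 h.2)).symm
    · rw [if_neg h]
  have e2 : setv (F₁ : Set V) (-1) x' = chi Q := by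
    funext v
    rw [hx']
    unfold setv
    by_cases h : v ∈ (F₁ : Set V) ∧ v ≠ 0
    · rw [if_pos h]
      refine (if_pos ?_).symm
      exact ⟨hFP v (hF₁ h.1) h.2, fun h' => h'.2 h.1⟩
    · rw [if_neg h]
      by_cases h' : v ∈ D
      · rw [if_pos ⟨h', hDne v h'⟩]
        exact (if_neg (fun h2 : v ∈ Q => h2.2 h')).symm
      · rw [if_neg (fun h2 => h' h2.1), hx]
        unfold chi
        by_cases h3 : v ∈ P
        · rw [if_pos h3, if_pos (show v ∈ Q from ⟨h3, h'⟩)]
        · rw [if_neg h3, if_neg (fun h4 : v ∈ Q => h3 h4.1)]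
  have e3 : setv (F₁ : Set V) 1 x' = setv (F : Set V) 1 x := by
    funext v
    rw [hx']
    unfold setv
    by_cases h : v ∈ (F₁ : Set V) ∧ v ≠ 0
    · rw [if_pos h, if_pos (⟨hF₁ h.1, h.2⟩ : v ∈ (F : Set V) ∧ v ≠ 0)]
    · rw [if_neg h]
      by_cases h' : v ∈ D
      · rw [if_pos ⟨h', hDne v h'⟩, if_pos (⟨h'.1, hDne v h'⟩ : v ∈ (F : Set V) ∧ v ≠ 0)]
      · rw [if_neg (fun h2 => h' h2.1)]
        rw [if_neg (fun h2 : v ∈ (F : Set V) ∧ v ≠ 0 => ?_)]
        by_cases h3 : v ∈ F₁
        · exact h ⟨h3, h2.2⟩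
        · exact h' ⟨h2.1, h3⟩
  have i1 := hE1 V m F x
  have i2 := hE1 V m F₁ x'
  have i3 := hE2 V δ m F₁ F x hp.pos.ne' hF₁ hF₁r hx0
  rw [e1] at i1
  rw [e2, e3] at i2
  -- the terms of the sum
  have hpos : ∀ g ∈ D, 0 ≤ W (quo δ m (ln g)) (push (ln g) (setv (F : Set V) 0 x)) := by
    intro g hg
    have hg0 := hDne g hg
    have hgF : g ∈ F := hg.1
    have hFln : ln g ≤ F := by
      rw [span_singleton_le_iff_mem]
      exact hgF
    set y := push (ln g) (setv (F : Set V) 0 x) with hy
    have hz0 : ∀ v ∈ F, v ≠ 0 → setv (F : Set V) 0 x v = 0 := fun v h1 h2 => if_pos ⟨h1, h2⟩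
    have hz1 : ∀ v, v ∉ F → setv (F : Set V) 0 x v = x v := fun v h1 => if_neg fun h => h1 h.1
    have hxP : ∀ v ∈ P, x v = -1 := fun v h => if_pos h
    have hxN : ∀ v, v ∉ P → x v = 1 := fun v h => if_neg h
    have hyF : ∀ h ∈ F, h ∉ ln g → y ((ln g).mkQ h) = 0 := by
      intro h hh hg1
      rw [hy, CNE_push hg0 hg1, hz0 h hh, zero_mul]
      rintro rfl
      exact hg1 (Submodule.zero_mem _)
    have hmk : ∀ v, (ln g).mkQ (v + g) = (ln g).mkQ v := by
      intro v
      rw [map_add, mkQ_apply _ g, (Submodule.Quotient.mk_eq_zero _).2 (mem_span_singleton_self g),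
        add_zero]
    have hyc : ∀ c ∈ G, c ≠ 0 → y ((ln g).mkQ c) = x c * x (c + g) := by
      intro c hc hc0
      have h1 : c ∉ F := by
        have h2 := hcF c hc hc0 0 F.zero_mem
        rwa [add_zero] at h2
      rw [hy, CNE_push hg0 (fun h => h1 (hFln h)), hz1 c h1, hz1 (c + g) (hcF c hc hc0 g hgF)]
    have hyZ : ∀ c ∈ G, c ≠ 0 → ¬ ((∀ f ∈ F, f ≠ 0 → c + f ∈ P) ↔ c ∈ P) →
        y ((ln g).mkQ c) = -1 := by
      intro c hc hc0 hne
      rw [hyc c hc hc0]
      rcases hC c hc with h | h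
      · have h1 : c ∉ P := fun h1 => hne ⟨fun _ => h1, fun _ => h⟩
        rw [hxN c h1, hxP _ (h g hgF hg0), one_mul]
      · have h1 : c ∈ P := by
          by_contra h1
          exact hne ⟨fun h2 => absurd (h2 g hgF hg0) (h g hgF hg0), fun h2 => absurd h2 h1⟩
        rw [hxP c h1, hxN _ (h g hgF hg0), mul_one]
    have hall : ∀ w, y w = 1 ∨ y w = -1 ∨ y w = 0 := by
      intro w
      by_cases hw0 : w = 0
      · left
        rw [hw0, hy]
        exact if_pos rfl
      obtain ⟨v, rfl⟩ := mkQ_surjective (ln g) w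
      have hvg : v ∉ ln g := by
        intro h
        apply hw0
        rw [mkQ_apply]
        exact (Submodule.Quotient.mk_eq_zero _).2 h
      have htop : v ∈ F ⊔ G := by
        rw [hFG.sup_eq_top]
        trivial
      obtain ⟨h, hh, c, hc, rfl⟩ := Submodule.mem_sup.1 htop
      by_cases hc0 : c = 0
      · right
        right
        rw [hc0, add_zero] at hvg ⊢
        exact hyF h hh hvg
      · by_cases hhg : h ∈ ln g
        · rcases CNE_mem_ln.1 hhg with rfl | rfl
          · rw [zero_add]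
            rw [hyc c hc hc0]
            unfold x
            unfold chi
            split_ifs <;> norm_num
          · rw [add_comm h c, hmk c, hyc c hc hc0]
            unfold x
            unfold chi
            split_ifs <;> norm_num
        · left
          have h1 : h + c ∉ F := by
            rw [add_comm]
            exact hcF c hc hc0 h hh
          have h2 : h + c + g ∉ F := by
            have e : h + c + g = c + (h + g) := by abel
            rw [e]
            exact hcF c hc hc0 (h + g) (F.add_mem hh hgF)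
          rw [hy, CNE_push hg0 hvg, hz1 _ h1, hz1 _ h2]
          have hh0 : h ≠ 0 := by
            rintro rfl
            exact hhg (Submodule.zero_mem _)
          have hhg0 : h + g ≠ 0 := by
            intro h3
            apply hhg
            rw [CNE_mem_ln]
            right
            have h4 : h = -g := eq_neg_of_add_eq_zero_left h3
            rw [h4, ZModModule.neg_eq_self]
          have e : h + c = c + h := add_comm _ _
          have e' : h + c + g = c + (h + g) := by abel
          rw [e', e]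
          rcases hC c hc with h3 | h3
          · rw [hxP _ (h3 h hh hh0), hxP _ (h3 (h + g) (F.add_mem hh hgF) hhg0)]
            norm_num
          · rw [hxN _ (h3 h hh hh0), hxN _ (h3 (h + g) (F.add_mem hh hgF) hhg0), one_mul]
    refine hTB _ (V ⧸ ln g) (quo δ m (ln g)) (hADQ V δ m (ln g) hm) ?_ y ⟨?_, ?_⟩ le_rfl ?_
    · have h1 := Submodule.finrank_quotient_add_finrank (ln g)
      rw [finrank_span_singleton hg0] at h1
      omega
    · rw [hy]
      exact if_pos rfl
    · intro w
      have hle := hp.le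
      rcases hall w with h | h | h
      · exact Or.inl h
      · right
        rw [h]
        constructor <;> linarith
      · right
        rw [h]
        constructor <;> linarith
    · have hG' : ∀ c ∈ G, (ln g).mkQ c ∈ span F2 {w | y w ≠ 1} := by
        have h1 : G ≤ (span F2 {w | y w ≠ 1}).comap (ln g).mkQ := by
          rw [← hZ, span_le]
          rintro c ⟨hc, hc0, hne⟩
          refine subset_span ?_
          show y ((ln g).mkQ c) ≠ 1
          rw [hyZ c hc hc0 hne]
          norm_num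
        exact fun c hc => h1 hc
      rw [eq_top_iff]
      rintro w -
      obtain ⟨v, rfl⟩ := mkQ_surjective (ln g) w
      have htop : v ∈ F ⊔ G := by
        rw [hFG.sup_eq_top]
        trivial
      obtain ⟨h, hh, c, hc, rfl⟩ := Submodule.mem_sup.1 htop
      rw [map_add]
      refine Submodule.add_mem _ ?_ (hG' c hc)
      by_cases hhg : h ∈ ln g
      · have h1 : (ln g).mkQ h = 0 := by
          rw [mkQ_apply]
          exact (Submodule.Quotient.mk_eq_zero _).2 hhg
        rw [h1]
        exact Submodule.zero_mem _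
      · refine subset_span ?_
        show y ((ln g).mkQ h) ≠ 1
        rw [hyF h hh hhg]
        norm_num
  have hsum : 0 ≤ ∑ g with g ∈ F ∧ g ∉ F₁,
      W (quo δ m (ln g)) (push (ln g) (setv (F : Set V) 0 x)) := by
    refine Finset.sum_nonneg fun g hg => hpos g ?_
    exact (Finset.mem_filter.1 hg).2
  have hδ : 0 ≤ 1 / δ := by
    have := hp.pos
    positivity
  have h5 := mul_nonneg hδ hsum
  linarith

end Pool.Agent.EQT
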