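import Pool.Agent.EQT.St

/-!
# EQT: [COA], Theorem A, the case of a coloop
-/

set_option autoImplicit false
set_option linter.unusedSectionVars false
set_option linter.unusedVariables false

namespace Pool.Agent.EQT

open Submodule Module

attribute [local instance] Classical.propDecidable Fintype.ofFinite

section

variable {V : Type} [AddCommGroup V] [Module F2 V] [Finite V]

private theorem COA_push_update (g : V) (x : V → ℝ) (t : ℝ) :
    push (ln g) (Function.update x g t) = push (ln g) x := by
  funext w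
  unfold push
  split_ifs with hw
  · rfl
  · refine Finset.prod_congr rfl (fun v hv => ?_)
    rw [Function.update_of_ne]
    rintro rfl
    apply hw
    rw [← (Finset.mem_filter.1 hv).2]
    simp

private theorem COA_hyp (g : V) (H : Submodule F2 V) (hH : H ≠ ⊤) (hg : H ⊔ ln g = ⊤) :
    g ∉ H ∧ finrank F2 H + 1 = finrank F2 V := by
  have hgH : g ∉ H := by
    intro h
    apply hH
    rw [← hg]
    symm
    rw [sup_eq_left, span_singleton_le_iff_mem]
    exact h
  refine ⟨hgH, ?_⟩
  have hg0 : g ≠ 0 := fun h => hgH (h ▸ H.zero_mem)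
  have h1 := Submodule.finrank_sup_add_finrank_inf_eq H (ln g)
  have h2 : H ⊓ ln g = ⊥ := by
    rw [Submodule.eq_bot_iff]
    rintro v ⟨h3, h4⟩
    rw [SetLike.mem_coe, mem_span_singleton] at h4
    obtain ⟨a, rfl⟩ := h4
    have : ∀ a : ZMod 2, a = 0 ∨ a = 1 := by decide
    rcases this a with h | h
    · simp [h]
    · exfalso
      apply hgH
      rw [h, one_smul] at h3
      exact h3
  rw [hg, h2, finrank_bot, finrank_top, finrank_span_singleton hg0] at h1
  omega

private theorem COA_chi_eq (P : Set V) (e : V) (h : e ∉ P) : chi P e = 1 := if_neg h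

private theorem COA_chi_mem (P : Set V) (e : V) (h : e ∈ P) : chi P e = -1 := if_pos h

private theorem COA_ne (P : Set V) : {v | chi P v ≠ 1} = P := by
  ext v
  simp only [Set.mem_setOf_eq]
  by_cases h : v ∈ P
  · simp only [COA_chi_mem P v h, h, iff_true]; norm_num
  · simp [COA_chi_eq P v h, h]

private theorem COA_upd1 (P : Set V) (e : V) : Function.update (chi P) e 1 = chi (P \ {e}) := by
  funext v
  by_cases hve : v = e
  · rw [hve, Function.update_self, COA_chi_eq]; simp
  · rw [Function.update_of_ne hve]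
    unfold chi
    simp [hve]

private theorem COA_upd2 (P : Set V) (e : V) : Function.update (chi P) e (-1) = chi (insert e P) := by
  funext v
  by_cases hve : v = e
  · rw [hve, Function.update_self, COA_chi_mem]; simp
  · rw [Function.update_of_ne hve]
    unfold chi
    simp [hve]

end

/-- the numerical inequalities -/
private theorem COA_num (δ κ : ℝ) (hP : Par δ κ) :
    κ * δ ≤ 2 ∧ κ * δ ≤ 2 - δ ^ 2 ∧ κ * δ * (2 - δ ^ 2) ≤ 4 - 3 * δ ^ 2 := by
  have h1 := hP.ksq
  have hδ := hP.pos
  have hκ := hP.kpos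
  have hq := hP.le
  have hq0 : 0 < δ ^ 2 := by positivity
  set q := δ ^ 2 with hqd
  have h4 : δ ^ 4 = q ^ 2 := by rw [hqd]; ring
  rw [h4] at h1
  have h2 : (κ * δ) ^ 2 = 4 - 6 * q + q ^ 2 := by rw [mul_pow, ← hqd]; exact h1
  have h0 : 0 ≤ κ * δ := by positivity
  refine ⟨?_, ?_, ?_⟩
  · refine (pow_le_pow_iff_left₀ h0 (by norm_num) two_ne_zero).1 ?_
    rw [h2]
    nlinarith
  · refine (pow_le_pow_iff_left₀ h0 (by linarith) two_ne_zero).1 ?_
    rw [h2]
    nlinarith
  · refine (pow_le_pow_iff_left₀ (mul_nonneg h0 (by linarith)) (by linarith) two_ne_zero).1 ?_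
    rw [mul_pow, h2]
    have h5 : (4 - 3 * q) ^ 2 - (4 - 6 * q + q ^ 2) * (2 - q) ^ 2 = q * (16 - 23 * q + 10 * q ^ 2 - q ^ 3) := by
      ring
    have h6 : 0 ≤ 16 - 23 * q + 10 * q ^ 2 - q ^ 3 := by nlinarith [sq_nonneg (q - 2/3), mul_pos hq0 hq0, mul_pos (mul_pos hq0 hq0) hq0]
    have h7 := mul_nonneg hq0.le h6
    linarith

theorem thm_COA (hADQ : St_ADQ) (hAFF : St_AFF) (hPSH : St_PSH) (hCOL : St_COL) : St_COA := by
  intro δ κ hP V _ _ _ m hm n hn hA hB P e h0 hsp he hne
  obtain ⟨num1, num2, num3⟩ := COA_num δ κ hP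
  have hδ := hP.pos
  have hκ := hP.kpos
  have hq0 : 0 < δ ^ 2 := by positivity
  have hq1 := hP.le
  have hκn : 0 < κ ^ n := pow_pos hκ n
  set Q : Set V := P \ {e} with hQ
  set H := span F2 Q with hH
  have hHe : H ⊔ ln e = ⊤ := by
    rw [eq_top_iff, ← hsp, span_le]
    intro v hv
    by_cases hve : v = e
    · rw [hve]
      exact (le_sup_right : ln e ≤ H ⊔ ln e) (mem_span_singleton_self e)
    · exact (le_sup_left : H ≤ H ⊔ ln e) (subset_span ⟨hv, hve⟩)
  obtain ⟨heH, hHn⟩ := COA_hyp e H hne hHe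
  have hx0 : chi P 0 = 1 := COA_chi_eq P 0 h0
  have hx1 : ∀ v, v ∉ H → v ≠ e → chi P v = 1 := by
    intro v hv hve
    refine COA_chi_eq P v (fun h => hv (subset_span ⟨h, hve⟩))
  have hxe : chi P e = -1 := COA_chi_mem P e he
  have h0Q : (0 : V) ∉ Q := fun h => h0 h.1
  -- the quotient by a line outside of `H`
  have hquot : ∀ s, s ∉ H → push (ln s) (chi Q) = chi ((ln s).mkQ '' Q) ∧
      (0 : V ⧸ ln s) ∉ (ln s).mkQ '' Q ∧ span F2 ((ln s).mkQ '' Q) = ⊤ ∧
      finrank F2 (V ⧸ ln s) + 1 = finrank F2 V := by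
    intro s hs
    obtain ⟨p1, p2, p3, p4, p5⟩ := hPSH V H s hHn hs
    refine ⟨p5 Q h0Q (fun v hv => subset_span hv), ?_, ?_, p1⟩
    · rintro ⟨v, hv, hv0⟩
      have h1 := p3 v (subset_span hv) 0 H.zero_mem (by rw [hv0, map_zero])
      exact h0Q (h1 ▸ hv)
    · rw [← Submodule.map_span, eq_top_iff]
      intro w _
      obtain ⟨h, hh, rfl⟩ := p2 w
      exact Submodule.mem_map_of_mem hh
  have hTA : ∀ s, s ∉ H → ∀ P' : Set (V ⧸ ln s), (0 : V ⧸ ln s) ∉ P' → span F2 P' = ⊤ →
      κ ^ n ≤ W (quo δ m (ln s)) (chi P') := by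
    intro s hs P' h0' hsp'
    have h1 := (hquot s hs).2.2.2
    exact hA _ (V ⧸ ln s) (quo δ m (ln s)) (hADQ V δ m (ln s) hm) (by omega) P' le_rfl h0' hsp'
  have hpe : push (ln e) (chi P) = chi ((ln e).mkQ '' Q) := by
    rw [← COA_push_update e (chi P) 1, COA_upd1]
    exact (hquot e heH).1
  obtain ⟨s, hs | hs⟩ := hCOL V δ m H e (chi P) hδ hm hHn heH hx0 hx1
  · obtain ⟨hs, hW⟩ := hs
    obtain ⟨q1, q2, q3, q4⟩ := hquot s hs
    obtain ⟨r1, r2, r3, r4⟩ := hquot e heH
    have a1 := hTA s hs _ q2 q3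
    have a2 := hTA e heH _ r2 r3
    rw [hW, COA_upd1, q1, hpe, hxe]
    have a3 : 2 / δ * κ ^ n ≤ (1 - -1) / δ * W (quo δ m (ln e)) (chi ((ln e).mkQ '' Q)) := by
      have : (1 - -1 : ℝ) = 2 := by norm_num
      rw [this]
      exact mul_le_mul_of_nonneg_left a2 (by positivity)
    have a4 : κ * κ ^ n ≤ 2 / δ * κ ^ n := by
      refine mul_le_mul_of_nonneg_right ?_ hκn.le
      rw [le_div_iff₀ hδ]
      exact num1
    rw [pow_succ, mul_comm (κ ^ n) κ]
    linarith
  · obtain ⟨hs, hW⟩ := hs
    obtain ⟨r1, r2, r3, r4⟩ := hquot e heH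
    rw [hW, hpe, hxe]
    set P' : Set (V ⧸ ln e) := (ln e).mkQ '' Q with hP'
    set X := chi P' with hX
    set s' := (ln e).mkQ s with hs'
    set l := 1 - δ ^ 2 / 2 with hl
    have hl0 : 0 ≤ l := by rw [hl]; linarith
    have hl1 : l ≤ 1 := by rw [hl]; linarith
    obtain ⟨⟨a, b, hab⟩, haff⟩ := hAFF (V ⧸ ln e) ℝ (quo δ m (ln e)) s' X
    have hkey : (1 - -1) / δ * W (quo δ m (ln e)) X - δ * Ws (quo δ m (ln e)) s' X =
        2 / δ * W (quo δ m (ln e)) (Function.update X s' (l * X s')) := by
      rw [haff l, hl]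
      field_simp
      ring
    rw [hkey]
    have a2 := hTA e heH _ r2 r3
    -- it suffices to bound the value
    have hfin : ∀ c w : ℝ, κ * δ ≤ 2 * c → c * κ ^ n ≤ w → κ ^ (n + 1) ≤ 2 / δ * w := by
      intro c w h1 h2
      have h3 : κ ≤ 2 / δ * c := by
        rw [div_mul_eq_mul_div, le_div_iff₀ hδ]
        exact h1
      calc κ ^ (n + 1) = κ * κ ^ n := by ring
        _ ≤ (2 / δ * c) * κ ^ n := mul_le_mul_of_nonneg_right h3 hκn.le
        _ = 2 / δ * (c * κ ^ n) := by ring
        _ ≤ 2 / δ * w := mul_le_mul_of_nonneg_left h2 (by positivity)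
    by_cases hs0 : s' = 0
    · have h5 : Ws (quo δ m (ln e)) s' X = W (quo δ m (ln e)) X := by
        unfold Ws W
        rw [Finset.filter_true_of_mem]
        intro U _
        rw [hs0]
        exact U.zero_mem
      refine hfin l _ (by rw [hl]; linarith) ?_
      rw [haff l, h5]
      have : W (quo δ m (ln e)) X + (l - 1) * W (quo δ m (ln e)) X = l * W (quo δ m (ln e)) X := by ring
      rw [this]
      exact mul_le_mul_of_nonneg_left a2 hl0
    · by_cases hsP : s' ∈ P'
      · -- the value is `-l`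
        have hXs : X s' = -1 := COA_chi_mem P' s' hsP
        have b1 : κ ^ n ≤ a + (-1) * b := by
          rw [← hab (-1), ← hXs, Function.update_eq_self]
          exact a2
        have b2 : 0 ≤ a + (1 - δ ^ 2) * b := by
          rw [← hab (1 - δ ^ 2)]
          have hne : {w | Function.update X s' (1 - δ ^ 2) w ≠ 1} = P' := by
            ext w
            simp only [Set.mem_setOf_eq]
            by_cases hw : w = s'
            · rw [hw, Function.update_self]
              simp only [hsP, iff_true]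
              intro h; linarith
            · rw [Function.update_of_ne hw]
              have := Set.ext_iff.1 (COA_ne P') w
              simpa using this
          refine hB _ (V ⧸ ln e) (quo δ m (ln e)) (hADQ V δ m (ln e) hm) (by omega) _ ⟨?_, ?_⟩ le_rfl ?_
          · rw [Function.update_of_ne (Ne.symm hs0)]
            exact COA_chi_eq P' 0 r2
          · intro w
            by_cases hw : w = s'
            · right; rw [hw, Function.update_self]; constructor <;> linarith
            · rw [Function.update_of_ne hw]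
              by_cases hwP : w ∈ P'
              · right; rw [hX, COA_chi_mem P' w hwP]; constructor <;> linarith
              · left; exact COA_chi_eq P' w hwP
          · rw [hne]; exact r3
        set α := δ ^ 2 / (2 * (2 - δ ^ 2)) with hα
        have h2q : 0 < 2 - δ ^ 2 := by linarith
        have hα0 : 0 ≤ α := by rw [hα]; positivity
        have hα1 : α * (2 - δ ^ 2) = δ ^ 2 / 2 := by
          rw [hα]; field_simp
        refine hfin (1 - α) _ ?_ ?_
        · have h6 : (2 * (1 - α)) * (2 - δ ^ 2) = 4 - 3 * δ ^ 2 := by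
            have : (2 * (1 - α)) * (2 - δ ^ 2) = 2 * (2 - δ ^ 2) - 2 * (α * (2 - δ ^ 2)) := by ring
            rw [this, hα1]; ring
          have h7 : κ * δ * (2 - δ ^ 2) ≤ (2 * (1 - α)) * (2 - δ ^ 2) := by rw [h6]; exact num3
          exact le_of_mul_le_mul_right h7 h2q
        · rw [hXs, hab]
          have h8 : a + l * -1 * b = (1 - α) * (a + (-1) * b) + α * (a + (1 - δ ^ 2) * b) := by
            have : (1 - α) * (a + (-1) * b) + α * (a + (1 - δ ^ 2) * b) = a + (-1 + α * (2 - δ ^ 2)) * b := by ring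
            rw [this, hα1, hl]; ring
          rw [h8]
          have hα2 : 0 ≤ 1 - α := by
            by_contra h
            push Not at h
            have : 2 * (1 - α) * (2 - δ ^ 2) < 0 := by nlinarith
            nlinarith
          have h9 := mul_le_mul_of_nonneg_left b1 hα2
          have h10 := mul_nonneg hα0 b2
          linarith
      · -- the value is `l`
        have hXs : X s' = 1 := COA_chi_eq P' s' hsP
        have b1 : κ ^ n ≤ a + 1 * b := by
          rw [← hab 1, ← hXs, Function.update_eq_self]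
          exact a2
        have b2 : κ ^ n ≤ a + (-1) * b := by
          rw [← hab (-1), hX, COA_upd2]
          refine hTA e heH _ ?_ ?_
          · simp only [Set.mem_insert_iff, not_or]
            exact ⟨Ne.symm hs0, r2⟩
          · rw [eq_top_iff, ← r3]
            exact span_mono (Set.subset_insert _ _)
        refine hfin 1 _ (by linarith) ?_
        rw [hXs, mul_one, one_mul, hab]
        nlinarith

end Pool.Agent.EQT
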