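import Pool.Agent.EQT.St

/-!
# EQT [COL]: coloops
-/

set_option autoImplicit false
set_option linter.unusedSectionVars false
set_option linter.unusedVariables false

namespace Pool.Agent.EQT

open Submodule Module

attribute [local instance] Classical.propDecidable Fintype.ofFinite

section

variable {V : Type} [AddCommGroup V] [Module F2 V] [Finite V]

private theorem COL_mem_ln {s v : V} : v ∈ ln s ↔ v = 0 ∨ v = s := by
  rw [mem_span_singleton]
  constructor
  · rintro ⟨a, rfl⟩
    have ha : a = 0 ∨ a = 1 := by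
      revert a
      decide
    rcases ha with rfl | rfl
    · exact Or.inl (zero_smul _ _)
    · exact Or.inr (one_smul _ _)
  · rintro (rfl | rfl)
    · exact ⟨0, zero_smul _ _⟩
    · exact ⟨1, one_smul _ _⟩

private theorem COL_finrank {s : V} (hs : s ≠ 0) : finrank F2 (ln s) = 1 :=
  finrank_span_singleton hs

/-- the product over the class of zero -/
private theorem COL_zero {s : V} (y : V → ℝ) (h0 : y 0 = 1) (hs : y s = 1) :
    ∏ i with (ln s).mkQ i = 0, y i = 1 := by
  refine Finset.prod_eq_one fun i hi => ?_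
  have h1 : (ln s).mkQ i = 0 := (Finset.mem_filter.1 hi).2
  rw [mkQ_apply, Quotient.mk_eq_zero, COL_mem_ln] at h1
  rcases h1 with rfl | rfl
  · exact h0
  · exact hs

private theorem COL_pf (hPF : St_PF) {V' : Type} [AddCommGroup V'] [Module F2 V'] [Finite V']
    (m : Submodule F2 V' → ℝ) (r : V → V') (y : V → ℝ) :
    ∑ B : Finset V, (∏ i ∈ B, (y i - 1)) * cc m (span F2 (r '' (B : Set V))) =
      W m (fun v => ∏ i with r i = v, y i) := by
  exact hPF V' ℝ m V r y

/-- comparison of two sums, the terms outside of `H` vanish -/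
private theorem COL_cmp {H : Submodule F2 V} {y : V → ℝ} (hy : ∀ v, v ∉ H → y v = 1)
    (a b : Finset V → ℝ) (hab : ∀ B : Finset V, (∀ v ∈ B, v ∈ H) → a B = b B) :
    ∑ B : Finset V, (∏ i ∈ B, (y i - 1)) * a B = ∑ B : Finset V, (∏ i ∈ B, (y i - 1)) * b B := by
  refine Finset.sum_congr rfl fun B _ => ?_
  by_cases h : ∀ v ∈ B, v ∈ H
  · rw [hab B h]
  · push Not at h
    obtain ⟨v, hv, hvH⟩ := h
    rw [Finset.prod_eq_zero hv (by rw [hy v hvH, sub_self]), zero_mul, zero_mul]

private theorem COL_comap (e : V) (B : Set V) :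
    (span F2 ((ln e).mkQ '' B)).comap (ln e).mkQ = ln e ⊔ span F2 B := by
  rw [← map_span, comap_map_mkQ]

end

/-- COL. -/
theorem thm_COL (hQUO : St_QUO) (hPF : St_PF) (hDC : St_DC) : St_COL := by
  intro V _ _ _ δ m H e x hδ hm hH he hx0 hx
  obtain ⟨s, hs⟩ := hm.hyp H hH
  have he0 : e ≠ 0 := fun h => he (h ▸ H.zero_mem)
  set y : V → ℝ := Function.update x e 1 with hy
  have hye : y e = 1 := Function.update_self _ _ _
  have hyn : ∀ v, v ≠ e → y v = x v := fun v hv => Function.update_of_ne hv _ _
  have hy0 : y 0 = 1 := by rw [hyn 0 (Ne.symm he0), hx0]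
  have hyH : ∀ v, v ∉ H → y v = 1 := by
    intro v hv
    by_cases h : v = e
    · rw [h, hye]
    · rw [hyn v h, hx v hv h]
  have h1 := hDC V δ m e x hδ.ne' he0 hx0
  have h2 : W m y = ∑ B : Finset V, (∏ i ∈ B, (y i - 1)) * cc m (span F2 (B : Set V)) := by
    have h3 := COL_pf hPF m (id : V → V) y
    have h4 : (fun v => ∏ i with id i = v, y i) = y := by
      funext v
      have h5 : (Finset.univ.filter fun i : V => id i = v) = {v} := by
        ext i
        simp
      rw [h5, Finset.prod_singleton]
    rw [h4] at h3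
    rw [← h3]
    refine Finset.sum_congr rfl fun B _ => ?_
    rw [Set.image_id]
  refine ⟨s, ?_⟩
  rcases hs with ⟨hsH, hs⟩ | ⟨hsH, hs⟩
  · left
    refine ⟨hsH, ?_⟩
    have hs0 : s ≠ 0 := fun h => hsH (h ▸ H.zero_mem)
    have h3 : W m y = W (quo δ m (ln s)) (push (ln s) y) := by
      have h4 := COL_pf hPF (quo δ m (ln s)) (ln s).mkQ y
      have h5 : (fun w => ∏ i with (ln s).mkQ i = w, y i) = push (ln s) y := by
        funext w
        unfold push
        by_cases hw : w = 0
        · rw [if_pos hw, hw]
          exact COL_zero y hy0 (hyH s hsH)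
        · rw [if_neg hw]
      rw [h5] at h4
      rw [h2, ← h4]
      refine COL_cmp hyH _ _ fun B hB => ?_
      have h6 : span F2 (B : Set V) ≤ H := span_le.2 hB
      rw [hs _ h6, (hQUO V ℝ δ m (ln s)).2, COL_finrank hs0, pow_one, COL_comap, sup_comm]
    rw [h1, h3]
  · right
    refine ⟨hsH, ?_⟩
    have h3 : W m y = - δ * Ws (quo δ m (ln e)) ((ln e).mkQ s) (push (ln e) x) := by
      let m' : Submodule F2 (V ⧸ ln e) → ℝ := quo δ m (ln e)
      let s' : V ⧸ ln e := (ln e).mkQ s
      let m'' : Submodule F2 (V ⧸ ln e) → ℝ := fun U => if s' ∈ U then m' U else 0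
      have h4 := COL_pf hPF m'' (ln e).mkQ y
      have h5 : (fun w => ∏ i with (ln e).mkQ i = w, y i) = push (ln e) x := by
        funext w
        unfold push
        by_cases hw : w = 0
        · rw [if_pos hw, hw]
          exact COL_zero y hy0 hye
        · rw [if_neg hw]
          refine Finset.prod_congr rfl fun i hi => hyn i fun h => hw ?_
          rw [← (Finset.mem_filter.1 hi).2, h, mkQ_apply, Quotient.mk_eq_zero, COL_mem_ln]
          exact Or.inr rfl
      rw [h5] at h4
      have h6 : W m'' (push (ln e) x) = Ws m' s' (push (ln e) x) := by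
        unfold W Ws
        rw [Finset.sum_filter]
        refine Finset.sum_congr rfl fun U _ => ?_
        by_cases hU : s' ∈ U
        · rw [if_pos hU]
          show (if s' ∈ U then m' U else 0) * _ = _
          rw [if_pos hU]
        · rw [if_neg hU]
          show (if s' ∈ U then m' U else 0) * _ = _
          rw [if_neg hU, zero_mul]
      have h7 : ∀ U, cc m'' U = cc m' (U ⊔ ln s') := by
        intro U
        unfold cc
        rw [Finset.sum_filter, Finset.sum_filter]
        refine Finset.sum_congr rfl fun U' _ => ?_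
        have h8 : U ⊔ ln s' ≤ U' ↔ U ≤ U' ∧ s' ∈ U' := by
          rw [sup_le_iff, span_singleton_le_iff_mem]
        by_cases h9 : U ≤ U'
        · by_cases h10 : s' ∈ U'
          · rw [if_pos h9, if_pos (h8.2 ⟨h9, h10⟩)]
            show (if s' ∈ U' then m' U' else 0) = _
            rw [if_pos h10]
          · rw [if_pos h9, if_neg (fun h => h10 (h8.1 h).2)]
            show (if s' ∈ U' then m' U' else 0) = _
            rw [if_neg h10]
        · rw [if_neg h9, if_neg (fun h => h9 (h8.1 h).1)]
      have h11 : - δ * Ws m' s' (push (ln e) x) =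
          ∑ B : Finset V, (∏ i ∈ B, (y i - 1)) *
            (- δ * cc m'' (span F2 ((ln e).mkQ '' (B : Set V)))) := by
        rw [← h6, ← h4, Finset.mul_sum]
        refine Finset.sum_congr rfl fun B _ => ?_
        ring
      show W m y = - δ * Ws m' s' (push (ln e) x)
      rw [h2, h11]
      refine COL_cmp hyH _ _ fun B hB => ?_
      have h12 : span F2 (B : Set V) ≤ H := span_le.2 hB
      rw [hs _ h12 e he, h7]
      have h13 : cc m' (span F2 ((ln e).mkQ '' (B : Set V)) ⊔ ln s') =
          - δ * cc m (span F2 (B : Set V) ⊔ ln s ⊔ ln e) := by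
        show cc (quo δ m (ln e)) _ = _
        rw [(hQUO V ℝ δ m (ln e)).2, COL_finrank he0, pow_one]
        congr 2
        have h14 : span F2 ((ln e).mkQ '' (B : Set V)) ⊔ ln s' =
            (span F2 (B : Set V) ⊔ ln s).map (ln e).mkQ := by
          rw [Submodule.map_sup, map_span, map_span, Set.image_singleton]
        rw [h14, comap_map_mkQ, sup_comm]
      rw [h13]
      ring
    rw [h1, h3]
    ring

end Pool.Agent.EQT
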