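import Pool.Agent.EQT.St

/-!
# EQT, [DC]: deletion and contraction
-/

set_option autoImplicit false
set_option linter.unusedSectionVars false
set_option linter.unusedVariables false

namespace Pool.Agent.EQT

open Submodule Module

attribute [local instance] Classical.propDecidable Fintype.ofFinite

section

variable {V : Type} [AddCommGroup V] [Module F2 V]

private theorem DC_mem (e v : V) : v ∈ ln e ↔ v = 0 ∨ v = e := by
  rw [mem_span_singleton]
  constructor
  · rintro ⟨a, rfl⟩
    have h : ∀ a : F2, a = 0 ∨ a = 1 := by decide
    rcases h a with rfl | rfl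
    · left
      exact zero_smul _ _
    · right
      exact one_smul _ _
  · rintro (rfl | rfl)
    · exact ⟨0, zero_smul _ _⟩
    · exact ⟨1, one_smul _ _⟩

private theorem DC_prod [Finite V] (U : Submodule F2 V) (e : V) (he : e ≠ 0) (heU : e ∈ U)
    (x : V → ℝ) : ∏ v with v ∈ U, x v = x 0 * (x e * ∏ v with v ∈ U ∧ v ∉ ln e, x v) := by
  have h1 : (Finset.univ.filter fun v : V => v ∈ U) =
      insert 0 (insert e (Finset.univ.filter fun v : V => v ∈ U ∧ v ∉ ln e)) := by
    ext v
    simp only [Finset.mem_filter, Finset.mem_univ, true_and, Finset.mem_insert, DC_mem]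
    constructor
    · intro h
      by_cases h0 : v = 0
      · exact Or.inl h0
      · by_cases h1 : v = e
        · exact Or.inr (Or.inl h1)
        · exact Or.inr (Or.inr ⟨h, by simp [h0, h1]⟩)
    · rintro (rfl | rfl | ⟨h, -⟩)
      · exact U.zero_mem
      · exact heU
      · exact h
  rw [h1, Finset.prod_insert, Finset.prod_insert]
  · simp only [Finset.mem_filter, Finset.mem_univ, true_and, DC_mem]
    simp
  · simp only [Finset.mem_insert, Finset.mem_filter, Finset.mem_univ, true_and, DC_mem]
    simp [he.symm]

end

theorem thm_DC (hQ : St_QUO) : St_DC := by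
  intro V _ _ _ δ m e x hδ he hx
  have h1 : finrank F2 (ln e) = 1 := finrank_span_singleton he
  rw [(hQ V ℝ δ m (ln e)).1 x, h1, pow_one]
  unfold W
  have h2 : ∀ U : Submodule F2 V, m U * ∏ v with v ∈ U, x v =
      m U * ∏ v with v ∈ U, Function.update x e 1 v +
        (1 - x e) / δ * (-δ) * (if ln e ≤ U then m U * ∏ v with v ∈ U ∧ v ∉ ln e, x v else 0) := by
    intro U
    have h3 : (1 - x e) / δ * (-δ) = x e - 1 := by
      field_simp
      ring
    rw [h3]
    by_cases heU : e ∈ U
    · rw [if_pos ((span_singleton_le_iff_mem _ _).2 heU), DC_prod U e he heU x,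
        DC_prod U e he heU (Function.update x e 1), Function.update_self,
        Function.update_of_ne he.symm, hx]
      have h4 : ∏ v with v ∈ U ∧ v ∉ ln e, Function.update x e 1 v =
          ∏ v with v ∈ U ∧ v ∉ ln e, x v := by
        refine Finset.prod_congr rfl fun v hv => ?_
        rw [Finset.mem_filter] at hv
        refine Function.update_of_ne ?_ _ _
        rintro rfl
        exact hv.2.2 (mem_span_singleton_self v)
      rw [h4]
      ring
    · rw [if_neg (fun h => heU ((span_singleton_le_iff_mem _ _).1 h)), mul_zero, add_zero]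
      congr 1
      refine Finset.prod_congr rfl fun v hv => ?_
      rw [Finset.mem_filter] at hv
      refine (Function.update_of_ne ?_ _ _).symm
      rintro rfl
      exact heU hv.2
  rw [Finset.sum_congr rfl fun U _ => h2 U, Finset.sum_add_distrib, ← Finset.mul_sum,
    Finset.sum_filter]
  ring

end Pool.Agent.EQT
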