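import Pool.Agent.EQT.St

/-!
# EQT: block E1
-/

set_option autoImplicit false
set_option linter.unusedSectionVars false
set_option linter.unusedVariables false

namespace Pool.Agent.EQT

open Submodule Module

attribute [local instance] Classical.propDecidable Fintype.ofFinite

private lemma E1_prod (V : Type) [AddCommGroup V] [Module F2 V] [Finite V]
    (F U : Submodule F2 V) (x : V → ℝ) (t : ℝ) :
    ∏ v with v ∈ U, setv (F : Set V) t x v =
      t ^ (Finset.univ.filter fun v : V => v ∈ U ∧ (v ∈ F ∧ v ≠ 0)).card *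
        ∏ v with v ∈ U ∧ ¬ (v ∈ F ∧ v ≠ 0), x v := by
  rw [← Finset.prod_filter_mul_prod_filter_not (Finset.univ.filter fun v : V => v ∈ U)
    (fun v => v ∈ F ∧ v ≠ 0), Finset.filter_filter, Finset.filter_filter]
  congr 1
  · rw [← Finset.prod_const]
    refine Finset.prod_congr rfl fun v hv => ?_
    rw [Finset.mem_filter] at hv
    have h : v ∈ (F : Set V) ∧ v ≠ 0 := hv.2.2
    unfold setv
    rw [if_pos h]
  · refine Finset.prod_congr rfl fun v hv => ?_
    rw [Finset.mem_filter] at hv
    have h : ¬ (v ∈ (F : Set V) ∧ v ≠ 0) := hv.2.2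
    unfold setv
    rw [if_neg h]

private lemma E1_card (V : Type) [AddCommGroup V] [Module F2 V] [Finite V]
    (F U : Submodule F2 V) :
    ∃ d : ℕ, (Finset.univ.filter fun v : V => v ∈ U ∧ (v ∈ F ∧ v ≠ 0)).card + 1 = 2 ^ d := by
  refine ⟨finrank F2 (U ⊓ F : Submodule F2 V), ?_⟩
  have h1 : Nat.card (U ⊓ F : Submodule F2 V) = 2 ^ finrank F2 (U ⊓ F : Submodule F2 V) := by
    rw [Module.natCard_eq_pow_finrank (K := F2)]
    simp [F2]
  rw [← h1]
  have h2 : Nat.card (U ⊓ F : Submodule F2 V) =
      (Finset.univ.filter fun v : V => v ∈ U ⊓ F).card := by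
    rw [Nat.card_eq_fintype_card]
    exact Fintype.card_of_subtype _ (fun v => by simp)
  rw [h2]
  have h3 : (Finset.univ.filter fun v : V => v ∈ U ⊓ F) =
      insert 0 (Finset.univ.filter fun v : V => v ∈ U ∧ (v ∈ F ∧ v ≠ 0)) := by
    ext v
    simp only [Finset.mem_filter, Finset.mem_univ, true_and, Finset.mem_insert, Submodule.mem_inf]
    constructor
    · rintro ⟨hU, hF⟩
      by_cases h : v = 0
      · exact Or.inl h
      · exact Or.inr ⟨hU, hF, h⟩
    · rintro (h | h)
      · subst h
        exact ⟨U.zero_mem, F.zero_mem⟩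
      · exact ⟨h.1, h.2.1⟩
  rw [h3, Finset.card_insert_of_notMem]
  simp

/-- Statement `E1`. -/
theorem thm_E1 : St_E1 := by
  intro V _ _ _ m F x
  unfold W
  rw [Finset.mul_sum, ← Finset.sum_sub_distrib]
  refine Finset.sum_congr rfl fun U _ => ?_
  rw [E1_prod, E1_prod, E1_prod]
  obtain ⟨d, hd⟩ := E1_card V F U
  generalize (Finset.univ.filter fun v : V => v ∈ U ∧ (v ∈ F ∧ v ≠ 0)).card = n at hd
  have h : (-1 : ℝ) ^ n = 2 * 0 ^ n - 1 ^ n := by
    rcases Nat.eq_zero_or_pos d with h0 | h0
    · subst h0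
      have : n = 0 := by omega
      subst this
      norm_num
    · have hodd : Odd n := by
        have he : Even (n + 1) := by
          rw [hd]
          exact (even_two).pow_of_ne_zero (by omega)
        rw [Nat.even_add_one, Nat.not_even_iff_odd] at he
        exact he
      have hn : n ≠ 0 := by
        rintro rfl
        exact (by decide : ¬ Odd 0) hodd
      rw [hodd.neg_one_pow, zero_pow hn, one_pow]
      norm_num
  rw [h]
  ring

end Pool.Agent.EQT
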