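import Pool.Agent.EQT.St

/-!
# EQT: E2, the values `0` on a subspace
-/

set_option autoImplicit false
set_option linter.unusedSectionVars false
set_option linter.unusedVariables false

namespace Pool.Agent.EQT

open Submodule Module

attribute [local instance] Classical.propDecidable Fintype.ofFinite

section

variable {V : Type} [AddCommGroup V] [Module F2 V] [Finite V]

private lemma E2_sub (F₁ F : Submodule F2 V) (hle : F₁ ≤ F)
    (hfr : finrank F2 F₁ + 1 = finrank F2 F) {g g' : V} (hg : g ∈ F) (hg1 : g ∉ F₁)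
    (hg' : g' ∈ F) (hg1' : g' ∉ F₁) : g' - g ∈ F₁ := by
  have h1 : F₁ ⊔ ln g = F := by
    refine Submodule.eq_of_le_of_finrank_le (sup_le hle ?_) ?_
    · rw [ln, span_singleton_le_iff_mem]; exact hg
    · have h2 : F₁ < F₁ ⊔ ln g := by
        refine lt_of_le_of_ne le_sup_left fun h => hg1 ?_
        rw [h]
        exact mem_sup_right (mem_span_singleton_self g)
      have h3 := Submodule.finrank_lt_finrank_of_lt h2
      omega
  rw [← h1] at hg'
  obtain ⟨f, hf, t, ht, hft⟩ := mem_sup.mp hg'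
  obtain ⟨a, rfl⟩ := mem_span_singleton.mp ht
  have ha : ∀ a : F2, a = 0 ∨ a = 1 := by decide
  rcases ha a with rfl | rfl
  · exfalso
    rw [zero_smul, add_zero] at hft
    exact hg1' (hft ▸ hf)
  · rw [one_smul] at hft
    rw [← hft, add_sub_cancel_right]
    exact hf

private lemma E2_ln {g v : V} : v ∈ ln g ↔ v = 0 ∨ v = g := by
  rw [ln, mem_span_singleton]
  constructor
  · rintro ⟨a, rfl⟩
    have ha : ∀ a : F2, a = 0 ∨ a = 1 := by decide
    rcases ha a with rfl | rfl
    · left; rw [zero_smul]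
    · right; rw [one_smul]
  · rintro (rfl | rfl)
    · exact ⟨0, zero_smul _ _⟩
    · exact ⟨1, one_smul _ _⟩

/-- the product outside of `F` -/
private lemma E2_prod (F U : Submodule F2 V) (x y : V → ℝ) (p : V → Prop)
    (h1 : ∀ v ∈ U, v ∉ F → p v ∧ y v = x v)
    (h2 : ∀ v ∈ U, v ∈ F → p v → y v = 1) :
    ∏ v with v ∈ U ∧ p v, y v = ∏ v with v ∈ U ∧ v ∉ F, x v := by
  rw [← Finset.prod_filter_mul_prod_filter_not (Finset.univ.filter fun v => v ∈ U ∧ p v)
    (fun v => v ∈ F)]
  rw [Finset.prod_eq_one, one_mul, Finset.filter_filter]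
  · have h3 : (Finset.univ.filter fun v => (v ∈ U ∧ p v) ∧ v ∉ F) =
        Finset.univ.filter fun v => v ∈ U ∧ v ∉ F := by
      ext v
      simp only [Finset.mem_filter, Finset.mem_univ, true_and]
      constructor
      · rintro ⟨⟨h, _⟩, h'⟩; exact ⟨h, h'⟩
      · rintro ⟨h, h'⟩; exact ⟨⟨h, (h1 v h h').1⟩, h'⟩
    rw [h3]
    refine Finset.prod_congr rfl fun v hv => ?_
    rw [Finset.mem_filter] at hv
    exact (h1 v hv.2.1 hv.2.2).2
  · intro v hv
    rw [Finset.filter_filter, Finset.mem_filter] at hv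
    exact h2 v hv.2.1.1 hv.2.2 hv.2.1.2

end

theorem thm_E2 (h1 : St_QUO) : St_E2 := by
  intro V _ _ _ δ m F₁ F x hδ hle hfr hx0
  have hq : ∀ g ∈ Finset.univ.filter (fun g => g ∈ F ∧ g ∉ F₁),
      W (quo δ m (ln g)) (push (ln g) (setv F 0 x)) =
        (-δ) * ∑ U with g ∈ U, m U * ∏ v with v ∈ U ∧ v ∉ ln g, setv F 0 x v := by
    intro g hg
    rw [Finset.mem_filter] at hg
    have hg0 : g ≠ 0 := fun h => hg.2.2 (h ▸ F₁.zero_mem)
    rw [(h1 V ℝ δ m (ln g)).1, finrank_span_singleton hg0, pow_one]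
    have h2 : (Finset.univ.filter fun U : Submodule F2 V => ln g ≤ U) =
        Finset.univ.filter fun U : Submodule F2 V => g ∈ U := by
      ext U
      simp only [Finset.mem_filter, Finset.mem_univ, true_and]
      rw [ln, span_singleton_le_iff_mem]
    rw [h2]
  rw [Finset.sum_congr rfl hq, ← Finset.mul_sum, ← mul_assoc,
    show 1 / δ * (-δ) = -1 by field_simp]
  rw [Finset.sum_comm' (s' := fun U : Submodule F2 V =>
    (Finset.univ.filter (fun g => g ∈ F ∧ g ∉ F₁)).filter fun g => g ∈ U)
    (t' := Finset.univ) (by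
      intro g U
      simp only [Finset.mem_filter, Finset.mem_univ, true_and, and_true])]
  rw [neg_one_mul, ← sub_eq_add_neg, W, W, ← Finset.sum_sub_distrib]
  refine Finset.sum_congr rfl fun U _ => ?_
  by_cases hc : ∃ h ∈ U, h ∈ F₁ ∧ h ≠ 0
  · -- everything vanishes
    obtain ⟨h, hU, hF₁, h0⟩ := hc
    have e1 : ∏ v with v ∈ U, setv F 0 x v = 0 := by
      refine Finset.prod_eq_zero (i := h) (Finset.mem_filter.mpr ⟨Finset.mem_univ _, hU⟩) ?_
      rw [setv, if_pos ⟨hle hF₁, h0⟩]
    have e2 : ∏ v with v ∈ U, setv F₁ 0 (setv {v | v ∈ F ∧ v ∉ F₁} 1 x) v = 0 := by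
      refine Finset.prod_eq_zero (i := h) (Finset.mem_filter.mpr ⟨Finset.mem_univ _, hU⟩) ?_
      rw [setv, if_pos ⟨hF₁, h0⟩]
    rw [e1, e2, mul_zero, Finset.sum_eq_zero, sub_zero]
    intro g hg
    rw [Finset.filter_filter, Finset.mem_filter] at hg
    rw [Finset.prod_eq_zero (i := h), mul_zero]
    · refine Finset.mem_filter.mpr ⟨Finset.mem_univ _, hU, ?_⟩
      rw [E2_ln]
      rintro (rfl | rfl)
      · exact h0 rfl
      · exact hg.2.1.2 hF₁
    · rw [setv, if_pos ⟨hle hF₁, h0⟩]
  · push Not at hc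
    have hc' : ∀ h ∈ U, h ∈ F₁ → h = 0 := hc
    have e2 : ∏ v with v ∈ U, setv F₁ 0 (setv {v | v ∈ F ∧ v ∉ F₁} 1 x) v =
        ∏ v with v ∈ U ∧ v ∉ F, x v := by
      have h3 := E2_prod F U x (setv F₁ 0 (setv {v | v ∈ F ∧ v ∉ F₁} 1 x)) (fun _ => True)
        (by
          intro v hv hvF
          refine ⟨trivial, ?_⟩
          rw [setv, if_neg (fun h => hvF (hle h.1)), setv, if_neg (fun h => hvF h.1.1)])
        (by
          intro v hv hvF _
          by_cases hv0 : v = 0
          · subst hv0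
            rw [setv, if_neg (fun h => h.2 rfl), setv, if_neg (fun h => h.2 rfl)]
            exact hx0
          · have h4 : v ∉ F₁ := fun h => hv0 (hc' v hv h)
            rw [setv, if_neg (fun h => h4 h.1), setv, if_pos ⟨⟨hvF, h4⟩, hv0⟩])
      rw [← h3]
      simp only [and_true]
    rw [e2]
    by_cases hd : ∃ g ∈ U, g ∈ F ∧ g ≠ 0
    · obtain ⟨g, hgU, hgF, hg0⟩ := hd
      have hg1 : g ∉ F₁ := fun h => hg0 (hc' g hgU h)
      have e1 : ∏ v with v ∈ U, setv F 0 x v = 0 := by
        refine Finset.prod_eq_zero (i := g) (Finset.mem_filter.mpr ⟨Finset.mem_univ _, hgU⟩) ?_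
        rw [setv, if_pos ⟨hgF, hg0⟩]
      have huniq : ∀ v ∈ U, v ∈ F → v ≠ 0 → v = g := by
        intro v hvU hvF hv0
        have hv1 : v ∉ F₁ := fun h => hv0 (hc' v hvU h)
        have h5 := hc' (v - g) (U.sub_mem hvU hgU) (E2_sub F₁ F hle hfr hgF hg1 hvF hv1)
        exact sub_eq_zero.mp h5
      have hs : (Finset.univ.filter (fun g => g ∈ F ∧ g ∉ F₁)).filter (fun g => g ∈ U) = {g} := by
        ext v
        simp only [Finset.mem_filter, Finset.mem_univ, true_and, Finset.mem_singleton]
        constructor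
        · rintro ⟨⟨hvF, hv1⟩, hvU⟩
          exact huniq v hvU hvF (fun h => hv1 (h ▸ F₁.zero_mem))
        · rintro rfl
          exact ⟨⟨hgF, hg1⟩, hgU⟩
      have h6 := E2_prod F U x (setv F 0 x) (fun v => v ∉ ln g)
        (by
          intro v hv hvF
          refine ⟨?_, ?_⟩
          · rw [E2_ln]
            rintro (rfl | rfl)
            · exact hvF F.zero_mem
            · exact hvF hgF
          · rw [setv, if_neg (fun h => hvF h.1)])
        (by
          intro v hv hvF hvg
          exfalso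
          rw [E2_ln] at hvg
          push Not at hvg
          exact hvg.2 (huniq v hv hvF hvg.1))
      have h7 : ∏ v with v ∈ U ∧ v ∉ ln g, setv F 0 x v = ∏ v with v ∈ U ∧ v ∉ F, x v := by
        rw [← h6]
        refine Finset.prod_congr ?_ fun _ _ => rfl
        ext v
        simp only [Finset.mem_filter]
      rw [hs, Finset.sum_singleton, e1, mul_zero, h7, sub_self]
    · push Not at hd
      have hs : (Finset.univ.filter (fun g => g ∈ F ∧ g ∉ F₁)).filter (fun g => g ∈ U) = ∅ := by
        rw [Finset.eq_empty_iff_forall_notMem]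
        intro v hv
        simp only [Finset.mem_filter, Finset.mem_univ, true_and] at hv
        exact hv.1.2 ((hd v hv.2 hv.1.1) ▸ F₁.zero_mem)
      rw [hs, Finset.sum_empty, sub_zero]
      congr 1
      have h3 := E2_prod F U x (setv F 0 x) (fun _ => True)
        (by
          intro v hv hvF
          refine ⟨trivial, ?_⟩
          rw [setv, if_neg (fun h => hvF h.1)])
        (by
          intro v hv hvF _
          have hv0 := hd v hv hvF
          subst hv0
          rw [setv, if_neg (fun h => h.2 rfl)]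
          exact hx0)
      rw [← h3]
      simp only [and_true]

end Pool.Agent.EQT
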