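import Mathlib
import Pool.Agent.SPT.Stmt

/-!
# EQT: the final statements

`Pool.Agent.SPT`: `rows R` is the set of the different rows of the relation `R` on the crossings,
`twist R σ v` the number of the crossings with row `v` at which `σ` is the `A`-smoothing minus the
number of those at which it is the `B`-smoothing, `coeffSum f` the sum of the absolute values of the
coefficients of `f`.  `D.Cut σ`, `GaussJones.Cut g e σ`: the interlaced pairs of crossings, and the
pairs `(c, c)` with `σ` not respecting the orientation at `c`.
-/

set_option autoImplicit false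

open Submodule LaurentPolynomial Pool.Agent.SPT

namespace Pool.Agent.EQT

variable {n : ℕ}

/-- the square of the loop value at `- A ^ 4 = exp (i π / M)` -/
noncomputable def qM (M : ℕ) : ℝ := 4 * Real.sin (Real.pi / (2 * M)) ^ 2

/-- the growth constant: `kap 4 = 2 ^ (1 / 4)`, `kap 5 > 2.2`, `kap M > M / 3` for `M > 4` -/
noncomputable def kap (M : ℕ) : ℝ := Real.sqrt (4 / qM M - 6 + qM M)

/-- The twist numbers of the nonzero rows, with at most one exception `w`, are divisible by `M`, and
the rows different from `w` whose twist number is an odd multiple of `M` span all rows. -/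
def OddMultiples (R : Fin n → Fin n → Prop) (σ : Fin n → Bool) (M : ℕ) : Prop :=
  ∃ w : Fin n → ZMod 2,
    (∀ v ∈ rows R, v ≠ 0 → v ≠ w → (M : ℤ) ∣ twist R σ v) ∧
    span (ZMod 2) {v | v ∈ rows R ∧ v ≠ w ∧ ∃ k : ℤ, twist R σ v = (2 * k + 1) * M} =
      span (ZMod 2) (rows R : Set _)

/-- the rank of the rows -/
noncomputable def rk (R : Fin n → Fin n → Prop) : ℕ :=
  Module.finrank (ZMod 2) (span (ZMod 2) (rows R : Set (Fin n → ZMod 2)))

/-- **knotoid diagrams**, general form -/
def St_KnotoidE : Prop :=
  ∀ (M n : ℕ) (D : Helper16.Knotoid.GaussDiagram n) (σ : Fin n → Bool), 4 ≤ M →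
    OddMultiples (D.Cut σ) σ M → kap M ^ rk (D.Cut σ) ≤ (coeffSum D.normalizedBracket : ℝ)

/-- **knot diagrams**, general form -/
def St_KnotE : Prop :=
  ∀ (M n : ℕ) (g : GaussJones.Code n) (e σ : Fin n → Bool), 4 ≤ M →
    OddMultiples (GaussJones.Cut g e σ) σ M →
      kap M ^ rk (GaussJones.Cut g e σ) ≤ (coeffSum (GaussJones.fPoly g e) : ℝ)

/-! ### twist classes -/

/-- The crossings `i` and `j` are in the same twist class: they are interlaced with the same other
crossings. -/
def Twins (I : Fin n → Fin n → Prop) (i j : Fin n) : Prop :=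
  ∀ k, k ≠ i → k ≠ j → (I i k ↔ I j k)

open Classical in
/-- the sum of the signs of the crossings in the twist class of `i` -/
noncomputable def twistNumber (I : Fin n → Fin n → Prop) (e : Fin n → Bool) (i : Fin n) : ℤ :=
  ∑ j with Twins I i j, if e j then 1 else -1

open Classical in
/-- the state which cuts all the twist regions: it respects the orientation at the crossing `i` if and
only if `i` is not interlaced with another crossing of its class -/
noncomputable def cutState (I : Fin n → Fin n → Prop) (e : Fin n → Bool) : Fin n → Bool := fun i =>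
  if ∃ j, Twins I i j ∧ I i j then !e i else e i

/-- Every twist class whose crossings are interlaced with some crossing has as sum of signs an odd
multiple of `M`. -/
def AllOdd (I : Fin n → Fin n → Prop) (e : Fin n → Bool) (M : ℕ) : Prop :=
  ∀ i, (∃ j, I i j) → ∃ k : ℤ, twistNumber I e i = (2 * k + 1) * M

/-- **knotoid diagrams**: all twist numbers are odd multiples of `M ≥ 4` -/
def St_KnotoidT : Prop :=
  ∀ (M n : ℕ) (D : Helper16.Knotoid.GaussDiagram n), 4 ≤ M →
    AllOdd D.Interlaced D.sign M →
      kap M ^ rk (D.Cut (cutState D.Interlaced D.sign)) ≤ (coeffSum D.normalizedBracket : ℝ) ∧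
      ((∃ i j, D.Interlaced i j) → 1 < coeffSum D.normalizedBracket)

/-- **knot diagrams**: all twist numbers are odd multiples of `M ≥ 4` -/
def St_KnotT : Prop :=
  ∀ (M n : ℕ) (g : GaussJones.Code n) (e : Fin n → Bool), 4 ≤ M →
    AllOdd (GaussJones.Interlaced g) e M →
      kap M ^ rk (GaussJones.Cut g e (cutState (GaussJones.Interlaced g) e)) ≤
        (coeffSum (GaussJones.fPoly g e) : ℝ) ∧
      ((∃ i j, GaussJones.Interlaced g i j) → 1 < coeffSum (GaussJones.fPoly g e))

end Pool.Agent.EQT
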