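import Pool.Agent.EQT.St
import Pool.Agent.EQT.Stmt

/-!
# EQT: the state sum of a symmetric matrix at `- A ^ 4 = exp (i π / M)`
-/

set_option autoImplicit false
set_option linter.unusedSectionVars false

namespace Pool.Agent.EQT

open Submodule Module Pool.Agent.SPT

/-! ### the value of the variable -/

private noncomputable def Evm_t (M : ℕ) : ℝ := Real.pi / M + 2 * Real.pi

private noncomputable def Evm_d (M : ℕ) : ℝ := 2 * Real.sin (Real.pi / (2 * M))

private noncomputable def Evm_y (M : ℕ) : ℂ := Complex.exp (((Real.pi / M : ℝ) : ℂ) * Complex.I)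

private theorem Evm_A2 (M : ℕ) : Aθ (Evm_t M) ^ 2 =
    Complex.exp (((3 * Real.pi / 2 + Real.pi / (2 * M) : ℝ) : ℂ) * Complex.I) := by
  unfold Aθ Evm_t
  rw [← Complex.exp_nat_mul]
  congr 1
  push_cast
  ring

private theorem Evm_Ad (M : ℕ) :
    -(Aθ (Evm_t M)) ^ 2 - ((Aθ (Evm_t M))⁻¹) ^ 2 = ((-Evm_d M : ℝ) : ℂ) := by
  have h1 : ((Aθ (Evm_t M))⁻¹) ^ 2 =
      Complex.exp (-(((3 * Real.pi / 2 + Real.pi / (2 * M) : ℝ) : ℂ) * Complex.I)) := by
    rw [inv_pow, Evm_A2, Complex.exp_neg]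
  rw [h1, Evm_A2]
  have h2 := Complex.two_cos (((3 * Real.pi / 2 + Real.pi / (2 * M) : ℝ) : ℂ))
  rw [neg_mul] at h2
  rw [← neg_add', ← h2, ← Complex.ofReal_cos]
  have h3 : Real.cos (3 * Real.pi / 2 + Real.pi / (2 * M)) = Real.sin (Real.pi / (2 * M)) := by
    rw [show 3 * Real.pi / 2 + Real.pi / (2 * M) =
      (Real.pi / 2 + Real.pi / (2 * M)) + Real.pi by ring, Real.cos_add_pi, add_comm (Real.pi / 2),
      Real.cos_add_pi_div_two, neg_neg]
  rw [h3]
  unfold Evm_d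
  push_cast
  ring

private theorem Evm_A4 (M : ℕ) : Aθ (Evm_t M) ^ 4 = -Evm_y M := by
  have h2 : Aθ (Evm_t M) ^ 4 = (Aθ (Evm_t M) ^ 2) ^ 2 := by rw [← pow_mul]
  rw [h2, Evm_A2, ← Complex.exp_nat_mul]
  have h3 : ((2 : ℕ) : ℂ) * (((3 * Real.pi / 2 + Real.pi / (2 * M) : ℝ) : ℂ) * Complex.I) =
      ((Real.pi / M : ℝ) : ℂ) * Complex.I + Real.pi * Complex.I +
        2 * Real.pi * Complex.I := by
    push_cast
    ring
  rw [h3, Complex.exp_add, Complex.exp_two_pi_mul_I, Complex.exp_add, Complex.exp_pi_mul_I]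
  unfold Evm_y
  ring

private theorem Evm_yne (M : ℕ) : Evm_y M ≠ 0 := Complex.exp_ne_zero _

/-- the weights -/
private noncomputable def Evm_w (M : ℕ) (b : Bool) : ℂ := if b then Evm_y M else (Evm_y M)⁻¹

private theorem Evm_ratio (M : ℕ) (h0 : Evm_d M ≠ 0) (b : Bool) :
    (if b then Aθ (Evm_t M) else (Aθ (Evm_t M))⁻¹) =
      (if !b then Aθ (Evm_t M) else (Aθ (Evm_t M))⁻¹) *
        ((Evm_w M b - 1) * (((-Evm_d M : ℝ) : ℂ))⁻¹) := by
  have hA : Aθ (Evm_t M) ≠ 0 := Complex.exp_ne_zero _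
  have hd : ((-Evm_d M : ℝ) : ℂ) ≠ 0 := by
    rw [Complex.ofReal_ne_zero]
    exact neg_ne_zero.2 h0
  have hy : Evm_y M = -(Aθ (Evm_t M)) ^ 4 := by rw [Evm_A4, neg_neg]
  have hAd := Evm_Ad M
  have h3 : (Aθ (Evm_t M))⁻¹ * (Aθ (Evm_t M)) = 1 := inv_mul_cancel₀ hA
  cases b with
  | true =>
    show Aθ (Evm_t M) = (Aθ (Evm_t M))⁻¹ * ((Evm_y M - 1) * (((-Evm_d M : ℝ) : ℂ))⁻¹)
    have h2 : Aθ (Evm_t M) * ((-Evm_d M : ℝ) : ℂ) = (Aθ (Evm_t M))⁻¹ * (Evm_y M - 1) := by
      rw [← hAd, hy]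
      linear_combination ((Aθ (Evm_t M)) ^ 3 - (Aθ (Evm_t M))⁻¹) * h3
    rw [← mul_assoc, ← h2, mul_assoc, mul_inv_cancel₀ hd, mul_one]
  | false =>
    show (Aθ (Evm_t M))⁻¹ = Aθ (Evm_t M) * (((Evm_y M)⁻¹ - 1) * (((-Evm_d M : ℝ) : ℂ))⁻¹)
    have h1 : (Evm_y M)⁻¹ = -((Aθ (Evm_t M))⁻¹) ^ 4 := by
      rw [hy, ← neg_inv, inv_pow]
    have h2 : (Aθ (Evm_t M))⁻¹ * ((-Evm_d M : ℝ) : ℂ) = Aθ (Evm_t M) * ((Evm_y M)⁻¹ - 1) := by
      rw [← hAd, h1]
      linear_combination (((Aθ (Evm_t M))⁻¹) ^ 3 - (Aθ (Evm_t M))) * h3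
    rw [← mul_assoc, ← h2, mul_assoc, mul_inv_cancel₀ hd, mul_one]

private theorem Evm_zpow {E : Type} (y : ℂ) (hy : y ≠ 0) (s : Finset E) (f : E → ℤ) :
    ∏ c ∈ s, y ^ (f c) = y ^ (∑ c ∈ s, f c) := by
  classical
  induction s using Finset.induction_on with
  | empty => simp
  | insert a s ha ih => rw [Finset.prod_insert ha, Finset.sum_insert ha, zpow_add₀ hy, ih]

/-- the product of the weights over a class -/
private theorem Evm_prod {E : Type} (M : ℕ) (σ : E → Bool) (s : Finset E) :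
    ∏ c ∈ s, Evm_w M (σ c) = Evm_y M ^ signedCount σ s := by
  have h1 : ∀ c ∈ s, Evm_w M (σ c) = Evm_y M ^ (if σ c then (1 : ℤ) else -1) := by
    intro c _
    unfold Evm_w
    cases σ c <;> simp
  rw [Finset.prod_congr rfl h1, Evm_zpow _ (Evm_yne M)]
  rfl

private theorem Evm_norm (M : ℕ) (k : ℤ) : ‖Evm_y M ^ k‖ = 1 := by
  rw [norm_zpow]
  unfold Evm_y
  rw [Complex.norm_exp_ofReal_mul_I, one_zpow]

private theorem Evm_yM (M : ℕ) (hM : 4 ≤ M) : Evm_y M ^ (M : ℤ) = -1 := by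
  unfold Evm_y
  rw [← Complex.exp_int_mul]
  have h1 : (((M : ℕ) : ℤ) : ℂ) * (((Real.pi / M : ℝ) : ℂ) * Complex.I) = Real.pi * Complex.I := by
    have h2 : (M : ℂ) ≠ 0 := by
      have : (M : ℂ) ≠ ((0 : ℕ) : ℂ) := by
        rw [Ne, Nat.cast_inj]
        omega
      simpa using this
    push_cast
    field_simp
  rw [h1, Complex.exp_pi_mul_I]

private theorem Evm_even (M : ℕ) (hM : 4 ≤ M) (k : ℤ) : Evm_y M ^ (k * M) = (-1 : ℂ) ^ k := by
  rw [mul_comm, zpow_mul, Evm_yM M hM]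

/-! ### the constants -/

private theorem Evm_q (M : ℕ) : Evm_d M ^ 2 = qM M := by
  unfold Evm_d qM
  ring

private theorem Evm_pos (M : ℕ) (hM : 4 ≤ M) : 0 < Evm_d M := by
  unfold Evm_d
  have hM' : (4 : ℝ) ≤ M := by exact_mod_cast hM
  have h2 : 0 < Real.sin (Real.pi / (2 * M)) := by
    refine Real.sin_pos_of_pos_of_lt_pi (by positivity) ?_
    rw [div_lt_iff₀ (by positivity)]
    nlinarith [Real.pi_pos]
  linarith

private theorem Evm_le (M : ℕ) (hM : 4 ≤ M) : Evm_d M ^ 2 ≤ 2 / 3 := by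
  have hM' : (4 : ℝ) ≤ M := by exact_mod_cast hM
  have h1 : Evm_d M ^ 2 = 2 - 2 * Real.cos (Real.pi / M) := by
    have h2 := Real.cos_sq' (Real.pi / (2 * M))
    have h3 : Real.cos (Real.pi / M) = 2 * Real.cos (Real.pi / (2 * M)) ^ 2 - 1 := by
      rw [← Real.cos_two_mul]
      congr 1
      ring
    rw [h3, h2]
    unfold Evm_d
    ring
  have h2 : Real.cos (Real.pi / 4) ≤ Real.cos (Real.pi / M) := by
    refine Real.cos_le_cos_of_nonneg_of_le_pi (by positivity) ?_ ?_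
    · linarith [Real.pi_pos]
    · exact div_le_div_of_nonneg_left Real.pi_pos.le (by norm_num) hM'
  rw [Real.cos_pi_div_four] at h2
  have h3 : (1.4 : ℝ) ≤ Real.sqrt 2 := by
    refine Real.le_sqrt_of_sq_le ?_
    norm_num
  rw [h1]
  linarith

/-- the constants are as they should be -/
theorem par_kap (M : ℕ) (hM : 4 ≤ M) : Par (Evm_d M) (kap M) := by
  have h1 := Evm_pos M hM
  have h2 := Evm_le M hM
  have h3 : 0 < qM M := by
    rw [← Evm_q]
    positivity
  have h4 : qM M ≤ 2 / 3 := by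
    rw [← Evm_q]
    exact h2
  have h5 : 0 < 4 / qM M - 6 + qM M := by
    have h6 : 6 ≤ 4 / qM M := by
      rw [le_div_iff₀ h3]
      linarith
    linarith
  refine ⟨h1, h2, ?_, ?_⟩
  · unfold kap
    exact Real.sqrt_pos.2 h5
  · unfold kap
    rw [Real.sq_sqrt h5.le, show Evm_d M ^ 4 = (Evm_d M ^ 2) ^ 2 by ring, Evm_q]
    field_simp

/-! ### the polynomial -/

section

attribute [local instance] Classical.propDecidable Fintype.ofFinite

variable {V : Type} [AddCommGroup V] [Module F2 V] [Finite V]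

private theorem Evm_ofReal (m : Submodule F2 V → ℝ) (x : V → ℝ) :
    W (fun U => (m U : ℂ)) (fun v => (x v : ℂ)) = ((W m x : ℝ) : ℂ) := by
  unfold W
  push_cast
  rfl

private theorem Evm_zero (hAFF : St_AFF) (m : Submodule F2 V → ℂ) (Y : V → ℂ)
    (h0 : ‖Y 0‖ = 1) : ‖W m (Function.update Y 0 1)‖ = ‖W m Y‖ := by
  have h1 := (hAFF V ℂ m 0 (Function.update Y 0 1)).2 (Y 0)
  rw [Function.update_self, Function.update_idem, mul_one, Function.update_eq_self] at h1
  have h2 : Ws m 0 (Function.update Y 0 1) = W m (Function.update Y 0 1) := by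
    unfold Ws W
    rw [Finset.filter_true_of_mem fun U _ => U.zero_mem]
  rw [h2] at h1
  rw [h1]
  have h3 : W m (Function.update Y 0 1) + (Y 0 - 1) * W m (Function.update Y 0 1) =
      Y 0 * W m (Function.update Y 0 1) := by ring
  rw [h3, norm_mul, h0, one_mul]

private theorem Evm_core (hMAI : St_MAI) (hAFF : St_AFF) {δ κ : ℝ} (hP : Par δ κ)
    (m : Submodule F2 V → ℝ) (hm : Adm δ m) (P : Set V) (w : V) (Y : V → ℂ) (h0 : (0 : V) ∉ P)
    (hw : w ∉ P) (hs : span F2 P = ⊤) (hY0 : ‖Y 0‖ = 1) (hYw : ‖Y w‖ = 1)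
    (hY : ∀ v, v ≠ 0 → v ≠ w → Y v = if v ∈ P then -1 else 1) :
    κ ^ finrank F2 V ≤ ‖W (fun U => (m U : ℂ)) Y‖ := by
  have hA : ∀ Q : Set V, (0 : V) ∉ Q → span F2 Q = ⊤ →
      κ ^ finrank F2 V ≤ W m (chi Q) := fun Q h1 h2 =>
    (hMAI δ κ hP (finrank F2 V) Q.ncard).1 V m hm rfl Q le_rfl h1 h2
  rw [← Evm_zero hAFF _ Y hY0]
  have hκ : 0 ≤ κ ^ finrank F2 V := pow_nonneg hP.kpos.le _
  by_cases hw0 : w = 0
  · have h1 : Function.update Y 0 1 = fun v => ((chi P v : ℝ) : ℂ) := by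
      funext v
      by_cases hv : v = 0
      · subst hv
        rw [Function.update_self]
        unfold chi
        rw [if_neg h0]
        simp
      · rw [Function.update_of_ne hv, hY v hv (by rw [hw0]; exact hv)]
        unfold chi
        split_ifs <;> simp
    rw [h1, Evm_ofReal, Complex.norm_real, Real.norm_eq_abs]
    exact (hA P h0 hs).trans (le_abs_self _)
  · have h1 : Function.update Y 0 1 =
        Function.update (fun v => ((chi P v : ℝ) : ℂ)) w (Y w) := by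
      funext v
      by_cases hv : v = 0
      · subst hv
        rw [Function.update_self, Function.update_of_ne (Ne.symm hw0)]
        unfold chi
        rw [if_neg h0]
        simp
      · rw [Function.update_of_ne hv]
        by_cases hvw : v = w
        · subst hvw
          rw [Function.update_self]
        · rw [Function.update_of_ne hvw, hY v hv hvw]
          unfold chi
          split_ifs <;> simp
    obtain ⟨a, b, hab⟩ := (hAFF V ℂ (fun U => (m U : ℂ)) w (fun v => ((chi P v : ℝ) : ℂ))).1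
    rw [h1, hab]
    have h2 : Function.update (fun v => ((chi P v : ℝ) : ℂ)) w 1 =
        fun v => ((chi P v : ℝ) : ℂ) := by
      funext v
      by_cases hvw : v = w
      · subst hvw
        rw [Function.update_self]
        unfold chi
        rw [if_neg hw]
        simp
      · rw [Function.update_of_ne hvw]
    have h3 : Function.update (fun v => ((chi P v : ℝ) : ℂ)) w (-1) =
        fun v => ((chi (insert w P) v : ℝ) : ℂ) := by
      funext v
      by_cases hvw : v = w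
      · subst hvw
        rw [Function.update_self]
        unfold chi
        rw [if_pos (Set.mem_insert _ _)]
        simp
      · rw [Function.update_of_ne hvw]
        unfold chi
        have h4 : v ∈ insert w P ↔ v ∈ P := by
          rw [Set.mem_insert_iff]
          exact ⟨fun h => h.resolve_left hvw, Or.inr⟩
        simp only [h4]
    have e1 := hab 1
    rw [h2, Evm_ofReal] at e1
    have e2 := hab (-1)
    rw [h3, Evm_ofReal] at e2
    have k1 := hA P h0 hs
    have k2 := hA (insert w P) (by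
      rw [Set.mem_insert_iff]
      rintro (h | h)
      · exact hw0 h.symm
      · exact h0 h) (top_le_iff.1 (by
        rw [← hs]
        exact span_mono (Set.subset_insert _ _)))
    obtain ⟨p, hp⟩ : ∃ p, p = W m (chi P) := ⟨_, rfl⟩
    obtain ⟨q, hq⟩ : ∃ q, q = W m (chi (insert w P)) := ⟨_, rfl⟩
    rw [← hp] at e1 k1
    rw [← hq] at e2 k2
    have ha : a = (((p + q) / 2 : ℝ) : ℂ) := by
      push_cast
      linear_combination (-1 / 2 : ℂ) * e1 + (-1 / 2 : ℂ) * e2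
    have hb : b = (((p - q) / 2 : ℝ) : ℂ) := by
      push_cast
      linear_combination (-1 / 2 : ℂ) * e1 + (1 / 2 : ℂ) * e2
    have h5 : ‖a‖ - ‖b‖ ≤ ‖a + Y w * b‖ := by
      have h6 := norm_sub_norm_le a (-(Y w * b))
      rw [norm_neg, norm_mul, hYw, one_mul, sub_neg_eq_add] at h6
      exact h6
    refine le_trans ?_ h5
    rw [ha, hb, Complex.norm_real, Complex.norm_real, Real.norm_eq_abs, Real.norm_eq_abs,
      abs_of_nonneg (by linarith : (0 : ℝ) ≤ (p + q) / 2)]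
    rcases abs_cases ((p - q) / 2) with ⟨h, -⟩ | ⟨h, -⟩ <;> rw [h] <;> linarith

/-- the state sum is the value of the polynomial -/
private theorem Evm_sum (hPF : St_PF) {E : Type} [Fintype E] [DecidableEq E]
    (M : Matrix E E F2) (σ : E → Bool) (M0 : ℕ) (h4 : 4 ≤ M0) (m : Submodule F2 (rsp M) → ℝ)
    (k : Finset E → ℕ) (hm : ∀ B : Finset E,
      (-Evm_d M0) ^ B.card * cc m (span F2 (rw' M '' (B : Set E))) = (-Evm_d M0) ^ k B)
    (ks : (E → Bool) → ℕ)
    (hk : ∀ (s : E → Bool) (B : Finset E), (∀ c, c ∈ B ↔ s c = σ c) → ks s = k B) :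
    ‖∑ s : E → Bool, (∏ c, if s c then Aθ (Evm_t M0) else (Aθ (Evm_t M0))⁻¹) *
      (-(Aθ (Evm_t M0)) ^ 2 - ((Aθ (Evm_t M0))⁻¹) ^ 2) ^ ks s‖ =
    ‖W (fun U => (m U : ℂ)) (fun v => ∏ c with rw' M c = v, Evm_w M0 (σ c))‖ := by
  have hd := Evm_pos M0 h4
  set d : ℝ := -Evm_d M0 with hdd
  have hd0 : (d : ℂ) ≠ 0 := by
    rw [Complex.ofReal_ne_zero]
    exact neg_ne_zero.2 hd.ne'
  let e : (E → Bool) ≃ Finset E :=
    { toFun := fun s => Finset.univ.filter fun c => s c = σ c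
      invFun := fun B c => if c ∈ B then σ c else !σ c
      left_inv := fun s => by
        funext c
        by_cases h : s c = σ c
        · simp [h]
        · simp only [Finset.mem_filter, Finset.mem_univ, true_and, if_neg h]
          revert h
          cases s c <;> cases σ c <;> simp
      right_inv := fun B => by
        ext c
        by_cases h : c ∈ B
        · simp [h]
        · simp [h] }
  have he : ∀ s c, c ∈ e s ↔ s c = σ c := by
    intro s c
    show c ∈ Finset.univ.filter (fun c => s c = σ c) ↔ _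
    simp
  set u : ℂ := ∏ c, if !σ c then Aθ (Evm_t M0) else (Aθ (Evm_t M0))⁻¹ with hu
  have hun : ‖u‖ = 1 := by
    rw [hu, norm_prod]
    refine Finset.prod_eq_one fun c _ => ?_
    have hA : ‖Aθ (Evm_t M0)‖ = 1 := Complex.norm_exp_ofReal_mul_I _
    split_ifs
    · exact hA
    · rw [norm_inv, hA, inv_one]
  have hterm : ∀ s : E → Bool,
      (∏ c, if s c then Aθ (Evm_t M0) else (Aθ (Evm_t M0))⁻¹) *
        (-(Aθ (Evm_t M0)) ^ 2 - ((Aθ (Evm_t M0))⁻¹) ^ 2) ^ ks s =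
      u * ((∏ c ∈ e s, (Evm_w M0 (σ c) - 1)) *
        cc (fun U => (m U : ℂ)) (span F2 (rw' M '' ((e s : Finset E) : Set E)))) := by
    intro s
    have h1 : ∀ c, (if s c then Aθ (Evm_t M0) else (Aθ (Evm_t M0))⁻¹) =
        (if !σ c then Aθ (Evm_t M0) else (Aθ (Evm_t M0))⁻¹) *
          if c ∈ e s then (Evm_w M0 (σ c) - 1) * (d : ℂ)⁻¹ else 1 := by
      intro c
      by_cases h : s c = σ c
      · rw [if_pos ((he s c).2 h), h]
        exact Evm_ratio M0 hd.ne' (σ c)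
      · rw [if_neg (fun h' => h ((he s c).1 h')), mul_one]
        have h2 : s c = !σ c := by
          revert h
          cases s c <;> cases σ c <;> simp
        rw [h2]
    rw [Finset.prod_congr rfl fun c _ => h1 c, Finset.prod_mul_distrib, ← hu, mul_assoc]
    congr 1
    rw [Finset.prod_ite_mem, Finset.univ_inter, Finset.prod_mul_distrib, Finset.prod_const,
      mul_assoc]
    congr 1
    have h2 : cc (fun U => (m U : ℂ)) (span F2 (rw' M '' ((e s : Finset E) : Set E))) =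
        ((cc m (span F2 (rw' M '' ((e s : Finset E) : Set E))) : ℝ) : ℂ) := by
      unfold cc
      push_cast
      rfl
    rw [h2, Evm_Ad, ← hdd, hk s (e s) (he s)]
    have h3 : ((d : ℂ)) ^ k (e s) =
        (d : ℂ) ^ (e s).card * ((cc m (span F2 (rw' M '' ((e s : Finset E) : Set E))) : ℝ) : ℂ) := by
      rw [← Complex.ofReal_pow, ← Complex.ofReal_pow, ← Complex.ofReal_mul, hm (e s)]
    rw [h3, ← mul_assoc, ← mul_pow, inv_mul_cancel₀ hd0, one_pow, one_mul]
  rw [Finset.sum_congr rfl fun s _ => hterm s, ← Finset.mul_sum, norm_mul, hun, one_mul]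
  refine congrArg norm ((?_ : _ = _).trans
    ((hPF (rsp M) ℂ (fun U => (m U : ℂ)) E (rw' M) (fun c => Evm_w M0 (σ c))).trans ?_))
  · exact Fintype.sum_equiv e _ _ fun s => rfl
  · congr 1
    funext v
    refine Finset.prod_congr ?_ fun _ _ => rfl
    ext c
    simp

private theorem Evm_main (hMAI : St_MAI) (hAFF : St_AFF) (hPF : St_PF) (hMOB : St_MOB)
    (hSYM : St_SYM) (hKER : St_KER) {E : Type} [Fintype E] [DecidableEq E]
    (M : Matrix E E F2) (hM : ∀ i j, M i j = M j i) (σ : E → Bool) (M0 : ℕ) (h4 : 4 ≤ M0)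
    (w : E → F2) (τ : (E → F2) → ℤ)
    (hτ : ∀ v (S : Finset E), (∀ c, c ∈ S ↔ M c = v) → τ v = signedCount σ S)
    (h1 : ∀ c, M c ≠ 0 → M c ≠ w → (M0 : ℤ) ∣ τ (M c))
    (h2 : span F2 {v | (∃ c, M c = v) ∧ v ≠ w ∧ ∃ k : ℤ, τ v = (2 * k + 1) * M0} = rsp M)
    (ks : (E → Bool) → ℕ)
    (hk : ∀ (s : E → Bool) (B : Finset E), (∀ c, c ∈ B ↔ s c = σ c) → ks s =
      finrank F2 (LinearMap.ker
          (M + Matrix.diagonal fun c => if c ∈ B then (0 : F2) else 1).mulVecLin)) :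
    kap M0 ^ finrank F2 (rsp M) ≤
    ‖∑ s : E → Bool, (∏ c, if s c then Aθ (Evm_t M0) else (Aθ (Evm_t M0))⁻¹) *
      (-(Aθ (Evm_t M0)) ^ 2 - ((Aθ (Evm_t M0))⁻¹) ^ 2) ^ ks s‖ := by
  obtain ⟨S, hS, hK⟩ := hKER E M hM
  have hd := Evm_pos M0 h4
  have hd0 : -Evm_d M0 ≠ 0 := neg_ne_zero.2 hd.ne'
  obtain ⟨m, hm⟩ := hMOB (rsp M) ℝ fun U => ((-Evm_d M0) ^ finrank F2 U)⁻¹ *
    (-Evm_d M0) ^ finrank F2 (U.dualAnnihilator ⊓ U.comap S : Submodule F2 (Dual F2 (rsp M)))
  have hm' : ∀ U : Submodule F2 (rsp M), (-Evm_d M0) ^ finrank F2 U * cc m U =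
      (-Evm_d M0) ^ finrank F2
        (U.dualAnnihilator ⊓ U.comap S : Submodule F2 (Dual F2 (rsp M))) := by
    intro U
    rw [hm U, ← mul_assoc, mul_inv_cancel₀ (pow_ne_zero _ hd0), one_mul]
  have hAdm : Adm (Evm_d M0) m := hSYM (rsp M) S hS (Evm_d M0) m hd.ne' hm'
  rw [Evm_sum hPF M σ M0 h4 m (fun B => finrank F2 (LinearMap.ker
          (M + Matrix.diagonal fun c => if c ∈ B then (0 : F2) else 1).mulVecLin)) (by
    intro B
    have e1 := hK B _ rfl
    have e2 := hm' (span F2 (rw' M '' (B : Set E)))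
    have e3 : (-Evm_d M0) ^ finrank F2 (span F2 (rw' M '' (B : Set E))) ≠ 0 :=
      pow_ne_zero _ hd0
    refine mul_left_cancel₀ e3 ?_
    rw [mul_left_comm, e2, ← pow_add, ← pow_add, add_comm B.card, ← e1, add_comm]) ks hk]
  -- the exceptional row
  obtain ⟨w', hw1, hw2⟩ : ∃ w' : rsp M, (∀ v : rsp M, v ≠ 0 → v ≠ w' → v.1 ≠ w) ∧
      (w' = 0 ∨ w'.1 = w) := by
    by_cases hw : w ∈ rsp M
    · exact ⟨⟨w, hw⟩, fun v _ h h' => h (Subtype.ext h'), Or.inr rfl⟩
    · exact ⟨0, fun v _ _ h' => hw (h' ▸ v.2), Or.inl rfl⟩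
  set P : Set (rsp M) := {v | v ≠ 0 ∧ v.1 ≠ w ∧ (∃ c, M c = v.1) ∧
    ∃ k : ℤ, τ v.1 = (2 * k + 1) * M0} with hP
  have hY : ∀ v : rsp M, (∏ c with rw' M c = v, Evm_w M0 (σ c)) = Evm_y M0 ^ τ v.1 := by
    intro v
    rw [Evm_prod, hτ v.1 (Finset.univ.filter fun c => rw' M c = v)]
    intro c
    rw [Finset.mem_filter]
    constructor
    · rintro ⟨-, h⟩
      rw [← h]
      rfl
    · intro h
      exact ⟨Finset.mem_univ _, Subtype.ext h⟩
  refine Evm_core hMAI hAFF (par_kap M0 h4) m hAdm P w' _ (fun h => h.1 rfl) ?_ ?_ ?_ ?_ ?_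
  · rintro ⟨h5, h6, -⟩
    rcases hw2 with h | h
    · exact h5 h
    · exact h6 h
  · have h5 : (span F2 P).map (rsp M).subtype = (⊤ : Submodule F2 (rsp M)).map (rsp M).subtype := by
      rw [Submodule.map_subtype_top, Submodule.map_span]
      apply le_antisymm
      · rw [span_le]
        rintro _ ⟨v, -, rfl⟩
        exact v.2
      · refine h2.symm.le.trans (span_le.2 ?_)
        rintro v ⟨⟨c, hc⟩, hvw, hv⟩
        by_cases hv0 : v = 0
        · rw [hv0]
          exact Submodule.zero_mem _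
        · refine subset_span ⟨⟨v, hc ▸ (rw' M c).2⟩, ⟨fun h => hv0 (congrArg Subtype.val h), hvw,
            ⟨c, hc⟩, hv⟩, rfl⟩
    exact Submodule.map_injective_of_injective (rsp M).subtype_injective h5
  · rw [hY]
    exact Evm_norm M0 _
  · rw [hY]
    exact Evm_norm M0 _
  · intro v hv0 hvw
    rw [hY]
    have hvw' := hw1 v hv0 hvw
    by_cases hc : ∃ c, M c = v.1
    · obtain ⟨c, hc⟩ := hc
      have h5 := h1 c (by
        rw [hc]
        exact fun h => hv0 (Subtype.ext h)) (by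
        rw [hc]
        exact hvw')
      rw [hc] at h5
      obtain ⟨k, hk'⟩ := h5
      have hM0 : (M0 : ℤ) ≠ 0 := by
        have : 0 < M0 := by omega
        exact_mod_cast this.ne'
      rw [hk', mul_comm, Evm_even M0 h4]
      rcases Int.even_or_odd k with hke | hko
      · rw [hke.neg_one_zpow, if_neg]
        rintro ⟨-, -, -, l, hl⟩
        rw [hk', mul_comm] at hl
        have := mul_right_cancel₀ hM0 hl
        obtain ⟨j, hj⟩ := hke
        omega
      · rw [hko.neg_one_zpow, if_pos]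
        obtain ⟨l, hl⟩ := hko
        exact ⟨hv0, hvw', ⟨c, hc⟩, l, by rw [hk', hl]; ring⟩
    · have h5 : τ v.1 = 0 := by
        rw [hτ v.1 ∅ (fun c => by
          constructor
          · intro h
            exact absurd h (Finset.notMem_empty c)
          · intro h
            exact absurd ⟨c, h⟩ hc)]
        unfold signedCount
        simp
      rw [h5, zpow_zero, if_neg]
      rintro ⟨-, -, h6, -⟩
      exact hc h6

end

/-- **The state sum of a symmetric matrix.** -/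
theorem evm (hMAI : St_MAI) (hAFF : St_AFF) (hPF : St_PF) (hMOB : St_MOB)
    (hSYM : St_SYM) (hKER : St_KER) {E : Type} [Fintype E] [DecidableEq E]
    (M : Matrix E E (ZMod 2)) (hM : ∀ i j, M i j = M j i) (σ : E → Bool) (M0 : ℕ) (h4 : 4 ≤ M0)
    (w : E → ZMod 2) (τ : (E → ZMod 2) → ℤ)
    (hτ : ∀ v (S : Finset E), (∀ c, c ∈ S ↔ M c = v) → τ v = signedCount σ S)
    (h1 : ∀ c, M c ≠ 0 → M c ≠ w → (M0 : ℤ) ∣ τ (M c))
    (h2 : span (ZMod 2) {v | (∃ c, M c = v) ∧ v ≠ w ∧ ∃ k : ℤ, τ v = (2 * k + 1) * M0} =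
      span (ZMod 2) (Set.range fun c => M c)) :
    kap M0 ^ finrank (ZMod 2) (span (ZMod 2) (Set.range fun c => M c)) ≤
    ‖∑ s : E → Bool, (∏ c, if s c then Aθ (Real.pi / M0 + 2 * Real.pi) else
        (Aθ (Real.pi / M0 + 2 * Real.pi))⁻¹) *
      (-(Aθ (Real.pi / M0 + 2 * Real.pi)) ^ 2 - ((Aθ (Real.pi / M0 + 2 * Real.pi))⁻¹) ^ 2) ^
        (finrank (ZMod 2) (LinearMap.ker
          (M + Matrix.diagonal fun c =>
            if s c = σ c then (0 : ZMod 2) else 1).mulVecLin))‖ := by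
  refine Evm_main hMAI hAFF hPF hMOB hSYM hKER M hM σ M0 h4 w τ hτ h1 h2 _ fun s B hB => ?_
  have h5 : (fun c => if s c = σ c then (0 : ZMod 2) else 1) =
      fun c => if c ∈ B then (0 : ZMod 2) else 1 := by
    funext c
    by_cases hc : s c = σ c
    · rw [if_pos hc, if_pos ((hB c).2 hc)]
    · rw [if_neg hc, if_neg (fun h => hc ((hB c).1 h))]
  rw [h5]

end Pool.Agent.EQT
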