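import Pool.Agent.EQT.St

/-!
# EQT, FIN: Theorem A, the case `P = (F \ 0) ∪ Z` (helper16)
-/

set_option autoImplicit false
set_option linter.unusedSectionVars false
set_option linter.unusedVariables false

namespace Pool.Agent.EQT

open Submodule Module

attribute [local instance] Classical.propDecidable Fintype.ofFinite

section

variable {V : Type} [AddCommGroup V] [Module F2 V] [Finite V]

private theorem FIN_hyp (F : Submodule F2 V) (h : 1 ≤ finrank F2 F) :
    ∃ F₁ : Submodule F2 V, F₁ ≤ F ∧ finrank F2 F₁ + 1 = finrank F2 F := by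
  have h0 : 0 < finrank F2 F := h
  have hn : Nontrivial F := Module.finrank_pos_iff.1 h0
  obtain ⟨v, hv⟩ := exists_ne (0 : F)
  obtain ⟨q, hq⟩ := Submodule.exists_isCompl (span F2 {v})
  have h1 := Submodule.finrank_add_eq_of_isCompl hq
  rw [finrank_span_singleton hv] at h1
  refine ⟨q.map F.subtype, Submodule.map_subtype_le F q, ?_⟩
  rw [Submodule.finrank_map_subtype_eq]
  omega

private theorem FIN_card (F : Submodule F2 V) :
    (Finset.univ.filter (fun g : V => g ∈ F)).card = 2 ^ finrank F2 F := by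
  have h1 : Nat.card F = 2 ^ finrank F2 F := by
    rw [Module.natCard_eq_pow_finrank (K := F2) (V := F), Nat.card_zmod]
  rw [← h1, ← Fintype.card_subtype, Nat.card_eq_fintype_card]

private theorem FIN_card2 (F F₁ : Submodule F2 V) (h : F₁ ≤ F)
    (hd : finrank F2 F₁ + 1 = finrank F2 F) :
    (Finset.univ.filter (fun g : V => g ∈ F ∧ g ∉ F₁)).card = 2 ^ finrank F2 F₁ := by
  have h1 : (Finset.univ.filter (fun g : V => g ∈ F)) =
      (Finset.univ.filter (fun g : V => g ∈ F₁)) ∪
        (Finset.univ.filter (fun g : V => g ∈ F ∧ g ∉ F₁)) := by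
    ext g
    simp only [Finset.mem_filter, Finset.mem_univ, true_and, Finset.mem_union]
    constructor
    · intro hg
      by_cases h2 : g ∈ F₁
      · exact Or.inl h2
      · exact Or.inr ⟨hg, h2⟩
    · rintro (h2 | h2)
      · exact h h2
      · exact h2.1
  have h2 : Disjoint (Finset.univ.filter (fun g : V => g ∈ F₁))
      (Finset.univ.filter (fun g : V => g ∈ F ∧ g ∉ F₁)) := by
    rw [Finset.disjoint_left]
    intro g hg hg'
    exact (Finset.mem_filter.1 hg').2.2 (Finset.mem_filter.1 hg).2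
  have h3 := congrArg Finset.card h1
  rw [Finset.card_union_of_disjoint h2, FIN_card, FIN_card, ← hd, pow_succ] at h3
  omega

/-- the final computation -/
private theorem FIN_num (δ κ : ℝ) (hP : Par δ κ) (hN : St_NUM) (μ r : ℕ) (hμ : 2 ≤ μ)
    (s : Finset V) (hs : s.card = 2 ^ (μ - 1)) (a : V → ℝ) (β w : ℝ)
    (h1 : ∀ g ∈ s, -(δ * (2 - δ ^ 2)) * a g ≤ (1 - δ ^ 2) * β)
    (h2 : ∀ g ∈ s, (∏ i ∈ Finset.range (μ - 1), ((2 : ℝ) ^ i - δ ^ 2) / δ) * κ ^ r ≤ a g)
    (h3 : w = β + 2 / δ * ∑ g ∈ s, a g) : κ ^ (μ + r) ≤ w := by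
  have hd := hP.pos
  have hq := hP.le
  have hk := hP.kpos
  have hq1 : 0 < 1 - δ ^ 2 := by linarith
  have hNc : ((s.card : ℕ) : ℝ) = 2 ^ (μ - 1) := by
    rw [hs]
    push_cast
    rfl
  have hNpos : (0 : ℝ) < 2 ^ (μ - 1) := by positivity
  have hN2 : (2 : ℝ) ≤ 2 ^ (μ - 1) := by
    calc (2 : ℝ) = 2 ^ 1 := (pow_one 2).symm
      _ ≤ 2 ^ (μ - 1) := pow_le_pow_right₀ (by norm_num) (by omega)
  have h2mu : (2 : ℝ) ^ μ = 2 * 2 ^ (μ - 1) := by
    rw [← pow_succ']
    congr 1
    omega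
  set A := ∑ g ∈ s, a g with hA
  set L := (∏ i ∈ Finset.range (μ - 1), ((2 : ℝ) ^ i - δ ^ 2) / δ) * κ ^ r with hL
  set p := ∏ i ∈ Finset.range (μ - 1), ((2 : ℝ) ^ i - δ ^ 2) with hp
  have e1 : (2 : ℝ) ^ (μ - 1) * L ≤ A := by
    have := Finset.card_nsmul_le_sum s a L h2
    rw [nsmul_eq_mul, hNc] at this
    exact this
  have e2 : -(δ * (2 - δ ^ 2)) * A ≤ 2 ^ (μ - 1) * ((1 - δ ^ 2) * β) := by
    have h4 : ∑ g ∈ s, -(δ * (2 - δ ^ 2)) * a g ≤ ∑ g ∈ s, (1 - δ ^ 2) * β :=
      Finset.sum_le_sum h1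
    rw [← Finset.mul_sum, Finset.sum_const, nsmul_eq_mul, hNc] at h4
    exact h4
  have hLp : δ ^ (μ - 1) * L = p * κ ^ r := by
    rw [hL, hp, Finset.prod_div_distrib, Finset.prod_const, Finset.card_range]
    field_simp
  have hc : 0 ≤ 2 * 2 ^ (μ - 1) * (1 - δ ^ 2) - δ ^ 2 * (2 - δ ^ 2) := by
    have hq0 : 0 ≤ δ ^ 2 := sq_nonneg δ
    nlinarith
  have e3 : (2 * 2 ^ (μ - 1) * (1 - δ ^ 2) - δ ^ 2 * (2 - δ ^ 2)) * (2 ^ (μ - 1) * L) ≤
      2 ^ (μ - 1) * (δ * (1 - δ ^ 2) * w) := by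
    have e4 : 2 ^ (μ - 1) * (δ * (1 - δ ^ 2) * w) =
        δ * (2 ^ (μ - 1) * ((1 - δ ^ 2) * β)) + 2 * 2 ^ (μ - 1) * (1 - δ ^ 2) * A := by
      rw [h3]
      field_simp
    have e5 := mul_le_mul_of_nonneg_left e2 hd.le
    have e6 := mul_le_mul_of_nonneg_left e1 hc
    rw [e4]
    nlinarith
  have e7 : (2 * 2 ^ (μ - 1) * (1 - δ ^ 2) - δ ^ 2 * (2 - δ ^ 2)) * L ≤ δ * (1 - δ ^ 2) * w := by
    have e8 : (2 * 2 ^ (μ - 1) * (1 - δ ^ 2) - δ ^ 2 * (2 - δ ^ 2)) * (2 ^ (μ - 1) * L) =
        2 ^ (μ - 1) * ((2 * 2 ^ (μ - 1) * (1 - δ ^ 2) - δ ^ 2 * (2 - δ ^ 2)) * L) := by ring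
    rw [e8] at e3
    exact le_of_mul_le_mul_left e3 hNpos
  have e9 := hN δ κ hP μ hμ
  rw [h2mu, ← hp] at e9
  have e10 : (κ * δ) ^ μ * (1 - δ ^ 2) * κ ^ r ≤ δ ^ (μ - 1) * (δ * (1 - δ ^ 2) * w) := by
    have e11 := mul_le_mul_of_nonneg_right e9 (pow_nonneg hk.le r)
    have e12 := mul_le_mul_of_nonneg_left e7 (pow_nonneg hd.le (μ - 1))
    have e13 : δ ^ (μ - 1) * ((2 * 2 ^ (μ - 1) * (1 - δ ^ 2) - δ ^ 2 * (2 - δ ^ 2)) * L) =
        (2 * 2 ^ (μ - 1) * (1 - δ ^ 2) - δ ^ 2 * (2 - δ ^ 2)) * p * κ ^ r := by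
      have : δ ^ (μ - 1) * ((2 * 2 ^ (μ - 1) * (1 - δ ^ 2) - δ ^ 2 * (2 - δ ^ 2)) * L) =
        (2 * 2 ^ (μ - 1) * (1 - δ ^ 2) - δ ^ 2 * (2 - δ ^ 2)) * (δ ^ (μ - 1) * L) := by ring
      rw [this, hLp]
      ring
    rw [e13] at e12
    exact e11.trans e12
  have e14 : δ ^ (μ - 1) * (δ * (1 - δ ^ 2) * w) = (δ ^ μ * (1 - δ ^ 2)) * w := by
    have : δ ^ μ = δ ^ (μ - 1) * δ := by
      rw [← pow_succ]
      congr 1
      omega
    rw [this]
    ring
  have e15 : (κ * δ) ^ μ * (1 - δ ^ 2) * κ ^ r = (δ ^ μ * (1 - δ ^ 2)) * κ ^ (μ + r) := by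
    rw [mul_pow, pow_add]
    ring
  rw [e14, e15] at e10
  exact le_of_mul_le_mul_left e10 (by positivity)

private theorem FIN_chi0 {Z : Set V} (h : (0 : V) ∉ Z) : chi Z 0 = 1 := by
  unfold chi
  rw [if_neg h]

private theorem FIN_chiG {Z : Set V} {v : V} (h : v ∉ Z) : chi Z v = 1 := by
  unfold chi
  rw [if_neg h]

private theorem FIN_chiZ {Z : Set V} {v : V} (h : v ∈ Z) : chi Z v = -1 := by
  unfold chi
  rw [if_pos h]

private theorem FIN_ne {Z : Set V} : {v | chi Z v ≠ 1} = Z := by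
  ext v
  constructor
  · intro h
    by_contra hv
    exact h (FIN_chiG hv)
  · intro h
    show chi Z v ≠ 1
    rw [FIN_chiZ h]
    norm_num

private theorem FIN_alw {Z : Set V} {δ : ℝ} (hq : δ ^ 2 ≤ 2 / 3) (h : (0 : V) ∉ Z) :
    Alw δ (chi Z) := by
  refine ⟨FIN_chi0 h, fun v => ?_⟩
  by_cases hv : v ∈ Z
  · right
    rw [FIN_chiZ hv]
    constructor
    · norm_num
    · linarith
  · left
    exact FIN_chiG hv

/-- a function which is `1` on `A` except at `0` is not changed by `setv A 1` -/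
private theorem FIN_setv (A : Set V) (x : V → ℝ) (h : ∀ v ∈ A, v ≠ 0 → x v = 1) :
    setv A 1 x = x := by
  funext v
  unfold setv
  by_cases hv : v ∈ A ∧ v ≠ 0
  · rw [if_pos hv]
    exact (h v hv.1 hv.2).symm
  · rw [if_neg hv]

/-- the value at `g` is not seen by the quotient -/
private theorem FIN_push (g : V) (x y : V → ℝ) (h : ∀ v, v ≠ g → x v = y v) :
    push (ln g) x = push (ln g) y := by
  funext w
  unfold push
  by_cases hw : w = 0
  · rw [if_pos hw, if_pos hw]
  · rw [if_neg hw, if_neg hw]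
    refine Finset.prod_congr rfl fun v hv => h v ?_
    rintro rfl
    have h1 := (Finset.mem_filter.1 hv).2
    refine hw ?_
    rw [← h1, Submodule.mkQ_apply, Submodule.Quotient.mk_eq_zero]
    exact subset_span rfl

end

theorem thm_FIN (hDC : St_DC) (hADQ : St_ADQ) (hE1 : St_E1) (hE2 : St_E2) (hPSF : St_PSF)
    (hCC : St_CC) (hLB : St_LB) (hNUM : St_NUM) : St_FIN := by
  intro δ κ hP V _ _ _ m hm n k hV hTA hTB hTBk F G Z P hFG hF2 h0Z hZG hspan hPdef hPk
  have hd := hP.pos
  have hq := hP.le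
  have hd0 : δ ≠ 0 := hd.ne'
  obtain ⟨F₁, hF₁, hF₁d⟩ := FIN_hyp F (by omega)
  have hdisj : ∀ v, v ∈ F → v ∈ G → v = 0 := by
    intro v h1 h2
    have h3 : v ∈ F ⊓ G := ⟨h1, h2⟩
    rw [hFG.inf_eq_bot] at h3
    exact (Submodule.mem_bot F2).1 h3
  set z : V → ℝ := chi Z with hz
  have hz0 : z 0 = 1 := FIN_chi0 h0Z
  have hzG : ∀ v, v ∉ G → z v = 1 := fun v hv => FIN_chiG fun h => hv (hZG v h)
  have hzF : ∀ v, v ∈ F → v ≠ 0 → z v = 1 := fun v hv hv0 => hzG v fun h => hv0 (hdisj v hv h)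
  -- the set
  have hchiP : chi P = setv F (-1) z := by
    funext v
    unfold setv
    by_cases hv : v ∈ (F : Set V) ∧ v ≠ 0
    · rw [if_pos hv]
      refine FIN_chiZ ?_
      rw [hPdef]
      exact Or.inl ⟨hv.1, hv.2⟩
    · rw [if_neg hv]
      by_cases hvZ : v ∈ Z
      · rw [hz, FIN_chiZ hvZ]
        refine FIN_chiZ ?_
        rw [hPdef]
        exact Or.inr hvZ
      · rw [hz, FIN_chiG hvZ]
        refine FIN_chiG ?_
        rw [hPdef]
        rintro (h1 | h1)
        · exact hv ⟨h1.1, h1.2⟩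
        · exact hvZ h1
  set s : Finset V := Finset.univ.filter (fun g : V => g ∈ F ∧ g ∉ F₁) with hs
  have hscard : s.card = 2 ^ (finrank F2 F - 1) := by
    rw [hs, FIN_card2 F F₁ hF₁ hF₁d]
    congr 1
    omega
  have hgs : ∀ g ∈ s, g ∈ F ∧ g ∉ F₁ ∧ g ≠ 0 := by
    intro g hg
    have h1 := (Finset.mem_filter.1 hg).2
    refine ⟨h1.1, h1.2, ?_⟩
    rintro rfl
    exact h1.2 (Submodule.zero_mem _)
  let a : V → ℝ := fun g => W (quo δ m (ln g)) (setv (F.map (ln g).mkQ) 0 (push (ln g) z))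
  let u₀ : ℝ := W m (setv F₁ 0 z)
  let β : ℝ := W m (setv F₁ (-1) z)
  have hsF : setv (F : Set V) 1 z = z := FIN_setv _ _ hzF
  have hsF₁ : setv (F₁ : Set V) 1 z = z := FIN_setv _ _ fun v hv hv0 => hzF v (hF₁ hv) hv0
  -- the sum
  have hW : W m (chi P) = β + 2 / δ * ∑ g ∈ s, a g := by
    have h1 := hE1 V m F z
    have h2 := hE1 V m F₁ z
    have h3 := hE2 V δ m F₁ F z hd0 hF₁ hF₁d hz0
    have h4 : setv {v | v ∈ F ∧ v ∉ F₁} 1 z = z := FIN_setv _ _ fun v hv hv0 => hzF v hv.1 hv0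
    have h5 : ∑ g with g ∈ F ∧ g ∉ F₁, W (quo δ m (ln g)) (push (ln g) (setv F 0 z)) =
        ∑ g ∈ s, a g := by
      refine Finset.sum_congr rfl fun g hg => ?_
      obtain ⟨hgF, hgF₁, hg0⟩ := hgs g hg
      obtain ⟨-, -, -, -, h6, -⟩ := hPSF V F G g hFG hgF hg0
      have h7 := (h6 z hz0 hzG).2.2.1 0
      rw [h7]
      norm_num [a]
    rw [h5, h4] at h3
    rw [hsF] at h1
    rw [hsF₁] at h2
    rw [hchiP, h1, h3]
    show 2 * (W m (setv F₁ 0 z) + 1 / δ * ∑ g ∈ s, a g) - W m z =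
      W m (setv F₁ (-1) z) + 2 / δ * ∑ g ∈ s, a g
    rw [h2]
    ring
  -- the data of the quotients
  have hquo : ∀ g ∈ s, -(δ * (2 - δ ^ 2)) * a g ≤ (1 - δ ^ 2) * β ∧
      (∏ i ∈ Finset.range (finrank F2 F - 1), ((2 : ℝ) ^ i - δ ^ 2) / δ) *
        κ ^ finrank F2 G ≤ a g := by
    intro g hg
    obtain ⟨hgF, hgF₁, hg0⟩ := hgs g hg
    obtain ⟨hc, hfF, hfG, hfV, h6, h7⟩ := hPSF V F G g hFG hgF hg0
    obtain ⟨p1, p2, p3, p4⟩ := h6 z hz0 hzG
    have hpz : push (ln g) z = chi ((ln g).mkQ '' Z) := h7 Z h0Z hZG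
    have h0Z' : (0 : V ⧸ ln g) ∉ (ln g).mkQ '' Z := by
      rintro ⟨v, hv, hv0⟩
      rw [Submodule.mkQ_apply, Submodule.Quotient.mk_eq_zero] at hv0
      have h8 : v ∈ F := (Submodule.span_le.2 (Set.singleton_subset_iff.2 hgF)) hv0
      rw [hdisj v h8 (hZG v hv)] at hv
      exact h0Z hv
    have hZG' : ∀ v ∈ (ln g).mkQ '' Z, v ∈ G.map (ln g).mkQ := by
      rintro _ ⟨v, hv, rfl⟩
      exact Submodule.mem_map_of_mem (hZG v hv)
    have hsp' : span F2 ((ln g).mkQ '' Z) = G.map (ln g).mkQ := by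
      rw [← Submodule.map_span, hspan]
    have hadm := hADQ V δ m (ln g) hm
    have hfr : finrank F2 (V ⧸ ln g) = n := by omega
    have hz'F : ∀ w ∈ (F.map (ln g).mkQ : Set (V ⧸ ln g)), w ≠ 0 → push (ln g) z w = 1 := by
      intro w hw hw0
      refine p2 w fun h => hw0 ?_
      have h3 : w ∈ F.map (ln g).mkQ ⊓ G.map (ln g).mkQ := ⟨hw, h⟩
      rw [hc.inf_eq_bot] at h3
      exact (Submodule.mem_bot F2).1 h3
    constructor
    · -- comparison
      obtain ⟨-, -, hcc⟩ := hCC δ κ hP n hTB (V ⧸ ln g) (quo δ m (ln g)) hadm hfr.le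
        (F.map (ln g).mkQ) (G.map (ln g).mkQ) (push (ln g) z) hc
        (by rw [hpz]; exact FIN_alw hq h0Z') p2 (by rw [hpz, FIN_ne]; exact hsp')
      have hE1' := hE1 (V ⧸ ln g) (quo δ m (ln g)) (F.map (ln g).mkQ) (push (ln g) z)
      rw [FIN_setv _ _ hz'F] at hE1'
      let x : V → ℝ := setv F₁ (-1) (Function.update z g (1 - δ ^ 2))
      have hx0 : x 0 = 1 := by
        show setv F₁ (-1) (Function.update z g (1 - δ ^ 2)) 0 = 1
        unfold setv
        rw [if_neg (fun h => h.2 rfl), Function.update_of_ne hg0.symm]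
        exact hz0
      have hxg : x g = 1 - δ ^ 2 := by
        show setv F₁ (-1) (Function.update z g (1 - δ ^ 2)) g = 1 - δ ^ 2
        unfold setv
        rw [if_neg (fun h => hgF₁ h.1), Function.update_self]
      have hxv : ∀ v, v ≠ g → x v = setv F₁ (-1) z v := by
        intro v hv
        show setv F₁ (-1) (Function.update z g (1 - δ ^ 2)) v = _
        unfold setv
        rw [Function.update_of_ne hv]
      have hDCx := hDC V δ m g x hd0 hg0 hx0
      have hup : Function.update x g 1 = setv F₁ (-1) z := by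
        funext v
        by_cases hv : v = g
        · subst hv
          rw [Function.update_self]
          unfold setv
          rw [if_neg (fun h => hgF₁ h.1)]
          exact (hzF _ hgF hg0).symm
        · rw [Function.update_of_ne hv]
          exact hxv v hv
      have hpx : push (ln g) x = setv (F.map (ln g).mkQ) (-1) (push (ln g) z) := by
        rw [FIN_push g x (setv F₁ (-1) z) hxv]
        exact p4 F₁ hF₁ hF₁d hgF₁ (-1)
      rw [hup, hpx, hxg, hE1'] at hDCx
      -- positivity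
      have hne : {v | x v ≠ 1} ⊆ P := by
        intro v hv
        by_contra hvP
        refine hv ?_
        have hvF : ¬ (v ∈ F ∧ v ≠ 0) := fun h => hvP (by rw [hPdef]; exact Or.inl h)
        have hvZ : v ∉ Z := fun h => hvP (by rw [hPdef]; exact Or.inr h)
        have hvg : v ≠ g := by
          rintro rfl
          exact hvF ⟨hgF, hg0⟩
        rw [hxv v hvg]
        unfold setv
        rw [if_neg (fun h => hvF ⟨hF₁ h.1, h.2⟩)]
        exact FIN_chiG hvZ
      obtain ⟨f, hf, hf0⟩ : ∃ f ∈ F₁, f ≠ 0 := by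
        have h8 : 0 < finrank F2 F₁ := by omega
        have hn : Nontrivial F₁ := Module.finrank_pos_iff.1 h8
        obtain ⟨v, hv⟩ := exists_ne (0 : F₁)
        exact ⟨v, v.2, fun h => hv (Subtype.ext h)⟩
      have hgf : g + f ∉ F₁ := fun h => hgF₁ (by
        have h8 := F₁.sub_mem h hf
        rwa [add_sub_cancel_right] at h8)
      have hgf0 : g + f ≠ 0 := fun h => hgf (by rw [h]; exact F₁.zero_mem)
      have hgfF : g + f ∈ F := F.add_mem hgF (hF₁ hf)
      have hgfx : x (g + f) = 1 := by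
        have h8 : g + f ≠ g := fun h => hf0 (by simpa using h)
        rw [hxv _ h8]
        unfold setv
        rw [if_neg (fun h => hgf h.1)]
        exact hzF _ hgfF hgf0
      have hcard : {v | x v ≠ 1}.ncard ≤ k := by
        have h8 : {v | x v ≠ 1} ⊂ P := by
          refine ⟨hne, fun h => ?_⟩
          have h9 : g + f ∈ P := by
            rw [hPdef]
            exact Or.inl ⟨hgfF, hgf0⟩
          exact h h9 hgfx
        have h10 := Set.ncard_lt_ncard h8 (Set.toFinite P)
        omega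
      have hAlw : Alw δ x := by
        refine ⟨hx0, fun v => ?_⟩
        by_cases hvg : v = g
        · right
          rw [hvg, hxg]
          constructor
          · nlinarith
          · exact le_rfl
        · rw [hxv v hvg]
          unfold setv
          by_cases hvF : v ∈ (F₁ : Set V) ∧ v ≠ 0
          · right
            rw [if_pos hvF]
            constructor
            · norm_num
            · linarith
          · rw [if_neg hvF]
            exact (FIN_alw hq h0Z).2 v
      have hspx : span F2 {v | x v ≠ 1} = ⊤ := by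
        rw [eq_top_iff, ← hFG.sup_eq_top]
        refine sup_le ?_ ?_
        · -- F
          have hgx : g ∈ span F2 {v | x v ≠ 1} := by
            refine subset_span ?_
            show x g ≠ 1
            rw [hxg]
            have := pow_pos hd 2
            intro h
            linarith
          have hF₁x : F₁ ≤ span F2 {v | x v ≠ 1} := by
            intro v hv
            by_cases hv0 : v = 0
            · rw [hv0]
              exact Submodule.zero_mem _
            · refine subset_span ?_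
              show x v ≠ 1
              have hvg : v ≠ g := by
                rintro rfl
                exact hgF₁ hv
              rw [hxv v hvg]
              unfold setv
              rw [if_pos ⟨hv, hv0⟩]
              norm_num
          have hle : F₁ ⊔ ln g ≤ span F2 {v | x v ≠ 1} :=
            sup_le hF₁x (Submodule.span_le.2 (Set.singleton_subset_iff.2 hgx))
          have heq : F₁ ⊔ ln g = F := by
            refine Submodule.eq_of_le_of_finrank_le
              (sup_le hF₁ (Submodule.span_le.2 (Set.singleton_subset_iff.2 hgF))) ?_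
            have hlt : F₁ < F₁ ⊔ ln g := by
              refine lt_of_le_of_ne le_sup_left fun h => hgF₁ ?_
              rw [h]
              exact (le_sup_right : ln g ≤ F₁ ⊔ ln g) (subset_span rfl)
            have := Submodule.finrank_lt_finrank_of_lt hlt
            omega
          rw [← heq]
          exact hle
        · rw [← hspan]
          refine span_mono fun v hv => ?_
          show x v ≠ 1
          have hv0 : v ≠ 0 := by
            rintro rfl
            exact h0Z hv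
          have hvg : v ≠ g := by
            rintro rfl
            exact hg0 (hdisj _ hgF (hZG _ hv))
          rw [hxv v hvg]
          unfold setv
          rw [if_neg (fun h => hv0 (hdisj v (hF₁ h.1) (hZG v hv)))]
          rw [hz, FIN_chiZ hv]
          norm_num
      have hpos := hTBk V m hm hV x hAlw hcard hspx
      have e1 : (1 - (1 - δ ^ 2)) / δ = δ := by
        field_simp
        ring
      rw [e1] at hDCx
      rw [hDCx] at hpos
      have hq1 : 0 < 1 - δ ^ 2 := by linarith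
      change 0 ≤ β + δ * (2 * a g - W (quo δ m (ln g)) (push (ln g) z)) at hpos
      change -δ ^ 2 * a g ≤ (1 - δ ^ 2) * W (quo δ m (ln g)) (push (ln g) z) at hcc
      have e2 := mul_nonneg hq1.le hpos
      have e3 := mul_le_mul_of_nonneg_left hcc hd.le
      nlinarith
    · have hr : ∀ k', TA δ κ (finrank F2 G) k' := by
        have h8 := Submodule.finrank_add_eq_of_isCompl hFG
        exact hTA _ (by omega)
      have h8 := hLB δ κ hP n hTB (finrank F2 G) hr (V ⧸ ln g) (quo δ m (ln g)) hadm hfr.le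
        (F.map (ln g).mkQ) (G.map (ln g).mkQ) ((ln g).mkQ '' Z) hc hfG h0Z' hZG' hsp'
      rw [← hpz] at h8
      have h9 : finrank F2 (F.map (ln g).mkQ) = finrank F2 F - 1 := by omega
      rw [h9] at h8
      exact h8
  have hfin := FIN_num δ κ hP hNUM (finrank F2 F) (finrank F2 G) hF2 s hscard a β (W m (chi P))
    (fun g hg => (hquo g hg).1) (fun g hg => (hquo g hg).2) hW
  have h8 := Submodule.finrank_add_eq_of_isCompl hFG
  rw [h8, hV] at hfin
  exact hfin

end Pool.Agent.EQT
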