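import Pool.Agent.EQT.St

/-!
# EQT [GCO]: Theorem A, the case of a good contraction (helper91)
-/

set_option autoImplicit false
set_option linter.unusedSectionVars false
set_option linter.unusedVariables false

namespace Pool.Agent.EQT

open Submodule Module

attribute [local instance] Classical.propDecidable Fintype.ofFinite

section

variable {V : Type} [AddCommGroup V] [Module F2 V] [Finite V]

private theorem GCO_mem_ln {g v : V} : v ∈ ln g ↔ v = 0 ∨ v = g := by
  rw [mem_span_singleton]
  constructor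
  · rintro ⟨a, rfl⟩
    have h : ∀ a : ZMod 2, a = 0 ∨ a = 1 := by decide
    rcases h a with h | h
    · left
      rw [h, zero_smul]
    · right
      rw [h, one_smul]
  · rintro (rfl | rfl)
    · exact ⟨0, zero_smul _ _⟩
    · exact ⟨1, one_smul _ _⟩

private theorem GCO_mkQ {g v v' : V} : (ln g).mkQ v' = (ln g).mkQ v ↔ v' = v ∨ v' = v + g := by
  rw [mkQ_apply, mkQ_apply, Submodule.Quotient.eq, GCO_mem_ln]
  constructor
  · rintro (h | h)
    · left
      exact sub_eq_zero.1 h
    · right
      rw [← h]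
      abel
  · rintro (rfl | rfl)
    · exact Or.inl (sub_self _)
    · right
      abel

private theorem GCO_push {g v : V} (hg : g ≠ 0) (hv : v ∉ ln g) (z : V → ℝ) :
    push (ln g) z ((ln g).mkQ v) = z v * z (v + g) := by
  unfold push
  have h0 : (ln g).mkQ v ≠ 0 := by
    rw [mkQ_apply, Ne, Submodule.Quotient.mk_eq_zero]
    exact hv
  rw [if_neg h0]
  have h1 : (Finset.univ.filter (fun v' => (ln g).mkQ v' = (ln g).mkQ v)) = {v, v + g} := by
    ext v'
    rw [Finset.mem_filter, Finset.mem_insert, Finset.mem_singleton, GCO_mkQ]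
    exact ⟨fun h => h.2, fun h => ⟨Finset.mem_univ _, h⟩⟩
  rw [h1, Finset.prod_pair]
  intro h
  exact hg (left_eq_add.1 h)

end

theorem thm_GCO (hDC : St_DC) (hADQ : St_ADQ) : St_GCO := by
  intro δ κ hp V _ _ _ m hm n hn hTA P e hP0 heP hs
  have he0 : e ≠ 0 := by
    rintro rfl
    exact hP0 heP
  have hx0 : chi P 0 = 1 := if_neg hP0
  have h1 := hDC V δ m e (chi P) hp.pos.ne' he0 hx0
  have h2 : Function.update (chi P) e 1 = chi (P \ {e}) := by
    funext v
    by_cases h : v = e
    · rw [h, Function.update_self]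
      exact (if_neg (fun h' : e ∈ P \ {e} => h'.2 rfl)).symm
    · rw [Function.update_of_ne h]
      unfold chi
      by_cases h' : v ∈ P
      · rw [if_pos h', if_pos (show v ∈ P \ {e} from ⟨h', h⟩)]
      · rw [if_neg h', if_neg (fun h'' : v ∈ P \ {e} => h' h''.1)]
  have h3 : chi P e = -1 := if_pos heP
  rw [h2, h3] at h1
  set P' : Set (V ⧸ ln e) := (ln e).mkQ '' {w | w ∈ P ∧ w ≠ e ∧ w + e ∉ P} with hP'
  have h0' : (0 : V ⧸ ln e) ∉ P' := by
    rintro ⟨w, ⟨hw, hwe, -⟩, h⟩
    have h4 : w ∈ ln e := by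
      rw [mkQ_apply] at h
      exact (Submodule.Quotient.mk_eq_zero _).1 h
    rcases GCO_mem_ln.1 h4 with h5 | h5
    · rw [h5] at hw
      exact hP0 hw
    · exact hwe h5
  have h5 : push (ln e) (chi P) = chi P' := by
    funext w
    by_cases hw : w = 0
    · rw [hw]
      have e1 : push (ln e) (chi P) 0 = 1 := if_pos rfl
      have e2 : chi P' 0 = 1 := if_neg h0'
      rw [e1, e2]
    obtain ⟨v, rfl⟩ := mkQ_surjective (ln e) w
    have hv : v ∉ ln e := by
      intro h
      apply hw
      rw [mkQ_apply]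
      exact (Submodule.Quotient.mk_eq_zero _).2 h
    have hv1 : v ≠ e := by
      rintro rfl
      exact hv (mem_span_singleton_self _)
    have hv2 : v + e ≠ e := by
      intro h
      apply hv
      have h6 : v = 0 := by
        have := congrArg (fun t => t - e) h
        simpa using this
      rw [h6]
      exact Submodule.zero_mem _
    have hvv : v + e + e = v := by
      rw [add_assoc, ZModModule.add_self, add_zero]
    rw [GCO_push he0 hv]
    by_cases ha : v ∈ P
    · by_cases hb : v + e ∈ P
      · have hc : (ln e).mkQ v ∉ P' := by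
          rintro ⟨w, ⟨hw1, -, hw3⟩, hw4⟩
          rcases GCO_mkQ.1 hw4 with rfl | rfl
          · exact hw3 hb
          · rw [hvv] at hw3
            exact hw3 ha
        unfold chi
        rw [if_pos ha, if_pos hb, if_neg hc]
        norm_num
      · have hc : (ln e).mkQ v ∈ P' := ⟨v, ⟨ha, hv1, hb⟩, rfl⟩
        unfold chi
        rw [if_pos ha, if_neg hb, if_pos hc]
        norm_num
    · by_cases hb : v + e ∈ P
      · have hc : (ln e).mkQ v ∈ P' := by
          refine ⟨v + e, ⟨hb, hv2, ?_⟩, GCO_mkQ.2 (Or.inr rfl)⟩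
          rw [hvv]
          exact ha
        unfold chi
        rw [if_neg ha, if_pos hb, if_pos hc]
        norm_num
      · have hc : (ln e).mkQ v ∉ P' := by
          rintro ⟨w, ⟨hw1, -, hw3⟩, hw4⟩
          rcases GCO_mkQ.1 hw4 with rfl | rfl
          · exact ha hw1
          · exact hb hw1
        unfold chi
        rw [if_neg ha, if_neg hb, if_neg hc]
        norm_num
  have h6 : span F2 P' = ⊤ := by
    have h7 : (span F2 {w | w ∈ P ∧ w + e ∉ P}).map (ln e).mkQ ≤ span F2 P' := by
      rw [map_span, span_le]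
      rintro _ ⟨w, ⟨hw1, hw2⟩, rfl⟩
      by_cases hwe : w = e
      · have h8 : (ln e).mkQ w = 0 := by
          rw [mkQ_apply, hwe]
          exact (Submodule.Quotient.mk_eq_zero _).2 (mem_span_singleton_self e)
        rw [h8]
        exact Submodule.zero_mem _
      · exact subset_span ⟨w, ⟨hw1, hwe, hw2⟩, rfl⟩
    rw [hs] at h7
    rw [eq_top_iff]
    rintro w -
    obtain ⟨v, rfl⟩ := mkQ_surjective (ln e) w
    exact h7 ⟨v, trivial, rfl⟩
  have h7 : finrank F2 (V ⧸ ln e) = n := by
    have h8 := Submodule.finrank_quotient_add_finrank (ln e)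
    rw [finrank_span_singleton he0] at h8
    omega
  have h8 : κ ^ n ≤ W (quo δ m (ln e)) (chi P') :=
    hTA P'.ncard (V ⧸ ln e) (quo δ m (ln e)) (hADQ V δ m (ln e) hm) h7 P' le_rfl h0' h6
  have h9 : 0 ≤ κ ^ n := pow_nonneg hp.kpos.le n
  rw [h5] at h1
  have h10 : 0 ≤ (1 - -1) / δ * W (quo δ m (ln e)) (chi P') := by
    have := hp.pos
    refine mul_nonneg (div_nonneg (by norm_num) this.le) (h9.trans h8)
  linarith

end Pool.Agent.EQT
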