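import Pool.Agent.EQT.St

/-!
# EQT, module KER: the kernels of the matrices (helper43)
-/

set_option autoImplicit false
set_option linter.unusedSectionVars false
set_option linter.unusedVariables false

namespace Pool.Agent.EQT

open Submodule Module

attribute [local instance] Classical.propDecidable Fintype.ofFinite

section

variable {E : Type} [Fintype E] [DecidableEq E]

/-- functions with support in `B` -/
private noncomputable def KER_SB (B : Finset E) : Submodule F2 (E → F2) :=
  LinearMap.ker (LinearMap.funLeft F2 F2 (Subtype.val : {c // c ∉ B} → E))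

private theorem KER_mem_SB (B : Finset E) (z : E → F2) :
    z ∈ KER_SB B ↔ ∀ c, c ∉ B → z c = 0 := by
  unfold KER_SB
  rw [LinearMap.mem_ker]
  constructor
  · intro h c hc
    exact congrFun h ⟨c, hc⟩
  · intro h
    funext c
    exact h c.1 c.2

private theorem KER_fin_SB (B : Finset E) : finrank F2 (KER_SB B) = B.card := by
  have h1 := LinearMap.finrank_range_add_finrank_ker
    (LinearMap.funLeft F2 F2 (Subtype.val : {c // c ∉ B} → E))
  have h2 : LinearMap.range (LinearMap.funLeft F2 F2 (Subtype.val : {c // c ∉ B} → E)) = ⊤ :=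
    LinearMap.range_eq_top.2
      (LinearMap.funLeft_surjective_of_injective F2 F2 _ Subtype.val_injective)
  rw [h2, finrank_top, Module.finrank_fintype_fun_eq_card,
    Module.finrank_fintype_fun_eq_card] at h1
  have h3 : Fintype.card {c // c ∉ B} = Fintype.card E - B.card := by
    rw [Fintype.card_subtype_compl, Fintype.card_coe]
  have h4 := B.card_le_univ
  unfold KER_SB
  omega

private theorem KER_rank {V W : Type} [AddCommGroup V] [Module F2 V] [FiniteDimensional F2 V]
    [AddCommGroup W] [Module F2 W] (f : V →ₗ[F2] W) (S : Submodule F2 V) :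
    finrank F2 (S.map f) + finrank F2 (S ⊓ LinearMap.ker f : Submodule F2 V) = finrank F2 S := by
  have h1 := LinearMap.finrank_range_add_finrank_ker (f.domRestrict S)
  rw [LinearMap.range_domRestrict, LinearMap.ker_domRestrict] at h1
  rw [← Submodule.map_comap_subtype, Submodule.finrank_map_subtype_eq]
  exact h1

variable (M : Matrix E E F2)

/-- the form `v ↦ y ⬝ v` -/
private noncomputable def KER_Phi : (E → F2) →ₗ[F2] Dual F2 (rsp M) where
  toFun y :=
    { toFun := fun v => ∑ c, y c * (v : E → F2) c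
      map_add' := fun u v => by
        rw [← Finset.sum_add_distrib]
        exact Finset.sum_congr rfl fun c _ => mul_add _ _ _
      map_smul' := fun a v => by
        rw [RingHom.id_apply, smul_eq_mul, Finset.mul_sum]
        exact Finset.sum_congr rfl fun c _ => mul_left_comm _ _ _ }
  map_add' y z := by
    ext v
    show ∑ c, (y c + z c) * (v : E → F2) c = ∑ c, y c * (v : E → F2) c + ∑ c, z c * (v : E → F2) c
    rw [← Finset.sum_add_distrib]
    exact Finset.sum_congr rfl fun c _ => add_mul _ _ _
  map_smul' a y := by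
    ext v
    show ∑ c, (a * y c) * (v : E → F2) c = a * ∑ c, y c * (v : E → F2) c
    rw [Finset.mul_sum]
    exact Finset.sum_congr rfl fun c _ => mul_assoc _ _ _

private theorem KER_Phi_apply (y : E → F2) (v : rsp M) :
    KER_Phi M y v = dotProduct y (v : E → F2) := rfl

/-- the vector of the values of a form at the rows -/
private noncomputable def KER_w : Dual F2 (rsp M) →ₗ[F2] (E → F2) where
  toFun φ := fun c => φ (rw' M c)
  map_add' _ _ := rfl
  map_smul' _ _ := rfl

private theorem KER_exists (φ : Dual F2 (rsp M)) : ∃ y, KER_Phi M y = φ := by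
  obtain ⟨g, hg⟩ := LinearMap.exists_extend φ
  refine ⟨fun c => g (Pi.single c (1 : F2)), ?_⟩
  ext v
  have h1 : (v : E → F2) = ∑ c, (v : E → F2) c • (Pi.single c (1 : F2) : E → F2) := by
    funext j
    simp [Finset.sum_apply, Pi.single_apply]
  have h2 : φ v = g (v : E → F2) := by
    rw [← hg]
    rfl
  rw [h2, h1, map_sum, KER_Phi_apply]
  unfold dotProduct
  refine Finset.sum_congr rfl fun c _ => ?_
  rw [map_smul, smul_eq_mul, mul_comm]

private theorem KER_w_Phi (y : E → F2) : KER_w M (KER_Phi M y) = M.mulVec y := by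
  funext c
  exact Finset.sum_congr rfl fun j _ => mul_comm _ _

variable (hM : ∀ i j, M i j = M j i)

include hM

private theorem KER_mulVec (z : E → F2) : M.mulVec z = ∑ c, z c • M c := by
  funext j
  rw [Finset.sum_apply]
  refine Finset.sum_congr rfl fun c _ => ?_
  show M j c * z c = z c * M c j
  rw [hM j c, mul_comm]

private theorem KER_single (b : E) : M.mulVec (Pi.single b 1) = M b := by
  rw [KER_mulVec M hM, Finset.sum_eq_single b]
  · rw [Pi.single_eq_same, one_smul]
  · intro c _ hc
    rw [Pi.single_eq_of_ne hc, zero_smul]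
  · intro h
    exact absurd (Finset.mem_univ _) h

private theorem KER_mem (z : E → F2) : M.mulVec z ∈ rsp M := by
  rw [KER_mulVec M hM]
  exact Submodule.sum_mem _ fun c _ => Submodule.smul_mem _ _ (subset_span ⟨c, rfl⟩)

private theorem KER_surj (v : rsp M) : ∃ z, M.mulVec z = (v : E → F2) := by
  have h1 : rsp M ≤ LinearMap.range M.mulVecLin := by
    rw [span_le]
    rintro _ ⟨c, rfl⟩
    exact ⟨Pi.single c 1, KER_single M hM c⟩
  exact h1 v.2

private theorem KER_dot (y z : E → F2) : dotProduct y (M.mulVec z) = dotProduct (M.mulVec y) z := by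
  have hT : M.transpose = M := by
    ext i j
    exact hM j i
  rw [Matrix.dotProduct_mulVec, ← Matrix.mulVec_transpose, hT]

private theorem KER_Phi_eq {y z : E → F2} (h : M.mulVec y = M.mulVec z) :
    KER_Phi M y = KER_Phi M z := by
  ext v
  obtain ⟨u, hu⟩ := KER_surj M hM v
  rw [KER_Phi_apply, KER_Phi_apply, ← hu, KER_dot M hM, KER_dot M hM, h]

private theorem KER_memS (φ : Dual F2 (rsp M)) :
    (KER_w M + M.mulVecLin ∘ₗ KER_w M) φ ∈ rsp M := by
  obtain ⟨y, rfl⟩ := KER_exists M φ
  show KER_w M (KER_Phi M y) + M.mulVec (KER_w M (KER_Phi M y)) ∈ rsp M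
  exact Submodule.add_mem _ (by rw [KER_w_Phi]; exact KER_mem M hM y) (KER_mem M hM _)

/-- the symmetric map -/
private noncomputable def KER_S : Dual F2 (rsp M) →ₗ[F2] rsp M :=
  LinearMap.codRestrict (rsp M) (KER_w M + M.mulVecLin ∘ₗ KER_w M) (KER_memS M hM)

private theorem KER_S_Phi (y : E → F2) :
    ((KER_S M hM (KER_Phi M y) : rsp M) : E → F2) = M.mulVec (y + M.mulVec y) := by
  show KER_w M (KER_Phi M y) + M.mulVec (KER_w M (KER_Phi M y)) = _
  rw [KER_w_Phi, Matrix.mulVec_add]

private theorem KER_symm (φ ψ : Dual F2 (rsp M)) : φ (KER_S M hM ψ) = ψ (KER_S M hM φ) := by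
  obtain ⟨y, rfl⟩ := KER_exists M φ
  obtain ⟨z, rfl⟩ := KER_exists M ψ
  rw [KER_Phi_apply, KER_Phi_apply, KER_S_Phi, KER_S_Phi, KER_dot M hM, KER_dot M hM,
    dotProduct_add, dotProduct_add, dotProduct_comm (M.mulVec z) (M.mulVec y)]
  congr 1
  rw [← KER_dot M hM, dotProduct_comm]

private theorem KER_map_U (B : Finset E) (U : Submodule F2 (rsp M))
    (hU : U = span F2 (rw' M '' (B : Set E))) :
    U.map (rsp M).subtype = (KER_SB B).map M.mulVecLin := by
  rw [hU, map_span]
  apply le_antisymm
  · rw [span_le]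
    rintro _ ⟨_, ⟨b, hb, rfl⟩, rfl⟩
    refine ⟨Pi.single b 1, ?_, KER_single M hM b⟩
    rw [SetLike.mem_coe, KER_mem_SB]
    intro c hc
    exact Pi.single_eq_of_ne (fun h => hc (by rw [h]; exact hb)) _
  · rintro _ ⟨z, hz, rfl⟩
    rw [SetLike.mem_coe, KER_mem_SB] at hz
    show M.mulVec z ∈ _
    rw [KER_mulVec M hM]
    refine Submodule.sum_mem _ fun c _ => ?_
    by_cases hc : c ∈ B
    · exact Submodule.smul_mem _ _ (subset_span ⟨rw' M c, ⟨c, hc, rfl⟩, rfl⟩)
    · rw [hz c hc, zero_smul]
      exact Submodule.zero_mem _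

private theorem KER_mem_U (B : Finset E) (U : Submodule F2 (rsp M))
    (hU : U = span F2 (rw' M '' (B : Set E))) (v : rsp M) :
    v ∈ U ↔ ∃ z ∈ KER_SB B, M.mulVec z = (v : E → F2) := by
  have h1 := KER_map_U M hM B U hU
  constructor
  · intro hv
    have h2 : (v : E → F2) ∈ (KER_SB B).map M.mulVecLin := by
      rw [← h1]
      exact ⟨v, hv, rfl⟩
    exact h2
  · rintro ⟨z, hz, h2⟩
    have h3 : (v : E → F2) ∈ U.map (rsp M).subtype := by
      rw [h1]
      exact ⟨z, hz, h2⟩
    obtain ⟨u, hu, h4⟩ := h3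
    have h5 : u = v := Subtype.ext h4
    rw [← h5]
    exact hu

end

private theorem KER_two (a : F2) : a + a = 0 := CharTwo.add_self_eq_zero a

theorem thm_KER : St_KER := by
  intro E _ _ M hM
  refine ⟨KER_S M hM, KER_symm M hM, fun B U hU => ?_⟩
  set D : E → F2 := fun c => if c ∈ B then (0 : F2) else 1 with hD
  have hDB : ∀ c, c ∈ B → D c = 0 := fun c hc => if_pos hc
  have hDN : ∀ c, c ∉ B → D c = 1 := fun c hc => if_neg hc
  have hK : ∀ y : E → F2, y ∈ LinearMap.ker (M + Matrix.diagonal D).mulVecLin ↔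
      ∀ c, M.mulVec y c + D c * y c = 0 := by
    intro y
    rw [LinearMap.mem_ker, Matrix.mulVecLin_apply, Matrix.add_mulVec, funext_iff]
    refine forall_congr' fun c => ?_
    rw [Pi.add_apply, Matrix.mulVec_diagonal, Pi.zero_apply]
  have h1 : LinearMap.ker (M + Matrix.diagonal D).mulVecLin ⊓ LinearMap.ker (KER_Phi M) =
      KER_SB B ⊓ LinearMap.ker M.mulVecLin := by
    ext y
    rw [Submodule.mem_inf, Submodule.mem_inf, hK, KER_mem_SB, LinearMap.mem_ker, LinearMap.mem_ker,
      Matrix.mulVecLin_apply]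
    constructor
    · rintro ⟨h2, h3⟩
      have h4 : M.mulVec y = 0 := by
        rw [← KER_w_Phi, h3, map_zero]
      refine ⟨fun c hc => ?_, h4⟩
      have h5 := h2 c
      rw [h4, Pi.zero_apply, zero_add, hDN c hc, one_mul] at h5
      exact h5
    · rintro ⟨h2, h3⟩
      refine ⟨fun c => ?_, ?_⟩
      · rw [h3, Pi.zero_apply, zero_add]
        by_cases hc : c ∈ B
        · rw [hDB c hc, zero_mul]
        · rw [h2 c hc, mul_zero]
      · have h4 : M.mulVec y = M.mulVec 0 := by rw [h3, Matrix.mulVec_zero]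
        rw [KER_Phi_eq M hM h4, map_zero]
  have h2 : (LinearMap.ker (M + Matrix.diagonal D).mulVecLin).map (KER_Phi M) =
      U.dualAnnihilator ⊓ U.comap (KER_S M hM) := by
    apply le_antisymm
    · rintro _ ⟨y, hy, rfl⟩
      rw [SetLike.mem_coe, hK] at hy
      refine Submodule.mem_inf.2 ⟨?_, ?_⟩
      · have h3 : U ≤ LinearMap.ker (KER_Phi M y) := by
          rw [hU, span_le]
          rintro _ ⟨b, hb, rfl⟩
          have h4 : KER_Phi M y (rw' M b) = M.mulVec y b := congrFun (KER_w_Phi M y) b
          rw [SetLike.mem_coe, LinearMap.mem_ker, h4]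
          have h5 := hy b
          rw [hDB b hb, zero_mul, add_zero] at h5
          exact h5
        rw [Submodule.mem_dualAnnihilator]
        exact fun u hu => h3 hu
      · rw [Submodule.mem_comap, KER_mem_U M hM B U hU]
        refine ⟨y + M.mulVec y, ?_, (KER_S_Phi M hM y).symm⟩
        rw [KER_mem_SB]
        intro c hc
        have h5 := hy c
        rw [hDN c hc, one_mul] at h5
        rw [Pi.add_apply, add_comm]
        exact h5
    · intro φ hφ
      obtain ⟨ha, hb⟩ := Submodule.mem_inf.1 hφ
      obtain ⟨y, rfl⟩ := KER_exists M φ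
      rw [Submodule.mem_dualAnnihilator] at ha
      rw [Submodule.mem_comap, KER_mem_U M hM B U hU] at hb
      obtain ⟨z, hz, hb⟩ := hb
      rw [KER_S_Phi, Matrix.mulVec_add] at hb
      rw [KER_mem_SB] at hz
      have h3 : M.mulVec (M.mulVec y + z) = M.mulVec y := by
        rw [Matrix.mulVec_add, hb]
        funext c
        rw [Pi.add_apply, Pi.add_apply]
        linear_combination KER_two (M.mulVec (M.mulVec y) c)
      refine ⟨M.mulVec y + z, ?_, KER_Phi_eq M hM h3⟩
      rw [SetLike.mem_coe, hK]
      intro c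
      rw [h3]
      by_cases hc : c ∈ B
      · rw [hDB c hc, zero_mul, add_zero]
        have h4 : KER_Phi M y (rw' M c) = M.mulVec y c := congrFun (KER_w_Phi M y) c
        rw [← h4]
        exact ha _ (by rw [hU]; exact subset_span ⟨c, hc, rfl⟩)
      · rw [hDN c hc, one_mul, Pi.add_apply, hz c hc, add_zero]
        exact KER_two _
  have h3 := KER_rank (KER_Phi M) (LinearMap.ker (M + Matrix.diagonal D).mulVecLin)
  have h4 := KER_rank M.mulVecLin (KER_SB B)
  rw [← KER_map_U M hM B U hU, Submodule.finrank_map_subtype_eq, KER_fin_SB] at h4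
  rw [h1, h2] at h3
  rw [← h3, ← h4]
  ring

end Pool.Agent.EQT
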