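import Pool.Agent.EQT.St

/-!
# EQT [LB]: lower bound for the value `0` on `F` (helper44)
-/

set_option autoImplicit false
set_option linter.unusedSectionVars false
set_option linter.unusedVariables false

namespace Pool.Agent.EQT

open Submodule Module

attribute [local instance] Classical.propDecidable Fintype.ofFinite

private theorem LB_chi {V : Type} [AddCommGroup V] [Module F2 V] {F G : Submodule F2 V} {Z : Set V}
    (hFG : IsCompl F G) (h0 : (0 : V) ∉ Z) (hZ : ∀ v ∈ Z, v ∈ G) {v : V} (hv : v ∈ F) : v ∉ Z := by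
  intro h
  have h1 : v ∈ F ⊓ G := ⟨hv, hZ v h⟩
  rw [hFG.inf_eq_bot, mem_bot] at h1
  rw [h1] at h
  exact h0 h

private theorem LB_push {V : Type} [AddCommGroup V] [Module F2 V] [Finite V] (g : V) (x : V → ℝ)
    (t : ℝ) : push (ln g) (Function.update x g t) = push (ln g) x := by
  funext w
  unfold push
  by_cases hw : w = 0
  · rw [if_pos hw, if_pos hw]
  · rw [if_neg hw, if_neg hw]
    refine Finset.prod_congr rfl fun v hv => ?_
    rw [Finset.mem_filter] at hv
    have h1 : v ≠ g := by
      rintro rfl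
      apply hw
      rw [← hv.2, mkQ_apply, Submodule.Quotient.mk_eq_zero]
      exact mem_span_singleton_self v
    rw [Function.update_of_ne h1]

private theorem LB_hyp {V : Type} [AddCommGroup V] [Module F2 V] [Finite V] (F : Submodule F2 V)
    (k : ℕ) (hk : finrank F2 F = k + 1) : ∃ F₁ ≤ F, finrank F2 F₁ + 1 = finrank F2 F := by
  have hne : Nontrivial F := by
    apply nontrivial_of_finrank_pos (R := F2)
    omega
  obtain ⟨g, hg⟩ := exists_ne (0 : F)
  obtain ⟨q, hq⟩ := Submodule.exists_isCompl (span F2 {g})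
  refine ⟨q.map F.subtype, map_subtype_le F q, ?_⟩
  rw [finrank_map_subtype_eq]
  have h1 := finrank_add_eq_of_isCompl hq
  rw [finrank_span_singleton hg] at h1
  omega

private theorem LB_card {V : Type} [AddCommGroup V] [Module F2 V] [Finite V]
    (F₁ F : Submodule F2 V) (h : F₁ ≤ F) (h1 : finrank F2 F₁ + 1 = finrank F2 F) :
    (Finset.univ.filter fun g : V => g ∈ F ∧ g ∉ F₁).card = 2 ^ finrank F2 F₁ := by
  have hc : ∀ H : Submodule F2 V, (Finset.univ.filter fun g : V => g ∈ H).card =
      2 ^ finrank F2 H := by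
    intro H
    have h2 := Module.natCard_eq_pow_finrank (K := F2) (V := H)
    rw [Nat.card_zmod] at h2
    rw [← h2, Nat.card_eq_fintype_card, Fintype.card_subtype]
  have h2 : (Finset.univ.filter fun g : V => g ∈ F) =
      (Finset.univ.filter fun g : V => g ∈ F₁) ∪
        (Finset.univ.filter fun g : V => g ∈ F ∧ g ∉ F₁) := by
    ext v
    simp only [Finset.mem_filter, Finset.mem_univ, true_and, Finset.mem_union]
    constructor
    · intro hv
      by_cases hv1 : v ∈ F₁
      · exact Or.inl hv1
      · exact Or.inr ⟨hv, hv1⟩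
    · rintro (hv | hv)
      · exact h hv
      · exact hv.1
  have h3 : Disjoint (Finset.univ.filter fun g : V => g ∈ F₁)
      (Finset.univ.filter fun g : V => g ∈ F ∧ g ∉ F₁) := by
    rw [Finset.disjoint_filter]
    intro v _ hv hv'
    exact hv'.2 hv
  have h4 := hc F
  rw [h2, Finset.card_union_of_disjoint h3, hc F₁, ← h1, pow_succ] at h4
  omega

theorem thm_LB (hADQ : St_ADQ) (hDC : St_DC) (hE2 : St_E2) (hPSF : St_PSF) : St_LB := by
  intro δ κ hP N hTB r hTA
  have hδ := hP.pos
  have hle := hP.le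
  have hq0 : 0 < δ ^ 2 := by positivity
  suffices key : ∀ (k : ℕ) (V : Type) [AddCommGroup V] [Module F2 V] [Finite V]
      (m : Submodule F2 V → ℝ), Adm δ m → finrank F2 V ≤ N → ∀ (F G : Submodule F2 V) (Z : Set V),
      finrank F2 F = k → IsCompl F G → finrank F2 G = r → (0 : V) ∉ Z → (∀ v ∈ Z, v ∈ G) →
      span F2 Z = G → (∏ i ∈ Finset.range k, ((2 : ℝ) ^ i - δ ^ 2) / δ) * κ ^ r ≤
        W m (setv F 0 (chi Z)) by
    intro V _ _ _ m hm hN F G Z hFG hG h0 hZ hs
    exact key _ V m hm hN F G Z rfl hFG hG h0 hZ hs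
  intro k
  induction k with
  | zero =>
    intro V _ _ _ m hm hN F G Z hF hFG hG h0 hZ hs
    have hF0 : F = ⊥ := finrank_eq_zero.1 hF
    subst hF0
    have hGt : G = ⊤ := by
      have h1 := hFG.sup_eq_top
      rwa [bot_sup_eq] at h1
    subst hGt
    have h1 : setv ((⊥ : Submodule F2 V) : Set V) 0 (chi Z) = chi Z := by
      funext v
      unfold setv
      rw [if_neg]
      rintro ⟨h2, h3⟩
      exact h3 ((mem_bot F2).1 h2)
    rw [Finset.prod_range_zero, one_mul, h1]
    refine hTA Z.ncard V m hm ?_ Z le_rfl h0 hs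
    rw [← hG, finrank_top]
  | succ k ih =>
    intro V _ _ _ m hm hN F G Z hF hFG hG h0 hZ hs
    obtain ⟨F₁, hF₁, hd⟩ := LB_hyp F k hF
    have hd' : finrank F2 F₁ = k := by omega
    have hx0 : chi Z 0 = 1 := by
      unfold chi
      rw [if_neg h0]
    have hxF : ∀ v ∈ F, chi Z v = 1 := by
      intro v hv
      unfold chi
      rw [if_neg (LB_chi hFG h0 hZ hv)]
    have hxG : ∀ v, v ∉ G → chi Z v = 1 := by
      intro v hv
      unfold chi
      rw [if_neg fun h => hv (hZ v h)]
    set L : ℝ := (∏ i ∈ Finset.range k, ((2 : ℝ) ^ i - δ ^ 2) / δ) * κ ^ r with hL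
    have hL0 : 0 ≤ L := by
      refine mul_nonneg (Finset.prod_nonneg fun i _ => ?_) (pow_nonneg hP.kpos.le _)
      refine div_nonneg ?_ hδ.le
      have h1 : (1 : ℝ) ≤ 2 ^ i := one_le_pow₀ (by norm_num)
      linarith
    set a : V → ℝ := fun g => W (quo δ m (ln g)) (push (ln g) (setv F 0 (chi Z))) with ha
    set u : ℝ := W m (setv F₁ 0 (chi Z)) with hu
    -- the quotients
    have hquo : ∀ g ∈ F, g ≠ 0 → push (ln g) (setv F 0 (chi Z)) =
        setv (F.map (ln g).mkQ) 0 (chi ((ln g).mkQ '' Z)) := by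
      intro g hg hg0
      obtain ⟨-, -, -, -, h5, h6⟩ := hPSF V F G g hFG hg hg0
      rw [(h5 (chi Z) hx0 hxG).2.2.1 0, h6 Z h0 hZ]
      norm_num
    have haL : ∀ g ∈ F, g ≠ 0 → L ≤ a g := by
      intro g hg hg0
      obtain ⟨h1, h2, h3, h4, h5, h6⟩ := hPSF V F G g hFG hg hg0
      show L ≤ W (quo δ m (ln g)) (push (ln g) (setv F 0 (chi Z)))
      rw [hquo g hg hg0]
      refine ih (V ⧸ ln g) (quo δ m (ln g)) (hADQ V δ m (ln g) hm) (by omega)
        (F.map (ln g).mkQ) (G.map (ln g).mkQ) ((ln g).mkQ '' Z) (by omega) h1 (by omega) ?_ ?_ ?_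
      · rintro ⟨z, hz, hz0⟩
        rw [mkQ_apply, Submodule.Quotient.mk_eq_zero] at hz0
        have h7 : z ∈ F := (span_le.2 (Set.singleton_subset_iff.2 hg) : ln g ≤ F) hz0
        exact LB_chi hFG h0 hZ h7 hz
      · rintro _ ⟨z, hz, rfl⟩
        exact mem_map_of_mem (hZ z hz)
      · rw [← map_span, hs]
    -- the identity
    have hid : W m (setv F 0 (chi Z)) = u + 1 / δ * ∑ g with g ∈ F ∧ g ∉ F₁, a g := by
      have h1 := hE2 V δ m F₁ F (chi Z) hδ.ne' hF₁ hd hx0
      have h2 : setv {v | v ∈ F ∧ v ∉ F₁} 1 (chi Z) = chi Z := by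
        funext v
        unfold setv
        by_cases hv : v ∈ {v | v ∈ F ∧ v ∉ F₁} ∧ v ≠ 0
        · rw [if_pos hv, hxF v hv.1.1]
        · rw [if_neg hv]
      rw [h2] at h1
      exact h1
    -- the inequality of Theorem B
    have hB : ∀ g, g ∈ F ∧ g ∉ F₁ → 0 ≤ u + δ * a g := by
      rintro g ⟨hg, hg1⟩
      have hg0 : g ≠ 0 := by
        rintro rfl
        exact hg1 F₁.zero_mem
      obtain ⟨-, -, -, -, h5, h6⟩ := hPSF V F G g hFG hg hg0
      let y : V → ℝ := setv F₁ 0 (Function.update (chi Z) g (1 - δ ^ 2))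
      have hy0 : y 0 = 1 := by
        show setv F₁ 0 (Function.update (chi Z) g (1 - δ ^ 2)) 0 = 1
        unfold setv
        rw [if_neg fun h => h.2 rfl, Function.update_of_ne hg0.symm, hx0]
      have hyg : y g = 1 - δ ^ 2 := by
        show setv F₁ 0 (Function.update (chi Z) g (1 - δ ^ 2)) g = _
        unfold setv
        rw [if_neg fun h => hg1 h.1, Function.update_self]
      have hyu : Function.update y g 1 = setv F₁ 0 (chi Z) := by
        funext v
        by_cases hv : v = g
        · subst hv
          rw [Function.update_self]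
          unfold setv
          rw [if_neg fun h => hg1 h.1, hxF v hg]
        · rw [Function.update_of_ne hv]
          show setv F₁ 0 (Function.update (chi Z) g (1 - δ ^ 2)) v = _
          unfold setv
          rw [Function.update_of_ne hv]
      have hyp : push (ln g) y = push (ln g) (setv F 0 (chi Z)) := by
        rw [← LB_push g y 1, hyu, (h5 (chi Z) hx0 hxG).2.2.2 F₁ hF₁ hd hg1 0, hquo g hg hg0,
          h6 Z h0 hZ]
      have h7 := hDC V δ m g y hδ.ne' hg0 hy0
      rw [hyu, hyg, hyp] at h7
      have h8 : (1 - (1 - δ ^ 2)) / δ = δ := by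
        field_simp
        ring
      rw [h8] at h7
      have h9 : u + δ * a g = W m y := h7.symm
      rw [h9]
      refine hTB (finrank F2 V) hN _ V m hm rfl y ⟨hy0, fun v => ?_⟩ le_rfl ?_
      · show setv F₁ 0 (Function.update (chi Z) g (1 - δ ^ 2)) v = 1 ∨
          (-1 ≤ setv F₁ 0 (Function.update (chi Z) g (1 - δ ^ 2)) v ∧
            setv F₁ 0 (Function.update (chi Z) g (1 - δ ^ 2)) v ≤ 1 - δ ^ 2)
        unfold setv
        split_ifs with hv
        · right
          constructor <;> linarith
        · by_cases hvg : v = g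
          · subst hvg
            rw [Function.update_self]
            right
            constructor <;> linarith
          · rw [Function.update_of_ne hvg]
            unfold chi
            split_ifs
            · right
              constructor <;> linarith
            · left
              rfl
      · rw [eq_top_iff, ← hFG.sup_eq_top]
        have hgm : g ∈ span F2 {v | y v ≠ 1} := by
          apply subset_span
          show y g ≠ 1
          rw [hyg]
          linarith
        have hF₁m : F₁ ≤ span F2 {v | y v ≠ 1} := by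
          intro v hv
          by_cases hv0 : v = 0
          · rw [hv0]
            exact zero_mem _
          · apply subset_span
            show setv F₁ 0 (Function.update (chi Z) g (1 - δ ^ 2)) v ≠ 1
            unfold setv
            rw [if_pos ⟨hv, hv0⟩]
            norm_num
        refine sup_le ?_ ?_
        · have h10 : F₁ ⊔ ln g = F := by
            apply eq_of_le_of_finrank_le (sup_le hF₁ (span_le.2 (Set.singleton_subset_iff.2 hg)))
            rw [← hd]
            apply Nat.succ_le_of_lt
            apply finrank_lt_finrank_of_lt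
            refine lt_of_le_of_ne le_sup_left ?_
            intro h11
            apply hg1
            rw [h11]
            exact (le_sup_right : ln g ≤ _) (mem_span_singleton_self g)
          rw [← h10]
          exact sup_le hF₁m (span_le.2 (Set.singleton_subset_iff.2 hgm))
        · rw [← hs, span_le]
          intro v hv
          apply subset_span
          have hvF : v ∉ F := fun h => LB_chi hFG h0 hZ h hv
          show setv F₁ 0 (Function.update (chi Z) g (1 - δ ^ 2)) v ≠ 1
          unfold setv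
          rw [if_neg fun h => hvF (hF₁ h.1), Function.update_of_ne (by
            rintro rfl
            exact hvF hg)]
          unfold chi
          rw [if_pos hv]
          norm_num
    -- the sum
    have hcard := LB_card F₁ F hF₁ hd
    rw [hd'] at hcard
    set s : Finset V := Finset.univ.filter fun g : V => g ∈ F ∧ g ∉ F₁ with hsdef
    have hmem : ∀ g ∈ s, g ∈ F ∧ g ∉ F₁ := fun g hg => (Finset.mem_filter.1 hg).2
    have hS1 : (2 : ℝ) ^ k * L ≤ ∑ g ∈ s, a g := by
      have h1 : ∑ g ∈ s, L ≤ ∑ g ∈ s, a g := by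
        refine Finset.sum_le_sum fun g hg => ?_
        obtain ⟨h2, h3⟩ := hmem g hg
        refine haL g h2 ?_
        rintro rfl
        exact h3 F₁.zero_mem
      rw [Finset.sum_const, hcard, nsmul_eq_mul] at h1
      push_cast at h1
      exact h1
    have hS2 : 0 ≤ (2 : ℝ) ^ k * u + δ * ∑ g ∈ s, a g := by
      have h1 : 0 ≤ ∑ g ∈ s, (u + δ * a g) := Finset.sum_nonneg fun g hg => hB g (hmem g hg)
      rw [Finset.sum_add_distrib, Finset.sum_const, hcard, nsmul_eq_mul, ← Finset.mul_sum] at h1
      push_cast at h1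
      exact h1
    rw [hid, Finset.prod_range_succ]
    set S : ℝ := ∑ g ∈ s, a g with hSdef
    have h2k : (1 : ℝ) ≤ 2 ^ k := one_le_pow₀ (by norm_num)
    have h1 : (∏ i ∈ Finset.range k, ((2 : ℝ) ^ i - δ ^ 2) / δ) * (((2 : ℝ) ^ k - δ ^ 2) / δ) *
        κ ^ r = ((2 : ℝ) ^ k - δ ^ 2) / δ * L := by
      rw [hL]
      ring
    rw [h1]
    -- `2 ^ k * (goal)`
    have h2 : (2 : ℝ) ^ k * (((2 : ℝ) ^ k - δ ^ 2) / δ * L) ≤
        (2 : ℝ) ^ k * (u + 1 / δ * S) := by
      have h3 : (2 : ℝ) ^ k * (((2 : ℝ) ^ k - δ ^ 2) / δ * L) =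
          ((2 : ℝ) ^ k - δ ^ 2) / δ * ((2 : ℝ) ^ k * L) := by ring
      have h4 : ((2 : ℝ) ^ k - δ ^ 2) / δ * ((2 : ℝ) ^ k * L) ≤
          ((2 : ℝ) ^ k - δ ^ 2) / δ * S := by
        refine mul_le_mul_of_nonneg_left hS1 (div_nonneg ?_ hδ.le)
        linarith
      have h5 : ((2 : ℝ) ^ k - δ ^ 2) / δ * S = (2 : ℝ) ^ k * (1 / δ * S) - δ * S := by
        field_simp
      rw [h3]
      linarith
    exact le_of_mul_le_mul_left h2 (by positivity)

end Pool.Agent.EQT
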