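import Pool.Agent.EQT.St

/-!
# EQT: [MOB], Moebius inversion, existence
-/

set_option autoImplicit false

namespace Pool.Agent.EQT

open Submodule Module

attribute [local instance] Classical.propDecidable Fintype.ofFinite

private theorem MOB_wf (V : Type) [AddCommGroup V] [Module F2 V] [Finite V] :
    WellFounded (fun a b : Submodule F2 V => b < a) := by
  have : Finite (Submodule F2 V) := inferInstance
  exact wellFounded_gt

private noncomputable def MOB_fun (V : Type) [AddCommGroup V] [Module F2 V] [Finite V]
    (R : Type) [CommRing R] (c : Submodule F2 V → R) : Submodule F2 V → R :=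
  (MOB_wf V).fix (fun U ih => c U - ∑ U' : {U' : Submodule F2 V // U < U'}, ih U'.1 U'.2)

private theorem MOB_eq (V : Type) [AddCommGroup V] [Module F2 V] [Finite V]
    (R : Type) [CommRing R] (c : Submodule F2 V → R) (U : Submodule F2 V) :
    MOB_fun V R c U =
      c U - ∑ U' : {U' : Submodule F2 V // U < U'}, MOB_fun V R c U'.1 := by
  unfold MOB_fun
  rw [WellFounded.fix_eq]

private theorem MOB_cc (V : Type) [AddCommGroup V] [Module F2 V] [Finite V]
    (R : Type) [CommRing R] (m : Submodule F2 V → R) (U : Submodule F2 V) :
    cc m U = m U + ∑ U' : {U' : Submodule F2 V // U < U'}, m U'.1 := by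
  unfold cc
  have h1 : (Finset.univ.filter fun U' : Submodule F2 V => U ≤ U') =
      insert U (Finset.univ.filter fun U' : Submodule F2 V => U < U') := by
    ext U'
    simp only [Finset.mem_filter, Finset.mem_univ, true_and, Finset.mem_insert]
    constructor
    · intro h
      rcases h.eq_or_lt with h | h
      · exact Or.inl h.symm
      · exact Or.inr h
    · rintro (h | h)
      · exact h ▸ le_refl _
      · exact h.le
  rw [h1, Finset.sum_insert (by simp)]
  congr 1
  refine Finset.sum_subtype _ (fun x => ?_) _
  simp

/-- [MOB] -/
theorem thm_MOB : St_MOB := by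
  intro V _ _ _ R _ c
  refine ⟨MOB_fun V R c, fun U => ?_⟩
  rw [MOB_cc, MOB_eq]
  ring

end Pool.Agent.EQT
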