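import Pool.Agent.EQT.St

/-!
# EQT, module NUM: the final inequality
-/

set_option autoImplicit false

namespace Pool.Agent.EQT

attribute [local instance] Classical.propDecidable Fintype.ofFinite

private lemma NUM_step (q y : ℝ) (hq0 : 0 ≤ q) (hq : q ≤ 2 / 3) (hy0 : 0 ≤ y) (hy : y ≤ 2)
    (hb : y ^ 2 = 4 - 6 * q + q ^ 2) (k : ℕ) :
    0 ≤ ((2 : ℝ) ^ (k + 2) * (1 - q) - q * (2 - q)) ∧
    0 ≤ ∏ i ∈ Finset.range (k + 1), ((2 : ℝ) ^ i - q) ∧
    y ^ (k + 2) * (1 - q) ≤ ((2 : ℝ) ^ (k + 2) * (1 - q) - q * (2 - q)) *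
      ∏ i ∈ Finset.range (k + 1), ((2 : ℝ) ^ i - q) := by
  induction k with
  | zero =>
    refine ⟨by norm_num; nlinarith [sq_nonneg q], by simp; linarith, ?_⟩
    simp only [zero_add, Finset.prod_range_one, pow_zero]
    nlinarith [hb]
  | succ k ih =>
    obtain ⟨h1, h2, h3⟩ := ih
    have hp : (1 : ℝ) ≤ (2 : ℝ) ^ k := one_le_pow₀ (by norm_num)
    have h4 : (2 : ℝ) ^ (k + 1) = 2 * 2 ^ k := by ring
    have h5 : (2 : ℝ) ^ (k + 2) = 4 * 2 ^ k := by ring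
    have h6 : (2 : ℝ) ^ (k + 1 + 2) = 8 * 2 ^ k := by ring
    have hC : 0 ≤ q * (2 - q) := mul_nonneg hq0 (by linarith)
    have hf : 1 ≤ (2 : ℝ) ^ (k + 1) - q := by rw [h4]; linarith
    have h7 : 2 * ((2 : ℝ) ^ (k + 2) * (1 - q) - q * (2 - q)) ≤
        (2 : ℝ) ^ (k + 1 + 2) * (1 - q) - q * (2 - q) := by
      rw [h5, h6]; linarith
    refine ⟨by linarith, ?_, ?_⟩
    · rw [Finset.prod_range_succ]
      exact mul_nonneg h2 (by linarith)
    · rw [Finset.prod_range_succ]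
      set Q := ∏ i ∈ Finset.range (k + 1), ((2 : ℝ) ^ i - q) with hQ
      set A := (2 : ℝ) ^ (k + 2) * (1 - q) - q * (2 - q) with hA
      set B := (2 : ℝ) ^ (k + 1 + 2) * (1 - q) - q * (2 - q) with hB
      set z := (2 : ℝ) ^ (k + 1) - q with hz
      have e1 : y ^ (k + 1 + 2) * (1 - q) = y * (y ^ (k + 2) * (1 - q)) := by ring
      rw [e1]
      calc y * (y ^ (k + 2) * (1 - q)) ≤ y * (A * Q) := mul_le_mul_of_nonneg_left h3 hy0
        _ ≤ 2 * (A * Q) := mul_le_mul_of_nonneg_right hy (mul_nonneg h1 h2)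
        _ = (2 * A) * Q := by ring
        _ ≤ B * Q := mul_le_mul_of_nonneg_right h7 h2
        _ = B * (Q * 1) := by ring
        _ ≤ B * (Q * z) := by
            refine mul_le_mul_of_nonneg_left (mul_le_mul_of_nonneg_left hf h2) ?_
            linarith

/-- the final inequality -/
theorem thm_NUM : St_NUM := by
  intro δ κ hP m hm
  obtain ⟨hpos, hle, hk, hsq⟩ := hP
  have hq0 : 0 ≤ δ ^ 2 := sq_nonneg δ
  have hb : (κ * δ) ^ 2 = 4 - 6 * δ ^ 2 + (δ ^ 2) ^ 2 := by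
    rw [mul_pow, hsq]; ring
  have hy0 : 0 ≤ κ * δ := (mul_pos hk hpos).le
  have hy : κ * δ ≤ 2 := by
    have h : (κ * δ) ^ 2 ≤ 2 ^ 2 := by rw [hb]; nlinarith
    exact (abs_le.1 (abs_le_of_sq_le_sq h (by norm_num))).2
  obtain ⟨k, rfl⟩ : ∃ k, m = k + 2 := ⟨m - 2, by omega⟩
  have h := (NUM_step (δ ^ 2) (κ * δ) hq0 hle hy0 hy hb k).2.2
  have e : k + 2 - 1 = k + 1 := by omega
  rw [e]
  exact h

end Pool.Agent.EQT
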