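import Pool.Agent.EQT.St

/-!
# EQT: the expansion over the subsets, for a family of vectors (helper4)
-/

set_option autoImplicit false
set_option linter.unusedSectionVars false
set_option linter.unusedVariables false

namespace Pool.Agent.EQT

open Submodule Module

attribute [local instance] Classical.propDecidable Fintype.ofFinite

section

variable {V : Type} [AddCommGroup V] [Module F2 V] [Finite V] {R : Type} [CommRing R]

private theorem PF_cc (m : Submodule F2 V → R) {ι : Type} [Fintype ι] (r : ι → V)
    (B : Finset ι) : cc m (span F2 (r '' (B : Set ι))) =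
      ∑ U, if B ⊆ Finset.univ.filter (fun i => r i ∈ U) then m U else 0 := by
  unfold cc
  rw [Finset.sum_filter]
  refine Finset.sum_congr rfl fun U _ => ?_
  have h : span F2 (r '' (B : Set ι)) ≤ U ↔ B ⊆ Finset.univ.filter (fun i => r i ∈ U) := by
    rw [span_le, Set.image_subset_iff]
    constructor
    · intro h i hi
      exact Finset.mem_filter.2 ⟨Finset.mem_univ _, h (Finset.mem_coe.2 hi)⟩
    · intro h i hi
      exact (Finset.mem_filter.1 (h (Finset.mem_coe.1 hi))).2
  by_cases h1 : span F2 (r '' (B : Set ι)) ≤ U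
  · rw [if_pos h1, if_pos (h.1 h1)]
  · rw [if_neg h1, if_neg fun h2 => h1 (h.2 h2)]

private theorem PF_prod (U : Submodule F2 V) {ι : Type} [Fintype ι] (r : ι → V) (x : ι → R) :
    ∏ v with v ∈ U, ∏ i with r i = v, x i = ∏ i with r i ∈ U, x i := by
  rw [← Finset.prod_fiberwise_of_maps_to (s := Finset.univ.filter (fun i => r i ∈ U))
    (t := Finset.univ.filter (fun v => v ∈ U)) (g := r)
    (fun i hi => Finset.mem_filter.2 ⟨Finset.mem_univ _, (Finset.mem_filter.1 hi).2⟩)]
  refine Finset.prod_congr rfl fun v hv => ?_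
  refine Finset.prod_congr ?_ fun _ _ => rfl
  ext i
  simp only [Finset.mem_filter, Finset.mem_univ, true_and]
  constructor
  · intro h
    exact ⟨h ▸ (Finset.mem_filter.1 hv).2, h⟩
  · exact fun h => h.2

end

theorem thm_PF : St_PF := by
  intro V _ _ _ R _ m ι _ r x
  simp only [PF_cc, Finset.mul_sum]
  rw [Finset.sum_comm]
  unfold W
  refine Finset.sum_congr rfl fun U _ => ?_
  rw [PF_prod U r x]
  have h1 : ∀ B : Finset ι, (∏ i ∈ B, (x i - 1)) *
      (if B ⊆ Finset.univ.filter (fun i => r i ∈ U) then m U else 0) =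
      if B ⊆ Finset.univ.filter (fun i => r i ∈ U) then m U * ∏ i ∈ B, (x i - 1) else 0 := by
    intro B
    split_ifs
    · exact mul_comm _ _
    · exact mul_zero _
  rw [Finset.sum_congr rfl fun B _ => h1 B, ← Finset.sum_filter, ← Finset.mul_sum]
  congr 1
  have h2 : (Finset.univ.filter fun B : Finset ι => B ⊆ Finset.univ.filter (fun i => r i ∈ U)) =
      (Finset.univ.filter (fun i => r i ∈ U)).powerset := by
    ext B
    simp only [Finset.mem_filter, Finset.mem_univ, true_and, Finset.mem_powerset]
  rw [h2, ← Finset.prod_one_add]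
  refine Finset.prod_congr rfl fun i _ => ?_
  ring

end Pool.Agent.EQT
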