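import Pool.Agent.EQT.St

/-!
# EQT: quotients by a line (module PSF, helper6)
-/

set_option autoImplicit false
set_option linter.unusedSectionVars false
set_option linter.unusedVariables false

namespace Pool.Agent.EQT

open Submodule Module

attribute [local instance] Classical.propDecidable Fintype.ofFinite

section

variable {V : Type} [AddCommGroup V] [Module F2 V]

private theorem PSF_dbl (v : V) : v + v = 0 := by
  have h : ((1 : F2) + 1) • v = 0 := by
    have h2 : (1 : F2) + 1 = 0 := rfl
    rw [h2, zero_smul]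
  rw [add_smul, one_smul] at h
  exact h

private theorem PSF_canc (v g : V) : v + g + g = v := by
  rw [add_assoc, PSF_dbl, add_zero]

private theorem PSF_eq_of_add {a b : V} (h : a + b = 0) : a = b := by
  have h1 := congrArg (fun x => x + b) h
  simp only [zero_add] at h1
  rwa [PSF_canc] at h1

private theorem PSF_mem_ln {g x : V} : x ∈ ln g ↔ x = 0 ∨ x = g := by
  rw [mem_span_singleton]
  constructor
  · rintro ⟨a, rfl⟩
    have h : ∀ a : F2, a = 0 ∨ a = 1 := by decide
    rcases h a with rfl | rfl
    · exact Or.inl (zero_smul _ _)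
    · exact Or.inr (one_smul _ _)
  · rintro (rfl | rfl)
    · exact ⟨0, zero_smul _ _⟩
    · exact ⟨1, one_smul _ _⟩

private theorem PSF_mk_eq {g a b : V} : (ln g).mkQ a = (ln g).mkQ b ↔ a = b ∨ a = b + g := by
  have h1 : (ln g).mkQ a = (ln g).mkQ b ↔ a - b ∈ ln g := by
    rw [mkQ_apply, mkQ_apply]
    exact Submodule.Quotient.eq (ln g)
  rw [h1, PSF_mem_ln, sub_eq_zero]
  refine or_congr Iff.rfl ?_
  rw [sub_eq_iff_eq_add, add_comm]

private theorem PSF_mk_add (g a : V) : (ln g).mkQ (a + g) = (ln g).mkQ a :=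
  PSF_mk_eq.2 (Or.inr rfl)

private theorem PSF_mk_zero {g a : V} : (ln g).mkQ a = 0 ↔ a = 0 ∨ a = g := by
  rw [mkQ_apply, Submodule.Quotient.mk_eq_zero, PSF_mem_ln]

private theorem PSF_surj {g : V} (w : V ⧸ ln g) : ∃ v, (ln g).mkQ v = w :=
  (ln g).mkQ_surjective w

private theorem PSF_push_zero [Finite V] (g : V) (x : V → ℝ) : push (ln g) x 0 = 1 := by
  unfold push
  rw [if_pos rfl]

private theorem PSF_push [Finite V] {g : V} (hg : g ≠ 0) (x : V → ℝ) {c : V}
    (hc : (ln g).mkQ c ≠ 0) : push (ln g) x ((ln g).mkQ c) = x c * x (c + g) := by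
  unfold push
  rw [if_neg hc]
  have h1 : (Finset.univ.filter fun v => (ln g).mkQ v = (ln g).mkQ c) = {c, c + g} := by
    ext v
    simp only [Finset.mem_filter, Finset.mem_univ, true_and, Finset.mem_insert,
      Finset.mem_singleton]
    exact PSF_mk_eq
  rw [h1, Finset.prod_pair]
  intro h
  exact hg (left_eq_add.1 h)

private theorem PSF_map_mem {g : V} {F : Submodule F2 V} (hg : g ∈ F) {v : V} :
    (ln g).mkQ v ∈ F.map (ln g).mkQ ↔ v ∈ F := by
  constructor
  · rintro ⟨f, hf, h⟩
    rcases PSF_mk_eq.1 h with h | h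
    · rw [← h]
      exact hf
    · have h1 : v = f + g := by
        rw [h, PSF_canc]
      rw [h1]
      exact F.add_mem hf hg
  · intro h
    exact mem_map_of_mem h

end

theorem thm_PSF : St_PSF := by
  intro V _ _ _ F G g hFG hg hg0
  have hdis : ∀ v, v ∈ F → v ∈ G → v = 0 := fun v h1 h2 =>
    (Submodule.disjoint_def.1 hFG.disjoint) v h1 h2
  have hgG : g ∉ G := fun h => hg0 (hdis g hg h)
  have hlnF : ln g ≤ F := by
    rw [span_le, Set.singleton_subset_iff]
    exact hg
  have hln1 : finrank F2 (ln g) = 1 := finrank_span_singleton hg0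
  refine ⟨⟨?_, ?_⟩, ?_, ?_, ?_, ?_, ?_⟩
  · rw [Submodule.disjoint_def]
    intro w hw1 hw2
    obtain ⟨c, hc, rfl⟩ := hw2
    have h1 : c ∈ F := (PSF_map_mem hg).1 hw1
    rw [hdis c h1 hc, map_zero]
  · rw [codisjoint_iff, ← Submodule.map_sup, hFG.sup_eq_top, Submodule.map_top, range_mkQ]
  · have h1 := LinearMap.finrank_range_add_finrank_ker ((ln g).mkQ.domRestrict F)
    rw [LinearMap.range_domRestrict, LinearMap.ker_domRestrict, ker_mkQ] at h1
    rw [← h1]
    congr 1
    rw [← hln1]
    exact ((Submodule.comapSubtypeEquivOfLe hlnF).finrank_eq).symm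
  · have h1 := LinearMap.finrank_range_add_finrank_ker ((ln g).mkQ.domRestrict G)
    rw [LinearMap.range_domRestrict, LinearMap.ker_domRestrict, ker_mkQ] at h1
    have h2 : Submodule.comap G.subtype (ln g) = ⊥ := by
      rw [eq_bot_iff]
      rintro ⟨x, hx⟩ h
      have h3 : x ∈ ln g := h
      rw [PSF_mem_ln] at h3
      rcases h3 with rfl | rfl
      · exact (mem_bot F2).2 rfl
      · exact absurd hx hgG
    rw [h2, finrank_bot, add_zero] at h1
    exact h1
  · have h1 := Submodule.finrank_quotient_add_finrank (ln g)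
    rw [hln1] at h1
    exact h1
  · intro z hz0 hz
    refine ⟨?_, ?_, ?_, ?_⟩
    · intro c hc
      by_cases h : (ln g).mkQ c = 0
      · rcases PSF_mk_zero.1 h with rfl | rfl
        · rw [map_zero, PSF_push_zero, hz0]
        · exact absurd hc hgG
      · rw [PSF_push hg0 z h, hz (c + g), mul_one]
        intro h1
        exact hgG ((G.add_mem_iff_right hc).1 h1)
    · intro w hw
      obtain ⟨v, rfl⟩ := PSF_surj w
      have hw0 : (ln g).mkQ v ≠ 0 := by
        intro h
        exact hw (h ▸ (G.map (ln g).mkQ).zero_mem)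
      have h1 : v ∉ G := fun h => hw (mem_map_of_mem h)
      have h2 : v + g ∉ G := fun h => hw (by
        rw [← PSF_mk_add g v]
        exact mem_map_of_mem h)
      rw [PSF_push hg0 z hw0, hz v h1, hz _ h2, mul_one]
    · intro t
      funext w
      obtain ⟨v, rfl⟩ := PSF_surj w
      by_cases h0 : (ln g).mkQ v = 0
      · rw [h0]
        unfold setv
        rw [if_neg (fun h => h.2 rfl), PSF_push_zero, PSF_push_zero]
      · rw [PSF_push hg0 _ h0]
        have hv0 : v ≠ 0 := fun h => h0 (PSF_mk_zero.2 (Or.inl h))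
        have hvg : v + g ≠ 0 := fun h => h0 (PSF_mk_zero.2 (Or.inr (PSF_eq_of_add h)))
        by_cases hv : v ∈ F
        · have h2 : v + g ∈ F := F.add_mem hv hg
          unfold setv
          rw [if_pos ⟨hv, hv0⟩, if_pos ⟨h2, hvg⟩, if_pos ⟨(PSF_map_mem hg).2 hv, h0⟩, pow_two]
        · have h2 : v + g ∉ F := fun h => hv ((F.add_mem_iff_left hg).1 h)
          unfold setv
          rw [if_neg (fun h => hv h.1), if_neg (fun h => h2 h.1),
            if_neg (fun h => hv ((PSF_map_mem hg).1 h.1)), PSF_push hg0 _ h0]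
    · intro F₁ hF₁ hfr hgF₁ t
      -- `F` is the union of `F₁` and `F₁ + g`
      have hsup : F₁ ⊔ ln g = F := by
        refine Submodule.eq_of_le_of_finrank_le (sup_le hF₁ hlnF) ?_
        rw [← hfr]
        refine Submodule.finrank_lt_finrank_of_lt (lt_of_le_of_ne le_sup_left ?_)
        intro h
        exact hgF₁ (h ▸ (le_sup_right : ln g ≤ F₁ ⊔ ln g) (mem_span_singleton_self g))
      have hun : ∀ v ∈ F, v ∈ F₁ ∨ v + g ∈ F₁ := by
        intro v hv
        rw [← hsup, Submodule.mem_sup] at hv
        obtain ⟨a, ha, b, hb, rfl⟩ := hv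
        rcases PSF_mem_ln.1 hb with rfl | rfl
        · left
          rw [add_zero]
          exact ha
        · right
          rw [PSF_canc]
          exact ha
      funext w
      obtain ⟨v, rfl⟩ := PSF_surj w
      by_cases h0 : (ln g).mkQ v = 0
      · rw [h0]
        unfold setv
        rw [if_neg (fun h => h.2 rfl), PSF_push_zero, PSF_push_zero]
      · rw [PSF_push hg0 _ h0]
        have hv0 : v ≠ 0 := fun h => h0 (PSF_mk_zero.2 (Or.inl h))
        have hvg : v + g ≠ 0 := fun h => h0 (PSF_mk_zero.2 (Or.inr (PSF_eq_of_add h)))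
        by_cases hv : v ∈ F
        · have h2 : v + g ∈ F := F.add_mem hv hg
          have h3 : z v = 1 := hz v fun h => hv0 (hdis v hv h)
          have h4 : z (v + g) = 1 := hz _ fun h => hvg (hdis _ h2 h)
          by_cases hv1 : v ∈ F₁
          · have h5 : v + g ∉ F₁ := fun h => hgF₁ ((F₁.add_mem_iff_right hv1).1 h)
            unfold setv
            rw [if_pos ⟨hv1, hv0⟩, if_neg (fun h => h5 h.1), h4,
              if_pos ⟨(PSF_map_mem hg).2 hv, h0⟩, mul_one]
          · have h5 : v + g ∈ F₁ := (hun v hv).resolve_left hv1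
            unfold setv
            rw [if_neg (fun h => hv1 h.1), if_pos ⟨h5, hvg⟩, h3,
              if_pos ⟨(PSF_map_mem hg).2 hv, h0⟩, one_mul]
        · have h2 : v + g ∉ F := fun h => hv ((F.add_mem_iff_left hg).1 h)
          unfold setv
          rw [if_neg (fun h => hv (hF₁ h.1)), if_neg (fun h => h2 (hF₁ h.1)),
            if_neg (fun h => hv ((PSF_map_mem hg).1 h.1)), PSF_push hg0 _ h0]
  · intro Z hZ0 hZ
    funext w
    obtain ⟨v, rfl⟩ := PSF_surj w
    have him : (ln g).mkQ v ∈ (ln g).mkQ '' Z ↔ v ∈ Z ∨ v + g ∈ Z := by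
      constructor
      · rintro ⟨c, hc, h⟩
        rcases PSF_mk_eq.1 h with h | h
        · left
          rw [← h]
          exact hc
        · right
          rw [← h]
          exact hc
      · rintro (h | h)
        · exact ⟨v, h, rfl⟩
        · exact ⟨v + g, h, PSF_mk_add g v⟩
    by_cases h0 : (ln g).mkQ v = 0
    · have h1 : ¬ ((ln g).mkQ v ∈ (ln g).mkQ '' Z) := by
        rw [him]
        rcases PSF_mk_zero.1 h0 with rfl | rfl
        · rintro (h | h)
          · exact hZ0 h
          · rw [zero_add] at h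
            exact hgG (hZ _ h)
        · rintro (h | h)
          · exact hgG (hZ _ h)
          · rw [PSF_dbl] at h
            exact hZ0 h
      unfold chi
      rw [if_neg h1]
      have h2 := PSF_push_zero g (chi Z)
      rw [h0]
      exact h2
    · rw [PSF_push hg0 _ h0]
      unfold chi
      by_cases h1 : v ∈ Z
      · have h2 : v + g ∉ Z := fun h => hgG ((G.add_mem_iff_right (hZ _ h1)).1 (hZ _ h))
        rw [if_pos h1, if_neg h2, if_pos (him.2 (Or.inl h1)), mul_one]
      · by_cases h2 : v + g ∈ Z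
        · rw [if_neg h1, if_pos h2, if_pos (him.2 (Or.inr h2)), one_mul]
        · rw [if_neg h1, if_neg h2, if_neg (fun h => (him.1 h).elim h1 h2), mul_one]

end Pool.Agent.EQT
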