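import Pool.Agent.EQT.St

/-!
# EQT, module PSH: the quotient by a line outside of a hyperplane (helper60)
-/

set_option autoImplicit false
set_option linter.unusedSectionVars false
set_option linter.unusedVariables false

namespace Pool.Agent.EQT

open Submodule Module

attribute [local instance] Classical.propDecidable Fintype.ofFinite

private theorem PSH_compl {V : Type} [AddCommGroup V] [Module F2 V] [Finite V]
    {H : Submodule F2 V} {s : V} (hH : finrank F2 H + 1 = finrank F2 V) (hs : s ∉ H) :
    IsCompl H (ln s) := by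
  have hs0 : s ≠ 0 := fun h => hs (h ▸ H.zero_mem)
  have h1 : finrank F2 (ln s) = 1 := finrank_span_singleton hs0
  rw [Submodule.isCompl_iff_disjoint _ _ (by omega)]
  rw [Submodule.disjoint_def]
  intro x hx hx'
  obtain ⟨a, rfl⟩ := Submodule.mem_span_singleton.1 hx'
  by_cases ha : a = 0
  · rw [ha, zero_smul]
  · exact absurd ((H.smul_mem_iff ha).1 hx) hs

private theorem PSH_inj {V : Type} [AddCommGroup V] [Module F2 V] [Finite V]
    {H : Submodule F2 V} {s : V} (hc : IsCompl H (ln s)) {h h' : V} (hh : h ∈ H) (hh' : h' ∈ H)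
    (he : (ln s).mkQ h = (ln s).mkQ h') : h = h' := by
  have h1 : h - h' ∈ ln s := (Submodule.Quotient.eq (ln s)).1 he
  have h2 := Submodule.disjoint_def.1 hc.disjoint _ (H.sub_mem hh hh') h1
  exact sub_eq_zero.1 h2

private theorem PSH_surj {V : Type} [AddCommGroup V] [Module F2 V] [Finite V]
    {H : Submodule F2 V} {s : V} (hc : IsCompl H (ln s)) (w : V ⧸ ln s) :
    ∃ h ∈ H, (ln s).mkQ h = w := by
  obtain ⟨v, rfl⟩ := Submodule.mkQ_surjective (ln s) w
  have hv : v ∈ H ⊔ ln s := by rw [hc.sup_eq_top]; exact Submodule.mem_top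
  obtain ⟨h, hh, z, hz, rfl⟩ := Submodule.mem_sup.1 hv
  refine ⟨h, hh, ?_⟩
  have h1 : (ln s).mkQ z = 0 := (Submodule.Quotient.mk_eq_zero (ln s)).2 hz
  rw [map_add, h1, add_zero]

private theorem PSH_push {V : Type} [AddCommGroup V] [Module F2 V] [Finite V]
    {H : Submodule F2 V} {s : V} (hc : IsCompl H (ln s)) {y : V → ℝ} (h0 : y 0 = 1)
    (h1 : ∀ v, v ∉ H → y v = 1) {h : V} (hh : h ∈ H) :
    push (ln s) y ((ln s).mkQ h) = y h := by
  unfold push
  split_ifs with hw
  · have h2 : h = 0 := PSH_inj hc hh H.zero_mem (by rw [hw, map_zero])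
    rw [h2, h0]
  · rw [Finset.prod_eq_single h]
    · intro v hv hne
      rw [Finset.mem_filter] at hv
      refine h1 v fun hvH => hne (PSH_inj hc hvH hh hv.2)
    · intro hn
      refine absurd ?_ hn
      rw [Finset.mem_filter]
      exact ⟨Finset.mem_univ _, rfl⟩

theorem thm_PSH : St_PSH := by
  intro V _ _ _ H s hH hs
  have hc := PSH_compl hH hs
  have hs0 : s ≠ 0 := fun h => hs (h ▸ H.zero_mem)
  have h1 : finrank F2 (ln s) = 1 := finrank_span_singleton hs0
  refine ⟨?_, PSH_surj hc, fun h hh h' hh' he => PSH_inj hc hh hh' he, ?_, ?_⟩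
  · have h2 := Submodule.finrank_quotient_add_finrank (ln s)
    omega
  · intro y h0 hy
    have hset : {w | push (ln s) y w ≠ 1} = (ln s).mkQ '' {v | y v ≠ 1} := by
      ext w
      constructor
      · intro hw
        obtain ⟨h, hh, rfl⟩ := PSH_surj hc w
        refine ⟨h, ?_, rfl⟩
        rw [Set.mem_ofPred_eq, PSH_push hc h0 hy hh] at hw
        exact hw
      · rintro ⟨v, hv, rfl⟩
        have hvH : v ∈ H := by
          by_contra hn
          exact hv (hy v hn)
        rw [Set.mem_ofPred_eq, PSH_push hc h0 hy hvH]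
        exact hv
    refine ⟨fun h hh => PSH_push hc h0 hy hh, hset, ?_, ?_⟩
    · rw [hset]
      refine Set.InjOn.ncard_image ?_
      intro v hv v' hv' he
      refine PSH_inj hc ?_ ?_ he
      · by_contra hn
        exact hv (hy v hn)
      · by_contra hn
        exact hv' (hy v' hn)
    · intro hsp
      rw [hset, ← Submodule.map_span, hsp, eq_top_iff]
      rintro w -
      obtain ⟨h, hh, rfl⟩ := PSH_surj hc w
      exact ⟨h, hh, rfl⟩
  · intro P h0 hP
    funext w
    obtain ⟨h, hh, rfl⟩ := PSH_surj hc w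
    rw [PSH_push hc (by simp [chi, h0]) (fun v hv => ?_) hh]
    · unfold chi
      have h2 : (ln s).mkQ h ∈ (ln s).mkQ '' P ↔ h ∈ P := by
        constructor
        · rintro ⟨v, hv, he⟩
          rw [← PSH_inj hc (hP v hv) hh he]
          exact hv
        · intro hv
          exact ⟨h, hv, rfl⟩
      rw [if_congr h2 rfl rfl]
    · exact if_neg fun h => hv (hP v h)

end Pool.Agent.EQT
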