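import Pool.Agent.EQT.St

/-!
# EQT: [STB], Theorem B from Theorem A
-/

set_option autoImplicit false
set_option linter.unusedSectionVars false
set_option linter.unusedVariables false

namespace Pool.Agent.EQT

open Submodule Module

attribute [local instance] Classical.propDecidable Fintype.ofFinite

section

variable {V : Type} [AddCommGroup V] [Module F2 V] [Finite V]

private theorem STB_push_update (g : V) (x : V → ℝ) (t : ℝ) :
    push (ln g) (Function.update x g t) = push (ln g) x := by
  funext w
  unfold push
  split_ifs with hw
  · rfl
  · refine Finset.prod_congr rfl (fun v hv => ?_)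
    rw [Function.update_of_ne]
    rintro rfl
    apply hw
    rw [← (Finset.mem_filter.1 hv).2]
    simp

private theorem STB_hyp (g : V) (H : Submodule F2 V) (hH : H ≠ ⊤) (hg : H ⊔ ln g = ⊤) :
    g ∉ H ∧ finrank F2 H + 1 = finrank F2 V := by
  have hgH : g ∉ H := by
    intro h
    apply hH
    rw [← hg]
    symm
    rw [sup_eq_left, span_singleton_le_iff_mem]
    exact h
  refine ⟨hgH, ?_⟩
  have hg0 : g ≠ 0 := fun h => hgH (h ▸ H.zero_mem)
  have h1 := Submodule.finrank_sup_add_finrank_inf_eq H (ln g)
  have h2 : H ⊓ ln g = ⊥ := by
    rw [Submodule.eq_bot_iff]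
    rintro v ⟨h3, h4⟩
    rw [SetLike.mem_coe, mem_span_singleton] at h4
    obtain ⟨a, rfl⟩ := h4
    have : ∀ a : ZMod 2, a = 0 ∨ a = 1 := by decide
    rcases this a with h | h
    · simp [h]
    · exfalso
      apply hgH
      rw [h, one_smul] at h3
      exact h3
  rw [hg, h2, finrank_bot, finrank_top, finrank_span_singleton hg0] at h1
  omega

end

theorem thm_STB (hADQ : St_ADQ) (hAFF : St_AFF) (hPSH : St_PSH) (hCOL : St_COL) : St_STB := by
  intro δ κ hP n k hB hA V _ _ _ m hm hn
  have hδ := hP.pos
  have hq0 : 0 < δ ^ 2 := by positivity
  have hq1 := hP.le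
  suffices H : ∀ N : ℕ, ∀ x : V → ℝ, {v | x v ≠ 1 ∧ x v ≠ -1}.ncard = N → Alw δ x →
      {v | x v ≠ 1}.ncard ≤ k → span F2 {v | x v ≠ 1} = ⊤ → 0 ≤ W m x by
    intro x h1 h2 h3
    exact H _ x rfl h1 h2 h3
  intro N
  induction N using Nat.strong_induction_on with
  | _ N ih =>
  intro x hN hx hk hsp
  by_cases hall : ∀ v, x v = 1 ∨ x v = -1
  · -- all values are `1` or `-1`
    have h1 : x = chi {v | x v = -1} := by
      funext v
      unfold chi
      rcases hall v with h | h
      · rw [if_neg]
        · exact h
        · simp only [Set.mem_setOf_eq, h]; norm_num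
      · rw [if_pos (show v ∈ {v | x v = -1} from h), h]
    have h2 : {v | x v ≠ 1} = {v | x v = -1} := by
      ext v
      simp only [Set.mem_setOf_eq]
      constructor
      · intro h
        exact (hall v).resolve_left h
      · intro h
        rw [h]; norm_num
    rw [h2] at hk hsp
    have h3 := hA V m hm hn {v | x v = -1} hk (by
      simp only [Set.mem_setOf_eq, hx.1]; norm_num) hsp
    rw [← h1] at h3
    exact le_trans (pow_nonneg hP.kpos.le n) h3
  · push_neg at hall
    obtain ⟨g, hg1, hg2⟩ := hall
    have hg0 : g ≠ 0 := fun h => hg1 (h ▸ hx.1)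
    obtain ⟨ht1, ht2⟩ := (hx.2 g).resolve_left hg1
    set t := x g with ht
    have htlt : t < 1 := by linarith
    by_cases hT : span F2 {v | x v ≠ 1 ∧ v ≠ g} = ⊤
    · -- `g` is not needed
      obtain ⟨a, b, hab⟩ := (hAFF V ℝ m g x).1
      have key : ∀ r : ℝ, (r = 1 ∨ r = -1) → 0 ≤ W m (Function.update x g r) := by
        intro r hr
        have hsub : {v | Function.update x g r v ≠ 1} ⊆ {v | x v ≠ 1} := by
          intro v hv
          by_cases hvg : v = g
          · rw [hvg]; exact hg1
          · simpa [Function.update_of_ne hvg] using hv
        refine ih _ ?_ (Function.update x g r) rfl ⟨?_, ?_⟩ ?_ ?_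
        · rw [← hN]
          refine Set.ncard_lt_ncard ?_ (Set.toFinite _)
          rw [Set.ssubset_iff_of_subset]
          · refine ⟨g, ⟨hg1, hg2⟩, ?_⟩
            simp only [Set.mem_setOf_eq, Function.update_self]
            rcases hr with h | h <;> simp [h]
          · intro v hv
            by_cases hvg : v = g
            · rw [hvg]; exact ⟨hg1, hg2⟩
            · simpa [Function.update_of_ne hvg] using hv
        · rw [Function.update_of_ne hg0.symm]; exact hx.1
        · intro v
          by_cases hvg : v = g
          · rw [hvg, Function.update_self]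
            rcases hr with h | h
            · left; exact h
            · right; rw [h]; constructor <;> linarith
          · rw [Function.update_of_ne hvg]; exact hx.2 v
        · exact le_trans (Set.ncard_le_ncard hsub (Set.toFinite _)) hk
        · rw [eq_top_iff, ← hT]
          refine span_mono ?_
          rintro v ⟨hv1, hv2⟩
          simp only [Set.mem_setOf_eq, Function.update_of_ne hv2]
          exact hv1
      have h1 := key 1 (Or.inl rfl)
      have h2 := key (-1) (Or.inr rfl)
      have h3 : W m x = a + t * b := by
        rw [← hab t, ht, Function.update_eq_self]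
      rw [hab] at h1 h2
      rw [h3]
      nlinarith
    · -- `g` is needed
      set T : Set V := {v | x v ≠ 1 ∧ v ≠ g} with hTdef
      set H := span F2 T with hH
      have hHg : H ⊔ ln g = ⊤ := by
        rw [eq_top_iff, ← hsp, span_le]
        intro v hv
        by_cases hvg : v = g
        · rw [hvg]
          exact (le_sup_right : ln g ≤ H ⊔ ln g) (mem_span_singleton_self g)
        · exact (le_sup_left : H ≤ H ⊔ ln g) (subset_span ⟨hv, hvg⟩)
      obtain ⟨hgH, hHn⟩ := STB_hyp g H hT hHg
      have hx1 : ∀ v, v ∉ H → v ≠ g → x v = 1 := by
        intro v hv hvg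
        by_contra h
        exact hv (subset_span ⟨h, hvg⟩)
      set y := Function.update x g 1 with hy
      have hy0 : y 0 = 1 := by rw [hy, Function.update_of_ne hg0.symm]; exact hx.1
      have hy1 : ∀ v, v ∉ H → y v = 1 := by
        intro v hv
        by_cases hvg : v = g
        · rw [hvg, hy, Function.update_self]
        · rw [hy, Function.update_of_ne hvg]; exact hx1 v hv hvg
      have hyT : {v | y v ≠ 1} = T := by
        ext v
        by_cases hvg : v = g
        · simp [hvg, hy, hTdef]
        · simp [hvg, hy, hTdef, Function.update_of_ne hvg]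
      have hyA : ∀ v, y v = 1 ∨ (-1 ≤ y v ∧ y v ≤ 1 - δ ^ 2) := by
        intro v
        by_cases hvg : v = g
        · left; rw [hvg, hy, Function.update_self]
        · rw [hy, Function.update_of_ne hvg]; exact hx.2 v
      -- the quotient by a line outside of `H`
      have hquot : ∀ s, s ∉ H → Alw δ (push (ln s) y) ∧ finrank F2 (V ⧸ ln s) + 1 = finrank F2 V ∧
          span F2 {w | push (ln s) y w ≠ 1} = ⊤ ∧ 0 ≤ W (quo δ m (ln s)) (push (ln s) y) := by
        intro s hs
        obtain ⟨p1, p2, p3, p4, p5⟩ := hPSH V H s hHn hs
        obtain ⟨q1, q2, q3, q4⟩ := p4 y hy0 hy1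
        have hAlw : Alw δ (push (ln s) y) := by
          refine ⟨by unfold push; rw [if_pos rfl], fun w => ?_⟩
          obtain ⟨h, hh, rfl⟩ := p2 w
          rw [q1 h hh]
          exact hyA h
        have hspan := q4 (by rw [hyT])
        refine ⟨hAlw, p1, hspan, ?_⟩
        exact hB (n - 1) (by omega) _ (V ⧸ ln s) (quo δ m (ln s)) (hADQ V δ m (ln s) hm) (by omega)
          (push (ln s) y) hAlw le_rfl hspan
      obtain ⟨s, hs | hs⟩ := hCOL V δ m H g x hδ hm hHn hgH hx.1 hx1
      · obtain ⟨hs, hW⟩ := hs
        rw [hW]
        have h1 := (hquot s hs).2.2.2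
        have h2 := (hquot g hgH).2.2.2
        have h3 : push (ln g) x = push (ln g) y := (STB_push_update g x 1).symm
        rw [h3]
        have h4 : 0 ≤ (1 - t) / δ := div_nonneg (by linarith) hδ.le
        have h5 := mul_nonneg h4 h2
        linarith
      · obtain ⟨hs, hW⟩ := hs
        rw [hW]
        have h3 : push (ln g) x = push (ln g) y := (STB_push_update g x 1).symm
        rw [h3]
        obtain ⟨r1, r2, r3, r4⟩ := hquot g hgH
        set X := push (ln g) y with hX
        set s' := (ln g).mkQ s with hs'
        set l := 1 - δ ^ 2 / (1 - t) with hl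
        have h1t : 0 < 1 - t := by linarith
        have hl0 : 0 ≤ l := by
          rw [hl, sub_nonneg, div_le_one h1t]
          linarith
        have hl1 : l ≤ 1 := by
          rw [hl]
          have : 0 ≤ δ ^ 2 / (1 - t) := div_nonneg hq0.le h1t.le
          linarith
        obtain ⟨⟨a, b, hab⟩, haff⟩ := hAFF (V ⧸ ln g) ℝ (quo δ m (ln g)) s' X
        have hkey : (1 - t) / δ * W (quo δ m (ln g)) X - δ * Ws (quo δ m (ln g)) s' X =
            (1 - t) / δ * W (quo δ m (ln g)) (Function.update X s' (l * X s')) := by
          rw [haff l, hl]
          field_simp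
          ring
        rw [hkey]
        refine mul_nonneg (div_nonneg h1t.le hδ.le) ?_
        have hTB : ∀ X' : V ⧸ ln g → ℝ, Alw δ X' → span F2 {w | X' w ≠ 1} = ⊤ →
            0 ≤ W (quo δ m (ln g)) X' := by
          intro X' hX' hsp'
          exact hB (n - 1) (by omega) _ (V ⧸ ln g) (quo δ m (ln g)) (hADQ V δ m (ln g) hm) (by omega)
            X' hX' le_rfl hsp'
        by_cases hs0 : s' = 0
        · have h5 : Ws (quo δ m (ln g)) s' X = W (quo δ m (ln g)) X := by
            unfold Ws W
            rw [Finset.filter_true_of_mem]
            intro U _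
            rw [hs0]
            exact U.zero_mem
          rw [haff l, h5]
          have : W (quo δ m (ln g)) X + (l - 1) * W (quo δ m (ln g)) X = l * W (quo δ m (ln g)) X := by ring
          rw [this]
          exact mul_nonneg hl0 r4
        · by_cases hXs : X s' = 1
          · have h6 : 0 ≤ W (quo δ m (ln g)) (Function.update X s' (-1)) := by
              refine hTB _ ⟨?_, ?_⟩ ?_
              · rw [Function.update_of_ne (Ne.symm hs0)]; exact r1.1
              · intro w
                by_cases hw : w = s'
                · right; rw [hw, Function.update_self]; constructor <;> linarith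
                · rw [Function.update_of_ne hw]; exact r1.2 w
              · rw [eq_top_iff, ← r3]
                refine span_mono ?_
                intro w hw
                by_cases hw' : w = s'
                · exact absurd (hw' ▸ hXs) hw
                · simpa [Function.update_of_ne hw'] using hw
            have h7 : 0 ≤ W (quo δ m (ln g)) (Function.update X s' 1) := by
              rw [show Function.update X s' 1 = X by rw [← hXs]; exact Function.update_eq_self _ _]
              exact r4
            rw [hXs, mul_one, hab l]
            rw [hab] at h6 h7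
            nlinarith
          · obtain ⟨hX1, hX2⟩ := (r1.2 s').resolve_left hXs
            have hv1 : -1 ≤ l * X s' := by nlinarith
            have hv2 : l * X s' ≤ 1 - δ ^ 2 := by
              rcases le_total 0 (X s') with h | h
              · nlinarith
              · nlinarith
            refine hTB _ ⟨?_, ?_⟩ ?_
            · rw [Function.update_of_ne (Ne.symm hs0)]; exact r1.1
            · intro w
              by_cases hw : w = s'
              · right; rw [hw, Function.update_self]; exact ⟨hv1, hv2⟩
              · rw [Function.update_of_ne hw]; exact r1.2 w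
            · rw [eq_top_iff, ← r3]
              refine span_mono ?_
              intro w hw
              by_cases hw' : w = s'
              · simp only [Set.mem_setOf_eq, hw', Function.update_self]
                intro h
                linarith
              · simpa [Function.update_of_ne hw'] using hw

end Pool.Agent.EQT
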