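import Pool.Agent.EQT.St

/-!
# EQT, module STR: the structure lemma (helper42)
-/

set_option autoImplicit false

namespace Pool.Agent.EQT.Str

open Module

section
variable {V : Type*} [AddCommGroup V] [Module (ZMod 2) V]

/-- functionals which vanish on all `w` in `P` with `w + e` not in `P` -/
def Phi (P : Set V) (e : V) : Submodule (ZMod 2) (Dual (ZMod 2) V) where
  carrier := {φ | ∀ w ∈ P, w + e ∉ P → φ w = 0}
  add_mem' := by
    intro a b ha hb w hw hwe
    simp [ha w hw hwe, hb w hw hwe]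
  zero_mem' := by
    intro w _ _
    rfl
  smul_mem' := by
    intro c a ha w hw hwe
    simp [ha w hw hwe]

def perp (v : V) : Submodule (ZMod 2) (Dual (ZMod 2) V) :=
  LinearMap.ker (Dual.eval (ZMod 2) V v)

theorem mem_perp {v : V} {φ : Dual (ZMod 2) V} : φ ∈ perp v ↔ φ v = 0 := by
  simp [perp]

theorem mem_Phi {P : Set V} {e : V} {φ : Dual (ZMod 2) V} :
    φ ∈ Phi P e ↔ ∀ w ∈ P, w + e ∉ P → φ w = 0 := Iff.rfl

theorem add_self2 (v : V) : v + v = 0 := by
  have h : (2 : ZMod 2) • v = v + v := two_smul _ v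
  have h2 : (2 : ZMod 2) = 0 := by decide
  rw [h2, zero_smul] at h
  exact h.symm

theorem Phi_self {P : Set V} (h0 : (0 : V) ∉ P) {e : V} (he : e ∈ P)
    {φ : Dual (ZMod 2) V} (hφ : φ ∈ Phi P e) : φ e = 0 :=
  hφ e he (by rw [add_self2]; exact h0)

theorem zmod2_cases (a : ZMod 2) : a = 0 ∨ a = 1 := by
  revert a; decide

/-- second half: `Phi_h ∩ e^⊥ ⊆ Phi_e` -/
theorem half {P : Set V} (h0 : (0 : V) ∉ P) {e h : V} (he : e ∈ P) (hh : h ∈ P)
    {χ : Dual (ZMod 2) V} (hχ : χ ∈ Phi P e) (hχ1 : χ h = 1)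
    {φ : Dual (ZMod 2) V} (hφ : φ ∈ Phi P h) (hφe : φ e = 0) : φ ∈ Phi P e := by
  intro w hw hwe
  by_cases hwh : w + h ∈ P
  · -- `w + h ∈ P`
    by_cases hweh : w + h + e ∈ P
    · -- then `w + h + e ∈ O_h`
      have h1 : w + h + e + h ∉ P := by
        have : w + h + e + h = w + e := by
          have := add_self2 h
          calc w + h + e + h = w + e + (h + h) := by abel
            _ = w + e := by rw [this, add_zero]
        rw [this]; exact hwe
      have h2 := hφ _ hweh h1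
      have h3 := Phi_self h0 hh hφ
      rw [map_add, map_add, hφe, h3] at h2
      simpa using h2
    · -- `w, w + h ∈ O_e`
      exfalso
      have h1 := hχ w hw hwe
      have h2 := hχ (w + h) hwh hweh
      rw [map_add, h1, hχ1] at h2
      simp at h2
  · exact hφ w hw hwh

end

section
variable {V : Type*} [AddCommGroup V] [Module (ZMod 2) V] [FiniteDimensional (ZMod 2) V]

theorem finrank_inf_perp (Φ : Submodule (ZMod 2) (Dual (ZMod 2) V)) (v : V)
    {χ : Dual (ZMod 2) V} (hχ : χ ∈ Φ) (h1 : χ v = 1) :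
    finrank (ZMod 2) (Φ ⊓ perp v : Submodule (ZMod 2) (Dual (ZMod 2) V)) + 1 =
      finrank (ZMod 2) Φ := by
  classical
  let f : Φ →ₗ[ZMod 2] ZMod 2 := (Dual.eval (ZMod 2) V v).domRestrict Φ
  have h2 := LinearMap.finrank_range_add_finrank_ker f
  have h3 : LinearMap.range f = ⊤ := by
    rw [LinearMap.range_eq_top]
    intro c
    refine ⟨c • ⟨χ, hχ⟩, ?_⟩
    rw [map_smul]
    change c • χ v = c
    rw [h1, smul_eq_mul, mul_one]
  rw [h3, finrank_top, Module.finrank_self] at h2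
  have h4 : LinearMap.ker f = Submodule.comap Φ.subtype (perp v) := by
    ext x
    rw [LinearMap.mem_ker, Submodule.mem_comap, mem_perp]
    rfl
  have h5 := Submodule.map_comap_subtype Φ (perp v)
  have h6 := Submodule.finrank_map_subtype_eq Φ (Submodule.comap Φ.subtype (perp v))
  rw [h5] at h6
  rw [h4] at h2
  omega

/-- the key lemma -/
theorem key {P : Set V} (h0 : (0 : V) ∉ P) {b : ℕ}
    (hmin : ∀ p ∈ P, b ≤ finrank (ZMod 2) (Phi P p))
    {e h : V} (he : e ∈ P) (heb : finrank (ZMod 2) (Phi P e) = b) (hh : h ∈ P)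
    {χ : Dual (ZMod 2) V} (hχ : χ ∈ Phi P e) (hχ1 : χ h = 1) :
    h + e ∈ P ∧ Phi P h ⊓ perp e = Phi P e ⊓ perp h ∧ finrank (ZMod 2) (Phi P h) = b ∧
      ∃ ψ ∈ Phi P h, ψ e = 1 := by
  have hA : Phi P h ⊓ perp e ≤ Phi P e ⊓ perp h := by
    intro φ hφ
    obtain ⟨h1, h2⟩ := Submodule.mem_inf.mp hφ
    rw [mem_perp] at h2
    exact Submodule.mem_inf.mpr ⟨half h0 he hh hχ hχ1 h1 h2, mem_perp.mpr (Phi_self h0 hh h1)⟩
  have hd := finrank_inf_perp (Phi P e) h hχ hχ1
  have hhe : h + e ∈ P := by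
    by_contra hc
    have := hχ h hh hc
    rw [hχ1] at this
    exact one_ne_zero this
  have hex : ∃ ψ ∈ Phi P h, ψ e = 1 := by
    by_contra hc
    push Not at hc
    have h3 : Phi P h ≤ Phi P e ⊓ perp h := by
      intro φ hφ
      apply hA
      refine Submodule.mem_inf.mpr ⟨hφ, mem_perp.mpr ?_⟩
      rcases zmod2_cases (φ e) with h4 | h4
      · exact h4
      · exact absurd h4 (hc φ hφ)
    have h4 := Submodule.finrank_mono h3
    have h5 := hmin h hh
    omega
  obtain ⟨ψ, hψ, hψ1⟩ := hex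
  have hB : Phi P e ⊓ perp h ≤ Phi P h ⊓ perp e := by
    intro φ hφ
    obtain ⟨h1, h2⟩ := Submodule.mem_inf.mp hφ
    rw [mem_perp] at h2
    exact Submodule.mem_inf.mpr ⟨half h0 hh he hψ hψ1 h1 h2, mem_perp.mpr (Phi_self h0 he h1)⟩
  have hAB := le_antisymm hA hB
  have hd2 := finrank_inf_perp (Phi P h) e hψ hψ1
  refine ⟨hhe, hAB, ?_, ψ, hψ, hψ1⟩
  rw [hAB] at hd2
  omega


/-- good elements with respect to `Θ` -/
def Good (P : Set V) (Θ : Submodule (ZMod 2) (Dual (ZMod 2) V)) (p : V) : Prop :=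
  p ∈ P ∧ Phi P p = Θ ⊓ perp p ∧ ∃ θ ∈ Θ, θ p = 1

theorem good_add {P : Set V} (h0 : (0 : V) ∉ P) {b : ℕ}
    (hmin : ∀ p ∈ P, b ≤ finrank (ZMod 2) (Phi P p))
    {Θ : Submodule (ZMod 2) (Dual (ZMod 2) V)} (hΘ : finrank (ZMod 2) Θ = b + 1)
    {p h : V} (hp : Good P Θ p) (hh : Good P Θ h)
    {θ₁ θ₂ : Dual (ZMod 2) V} (m1 : θ₁ ∈ Θ) (m2 : θ₂ ∈ Θ)
    (h1p : θ₁ p = 0) (h1h : θ₁ h = 1) (h2p : θ₂ p = 1) (h2h : θ₂ h = 0) :
    Good P Θ (p + h) := by
  obtain ⟨hpP, hpΦ, -⟩ := hp
  obtain ⟨hhP, hhΦ, -⟩ := hh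
  have hfp : finrank (ZMod 2) (Phi P p) = b := by
    have := finrank_inf_perp Θ p m2 h2p
    rw [hpΦ]; omega
  have e1 : θ₁ ∈ Phi P p := by
    rw [hpΦ]; exact Submodule.mem_inf.mpr ⟨m1, mem_perp.mpr h1p⟩
  have e2 : θ₂ ∈ Phi P h := by
    rw [hhΦ]; exact Submodule.mem_inf.mpr ⟨m2, mem_perp.mpr h2h⟩
  have k1 := key h0 hmin hpP hfp hhP e1 h1h
  have hph : p + h ∈ P := by rw [add_comm]; exact k1.1
  have h1ph : θ₁ (p + h) = 1 := by rw [map_add, h1p, h1h, zero_add]
  have k2 := key h0 hmin hpP hfp hph e1 h1ph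
  refine ⟨hph, ?_, θ₁, m1, h1ph⟩
  have hle : Θ ⊓ perp (p + h) ≤ Phi P (p + h) := by
    intro θ hθ
    obtain ⟨t1, t2⟩ := Submodule.mem_inf.mp hθ
    rw [mem_perp, map_add] at t2
    rcases zmod2_cases (θ p) with hc | hc
    · have t3 : θ h = 0 := by rw [hc, zero_add] at t2; exact t2
      have t4 : θ ∈ Phi P p ⊓ perp (p + h) := by
        refine Submodule.mem_inf.mpr ⟨?_, mem_perp.mpr ?_⟩
        · rw [hpΦ]; exact Submodule.mem_inf.mpr ⟨t1, mem_perp.mpr hc⟩
        · rw [map_add, hc, t3, zero_add]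
      rw [← k2.2.1] at t4
      exact (Submodule.mem_inf.mp t4).1
    · have t3 : θ h = 1 := by
        rcases zmod2_cases (θ h) with h5 | h5
        · rw [hc, h5] at t2; exact absurd t2 (by decide)
        · exact h5
      -- `θ' = θ + θ₂` is `(0, 1)`
      have e3 : θ + θ₂ ∈ Phi P p := by
        rw [hpΦ]
        refine Submodule.mem_inf.mpr ⟨Θ.add_mem t1 m2, mem_perp.mpr ?_⟩
        rw [LinearMap.add_apply, hc, h2p]; decide
      have e3h : (θ + θ₂) h = 1 := by
        rw [LinearMap.add_apply, t3, h2h]; decide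
      intro w hw hwph
      have hsum : θ w = (θ + θ₂) w + θ₂ w := by
        rw [LinearMap.add_apply, add_assoc, ← two_mul]
        have : (2 : ZMod 2) = 0 := by decide
        rw [this, zero_mul, add_zero]
      by_cases hwp : w + p ∈ P
      · have a1 : θ₂ (w + p) = 0 := e2 _ hwp (by rw [add_assoc]; exact hwph)
        have a2 : θ₂ w = 1 := by
          rw [map_add, h2p] at a1
          rcases zmod2_cases (θ₂ w) with h5 | h5
          · rw [h5] at a1; exact absurd a1 (by decide)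
          · exact h5
        have a3 : w + h ∈ P := by
          by_contra hc2
          have := e2 w hw hc2
          rw [a2] at this; exact one_ne_zero this
        have a4 : (θ + θ₂) (w + h) = 0 := e3 _ a3 (by
          have : w + h + p = w + (p + h) := by abel
          rw [this]; exact hwph)
        have a5 : (θ + θ₂) w = 1 := by
          rw [map_add, e3h] at a4
          rcases zmod2_cases ((θ + θ₂) w) with h5 | h5
          · rw [h5] at a4; exact absurd a4 (by decide)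
          · exact h5
        rw [hsum, a5, a2]; decide
      · have a1 : (θ + θ₂) w = 0 := e3 w hw hwp
        have a3 : w + h ∉ P := by
          intro hc2
          have a4 : (θ + θ₂) (w + h) = 0 := e3 _ hc2 (by
            have : w + h + p = w + (p + h) := by abel
            rw [this]; exact hwph)
          rw [map_add, a1, e3h] at a4
          exact absurd a4 (by decide)
        have a5 := e2 w hw a3
        rw [hsum, a1, a5, add_zero]
  have hd := finrank_inf_perp Θ (p + h) m1 h1ph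
  exact (Submodule.eq_of_le_of_finrank_eq hle (by rw [k2.2.2.1]; omega)).symm


theorem dual_family {P : Set V} (hspan : Submodule.span (ZMod 2) P = ⊤)
    (Φ : Submodule (ZMod 2) (Dual (ZMod 2) V)) :
    ∃ (s : Set (Dual (ZMod 2) Φ)) (_ : Finite s) (h : s → V) (φ : s → Dual (ZMod 2) V),
      (∀ j, h j ∈ P) ∧ (∀ i, φ i ∈ Φ) ∧ (∀ i, φ i (h i) = 1) ∧
      (∀ i j, i ≠ j → φ i (h j) = 0) ∧
      (∀ θ ∈ Φ, θ ∈ Submodule.span (ZMod 2) (Set.range φ)) ∧
      (∀ θ ∈ Φ, (∀ j, θ (h j) = 0) → θ = 0) := by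
  classical
  let r : V →ₗ[ZMod 2] Dual (ZMod 2) Φ := Φ.subtype.dualMap ∘ₗ (Dual.eval (ZMod 2) V)
  have hr : Function.Surjective r := by
    have h1 : Function.Surjective (Φ.subtype.dualMap) :=
      LinearMap.dualMap_surjective_of_injective (K := ZMod 2) (V₁ := Φ)
        (V₂ := Dual (ZMod 2) V) (f := Φ.subtype) Φ.injective_subtype
    exact h1.comp (Module.bijective_dual_eval (ZMod 2) V).surjective
  have hrv : ∀ (v : V) (θ : Φ), r v θ = θ.1 v := fun v θ => rfl
  have hsp : Submodule.span (ZMod 2) (r '' P) = ⊤ := by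
    rw [Submodule.span_image, hspan, Submodule.map_top, LinearMap.range_eq_top]
    exact hr
  obtain ⟨s, hs, hs2, hli⟩ := exists_linearIndependent (ZMod 2) (r '' P)
  have hfin : Finite s := hli.finite
  have hfs : Fintype s := Fintype.ofFinite s
  let B : Basis s (ZMod 2) (Dual (ZMod 2) Φ) := Basis.mk hli (by
    rw [Subtype.range_coe, hs2, hsp])
  have hB : ∀ j, B j = j.1 := fun j => by simp [B]
  choose h hhP hrh using fun j : s => hs j.2
  let B' : Basis s (ZMod 2) Φ := B.dualBasis.map (Module.evalEquiv (ZMod 2) Φ).symm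
  have hB' : ∀ i j, (B' i).1 (h j) = if i = j then 1 else 0 := by
    intro i j
    have h1 : (B' i).1 (h j) = r (h j) (B' i) := rfl
    rw [h1, hrh j]
    have h2 : B' i = (Module.evalEquiv (ZMod 2) Φ).symm (B.dualBasis i) := rfl
    rw [h2, Module.apply_evalEquiv_symm_apply]
    have h3 : (B.dualBasis i) (B j) = if j = i then 1 else 0 := by
      rw [Basis.dualBasis_apply_self]
    rw [hB j] at h3
    rw [h3]
    by_cases hij : i = j
    · rw [if_pos hij, if_pos hij.symm]
    · rw [if_neg hij, if_neg (fun hh => hij hh.symm)]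
  refine ⟨s, hfin, h, fun i => (B' i).1, hhP, fun i => (B' i).2, ?_, ?_, ?_, ?_⟩
  · intro i; rw [hB', if_pos rfl]
  · intro i j hij; rw [hB', if_neg hij]
  · intro θ hθ
    have h1 := B'.sum_repr ⟨θ, hθ⟩
    have h2 : ∑ i, ((B'.repr ⟨θ, hθ⟩ i • B' i : Φ) : Dual (ZMod 2) V) = θ := by
      rw [← Submodule.coe_sum, h1]
    rw [← h2]
    refine Submodule.sum_mem _ fun i _ => ?_
    exact Submodule.smul_mem _ _ (Submodule.subset_span ⟨i, rfl⟩)
  · intro θ hθ hz
    have h1 := B'.sum_repr ⟨θ, hθ⟩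
    have h2 : ∑ i, ((B'.repr ⟨θ, hθ⟩ i • B' i : Φ) : Dual (ZMod 2) V) = θ := by
      rw [← Submodule.coe_sum, h1]
    have h3 : ∀ j, B'.repr ⟨θ, hθ⟩ j = 0 := by
      intro j
      have h4 := LinearMap.congr_fun h2 (h j)
      rw [LinearMap.sum_apply, Finset.sum_eq_single j] at h4
      · rw [Submodule.coe_smul, LinearMap.smul_apply, hB', if_pos rfl, hz j] at h4
        simpa using h4
      · intro i _ hij
        rw [Submodule.coe_smul, LinearMap.smul_apply, hB', if_neg hij, smul_zero]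
      · intro hh; exact absurd (Finset.mem_univ _) hh
    rw [← h2]
    refine Finset.sum_eq_zero fun i _ => ?_
    rw [h3 i, zero_smul]; rfl


/-- the main structure -/
theorem exists_struct {P : Set V} (h0 : (0 : V) ∉ P) (hne : P.Nonempty)
    (hspan : Submodule.span (ZMod 2) P = ⊤)
    (hbad : ∀ e ∈ P, Submodule.span (ZMod 2) {w | w ∈ P ∧ w + e ∉ P} ≠ ⊤) :
    ∃ (Θ : Submodule (ZMod 2) (Dual (ZMod 2) V)) (F : Submodule (ZMod 2) V),
      2 ≤ finrank (ZMod 2) F ∧
      (∀ f ∈ F, f ≠ 0 → Good P Θ f) ∧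
      (∀ v : V, ∃ f ∈ F, ∀ θ ∈ Θ, θ f = θ v) ∧
      (∀ f ∈ F, f ≠ 0 → ∃ θ ∈ Θ, θ f = 1) := by
  classical
  -- the minimal `e`
  have hmn : ∃ e ∈ P, ∀ p ∈ P, finrank (ZMod 2) (Phi P e) ≤ finrank (ZMod 2) (Phi P p) := by
    have hne' : ((fun p => finrank (ZMod 2) (Phi P p)) '' P).Nonempty := hne.image _
    obtain ⟨e, he, hee⟩ := Nat.sInf_mem hne'
    refine ⟨e, he, fun p hp => ?_⟩
    simp only at hee
    rw [hee]
    exact Nat.sInf_le ⟨p, hp, rfl⟩
  obtain ⟨e, he, hmin⟩ := hmn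
  set b := finrank (ZMod 2) (Phi P e) with hb
  obtain ⟨s, hsf, h, φ, hhP, hφΦ, hφ1, hφ0, hφs, hφz⟩ := dual_family hspan (Phi P e)
  have hfs : Fintype s := Fintype.ofFinite s
  have hφe : ∀ i, φ i e = 0 := fun i => Phi_self h0 he (hφΦ i)
  -- `s` is nonempty
  have hsne : Nonempty s := by
    by_contra hcon
    apply hbad e he
    by_contra hcon2
    obtain ⟨θ, hθ0, hθ⟩ := Submodule.exists_le_ker_of_lt_top _ (lt_top_iff_ne_top.mpr hcon2)
    apply hθ0
    refine hφz θ ?_ (fun j => absurd ⟨j⟩ hcon)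
    intro w hw hwe
    exact hθ (Submodule.subset_span ⟨hw, hwe⟩)
  obtain ⟨j₁⟩ := hsne
  have k1 := key h0 hmin he rfl (hhP j₁) (hφΦ j₁) (hφ1 j₁)
  obtain ⟨k1a, k1b, k1c, ψ₀, hψ₀, hψ₀e⟩ := k1
  -- the form `ψ`
  let ψ : Dual (ZMod 2) V := ψ₀ + ∑ j, ψ₀ (h j) • φ j
  have hψe : ψ e = 1 := by
    simp only [ψ, LinearMap.add_apply, LinearMap.sum_apply, LinearMap.smul_apply, hφe,
      smul_zero, Finset.sum_const_zero, add_zero, hψ₀e]
  have hψh : ∀ j, ψ (h j) = 0 := by
    intro j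
    have h1 : (∑ i, ψ₀ (h i) • φ i) (h j) = ψ₀ (h j) := by
      rw [LinearMap.sum_apply, Finset.sum_eq_single j]
      · rw [LinearMap.smul_apply, hφ1, smul_eq_mul, mul_one]
      · intro i _ hij
        rw [LinearMap.smul_apply, hφ0 i j hij, smul_zero]
      · intro hh; exact absurd (Finset.mem_univ _) hh
    simp only [ψ, LinearMap.add_apply]
    rw [h1]
    exact CharTwo.add_self_eq_zero _
  have hψΦ₁ : ψ ∈ Phi P (h j₁) := by
    refine Submodule.add_mem _ hψ₀ (Submodule.sum_mem _ fun j _ => ?_)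
    by_cases hj : j = j₁
    · rw [hj, Phi_self h0 (hhP j₁) hψ₀, zero_smul]; exact Submodule.zero_mem _
    · refine Submodule.smul_mem _ _ ?_
      have h2 : φ j ∈ Phi P e ⊓ perp (h j₁) :=
        Submodule.mem_inf.mpr ⟨hφΦ j, mem_perp.mpr (hφ0 j j₁ hj)⟩
      rw [← k1b] at h2
      exact (Submodule.mem_inf.mp h2).1
  clear_value ψ
  have hψΦ : ∀ j, ψ ∈ Phi P (h j) := by
    intro j
    by_cases hj : j = j₁
    · rw [hj]; exact hψΦ₁
    · have h2 : φ j ∈ Phi P e ⊓ perp (h j₁) :=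
        Submodule.mem_inf.mpr ⟨hφΦ j, mem_perp.mpr (hφ0 j j₁ hj)⟩
      rw [← k1b] at h2
      have k2 := key h0 hmin (hhP j₁) k1c (hhP j) (Submodule.mem_inf.mp h2).1 (hφ1 j)
      have h3 : ψ ∈ Phi P (h j₁) ⊓ perp (h j) :=
        Submodule.mem_inf.mpr ⟨hψΦ₁, mem_perp.mpr (hψh j)⟩
      rw [← k2.2.1] at h3
      exact (Submodule.mem_inf.mp h3).1
  -- `Θ`
  let Θ : Submodule (ZMod 2) (Dual (ZMod 2) V) := Phi P e ⊔ Submodule.span (ZMod 2) {ψ}
  have hΘ : ∀ θ, θ ∈ Θ ↔ ∃ φ' ∈ Phi P e, ∃ a : ZMod 2, θ = φ' + a • ψ := by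
    intro θ
    constructor
    · intro hθ
      obtain ⟨x, hx, y, hy, hxy⟩ := Submodule.mem_sup.mp hθ
      obtain ⟨a, ha⟩ := Submodule.mem_span_singleton.mp hy
      exact ⟨x, hx, a, by rw [ha, hxy]⟩
    · rintro ⟨x, hx, a, rfl⟩
      exact Submodule.add_mem_sup hx (Submodule.smul_mem _ _ (Submodule.mem_span_singleton_self ψ))
  have hψΘ : ψ ∈ Θ := (hΘ ψ).mpr ⟨0, Submodule.zero_mem _, 1, by rw [one_smul, zero_add]⟩
  have hφΘ : ∀ j, φ j ∈ Θ := fun j =>
    (hΘ _).mpr ⟨φ j, hφΦ j, 0, by rw [zero_smul, add_zero]⟩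
  have hΘe : Θ ⊓ perp e = Phi P e := by
    apply le_antisymm
    · intro θ hθ
      obtain ⟨t1, t2⟩ := Submodule.mem_inf.mp hθ
      obtain ⟨x, hx, a, rfl⟩ := (hΘ _).mp t1
      rw [mem_perp, LinearMap.add_apply, LinearMap.smul_apply, Phi_self h0 he hx, hψe,
        smul_eq_mul, mul_one, zero_add] at t2
      rw [t2, zero_smul, add_zero]; exact hx
    · intro θ hθ
      exact Submodule.mem_inf.mpr ⟨Submodule.mem_sup_left hθ, mem_perp.mpr (Phi_self h0 he hθ)⟩
  have hΘd : finrank (ZMod 2) Θ = b + 1 := by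
    have := finrank_inf_perp Θ e hψΘ hψe
    rw [hΘe] at this
    omega
  have hge : Good P Θ e := ⟨he, hΘe.symm, ψ, hψΘ, hψe⟩
  have hgh : ∀ j, Good P Θ (h j) := by
    intro j
    have k2 := key h0 hmin he rfl (hhP j) (hφΦ j) (hφ1 j)
    refine ⟨hhP j, ?_, φ j, hφΘ j, hφ1 j⟩
    have hle : Θ ⊓ perp (h j) ≤ Phi P (h j) := by
      intro θ hθ
      obtain ⟨t1, t2⟩ := Submodule.mem_inf.mp hθ
      obtain ⟨x, hx, a, rfl⟩ := (hΘ _).mp t1
      rw [mem_perp, LinearMap.add_apply, LinearMap.smul_apply, hψh j, smul_zero, add_zero] at t2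
      refine Submodule.add_mem _ ?_ (Submodule.smul_mem _ _ (hψΦ j))
      have h3 : x ∈ Phi P e ⊓ perp (h j) := Submodule.mem_inf.mpr ⟨hx, mem_perp.mpr t2⟩
      rw [← k2.2.1] at h3
      exact (Submodule.mem_inf.mp h3).1
    have hd := finrank_inf_perp Θ (h j) (hφΘ j) (hφ1 j)
    exact (Submodule.eq_of_le_of_finrank_eq hle (by rw [k2.2.2.1]; omega)).symm
  -- `F`
  let F : Submodule (ZMod 2) V := Submodule.span (ZMod 2) (insert e (Set.range h))
  have hsep : ∀ v ∈ F, (∀ θ ∈ Θ, θ v = 0) → v = 0 := by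
    intro v hv hz
    obtain ⟨a, z, hz1, rfl⟩ := Submodule.mem_span_insert.mp hv
    obtain ⟨c, hc⟩ := (Submodule.mem_span_range_iff_exists_fun (ZMod 2)).mp hz1
    have hci : ∀ i, c i = 0 := by
      intro i
      have h4 := hz (φ i) (hφΘ i)
      rw [map_add, map_smul, hφe, smul_zero, zero_add, ← hc, map_sum,
        Finset.sum_eq_single i] at h4
      · rw [map_smul, hφ1, smul_eq_mul, mul_one] at h4; exact h4
      · intro j _ hj
        rw [map_smul, hφ0 i j (Ne.symm hj), smul_zero]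
      · intro hh; exact absurd (Finset.mem_univ _) hh
    have hz0 : z = 0 := by
      rw [← hc]
      exact Finset.sum_eq_zero fun i _ => by rw [hci i, zero_smul]
    have h5 := hz ψ hψΘ
    rw [hz0, add_zero, map_smul, hψe, smul_eq_mul, mul_one] at h5
    rw [h5, hz0, zero_smul, add_zero]
  have hsep1 : ∀ v ∈ F, v ≠ 0 → ∃ θ ∈ Θ, θ v = 1 := by
    intro v hv hv0
    by_contra hcon
    push Not at hcon
    apply hv0
    refine hsep v hv fun θ hθ => ?_
    rcases zmod2_cases (θ v) with h6 | h6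
    · exact h6
    · exact absurd h6 (hcon θ hθ)
  have hFgood : ∀ f ∈ F, f = 0 ∨ Good P Θ f := by
    intro f hf
    refine Submodule.span_induction (p := fun x _ => x = 0 ∨ Good P Θ x) ?_ ?_ ?_ ?_ hf
    · intro x hx
      rcases hx with rfl | ⟨j, rfl⟩
      · exact Or.inr hge
      · exact Or.inr (hgh j)
    · exact Or.inl rfl
    · intro x y hx hy gx gy
      rcases gx with gx | gx
      · rw [gx, zero_add]; exact gy
      rcases gy with gy | gy
      · rw [gy, add_zero]; exact Or.inr gx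
      by_cases hxy : x + y = 0
      · exact Or.inl hxy
      · right
        obtain ⟨θ, hθ, hθ1⟩ := hsep1 (x + y) (F.add_mem hx hy) hxy
        rw [map_add] at hθ1
        rcases zmod2_cases (θ x) with hc | hc
        · have hy1 : θ y = 1 := by rw [hc, zero_add] at hθ1; exact hθ1
          obtain ⟨χ, hχ, hχ1⟩ := gx.2.2
          rcases zmod2_cases (χ y) with hd | hd
          · exact good_add h0 hmin hΘd gx gy hθ hχ hc hy1 hχ1 hd
          · refine good_add h0 hmin hΘd gx gy hθ (Θ.add_mem hχ hθ) hc hy1 ?_ ?_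
            · rw [LinearMap.add_apply, hχ1, hc]; decide
            · rw [LinearMap.add_apply, hd, hy1]; decide
        · have hy0 : θ y = 0 := by
            rcases zmod2_cases (θ y) with h7 | h7
            · exact h7
            · rw [hc, h7] at hθ1; exact absurd hθ1 (by decide)
          obtain ⟨χ, hχ, hχ1⟩ := gy.2.2
          rcases zmod2_cases (χ x) with hd | hd
          · exact good_add h0 hmin hΘd gx gy hχ hθ hd hχ1 hc hy0
          · refine good_add h0 hmin hΘd gx gy (Θ.add_mem hχ hθ) hθ ?_ ?_ hc hy0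
            · rw [LinearMap.add_apply, hd, hc]; decide
            · rw [LinearMap.add_apply, hχ1, hy0]; decide
    · intro a x hx gx
      rcases zmod2_cases a with ha | ha
      · left; rw [ha, zero_smul]
      · rw [ha, one_smul]; exact gx
  have heF : e ∈ F := Submodule.subset_span (Set.mem_insert _ _)
  have hhF : ∀ j, h j ∈ F := fun j => Submodule.subset_span (Set.mem_insert_of_mem _ ⟨j, rfl⟩)
  refine ⟨Θ, F, ?_, ?_, ?_, hsep1⟩
  · -- the dimension
    have hli : LinearIndependent (ZMod 2) ![(⟨e, heF⟩ : F), ⟨h j₁, hhF j₁⟩] := by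
      rw [LinearIndependent.pair_iff]
      intro a c hac
      have h8 : a • e + c • h j₁ = 0 := congrArg Subtype.val hac
      have h9 := congrArg (φ j₁) h8
      rw [map_add, map_smul, map_smul, hφe, hφ1, map_zero, smul_zero, zero_add, smul_eq_mul,
        mul_one] at h9
      have h10 := congrArg ψ h8
      rw [map_add, map_smul, map_smul, hψe, hψh, map_zero, smul_zero, add_zero, smul_eq_mul,
        mul_one] at h10
      exact ⟨h10, h9⟩
    have := hli.fintype_card_le_finrank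
    simpa using this
  · intro f hf hf0
    rcases hFgood f hf with h11 | h11
    · exact absurd h11 hf0
    · exact h11
  · intro v
    refine ⟨ψ v • e + ∑ j, φ j v • h j, F.add_mem (F.smul_mem _ heF)
      (F.sum_mem fun j _ => F.smul_mem _ (hhF j)), ?_⟩
    have hφv : ∀ i, φ i (ψ v • e + ∑ j, φ j v • h j) = φ i v := by
      intro i
      rw [map_add, map_smul, hφe, smul_zero, zero_add, map_sum, Finset.sum_eq_single i]
      · rw [map_smul, hφ1, smul_eq_mul, mul_one]
      · intro j _ hj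
        rw [map_smul, hφ0 i j (Ne.symm hj), smul_zero]
      · intro hh; exact absurd (Finset.mem_univ _) hh
    have hψv : ψ (ψ v • e + ∑ j, φ j v • h j) = ψ v := by
      rw [map_add, map_smul, hψe, map_sum, smul_eq_mul, mul_one]
      rw [Finset.sum_eq_zero, add_zero]
      intro j _
      rw [map_smul, hψh, smul_zero]
    intro θ hθ
    obtain ⟨x, hx, a, rfl⟩ := (hΘ _).mp hθ
    rw [LinearMap.add_apply, LinearMap.add_apply, LinearMap.smul_apply, LinearMap.smul_apply, hψv]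
    congr 1
    have hx2 := hφs x hx
    refine Submodule.span_induction
      (p := fun (y : Dual (ZMod 2) V) _ => y (ψ v • e + ∑ j, φ j v • h j) = y v) ?_ ?_ ?_ ?_ hx2
    · rintro y ⟨i, rfl⟩; exact hφv i
    · rfl
    · intro y z _ _ hy hz
      rw [LinearMap.add_apply, LinearMap.add_apply, hy, hz]
    · intro c y _ hy
      rw [LinearMap.smul_apply, LinearMap.smul_apply, hy]

end

section

variable {V : Type*} [AddCommGroup V] [Module (ZMod 2) V] [FiniteDimensional (ZMod 2) V]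

theorem str_main {P : Set V} (h0 : (0 : V) ∉ P) (hne : P.Nonempty)
    (hspan : Submodule.span (ZMod 2) P = ⊤)
    (hbad : ∀ e ∈ P, Submodule.span (ZMod 2) {w | w ∈ P ∧ w + e ∉ P} ≠ ⊤) :
    ∃ F G : Submodule (ZMod 2) V, IsCompl F G ∧ 2 ≤ finrank (ZMod 2) F ∧
      (∀ f ∈ F, f ≠ 0 → f ∈ P) ∧
      (∀ c ∈ G, (∀ f ∈ F, f ≠ 0 → c + f ∈ P) ∨ (∀ f ∈ F, f ≠ 0 → c + f ∉ P)) ∧
      Submodule.span (ZMod 2)
        {c | c ∈ G ∧ c ≠ 0 ∧ ¬ ((∀ f ∈ F, f ≠ 0 → c + f ∈ P) ↔ c ∈ P)} = G := by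
  classical
  obtain ⟨Θ, F, hF2, hgood, hsurj, hsep⟩ := exists_struct h0 hne hspan hbad
  let G : Submodule (ZMod 2) V := Θ.dualCoannihilator
  have hG : ∀ v, v ∈ G ↔ ∀ θ ∈ Θ, θ v = 0 := fun v => Submodule.mem_dualCoannihilator v
  have hFG : ∀ v, v ∈ F → v ∈ G → v = 0 := by
    intro v hv hv2
    by_contra hv0
    obtain ⟨θ, hθ, hθ1⟩ := hsep v hv hv0
    rw [(hG v).mp hv2 θ hθ] at hθ1
    exact zero_ne_one hθ1
  have hdec : ∀ v : V, ∃ f ∈ F, ∃ c ∈ G, v = c + f := by
    intro v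
    obtain ⟨f, hf, hfv⟩ := hsurj v
    refine ⟨f, hf, v + f, (hG _).mpr fun θ hθ => ?_, ?_⟩
    · rw [map_add, hfv θ hθ]; exact CharTwo.add_self_eq_zero _
    · rw [add_assoc, add_self2, add_zero]
  have hcompl : IsCompl F G := by
    refine ⟨?_, ?_⟩
    · rw [Submodule.disjoint_def]; exact hFG
    · rw [codisjoint_iff, eq_top_iff]
      intro v _
      obtain ⟨f, hf, c, hc, rfl⟩ := hdec v
      exact Submodule.add_mem _ (Submodule.mem_sup_right hc) (Submodule.mem_sup_left hf)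
  -- the classes
  have hcls : ∀ c ∈ G, ∀ f ∈ F, f ≠ 0 → c + f ∈ P → ∀ g ∈ F, g ≠ 0 → c + g ∈ P := by
    intro c hc f hf hf0 hcf g hg hg0
    by_cases hfg : f + g = 0
    · have : g = f := by
        have h1 : f + (f + g) = f + 0 := by rw [hfg]
        rw [← add_assoc, add_self2, zero_add, add_zero] at h1
        exact h1
      rw [this]; exact hcf
    · have hex : ∃ θ ∈ Θ, θ (f + g) = 0 ∧ θ f = 1 := by
        obtain ⟨θ, hθ, hθf⟩ := hsep f hf hf0
        rcases zmod2_cases (θ (f + g)) with ha | ha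
        · exact ⟨θ, hθ, ha, hθf⟩
        · obtain ⟨χ, hχ, hχg⟩ := hsep g hg hg0
          rcases zmod2_cases (χ f) with hb | hb
          · refine ⟨θ + χ, Θ.add_mem hθ hχ, ?_, ?_⟩
            · rw [LinearMap.add_apply, ha, map_add, hb, hχg]; decide
            · rw [LinearMap.add_apply, hθf, hb]; decide
          · exact ⟨χ, hχ, by rw [map_add, hb, hχg]; decide, hb⟩
      obtain ⟨θ, hθ, h1, h2⟩ := hex
      have hgd := hgood (f + g) (F.add_mem hf hg) hfg
      have hθΦ : θ ∈ Phi P (f + g) := by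
        rw [hgd.2.1]; exact Submodule.mem_inf.mpr ⟨hθ, mem_perp.mpr h1⟩
      have h3 : c + f + (f + g) ∈ P := by
        by_contra hcon
        have h4 := hθΦ (c + f) hcf hcon
        rw [map_add, (hG c).mp hc θ hθ, h2, zero_add] at h4
        exact one_ne_zero h4
      have h5 : c + f + (f + g) = c + g := by
        have := add_self2 f
        calc c + f + (f + g) = c + g + (f + f) := by abel
          _ = c + g := by rw [this, add_zero]
      rw [h5] at h3; exact h3
  refine ⟨F, G, hcompl, hF2, fun f hf hf0 => (hgood f hf hf0).1, ?_, ?_⟩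
  · intro c hc
    by_cases hcon : ∃ f ∈ F, f ≠ 0 ∧ c + f ∈ P
    · obtain ⟨f, hf, hf0, hcf⟩ := hcon
      exact Or.inl fun g hg hg0 => hcls c hc f hf hf0 hcf g hg hg0
    · right
      intro f hf hf0 hcf
      exact hcon ⟨f, hf, hf0, hcf⟩
  · set S : Set V := {c | c ∈ G ∧ c ≠ 0 ∧ ¬ ((∀ f ∈ F, f ≠ 0 → c + f ∈ P) ↔ c ∈ P)} with hS
    have hSG : Submodule.span (ZMod 2) S ≤ G := Submodule.span_le.mpr fun c hc => hc.1
    -- a nonzero element of `F`
    have hne1 : ∃ f₀ ∈ F, f₀ ≠ 0 := by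
      by_contra hcon
      push Not at hcon
      have : F = ⊥ := (Submodule.eq_bot_iff F).mpr hcon
      rw [this, finrank_bot] at hF2
      omega
    obtain ⟨f₀, hf₀, hf₀0⟩ := hne1
    have htop : F ⊔ Submodule.span (ZMod 2) S = ⊤ := by
      by_contra hcon
      obtain ⟨χ, hχ0, hχ⟩ := Submodule.exists_le_ker_of_lt_top _ (lt_top_iff_ne_top.mpr hcon)
      apply hχ0
      have hχF : ∀ f ∈ F, χ f = 0 := fun f hf => hχ (Submodule.mem_sup_left hf)
      have hχS : ∀ c ∈ S, χ c = 0 := fun c hc =>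
        hχ (Submodule.mem_sup_right (Submodule.subset_span hc))
      have hχΦ : χ ∈ Phi P f₀ := by
        intro w hw hwf
        obtain ⟨g, hg, c, hc, rfl⟩ := hdec w
        rw [map_add, hχF g hg, add_zero]
        by_cases hc0 : c = 0
        · rw [hc0, map_zero]
        apply hχS
        refine ⟨hc, hc0, fun hiff => ?_⟩
        by_cases hg0 : g = 0
        · rw [hg0, add_zero] at hw hwf
          exact hwf (hiff.mpr hw f₀ hf₀ hf₀0)
        · have hall := hcls c hc g hg hg0 hw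
          have hcP := hiff.mp hall
          by_cases hgf : g + f₀ = 0
          · rw [add_assoc, hgf, add_zero] at hwf
            exact hwf hcP
          · rw [add_assoc] at hwf
            exact hwf (hall (g + f₀) (F.add_mem hg hf₀) hgf)
      have hχΘ : χ ∈ Θ := by
        rw [(hgood f₀ hf₀ hf₀0).2.1] at hχΦ
        exact (Submodule.mem_inf.mp hχΦ).1
      ext v
      obtain ⟨f, hf, c, hc, rfl⟩ := hdec v
      rw [map_add, hχF f hf, (hG c).mp hc χ hχΘ, add_zero, LinearMap.zero_apply]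
    apply le_antisymm hSG
    intro c hc
    have hc1 : c ∈ F ⊔ Submodule.span (ZMod 2) S := by rw [htop]; exact Submodule.mem_top
    obtain ⟨f, hf, s, hs, hfs⟩ := Submodule.mem_sup.mp hc1
    have hfG : f ∈ G := by
      have : f = c - s := by rw [← hfs]; abel
      rw [this]; exact G.sub_mem hc (hSG hs)
    rw [hFG f hf hfG, zero_add] at hfs
    rw [← hfs]; exact hs

end

end Pool.Agent.EQT.Str

namespace Pool.Agent.EQT

theorem thm_STR : St_STR := by
  intro V _ _ _ P h0 hne hspan hbad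
  have hfd : Module.Finite F2 V := Module.Finite.of_finite
  exact Str.str_main h0 hne hspan hbad

end Pool.Agent.EQT
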