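import Pool.Agent.EQT.St

/-!
# EQT: [SYM], symmetric maps give admissible functions
-/

set_option autoImplicit false
set_option linter.unusedSectionVars false
set_option linter.unusedVariables false

namespace Pool.Agent.EQT

open Submodule Module

attribute [local instance] Classical.propDecidable Fintype.ofFinite

private theorem SYM_fr {W : Type} [AddCommGroup W] [Module F2 W] [FiniteDimensional F2 W]
    (A : Submodule F2 W) (x : W) (hx : x ∉ A) :
    finrank F2 (A ⊔ span F2 {x} : Submodule F2 W) = finrank F2 A + 1 := by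
  have h0 : x ≠ 0 := by
    rintro rfl
    exact hx A.zero_mem
  have h1 := Submodule.finrank_sup_add_finrank_inf_eq A (span F2 {x})
  have h2 : A ⊓ span F2 {x} = ⊥ := by
    rw [eq_bot_iff]
    rintro y ⟨hy, hy2⟩
    obtain ⟨c, rfl⟩ := mem_span_singleton.1 hy2
    rw [Submodule.mem_bot]
    by_cases hc : c = 0
    · rw [hc, zero_smul]
    · exfalso
      have h3 := A.smul_mem c⁻¹ hy
      rw [smul_smul, inv_mul_cancel₀ hc, one_smul] at h3
      exact hx h3
  rw [h2, finrank_bot, finrank_span_singleton h0, add_zero] at h1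
  exact h1

private theorem SYM_one (a : F2) (h : a ≠ 0) : a = 1 := by
  revert h
  revert a
  decide

private theorem SYM_add (a : F2) : a + a = 0 := by
  revert a
  decide

private theorem SYM_form {V : Type} [AddCommGroup V] [Module F2 V] [Finite V]
    (H : Submodule F2 V) (h : finrank F2 H + 1 = finrank F2 V) :
    ∃ φ : Dual F2 V, ∀ v, v ∈ H ↔ φ v = 0 := by
  have hne : H ≠ ⊤ := by
    rintro rfl
    rw [finrank_top] at h
    omega
  obtain ⟨e, -, he⟩ := SetLike.exists_of_lt (lt_top_iff_ne_top.2 hne)
  obtain ⟨φ, hφe, hφ⟩ := Submodule.exists_dual_map_eq_bot_of_notMem he inferInstance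
  refine ⟨φ, fun v => ⟨fun hv => ?_, fun hv => ?_⟩⟩
  · have h1 : φ v ∈ H.map φ := ⟨v, hv, rfl⟩
    rw [hφ, Submodule.mem_bot] at h1
    exact h1
  · by_contra hvH
    -- H ⊔ span v = ⊤
    have h2 := SYM_fr H v hvH
    have h3 : H ⊔ span F2 {v} = ⊤ := by
      apply Submodule.eq_top_of_finrank_eq
      rw [h2, h]
    have h4 : H ⊔ span F2 {v} ≤ LinearMap.ker φ := by
      refine sup_le (fun w hw => ?_) ?_
      · have h1 : φ w ∈ H.map φ := ⟨w, hw, rfl⟩
        rw [hφ, Submodule.mem_bot] at h1
        exact h1
      · rw [span_singleton_le_iff_mem]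
        exact hv
    rw [h3] at h4
    exact hφe (h4 (mem_top : e ∈ (⊤ : Submodule F2 V)))

theorem thm_SYM : St_SYM := by
  intro V _ _ _ S hS δ m hδ hm
  have hδ' : -δ ≠ 0 := neg_ne_zero.2 hδ
  -- membership in R(U)
  set R : Submodule F2 V → Submodule F2 (Dual F2 V) :=
    fun U => (U.dualAnnihilator ⊓ U.comap S : Submodule F2 (Dual F2 V)) with hR
  have hmR : ∀ (U : Submodule F2 V) (φ : Dual F2 V), φ ∈ R U ↔ (∀ u ∈ U, φ u = 0) ∧ S φ ∈ U := by
    intro U φ
    rw [hR]
    simp only [Submodule.mem_inf, Submodule.mem_dualAnnihilator, Submodule.mem_comap]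
  have hmm : ∀ U : Submodule F2 V, (-δ) ^ finrank F2 U * cc m U = (-δ) ^ finrank F2 (R U) := hm
  constructor
  · have h1 := hmm ⊤
    have h2 : cc m ⊤ = m ⊤ := by
      unfold cc
      rw [Finset.sum_eq_single (⊤ : Submodule F2 V)]
      · intro U hU hne
        rw [Finset.mem_filter] at hU
        exact absurd (top_le_iff.1 hU.2) hne
      · intro h
        exact absurd (Finset.mem_filter.2 ⟨Finset.mem_univ _, le_rfl⟩) h
    have h3 : R ⊤ = ⊥ := by
      rw [eq_bot_iff]
      intro φ hφ
      rw [Submodule.mem_bot]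
      ext v
      exact ((hmR _ _).1 hφ).1 v mem_top
    rw [h2, h3, finrank_top, finrank_bot, pow_zero] at h1
    exact h1
  · intro H hH
    obtain ⟨φ₀, hφ₀⟩ := SYM_form H hH
    refine ⟨S φ₀, ?_⟩
    by_cases hs : S φ₀ ∈ H
    · right
      refine ⟨hs, fun U hUH e he => ?_⟩
      have hs0 : φ₀ (S φ₀) = 0 := (hφ₀ _).1 hs
      have he1 : φ₀ e = 1 := SYM_one _ fun h => he ((hφ₀ e).2 h)
      have hUs : U ⊔ ln (S φ₀) ≤ H := sup_le hUH (by
        rw [span_singleton_le_iff_mem]
        exact hs)
      have heU : e ∉ U ⊔ ln (S φ₀) := fun h => he (hUs h)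
      set U' : Submodule F2 V := U ⊔ ln (S φ₀) ⊔ ln e with hU'
      have hsU' : S φ₀ ∈ U' :=
        mem_sup_left (mem_sup_right (mem_span_singleton_self _))
      have heU' : e ∈ U' := mem_sup_right (mem_span_singleton_self _)
      have hUU' : U ≤ U' := le_sup_left.trans le_sup_left
      -- elements of R'
      have hR' : ∀ ψ ∈ R U', S ψ ∈ U ⊔ ln (S φ₀) := by
        intro ψ hψ
        have h1 := (hmR _ _).1 hψ
        have h2 : φ₀ (S ψ) = 0 := by
          rw [hS]
          exact h1.1 _ hsU'
        obtain ⟨v, hv, w, hw, hvw⟩ := mem_sup.1 h1.2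
        obtain ⟨c, rfl⟩ := mem_span_singleton.1 hw
        have h3 : φ₀ v = 0 := (hφ₀ v).1 (hUs hv)
        have h4 : c = 0 := by
          rw [← hvw, map_add, map_smul, h3, he1, zero_add, smul_eq_mul, mul_one] at h2
          exact h2
        rw [h4, zero_smul, add_zero] at hvw
        rw [← hvw]
        exact hv
      -- elements of R
      have hRR : ∀ φ ∈ R U, φ + φ e • φ₀ ∈ R U' := by
        intro φ hφ
        have h1 := (hmR _ _).1 hφ
        rw [hmR]
        constructor
        · have h2 : U' ≤ LinearMap.ker (φ + φ e • φ₀) := by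
            refine sup_le (sup_le (fun u hu => ?_) ?_) ?_
            · rw [LinearMap.mem_ker, LinearMap.add_apply, LinearMap.smul_apply, h1.1 u hu,
                (hφ₀ u).1 (hUH hu), smul_zero, add_zero]
            · rw [span_singleton_le_iff_mem, LinearMap.mem_ker, LinearMap.add_apply,
                LinearMap.smul_apply, hs0, smul_zero, add_zero, hS]
              exact (hφ₀ _).1 (hUH h1.2)
            · rw [span_singleton_le_iff_mem, LinearMap.mem_ker, LinearMap.add_apply,
                LinearMap.smul_apply, he1, smul_eq_mul, mul_one]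
              exact SYM_add _
          exact fun u hu => h2 hu
        · rw [map_add, map_smul]
          exact U'.add_mem (hUU' h1.2) (U'.smul_mem _ hsU')
      have hφe : ∀ ψ ∈ R U', ψ e = 0 := fun ψ hψ => ((hmR _ _).1 hψ).1 e heU'
      have hφ₀' : φ₀ ∉ R U' := by
        intro h
        have h1 := hφe φ₀ h
        rw [he1] at h1
        exact one_ne_zero h1
      have hle1 : R U ≤ R U' ⊔ span F2 {φ₀} := by
        intro φ hφ
        have h1 : φ = (φ + φ e • φ₀) + φ e • φ₀ := by
          rw [add_assoc, ← add_smul, SYM_add, zero_smul, add_zero]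
        rw [h1]
        exact add_mem_sup (hRR φ hφ) (smul_mem _ _ (mem_span_singleton_self _))
      by_cases hsU : S φ₀ ∈ U
      · -- the dimension of `U'` is larger by one
        have h1 : U ⊔ ln (S φ₀) = U := sup_eq_left.2 (by
          rw [span_singleton_le_iff_mem]
          exact hsU)
        have hdim : finrank F2 U' = finrank F2 U + 1 := by
          have h2 := SYM_fr (U ⊔ ln (S φ₀)) e heU
          rw [hU']
          rw [h1] at h2 ⊢
          exact h2
        have hφ₀U : φ₀ ∈ R U := (hmR _ _).2 ⟨fun u hu => (hφ₀ u).1 (hUH hu), hsU⟩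
        have hle2 : R U' ⊔ span F2 {φ₀} ≤ R U := by
          refine sup_le (fun ψ hψ => ?_) ?_
          · rw [hmR]
            refine ⟨fun u hu => ((hmR _ _).1 hψ).1 u (hUU' hu), ?_⟩
            have h2 := hR' ψ hψ
            rw [h1] at h2
            exact h2
          · rw [span_singleton_le_iff_mem]
            exact hφ₀U
        have hρ : finrank F2 (R U) = finrank F2 (R U') + 1 := by
          rw [le_antisymm hle1 hle2]
          exact SYM_fr _ _ hφ₀'
        have e1 := hmm U
        have e2 := hmm U'
        rw [hρ, pow_succ, ← e2, hdim, pow_succ] at e1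
        have h5 : (-δ) ^ finrank F2 U ≠ 0 := pow_ne_zero _ hδ'
        apply mul_left_cancel₀ h5
        rw [e1]
        ring
      · have hd1 := SYM_fr U (S φ₀) hsU
        have hdim : finrank F2 U' = finrank F2 U + 1 + 1 := by
          rw [hU', ← hd1]
          exact SYM_fr _ _ heU
        have hφ₀U : φ₀ ∉ R U := fun h => hsU ((hmR _ _).1 h).2
        have hle2 : R U' ≤ R U ⊔ span F2 {φ₀} := by
          intro ψ hψ
          obtain ⟨u, hu, w, hw, huw⟩ := mem_sup.1 (hR' ψ hψ)
          obtain ⟨c, rfl⟩ := mem_span_singleton.1 hw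
          have h1 : ψ = (ψ + c • φ₀) + c • φ₀ := by
            rw [add_assoc, ← add_smul, SYM_add, zero_smul, add_zero]
          rw [h1]
          refine add_mem_sup ?_ (smul_mem _ _ (mem_span_singleton_self _))
          rw [hmR]
          constructor
          · intro v hv
            rw [LinearMap.add_apply, LinearMap.smul_apply, (hφ₀ v).1 (hUH hv), smul_zero,
              add_zero]
            exact ((hmR _ _).1 hψ).1 v (hUU' hv)
          · rw [map_add, map_smul, ← huw, add_assoc, ← add_smul, SYM_add, zero_smul, add_zero]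
            exact hu
        have hρ : finrank F2 (R U) = finrank F2 (R U') := by
          have h1 := SYM_fr _ _ hφ₀U
          have h2 := SYM_fr _ _ hφ₀'
          have h3 : R U ⊔ span F2 {φ₀} = R U' ⊔ span F2 {φ₀} :=
            le_antisymm (sup_le hle1 le_sup_right) (sup_le hle2 le_sup_right)
          rw [h3, h2] at h1
          omega
        have e1 := hmm U
        have e2 := hmm U'
        rw [hρ, ← e2, hdim, pow_succ, pow_succ] at e1
        have h5 : (-δ) ^ finrank F2 U ≠ 0 := pow_ne_zero _ hδ'
        apply mul_left_cancel₀ h5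
        rw [e1]
        ring
    · left
      refine ⟨hs, fun U hUH => ?_⟩
      have hs1 : φ₀ (S φ₀) = 1 := SYM_one _ fun h => hs ((hφ₀ _).2 h)
      have hsU : S φ₀ ∉ U := fun h => hs (hUH h)
      have hdim := SYM_fr U (S φ₀) hsU
      have hRe : R U = R (U ⊔ ln (S φ₀)) := by
        ext φ
        rw [hmR, hmR]
        constructor
        · rintro ⟨h1, h2⟩
          have h3 : φ (S φ₀) = 0 := by
            rw [hS]
            exact (hφ₀ _).1 (hUH h2)
          have h4 : U ⊔ ln (S φ₀) ≤ LinearMap.ker φ := by
            refine sup_le (fun u hu => h1 u hu) ?_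
            rw [span_singleton_le_iff_mem]
            exact h3
          exact ⟨fun u hu => h4 hu, mem_sup_left h2⟩
        · rintro ⟨h1, h2⟩
          refine ⟨fun u hu => h1 u (mem_sup_left hu), ?_⟩
          obtain ⟨u, hu, w, hw, huw⟩ := mem_sup.1 h2
          obtain ⟨c, rfl⟩ := mem_span_singleton.1 hw
          have h3 : φ₀ (S φ) = 0 := by
            rw [hS]
            exact h1 _ (mem_sup_right (mem_span_singleton_self _))
          rw [← huw, map_add, map_smul, (hφ₀ u).1 (hUH hu), hs1, zero_add, smul_eq_mul,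
            mul_one] at h3
          rw [h3, zero_smul, add_zero] at huw
          rw [← huw]
          exact hu
      have e1 := hmm U
      have e2 := hmm (U ⊔ ln (S φ₀))
      rw [← hRe, ← e1, hdim, pow_succ] at e2
      have h5 : (-δ) ^ finrank F2 U ≠ 0 := pow_ne_zero _ hδ'
      apply mul_left_cancel₀ h5
      rw [← e2]
      ring

end Pool.Agent.EQT
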