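import Pool.Agent.EQT.QUO
import Pool.Agent.EQT.ADQ
import Pool.Agent.EQT.PF
import Pool.Agent.EQT.DC
import Pool.Agent.EQT.AFF
import Pool.Agent.EQT.E1
import Pool.Agent.EQT.E2
import Pool.Agent.EQT.COL
import Pool.Agent.EQT.PSH
import Pool.Agent.EQT.STB
import Pool.Agent.EQT.COA
import Pool.Agent.EQT.GCO
import Pool.Agent.EQT.STR
import Pool.Agent.EQT.PSF
import Pool.Agent.EQT.CC
import Pool.Agent.EQT.LB
import Pool.Agent.EQT.NUM
import Pool.Agent.EQT.FIN
import Pool.Agent.EQT.CNE
import Pool.Agent.EQT.MAI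
import Pool.Agent.EQT.MOB
import Pool.Agent.EQT.SYM
import Pool.Agent.EQT.KER
import Pool.Agent.EQT.Evm
import Pool.Agent.SPT.Fin

/-!
# EQT: the abstract theorem, and the theorem for Gauss diagrams
-/

set_option autoImplicit false

open Submodule LaurentPolynomial

namespace Pool.Agent.EQT

open Pool.Agent.SPT Pool.Agent.Helper16.Knotoid

/-- **the abstract theorem** -/
theorem mai : St_MAI := by
  have hQUO := thm_QUO
  have hADQ := thm_ADQ hQUO
  have hDC := thm_DC hQUO
  have hE2 := thm_E2 hQUO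
  have hCOL := thm_COL hQUO thm_PF hDC
  have hSTB := thm_STB hADQ thm_AFF thm_PSH hCOL
  have hCOA := thm_COA hADQ thm_AFF thm_PSH hCOL
  have hGCO := thm_GCO hDC hADQ
  have hCC := thm_CC hADQ hDC hE2 thm_PSF
  have hLB := thm_LB hADQ hDC hE2 thm_PSF
  have hFIN := thm_FIN hDC hADQ thm_E1 hE2 thm_PSF hCC hLB thm_NUM
  have hCNE := thm_CNE thm_E1 hE2 hADQ
  exact thm_MAI hSTB hCOA hGCO thm_STR hCNE hFIN

variable {n : ℕ}

/-- **knotoid diagrams**, general form -/
theorem thm_KnotoidE : St_KnotoidE := by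
  classical
  intro M n D σ hM ⟨w, h1, h2⟩
  have hrows : rows (D.Cut σ) = Finset.univ.image fun c => D.gmat σ c := by
    unfold rows
    exact Finset.image_congr fun c _ => row_eq D σ c
  have hmem : ∀ v, v ∈ rows (D.Cut σ) ↔ ∃ c, D.gmat σ c = v := by
    intro v
    rw [hrows, Finset.mem_image]
    exact ⟨fun ⟨c, _, hc⟩ => ⟨c, hc⟩, fun ⟨c, hc⟩ => ⟨c, Finset.mem_univ c, hc⟩⟩
  have hcoe : (rows (D.Cut σ) : Set (Fin n → ZMod 2)) = Set.range fun c => D.gmat σ c := by
    ext v
    rw [Finset.mem_coe, hmem]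
    rfl
  have hev := evm mai thm_AFF thm_PF thm_MOB thm_SYM thm_KER (D.gmat σ) (D.gmat_symm σ) σ M hM w
    (twist (D.Cut σ) σ) (by
      intro v S hS
      unfold twist signedCount
      refine Finset.sum_congr ?_ fun _ _ => rfl
      ext c
      rw [Finset.mem_filter, row_eq, hS c]
      simp) (fun c hc hcw => h1 _ ((hmem _).2 ⟨c, rfl⟩) hc hcw) (by
      rw [← hcoe, ← h2]
      congr 1
      ext v
      simp only [Set.mem_ofPred_eq, hmem])
  rw [← norm_f D σ] at hev
  have h3 := norm_ev_le (Real.pi / M + 2 * Real.pi) D.normalizedBracket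
  unfold rk
  rw [hcoe]
  exact hev.trans h3

private theorem All_coeffSum_one : (1 : ℝ) ≤ (coeffSum (1 : ℤ[T;T⁻¹]) : ℝ) := by
  have h := norm_ev_le 0 (1 : ℤ[T;T⁻¹])
  rw [map_one, norm_one] at h
  exact h

/-- **knot diagrams**, general form -/
theorem thm_KnotE : St_KnotE := by
  intro M n g e σ hM h
  have h1 : GaussJones.Cut g e σ = (UNI.cutOpen g e).Cut σ := by
    funext i j
    exact propext (UNI.cut_closed g e σ i j)
  rcases Nat.eq_zero_or_pos n with hn | hn
  · subst hn
    have h2 : rk (GaussJones.Cut g e σ) = 0 := by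
      unfold rk
      refine Module.finrank_zero_of_subsingleton
    have h3 : GaussJones.fPoly g e = 1 := by
      unfold GaussJones.fPoly GaussJones.bracket
      have h4 : ∀ s : Fin 0 → Bool, GaussJones.loops g s = 0 := by
        intro s
        unfold GaussJones.loops
        have : IsEmpty (Quot (GaussJones.Joined g s)) := ⟨fun q => by
          obtain ⟨k, -⟩ := Quot.exists_rep q
          exact Fin.elim0 k⟩
        exact Nat.card_of_isEmpty
      simp [h4]
    rw [h2, pow_zero, h3]
    exact All_coeffSum_one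
  · rw [UNI.f_closed hn, h1]
    rw [h1] at h
    exact thm_KnotoidE M n _ σ hM h

end Pool.Agent.EQT
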