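import Mathlib

/-!
# EQT: equal twists

`V` is a finite vector space over the field with two elements, `m` a function on the subspaces,
`cc m U` the sum of `m` over the subspaces which contain `U`, and
`W m x = ∑ U, m U * ∏ v ∈ U, x v`.
-/

set_option autoImplicit false
set_option linter.unusedSectionVars false
set_option linter.unusedVariables false

namespace Pool.Agent.EQT

open Submodule Module

/-- the field with two elements -/
abbrev F2 : Type := ZMod 2

attribute [local instance] Classical.propDecidable Fintype.ofFinite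

section

variable {V : Type} [AddCommGroup V] [Module F2 V] [Finite V] {R : Type} [CommRing R]

/-- the sum of `m` over the subspaces which contain `U` -/
noncomputable def cc (m : Submodule F2 V → R) (U : Submodule F2 V) : R := ∑ U' with U ≤ U', m U'

/-- the polynomial -/
noncomputable def W (m : Submodule F2 V → R) (x : V → R) : R := ∑ U, m U * ∏ v with v ∈ U, x v

/-- the part of the polynomial with the subspaces which contain `s` -/
noncomputable def Ws (m : Submodule F2 V → R) (s : V) (x : V → R) : R :=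
  ∑ U with s ∈ U, m U * ∏ v with v ∈ U, x v

/-- the quotient by `I`, with the factor `(-δ) ^ (dim I)` -/
noncomputable def quo (δ : R) (m : Submodule F2 V → R) (I : Submodule F2 V) :
    Submodule F2 (V ⧸ I) → R :=
  fun U => (-δ) ^ finrank F2 I * m (U.comap I.mkQ)

/-- the products over the classes modulo `I` -/
noncomputable def push (I : Submodule F2 V) (x : V → R) : V ⧸ I → R :=
  fun w => if w = 0 then 1 else ∏ v with I.mkQ v = w, x v

/-- the line through `e` -/
abbrev ln (e : V) : Submodule F2 V := span F2 {e}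

/-- the values on `A` replaced by `t`, except at `0` -/
noncomputable def setv (A : Set V) (t : R) (x : V → R) : V → R :=
  fun v => if v ∈ A ∧ v ≠ 0 then t else x v

end

section

variable {V : Type} [AddCommGroup V] [Module F2 V] [Finite V]

/-- `-1` on `P`, `1` elsewhere -/
noncomputable def chi (P : Set V) : V → ℝ := fun v => if v ∈ P then -1 else 1

/-- the functions on the subspaces which are used -/
structure Adm (δ : ℝ) (m : Submodule F2 V → ℝ) : Prop where
  top : (-δ) ^ finrank F2 V * m ⊤ = 1
  hyp : ∀ H : Submodule F2 V, finrank F2 H + 1 = finrank F2 V → ∃ s : V,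
    (s ∉ H ∧ ∀ U ≤ H, cc m U = -δ * cc m (U ⊔ ln s)) ∨
    (s ∈ H ∧ ∀ U ≤ H, ∀ e, e ∉ H → cc m U = δ ^ 2 * cc m (U ⊔ ln s ⊔ ln e))

end

section

variable {E : Type} [Fintype E] [DecidableEq E]

/-- the space of the rows -/
abbrev rsp (M : Matrix E E F2) : Submodule F2 (E → F2) := span F2 (Set.range fun c => M c)

/-- the row of `c` -/
def rw' (M : Matrix E E F2) (c : E) : rsp M := ⟨M c, subset_span ⟨c, rfl⟩⟩

end

/-- the constants: `q = δ ^ 2`, `κ ^ 2 = (4 - 6 q + q ^ 2) / q` -/
structure Par (δ κ : ℝ) : Prop where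
  pos : 0 < δ
  le : δ ^ 2 ≤ 2 / 3
  kpos : 0 < κ
  ksq : κ ^ 2 * δ ^ 2 = 4 - 6 * δ ^ 2 + δ ^ 4

/-- Theorem A in dimension `n` for at most `k` elements: `x = -1` on `P`, `P` spans. -/
def TA (δ κ : ℝ) (n k : ℕ) : Prop :=
  ∀ (V : Type) [AddCommGroup V] [Module F2 V] [Finite V] (m : Submodule F2 V → ℝ), Adm δ m →
    finrank F2 V = n → ∀ P : Set V, P.ncard ≤ k → (0 : V) ∉ P → span F2 P = ⊤ →
    κ ^ n ≤ W m (chi P)

/-- the values which are allowed in Theorem B: `x 0 = 1` and all values are `1` or between `-1`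
and `1 - q` -/
def Alw {V : Type} [AddCommGroup V] (δ : ℝ) (x : V → ℝ) : Prop :=
  x 0 = 1 ∧ ∀ v, x v = 1 ∨ (-1 ≤ x v ∧ x v ≤ 1 - δ ^ 2)

/-- Theorem B in dimension `n` for at most `k` elements: the values are `1` or between `-1` and
`1 - q`, the elements with a value which is not `1` span. -/
def TB (δ : ℝ) (n k : ℕ) : Prop :=
  ∀ (V : Type) [AddCommGroup V] [Module F2 V] [Finite V] (m : Submodule F2 V → ℝ), Adm δ m →
    finrank F2 V = n → ∀ x : V → ℝ, Alw δ x → {v | x v ≠ 1}.ncard ≤ k →
    span F2 {v | x v ≠ 1} = ⊤ → 0 ≤ W m x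

end Pool.Agent.EQT
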