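import Pool.Agent.EQT.GAsm
import Pool.Agent.UNI.Sub

/-!
# EQT, module DvA: the diagram on a set of crossings
-/

set_option autoImplicit false
set_option linter.unusedSectionVars false

open Module

namespace Pool.Agent.EQT

open Pool.Agent.Helper16.Knotoid Pool.Agent.Helper16.Knotoid.GaussDiagram Pool.Agent.UNI
open Pool.Agent.SPT

variable {n : ℕ}

/-- the crossings of `Y`, in their order -/
def emb (Y : Finset (Fin n)) : Fin Y.card ↪o Fin n := Y.orderEmbOfFin rfl

theorem emb_mem (Y : Finset (Fin n)) (c : Fin Y.card) : emb Y c ∈ Y := Finset.orderEmbOfFin_mem Y rfl c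

theorem emb_inj (Y : Finset (Fin n)) {c d : Fin Y.card} (h : emb Y c = emb Y d) : c = d :=
  (emb Y).injective h

theorem emb_surj (Y : Finset (Fin n)) {c : Fin n} (h : c ∈ Y) : ∃ d, emb Y d = c := by
  have h1 := Finset.range_orderEmbOfFin Y rfl
  have h2 : c ∈ Set.range (Y.orderEmbOfFin rfl) := by
    rw [h1]
    exact h
  exact h2

/-- the places of the passages through the crossings of `Y` -/
def plc (D : GaussDiagram n) (Y : Finset (Fin n)) (x : Fin Y.card × Bool) : Fin (2 * n) :=
  D.pos (emb Y x.1, x.2)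

theorem plc_inj (D : GaussDiagram n) (Y : Finset (Fin n)) : Function.Injective (plc D Y) := by
  rintro ⟨c, b⟩ ⟨d, b'⟩ h
  have h1 := D.pos.injective h
  rw [Prod.mk.injEq] at h1
  exact Prod.ext (emb_inj Y h1.1) h1.2

theorem plc_card (D : GaussDiagram n) (Y : Finset (Fin n)) :
    (Finset.univ.image (plc D Y)).card = 2 * Y.card := by
  rw [Finset.card_image_of_injective _ (plc_inj D Y), Finset.card_univ, Fintype.card_prod,
    Fintype.card_fin, Fintype.card_bool, mul_comm]

/-- the passages, as places -/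
noncomputable def plcEquiv (D : GaussDiagram n) (Y : Finset (Fin n)) :
    Fin Y.card × Bool ≃ (Finset.univ.image (plc D Y) : Finset (Fin (2 * n))) :=
  Equiv.ofBijective (fun x => ⟨plc D Y x, Finset.mem_image_of_mem _ (Finset.mem_univ x)⟩)
    ⟨fun x y h => plc_inj D Y (congrArg Subtype.val h), fun y => by
      obtain ⟨x, -, hx⟩ := Finset.mem_image.1 y.2
      exact ⟨x, Subtype.ext hx⟩⟩

/-- the Gauss diagram with the crossings of `Y` only -/
noncomputable def restr (D : GaussDiagram n) (Y : Finset (Fin n)) : GaussDiagram Y.card where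
  pos := (plcEquiv D Y).trans
    ((Finset.univ.image (plc D Y)).orderIsoOfFin (plc_card D Y)).symm.toEquiv
  sign := fun c => D.sign (emb Y c)

theorem restr_lt (D : GaussDiagram n) (Y : Finset (Fin n)) (x y : Fin Y.card × Bool) :
    (restr D Y).pos x < (restr D Y).pos y ↔
      D.pos (emb Y x.1, x.2) < D.pos (emb Y y.1, y.2) := by
  have h1 : ∀ x, (restr D Y).pos x =
      ((Finset.univ.image (plc D Y)).orderIsoOfFin (plc_card D Y)).symm (plcEquiv D Y x) :=
    fun _ => rfl
  rw [h1, h1, OrderIso.lt_iff_lt]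
  exact Iff.rfl

theorem restr_quad (D : GaussDiagram n) (Y : Finset (Fin n)) (c d : Fin Y.card) :
    quad ((restr D Y).overPass c) ((restr D Y).underPass c) ((restr D Y).overPass d)
      ((restr D Y).underPass d) =
    quad (D.overPass (emb Y c)) (D.underPass (emb Y c)) (D.overPass (emb Y d))
      (D.underPass (emb Y d)) := by
  unfold quad overPass underPass
  have h : ∀ x y : Fin Y.card × Bool, (((restr D Y).pos x : ℕ) < ((restr D Y).pos y : ℕ)) ↔
      ((D.pos (emb Y x.1, x.2) : ℕ) < (D.pos (emb Y y.1, y.2) : ℕ)) :=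
    fun x y => restr_lt D Y x y
  rw [if_congr (h (d, true) (c, true)) rfl rfl, if_congr (h (d, false) (c, true)) rfl rfl,
    if_congr (h (d, true) (c, false)) rfl rfl, if_congr (h (d, false) (c, false)) rfl rfl]

/-- the cut matrix of the restricted diagram -/
theorem restr_gmat (D : GaussDiagram n) (Y : Finset (Fin n)) (σ : Fin n → Bool)
    (c d : Fin Y.card) :
    (restr D Y).gmat (fun c => σ (emb Y c)) c d = D.gmat σ (emb Y c) (emb Y d) := by
  by_cases h : c = d
  · subst h
    rw [gmat_self, gmat_self]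
    rfl
  · rw [gmat_of_ne _ _ h, gmat_of_ne _ _ fun h' => h (emb_inj Y h')]
    exact restr_quad D Y c d

/-- the interlaced crossings of the restricted diagram -/
theorem restr_interlaced (D : GaussDiagram n) (Y : Finset (Fin n)) (c d : Fin Y.card) :
    (restr D Y).Interlaced c d ↔ D.Interlaced (emb Y c) (emb Y d) := by
  have h1 : ∀ {k : ℕ} (D : GaussDiagram k) (c d : Fin k), D.Interlaced c d ↔
      D.gmat D.sign c d = 1 := by
    intro k D c d
    rw [← cut_iff]
    unfold Cut
    exact ⟨Or.inl, fun h => h.resolve_right fun h' => h'.2 rfl⟩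
  rw [h1, h1]
  have h2 := restr_gmat D Y D.sign c d
  rw [← h2]
  exact Iff.rfl

/-! ### the state sum -/

section

variable {E E' : Type} [Fintype E] [DecidableEq E] [Fintype E'] [DecidableEq E']

theorem KK_equiv (ε : E' ≃ E) (M : Matrix E E (ZMod 2)) (M' : Matrix E' E' (ZMod 2))
    (h : ∀ c d, M' c d = M (ε c) (ε d)) (W : Finset E') :
    finrank (ZMod 2) (KK M' Finset.univ W) =
      finrank (ZMod 2) (KK M Finset.univ (W.map ε.toEmbedding)) := by
  have hmv : ∀ (x : E → ZMod 2) (c : E'), M'.mulVec (fun d => x (ε d)) c = M.mulVec x (ε c) := by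
    intro x c
    unfold Matrix.mulVec dotProduct
    rw [← ε.sum_comp]
    refine Finset.sum_congr rfl fun d _ => ?_
    show M' c d * x (ε d) = M (ε c) (ε d) * x (ε d)
    rw [h]
  have hW : ∀ c, ε c ∈ W.map ε.toEmbedding ↔ c ∈ W := fun c => by
    rw [Finset.mem_map_equiv, Equiv.symm_apply_apply]
  symm
  refine LinearEquiv.finrank_eq
    { toFun := fun x => ⟨fun c => x.1 (ε c), ?_⟩
      map_add' := fun _ _ => rfl
      map_smul' := fun _ _ => rfl
      invFun := fun x => ⟨fun c => x.1 (ε.symm c), ?_⟩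
      left_inv := fun x => Subtype.ext (funext fun c => congrArg x.1 (ε.apply_symm_apply c))
      right_inv := fun x => Subtype.ext (funext fun c => congrArg x.1 (ε.symm_apply_apply c)) }
  · obtain ⟨x, hx⟩ := x
    rw [mem_KK] at hx ⊢
    refine ⟨fun c hc => absurd (Finset.mem_univ c) hc, fun c _ => ?_⟩
    have h1 := hx.2 (ε c) (Finset.mem_univ _)
    rw [if_congr (hW c) rfl rfl, ← hmv x c] at h1
    exact h1
  · obtain ⟨x, hx⟩ := x
    rw [mem_KK] at hx ⊢
    refine ⟨fun c hc => absurd (Finset.mem_univ c) hc, fun c _ => ?_⟩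
    obtain ⟨d, rfl⟩ := ε.surjective c
    have h1 := hx.2 d (Finset.mem_univ _)
    have h2 := hmv (fun c => x (ε.symm c)) d
    have h3 : (fun d => x (ε.symm (ε d))) = x := by
      funext e
      rw [Equiv.symm_apply_apply]
    rw [h3] at h2
    rw [if_congr (hW d) rfl rfl, ← h2, Equiv.symm_apply_apply]
    exact h1

theorem GG_equiv (ε : E' ≃ E) (M : Matrix E E (ZMod 2)) (M' : Matrix E' E' (ZMod 2))
    (h : ∀ c d, M' c d = M (ε c) (ε d)) (a : E → ℂ) (δ : ℂ) :
    GG M' (fun c => a (ε c)) δ Finset.univ = GG M a δ Finset.univ := by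
  unfold GG
  refine Finset.sum_bij' (fun W _ => W.map ε.toEmbedding) (fun W _ => W.map ε.symm.toEmbedding)
    (fun W _ => Finset.mem_powerset.2 (Finset.subset_univ _))
    (fun W _ => Finset.mem_powerset.2 (Finset.subset_univ _)) ?_ ?_ ?_
  · intro W _
    ext c
    rw [Finset.mem_map_equiv, Finset.mem_map_equiv]
    simp
  · intro W _
    ext c
    rw [Finset.mem_map_equiv, Finset.mem_map_equiv]
    simp
  · intro W _
    rw [KK_equiv ε M M' h, Finset.prod_map]
    rfl

end

/-- **the value of the bracket of the restricted diagram**, for every state `σ` -/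
theorem norm_restr (D : GaussDiagram n) (Y : Finset (Fin n)) (σ : Fin n → Bool) (M : ℕ)
    (hM : 4 ≤ M) : ‖evθ (-(Real.pi / M)) (restr D Y).normalizedBracket‖ =
      ‖GG (D.gmat σ) (an M σ) ((-rn M : ℝ) : ℂ) Y‖ := by
  have h1 := norm_f (restr D Y) (fun c => σ (emb Y c)) (-(Real.pi / M))
  rw [Aθ_An] at h1
  rw [h1]
  have h2 := stateSum ((restr D Y).gmat fun c => σ (emb Y c)) (fun c => σ (emb Y c)) M hM
  have h3 : (∑ s : Fin Y.card → Bool, (∏ c, if s c then An M else (An M)⁻¹) *
      (-(An M) ^ 2 - ((An M)⁻¹) ^ 2) ^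
        (finrank (ZMod 2) (LinearMap.ker (SM ((restr D Y).gmat fun c => σ (emb Y c))
          (fun c => σ (emb Y c)) s).mulVecLin))) =
      ∑ s : Fin Y.card → Bool, (∏ c, if s c then An M else (An M)⁻¹) *
      (-(An M) ^ 2 - ((An M)⁻¹) ^ 2) ^
        (finrank (ZMod 2) (LinearMap.ker
          ((restr D Y).gmat (fun c => σ (emb Y c)) + Matrix.diagonal fun c =>
            if s c = (fun c => σ (emb Y c)) c then (0 : ZMod 2) else 1).mulVecLin)) := rfl
  rw [← h3, h2, norm_mul, norm_P, one_mul, ← GG_sub (D.gmat σ) (an M σ) _ Y]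
  -- the crossings of `Y`
  have hbij : Function.Bijective (fun c : Fin Y.card => (⟨emb Y c, emb_mem Y c⟩ : Y)) :=
    ⟨fun c d h => emb_inj Y (congrArg Subtype.val h), fun c => by
      obtain ⟨d, hd⟩ := emb_surj Y c.2
      exact ⟨d, Subtype.ext hd⟩⟩
  congr 1
  exact GG_equiv (Equiv.ofBijective _ hbij) (sub (D.gmat σ) Y) _
    (fun c d => restr_gmat D Y σ c d) (fun c => an M σ c) _

/-- the value for all crossings -/
theorem norm_univ (D : GaussDiagram n) (σ : Fin n → Bool) (M : ℕ) (hM : 4 ≤ M) :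
    ‖evθ (-(Real.pi / M)) D.normalizedBracket‖ =
      ‖GG (D.gmat σ) (an M σ) ((-rn M : ℝ) : ℂ) Finset.univ‖ := by
  have h1 := norm_f D σ (-(Real.pi / M))
  rw [Aθ_An] at h1
  rw [h1]
  have h2 := stateSum (D.gmat σ) σ M hM
  have h3 : (∑ s : Fin n → Bool, (∏ c, if s c then An M else (An M)⁻¹) *
      (-(An M) ^ 2 - ((An M)⁻¹) ^ 2) ^
        (finrank (ZMod 2) (LinearMap.ker (SM (D.gmat σ) σ s).mulVecLin))) =
      ∑ s : Fin n → Bool, (∏ c, if s c then An M else (An M)⁻¹) *
      (-(An M) ^ 2 - ((An M)⁻¹) ^ 2) ^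
        (finrank (ZMod 2) (LinearMap.ker
          (D.gmat σ + Matrix.diagonal fun c =>
            if s c = σ c then (0 : ZMod 2) else 1).mulVecLin)) := rfl
  rw [← h3, h2, norm_mul, norm_P, one_mul]

end Pool.Agent.EQT
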