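import Pool.Agent.EQT.DvDefs

/-!
# EQT, module DvB: removing twist classes, combinatorics
-/

set_option autoImplicit false
set_option linter.unusedSectionVars false

namespace Pool.Agent.EQT

variable {n : ℕ} {I : Fin n → Fin n → Prop} {e : Fin n → Bool} {Y : Finset (Fin n)}

theorem TwinsIn.refl (i : Fin n) : TwinsIn I Y i i := fun _ _ _ _ => Iff.rfl

theorem TwinsIn.symm {i j : Fin n} (h : TwinsIn I Y i j) : TwinsIn I Y j i :=
  fun k hk h1 h2 => (h k hk h2 h1).symm

theorem TwinsIn.trans (hs : ∀ i j, I i j → I j i) {i j k : Fin n} (hi : i ∈ Y) (hj : j ∈ Y)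
    (hk : k ∈ Y) (h : TwinsIn I Y i j) (h' : TwinsIn I Y j k) : TwinsIn I Y i k := by
  have hs' : ∀ i j, I i j ↔ I j i := fun i j => ⟨hs i j, hs j i⟩
  intro l hl hli hlk
  by_cases hlj : l = j
  · subst hlj
    by_cases hik : i = k
    · rw [hik]
    · have h1 := h k hk (Ne.symm hik) (Ne.symm hlk)
      have h2 := h' i hi (Ne.symm hli) hik
      rw [hs' l i] at h2
      rw [h2, hs' k i, h1, hs' l k]
  · exact (h l hl hli hlj).trans (h' l hl hlj hlk)

theorem TwinsIn.mono {Y' : Finset (Fin n)} (hY : Y' ⊆ Y) {i j : Fin n} (h : TwinsIn I Y i j) :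
    TwinsIn I Y' i j := fun k hk => h k (hY hk)

theorem mem_classIn {i j : Fin n} : j ∈ classIn I Y i ↔ j ∈ Y ∧ TwinsIn I Y i j := by
  classical
  unfold classIn
  rw [Finset.mem_filter]

theorem classIn_sub (i : Fin n) : classIn I Y i ⊆ Y := fun _ hj => (mem_classIn.1 hj).1

theorem self_mem_classIn {i : Fin n} (hi : i ∈ Y) : i ∈ classIn I Y i :=
  mem_classIn.2 ⟨hi, TwinsIn.refl i⟩

theorem classIn_eq (hs : ∀ i j, I i j → I j i) {i j : Fin n} (hi : i ∈ Y) (hj : j ∈ Y)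
    (h : TwinsIn I Y i j) : classIn I Y i = classIn I Y j := by
  ext k
  rw [mem_classIn, mem_classIn]
  exact ⟨fun ⟨hk, h'⟩ => ⟨hk, h.symm.trans hs hj hi hk h'⟩,
    fun ⟨hk, h'⟩ => ⟨hk, h.trans hs hi hj hk h'⟩⟩

/-- in a twist class, all pairs are interlaced or none -/
theorem class_pair (hs : ∀ i j, I i j → I j i) {a b c : Fin n} (hb : b ∈ Y)
    (hc : c ∈ Y) (h1 : TwinsIn I Y a b) (h2 : TwinsIn I Y a c) (hab : a ≠ b) (hac : a ≠ c) :
    I a b ↔ I a c := by
  by_cases hbc : b = c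
  · rw [hbc]
  · have h3 := h1 c hc (Ne.symm hac) (Ne.symm hbc)
    have h4 := h2 b hb (Ne.symm hab) hbc
    have hs' : ∀ i j, I i j ↔ I j i := fun i j => ⟨hs i j, hs j i⟩
    rw [h4, h3]
    exact hs' c b

/-- the type of a twist class: `true` if some two of its crossings are interlaced -/
theorem class_type (hs : ∀ i j, I i j → I j i) (i : Fin n) (hi : i ∈ Y) :
    ∃ b : Bool, ∀ c ∈ classIn I Y i, ∀ d ∈ classIn I Y i, c ≠ d → (I c d ↔ b = true) := by
  classical
  have hs' : ∀ i j, I i j ↔ I j i := fun i j => ⟨hs i j, hs j i⟩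
  have htw : ∀ c ∈ classIn I Y i, ∀ d ∈ classIn I Y i, TwinsIn I Y c d := by
    intro c hc d hd
    rw [mem_classIn] at hc hd
    exact hc.2.symm.trans hs hc.1 hi hd.1 hd.2
  by_cases h : ∃ c ∈ classIn I Y i, ∃ d ∈ classIn I Y i, c ≠ d ∧ I c d
  · obtain ⟨c, hc, d, hd, hcd, hI⟩ := h
    have hcY := classIn_sub i hc
    have hdY := classIn_sub i hd
    refine ⟨true, fun a ha b hb hab => ⟨fun _ => rfl, fun _ => ?_⟩⟩
    have haY := classIn_sub i ha
    have hbY := classIn_sub i hb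
    by_cases hac : a = c
    · subst hac
      exact (class_pair hs hdY hbY (htw a ha d hd) (htw a ha b hb) hcd hab).1 hI
    · have h1 : I c a := (class_pair hs hdY haY (htw c hc d hd) (htw c hc a ha) hcd
        (Ne.symm hac)).1 hI
      exact (class_pair hs hcY hbY (htw a ha c hc) (htw a ha b hb) hac hab).1 (hs _ _ h1)
  · push Not at h
    exact ⟨false, fun a ha b hb hab => ⟨fun h' => absurd h' (h a ha b hb hab),
      fun h' => absurd h' (by decide)⟩⟩

/-! ### all twist numbers divisible by `M` -/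

theorem twistIn_sum (hs : ∀ i j, I i j → I j i) (S : Finset (Fin n)) (hSY : S ⊆ Y) (M : ℕ)
    (hcl : ∀ i ∈ S, classIn I Y i ⊆ S) (hdiv : ∀ i ∈ S, ∃ k : ℤ, twistIn I e Y i = k * M) :
    ∃ k : ℤ, ∑ j ∈ S, (if e j then (1 : ℤ) else -1) = k * M := by
  classical
  have hsum : ∑ j ∈ S, (if e j then (1 : ℤ) else -1) = ∑ C ∈ S.image (classIn I Y),
      ∑ t ∈ S.filter (fun t => classIn I Y t = C), (if e t then (1 : ℤ) else -1) :=
    (Finset.sum_fiberwise_of_maps_to (fun t ht => Finset.mem_image_of_mem _ ht) _).symm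
  suffices h1 : (M : ℤ) ∣ ∑ j ∈ S, (if e j then (1 : ℤ) else -1) by
    obtain ⟨j, hj⟩ := h1
    exact ⟨j, by rw [hj, mul_comm]⟩
  rw [hsum]
  refine Finset.dvd_sum fun C hC => ?_
  obtain ⟨i, hi, rfl⟩ := Finset.mem_image.1 hC
  have h2 : S.filter (fun t => classIn I Y t = classIn I Y i) = classIn I Y i := by
    ext t
    rw [Finset.mem_filter]
    constructor
    · rintro ⟨ht, h3⟩
      rw [← h3]
      exact self_mem_classIn (hSY ht)
    · intro ht
      have ht' := mem_classIn.1 ht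
      exact ⟨hcl i hi ht, (classIn_eq hs (hSY hi) ht'.1 ht'.2).symm⟩
  rw [h2]
  obtain ⟨k, hk⟩ := hdiv i hi
  exact ⟨k, by rw [mul_comm]; exact hk⟩

theorem div_isolated (hi : ∀ i, ¬ I i i) (hs : ∀ i j, I i j → I j i) {M : ℕ} (i : Fin n)
    (h : DivIn I e M Y) (h0 : ∀ j ∈ Y, ¬ I i j) : DivIn I e M (Y.erase i) := by
  classical
  intro a ha hrow
  obtain ⟨b, hb, hab⟩ := hrow
  have haY := Finset.mem_of_mem_erase ha
  have hbY := Finset.mem_of_mem_erase hb
  obtain ⟨k, hk⟩ := h a haY ⟨b, hbY, hab⟩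
  refine ⟨k, ?_⟩
  rw [← hk]
  unfold twistIn
  refine Finset.sum_congr ?_ fun _ _ => rfl
  ext c
  rw [mem_classIn, mem_classIn, Finset.mem_erase]
  constructor
  · rintro ⟨⟨hci, hc⟩, h1⟩
    refine ⟨hc, fun k hk hka hkc => ?_⟩
    by_cases hki : k = i
    · subst hki
      exact ⟨fun h2 => absurd (hs _ _ h2) (h0 a haY), fun h2 => absurd (hs _ _ h2) (h0 c hc)⟩
    · exact h1 k (Finset.mem_erase.2 ⟨hki, hk⟩) hka hkc
  · rintro ⟨hc, h1⟩
    refine ⟨⟨?_, hc⟩, h1.mono (Finset.erase_subset _ _)⟩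
    rintro rfl
    have hbc : b ≠ c := fun h2 => h0 a haY (hs _ _ (h2 ▸ hab))
    have hba : b ≠ a := fun h2 => hi a (h2 ▸ hab)
    exact h0 b hbY ((h1 b hbY hba hbc).1 hab)

theorem div_class (hirr : ∀ i, ¬ I i i) (hs : ∀ i j, I i j → I j i) {M : ℕ} (i : Fin n) (hi : i ∈ Y)
    (h : DivIn I e M Y) : DivIn I e M (Y \ classIn I Y i) := by
  classical
  intro a ha hrow
  obtain ⟨b, hb, hab⟩ := hrow
  have haY := (Finset.mem_sdiff.1 ha).1
  have hbY := (Finset.mem_sdiff.1 hb).1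
  have hsub : classIn I (Y \ classIn I Y i) a ⊆ Y := fun c hc =>
    (Finset.mem_sdiff.1 (classIn_sub a hc)).1
  have hY' : Y \ classIn I Y i ⊆ Y := Finset.sdiff_subset
  -- the classes
  have hcl : ∀ c ∈ classIn I (Y \ classIn I Y i) a, classIn I Y c ⊆
      classIn I (Y \ classIn I Y i) a := by
    intro c hc d hd
    have hc' := mem_classIn.1 hc
    have hd' := mem_classIn.1 hd
    have hcY := (Finset.mem_sdiff.1 hc'.1).1
    have hdY : d ∈ Y \ classIn I Y i := by
      refine Finset.mem_sdiff.2 ⟨hd'.1, fun h1 => (Finset.mem_sdiff.1 hc'.1).2 ?_⟩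
      rw [mem_classIn] at h1 ⊢
      exact ⟨hcY, h1.2.trans hs hi hd'.1 hcY hd'.2.symm⟩
    exact mem_classIn.2 ⟨hdY, hc'.2.trans hs ha hc'.1 hdY (hd'.2.mono hY')⟩
  refine twistIn_sum (e := e) hs (classIn I (Y \ classIn I Y i) a) hsub M hcl fun c hc => ?_
  -- the crossing `c` is interlaced with some crossing of `Y`
  have hc' := mem_classIn.1 hc
  have hcY := (Finset.mem_sdiff.1 hc'.1).1
  refine h c hcY ?_
  by_cases hca : c = a
  · exact ⟨b, hbY, by rw [hca]; exact hab⟩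
  · by_cases hbc : b = c
    · exact ⟨a, haY, by rw [← hbc]; exact hs _ _ hab⟩
    · by_cases hba : b = a
      · exact absurd (hba ▸ hab) (hirr a)
      · exact ⟨b, hbY, (hc'.2 b hb hba hbc).1 hab⟩

/-- **the removals end**: if all twist numbers are divisible by `M`, then one can remove crossings
until all the twist numbers are odd multiples of `M` and no crossing can be removed -/
theorem exists_odd (hirr : ∀ i, ¬ I i i) (hs : ∀ i j, I i j → I j i) {M : ℕ} :
    ∀ (k : ℕ) (Y : Finset (Fin n)), Y.card = k → Remains I e M Y → DivIn I e M Y →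
      ∃ Y', Remains I e M Y' ∧ OddIn I e M Y' ∧ ∀ i ∈ Y', ∃ j ∈ Y', I i j := by
  classical
  intro k
  induction k using Nat.strong_induction_on with
  | _ k ih =>
    intro Y hk hY hdiv
    by_cases h1 : ∃ c ∈ Y, ∀ d ∈ Y, ¬ I c d
    · obtain ⟨c, hc, h0⟩ := h1
      refine ih (Y.erase c).card ?_ (Y.erase c) rfl (Remains.isolated Y c hY h0)
        (div_isolated hirr hs c hdiv h0)
      rw [← hk]
      exact Finset.card_erase_lt_of_mem hc
    push Not at h1
    by_cases h2 : ∃ c ∈ Y, ∃ j : ℤ, twistIn I e Y c = 2 * j * M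
    · obtain ⟨c, hc, hj⟩ := h2
      refine ih (Y \ classIn I Y c).card ?_ (Y \ classIn I Y c) rfl
        (Remains.twist Y c hY hc hj) (div_class hirr hs c hc hdiv)
      rw [← hk]
      exact Finset.card_lt_card (Finset.sdiff_ssubset (classIn_sub c) ⟨c, self_mem_classIn hc⟩)
    push Not at h2
    refine ⟨Y, hY, fun i hi hrow => ?_, h1⟩
    obtain ⟨j, hj⟩ := hdiv i hi hrow
    rcases Int.even_or_odd' j with ⟨l, hl | hl⟩
    · exact absurd (by rw [hj, hl]) (h2 i hi l)
    · exact ⟨l, by rw [hj, hl]⟩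

end Pool.Agent.EQT
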