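import Pool.Agent.EQT.DvA
import Pool.Agent.EQT.DvB

/-!
# EQT, module DvC: the value does not change if twist classes are removed
-/

set_option autoImplicit false
set_option linter.unusedSectionVars false

open Module

namespace Pool.Agent.EQT

open Pool.Agent.Helper16.Knotoid Pool.Agent.Helper16.Knotoid.GaussDiagram Pool.Agent.UNI
open Pool.Agent.SPT

variable {n : ℕ}

theorem int_irrefl (D : GaussDiagram n) (i : Fin n) : ¬ D.Interlaced i i := by
  unfold GaussDiagram.Interlaced GaussDiagram.Inside
  simp

theorem int_symm (D : GaussDiagram n) (i j : Fin n) (h : D.Interlaced i j) :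
    D.Interlaced j i := by
  have h1 : D.Cut D.sign i j := Or.inl h
  rw [cut_iff, D.gmat_symm, ← cut_iff] at h1
  rcases h1 with h1 | ⟨-, h1⟩
  · exact h1
  · exact absurd rfl h1

theorem gmat_iff (D : GaussDiagram n) (σ : Fin n → Bool) {c d : Fin n} (h : c ≠ d) :
    D.gmat σ c d = 1 ↔ D.Interlaced c d := by
  rw [← cut_iff]
  unfold Cut
  exact ⟨fun h1 => h1.resolve_right fun h2 => h h2.1, Or.inl⟩

theorem gmat_diag (D : GaussDiagram n) (b : Bool) (c : Fin n) :
    D.gmat (fun c => if b then !D.sign c else D.sign c) c c = 1 ↔ b = true := by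
  rw [gmat_self]
  cases b
  · simp
  · have h : ¬ (!D.sign c) = D.sign c := by cases D.sign c <;> decide
    simp

/-- removing a twist class whose twist number is divisible by `2 M` -/
theorem norm_class (D : GaussDiagram n) (M : ℕ) (hM : 4 ≤ M) (Y : Finset (Fin n)) (i : Fin n)
    (hi : i ∈ Y) (h : ∃ k : ℤ, twistIn D.Interlaced D.sign Y i = 2 * k * M) :
    ‖evθ (-(Real.pi / M)) (restr D (Y \ classIn D.Interlaced Y i)).normalizedBracket‖ =
      ‖evθ (-(Real.pi / M)) (restr D Y).normalizedBracket‖ := by
  obtain ⟨k, hk⟩ := h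
  have hs := int_symm D
  obtain ⟨b, hb⟩ := class_type hs i hi
  obtain ⟨σ, hσ⟩ : ∃ σ : Fin n → Bool, σ = fun c => if b then !D.sign c else D.sign c := ⟨_, rfl⟩
  rw [norm_restr D _ σ M hM, norm_restr D _ σ M hM]
  have hr := rn_pos M hM
  have hd : ((-rn M : ℝ) : ℂ) ≠ 0 := by exact_mod_cast (neg_lt_zero.2 hr).ne
  have hsum : ∃ j : ℤ, ∑ c ∈ classIn D.Interlaced Y i, (if σ c then (1 : ℤ) else -1) =
      2 * j * M := by
    cases b
    · refine ⟨k, ?_⟩
      rw [← hk]
      unfold twistIn
      refine Finset.sum_congr rfl fun c _ => ?_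
      rw [hσ]
      simp
    · refine ⟨-k, ?_⟩
      have h1 : (2 : ℤ) * -k * M = -(2 * k * M) := by ring
      rw [h1, ← hk]
      unfold twistIn
      rw [← Finset.sum_neg_distrib]
      refine Finset.sum_congr rfl fun c _ => ?_
      have h2 : ∀ b : Bool, (if (!b) = true then (1 : ℤ) else -1) =
          -(if b = true then 1 else -1) := by decide
      rw [hσ]
      exact h2 (D.sign c)
  obtain ⟨j, hj⟩ := hsum
  rw [GG_twins (D.gmat_symm σ) _ _ hd Y (classIn D.Interlaced Y i) (classIn_sub i)]
  · -- the rows agree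
    intro c hc d hd e he
    by_cases hcd : c = d
    · rw [hcd]
    have hc' := mem_classIn.1 hc
    have hd' := mem_classIn.1 hd
    have htw := hc'.2.symm.trans hs hc'.1 hi hd'.1 hd'.2
    have h3 := hb c hc d hd hcd
    have h4 := gmat_diag D b c
    have h5 := gmat_diag D b d
    rw [← hσ] at h4 h5
    apply zmod2_ext
    by_cases hec : e = c
    · subst hec
      rw [h4, gmat_iff D σ (Ne.symm hcd), ← h3]
      exact ⟨hs _ _, hs _ _⟩
    · by_cases hed : e = d
      · subst hed
        rw [h5, gmat_iff D σ hcd, h3]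
      · rw [gmat_iff D σ (Ne.symm hec), gmat_iff D σ (Ne.symm hed)]
        exact htw e he hec hed
  · rw [← even_card σ, hj, mul_assoc]
    exact even_two_mul _
  · rw [Finset.prod_congr rfl fun c _ => one_an σ M hM c]
    exact UNI.prod_wn_even M hM σ _ j hj

/-- removing a crossing which is interlaced with no other -/
theorem norm_isolated (D : GaussDiagram n) (M : ℕ) (hM : 4 ≤ M) (Y : Finset (Fin n)) (i : Fin n)
    (h : ∀ j ∈ Y, ¬ D.Interlaced i j) :
    ‖evθ (-(Real.pi / M)) (restr D (Y.erase i)).normalizedBracket‖ =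
      ‖evθ (-(Real.pi / M)) (restr D Y).normalizedBracket‖ := by
  by_cases hi : i ∈ Y
  · rw [norm_restr D _ D.sign M hM, norm_restr D _ D.sign M hM,
      GG_row (D.gmat_symm D.sign) _ _ Y i hi, norm_mul, one_an D.sign M hM, norm_wn, one_mul]
    intro d hd
    by_cases hid : i = d
    · subst hid
      rw [gmat_self, if_pos rfl]
    · have h1 := mt (gmat_iff D D.sign hid).1 (h d hd)
      revert h1
      generalize D.gmat D.sign i d = a
      revert a
      decide
  · rw [Finset.erase_eq_of_notMem hi]

/-- **the value of the bracket does not change by removals** -/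
theorem norm_remains (D : GaussDiagram n) (M : ℕ) (hM : 4 ≤ M) (Y : Finset (Fin n))
    (h : Remains D.Interlaced D.sign M Y) :
    ‖evθ (-(Real.pi / M)) (restr D Y).normalizedBracket‖ =
      ‖evθ (-(Real.pi / M)) D.normalizedBracket‖ := by
  induction h with
  | all => rw [norm_restr D _ D.sign M hM, norm_univ D D.sign M hM]
  | isolated Y i _ h0 ih =>
    rw [← ih]
    convert norm_isolated D M hM Y i h0
  | twist Y i _ hi hj ih =>
    rw [← ih]
    convert norm_class D M hM Y i hi hj

end Pool.Agent.EQT
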