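import Pool.Agent.EQT.Stmt
import Pool.Agent.SPT.Fin
import Pool.Agent.Helper16.KUnb.Graph

/-!
# EQT: the number of the twist classes is at most three times the rank
-/

set_option autoImplicit false

open Submodule Module

namespace Pool.Agent.EQT

open Pool.Agent.SPT Pool.Agent.Helper16.Knotoid Pool.Agent.Helper16.Knotoid.GaussDiagram
open Pool.Agent.UNI

variable {n : ℕ}

/-- a solution of the compatibility conditions with no jumps is constant -/
private theorem Third_const (D : GaussDiagram n) (s : Fin n → Bool)
    {φ : Fin (2 * n + 1) → ZMod 2} (hφ : φ ∈ compat (D.Join s))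
    (h : ∀ c, φ (D.overPass c).castSucc + φ (D.overPass c).succ = 0) : ∀ k, φ k = φ 0 := by
  have h2 : ∀ a b : ZMod 2, a + b = 0 → a = b := by decide
  have hs : ∀ p : Fin (2 * n), φ p.castSucc = φ p.succ := by
    intro p
    rcases D.pass_surj p with ⟨c, rfl⟩ | ⟨c, rfl⟩
    · exact h2 _ _ (h c)
    · have h3 := h2 _ _ (h c)
      rw [mem_compat] at hφ
      by_cases hc : s c = D.sign c
      · rw [← hφ _ _ (Join.oriented₁ c hc), hφ _ _ (Join.oriented₂ c hc), h3]
      · rw [← hφ _ _ (Join.unoriented₁ c hc), ← hφ _ _ (Join.unoriented₂ c hc), h3]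
  have key : ∀ m : ℕ, ∀ hm : m < 2 * n + 1, φ ⟨m, hm⟩ = φ 0 := by
    intro m
    induction m with
    | zero => intro _; rfl
    | succ m ih =>
      intro hm
      have h4 := hs ⟨m, by omega⟩
      have h5 := ih (by omega)
      exact h4.symm.trans h5
  exact fun k => key k k.2

open Classical in
/-- the incidence vector of a component of the state -/
private noncomputable def Third_x (D : GaussDiagram n) (s : Fin n → Bool) (q : Quot (D.Join s)) :
    Fin n → ZMod 2 :=
  fun c => (if D.end₁ s c = q then 1 else 0) + if D.end₂ s c = q then 1 else 0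

private theorem Third_phi (D : GaussDiagram n) (s : Fin n → Bool) (q : Quot (D.Join s)) :
    ∃ φ ∈ compat (D.Join s), (∀ c, φ (D.overPass c).castSucc + φ (D.overPass c).succ =
      Third_x D s q c) ∧ ∀ k, φ k ≠ 0 ↔ Quot.mk (D.Join s) k = q := by
  classical
  refine ⟨fun k => if Quot.mk (D.Join s) k = q then 1 else 0, ?_, fun c => ?_, fun k => ?_⟩
  · rw [mem_compat]
    intro a b hab
    beta_reduce
    rw [Quot.sound hab]
  · rfl
  · by_cases h : Quot.mk (D.Join s) k = q <;> simp [h]

private theorem Third_ker (D : GaussDiagram n) (s : Fin n → Bool) (q : Quot (D.Join s)) :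
    (D.gmat s).mulVec (Third_x D s q) = 0 := by
  obtain ⟨φ, h1, h2, -⟩ := Third_phi D s q
  have h3 := D.ker_of_compat s h1
  rw [funext h2] at h3
  exact h3

/-- the incidence vectors are not zero if there are at least two components -/
private theorem Third_ne (D : GaussDiagram n) (s : Fin n → Bool) (q : Quot (D.Join s))
    (h : 2 ≤ D.comps s) : Third_x D s q ≠ 0 := by
  intro h0
  obtain ⟨φ, h1, h2, h3⟩ := Third_phi D s q
  have h4 := Third_const D s h1 fun c => by rw [h2, h0]; rfl
  have h5 : ∀ k, Quot.mk (D.Join s) k = q := by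
    obtain ⟨k₀, hk₀⟩ := Quot.exists_rep q
    have h6 : φ k₀ ≠ 0 := (h3 k₀).2 hk₀
    intro k
    rw [← h3, h4 k, ← h4 k₀]
    exact h6
  have h6 : Subsingleton (Quot (D.Join s)) := by
    refine ⟨fun a b => ?_⟩
    obtain ⟨k, rfl⟩ := Quot.exists_rep a
    obtain ⟨l, rfl⟩ := Quot.exists_rep b
    rw [h5 k, h5 l]
  have h7 : D.comps s ≤ 1 := by
    unfold comps
    exact Finite.card_le_one_iff_subsingleton.2 h6
  omega

/-- The number of the different nonzero rows is at most three times the rank. -/
theorem third (D : GaussDiagram n) (σ : Fin n → Bool) :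
    ((rows (D.Cut σ)).erase 0).card ≤ rk (D.Cut σ) ∨
      ((rows (D.Cut σ)).erase 0).card + 3 ≤ 3 * rk (D.Cut σ) := by
  classical
  set G := D.gmat σ with hG
  have hrows : rows (D.Cut σ) = Finset.univ.image fun c => G c := by
    unfold rows
    refine Finset.image_congr fun c _ => ?_
    exact row_eq D σ c
  set T := (rows (D.Cut σ)).erase 0 with hT
  have hTm : ∀ v ∈ T, ∃ c, G c = v := by
    intro v hv
    have h1 := (Finset.mem_erase.1 hv).2
    rw [hrows, Finset.mem_image] at h1
    obtain ⟨c, -, hc⟩ := h1
    exact ⟨c, hc⟩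
  have hTi : ∀ c, G c ≠ 0 → G c ∈ T := by
    intro c hc
    rw [hT, Finset.mem_erase, hrows]
    exact ⟨hc, Finset.mem_image_of_mem _ (Finset.mem_univ c)⟩
  rcases T.eq_empty_or_nonempty with hT0 | ⟨v₀, hv₀⟩
  · left
    rw [hT0, Finset.card_empty]
    exact Nat.zero_le _
  have hne : Nonempty (Fin n) := ⟨(hTm v₀ hv₀).choose⟩
  choose! b hb using hTm
  set B := T.image b with hB
  have hBc : B.card = T.card := by
    refine Finset.card_image_of_injOn fun v hv w hw hvw => ?_
    rw [← hb v hv, ← hb w hw, hvw]
  have hBinj : ∀ c ∈ B, ∀ d ∈ B, G c = G d → c = d := by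
    intro c hc d hd hcd
    obtain ⟨v, hv, rfl⟩ := Finset.mem_image.1 hc
    obtain ⟨w, hw, rfl⟩ := Finset.mem_image.1 hd
    rw [hb v hv, hb w hw] at hcd
    rw [hcd]
  have hB0 : ∀ c ∈ B, G c ≠ 0 := by
    intro c hc
    obtain ⟨v, hv, rfl⟩ := Finset.mem_image.1 hc
    rw [hb v hv]
    exact (Finset.mem_erase.1 hv).1
  set s : Fin n → Bool := fun c => if c ∈ B then σ c else !σ c with hs
  have hmul : ∀ x c, (D.gmat s).mulVec x c = G.mulVec x c + if c ∈ B then 0 else x c := by
    intro x c
    rw [hG, gmat_mulVec, gmat_mulVec, add_assoc]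
    congr 1
    by_cases hc : c ∈ B
    · simp only [hs, hc, if_true, add_zero]
    · have key : ∀ z : ZMod 2, z + z = 0 := by decide
      simp only [hs, hc, if_false]
      cases σ c <;> cases D.sign c <;> simp [key]
  -- the kernel of the matrix of `s`
  have hker : ∀ x, (D.gmat s).mulVec x = 0 → (∀ c, c ∉ B → x c = 0) ∧ G.mulVec x = 0 := by
    intro x hx
    have h1 : ∀ c ∈ B, G.mulVec x c = 0 := by
      intro c hc
      have h2 := congrFun hx c
      rw [hmul, if_pos hc, add_zero] at h2
      exact h2
    have h2 : ∀ c, G.mulVec x c = 0 := by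
      intro c
      by_cases h0 : G c = 0
      · show (G c) ⬝ᵥ x = 0
        rw [h0, zero_dotProduct]
      · have h3 := hTi c h0
        have h4 : G.mulVec x c = G.mulVec x (b (G c)) := by
          show (G c) ⬝ᵥ x = (G (b (G c))) ⬝ᵥ x
          rw [hb _ h3]
        rw [h4]
        exact h1 _ (Finset.mem_image_of_mem _ h3)
    refine ⟨fun c hc => ?_, funext h2⟩
    have h3 := congrFun hx c
    rw [hmul, if_neg hc, h2, zero_add] at h3
    exact h3
  -- the number of the components
  have hrk : rk (D.Cut σ) = G.rank := by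
    unfold rk
    rw [hrows, Matrix.rank_eq_finrank_span_row]
    have h1 : ((Finset.univ.image fun c => G c : Finset (Fin n → ZMod 2)) :
        Set (Fin n → ZMod 2)) = Set.range G.row := by
      rw [Finset.coe_image, Finset.coe_univ, Set.image_univ]
      rfl
    rw [h1]
  have hdim : B.card ≤ finrank (ZMod 2) (LinearMap.ker (D.gmat s).mulVecLin) + G.rank := by
    let E : (B → ZMod 2) →ₗ[ZMod 2] (Fin n → ZMod 2) :=
      { toFun := fun y c => if hc : c ∈ B then y ⟨c, hc⟩ else 0
        map_add' := fun y z => by
          funext c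
          by_cases hc : c ∈ B <;> simp [hc]
        map_smul' := fun a y => by
          funext c
          by_cases hc : c ∈ B <;> simp [hc] }
    have hE : ∀ y c, E y c = if hc : c ∈ B then y ⟨c, hc⟩ else 0 := fun _ _ => rfl
    have h1 := LinearMap.finrank_range_add_finrank_ker (G.mulVecLin.comp E)
    rw [finrank_fintype_fun_eq_card, Fintype.card_coe] at h1
    have h2 : finrank (ZMod 2) (LinearMap.range (G.mulVecLin.comp E)) ≤ G.rank := by
      unfold Matrix.rank
      exact Submodule.finrank_mono (LinearMap.range_comp_le_range _ _)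
    have h3 : finrank (ZMod 2) (LinearMap.ker (G.mulVecLin.comp E)) ≤
        finrank (ZMod 2) (LinearMap.ker (D.gmat s).mulVecLin) := by
      let J : LinearMap.ker (G.mulVecLin.comp E) →ₗ[ZMod 2]
          LinearMap.ker (D.gmat s).mulVecLin :=
        (E.domRestrict _).codRestrict _ fun y => by
          have h4 : G.mulVec (E y.1) = 0 := LinearMap.mem_ker.1 y.2
          rw [LinearMap.mem_ker]
          show (D.gmat s).mulVec (E y.1) = 0
          funext c
          rw [hmul, h4, Pi.zero_apply, zero_add]
          by_cases hc : c ∈ B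
          · rw [if_pos hc]
          · rw [if_neg hc, hE, dif_neg hc]
      refine LinearMap.finrank_le_finrank_of_injective (f := J) fun y z hyz => ?_
      have h5 : E y.1 = E z.1 := congrArg Subtype.val hyz
      refine Subtype.ext (funext fun c => ?_)
      have h6 := congrFun h5 c.1
      rw [hE, hE, dif_pos c.2, dif_pos c.2] at h6
      exact h6
    omega
  have hcomps : D.comps s = 1 + finrank (ZMod 2) (LinearMap.ker (D.gmat s).mulVecLin) :=
    D.comps_eq s
  rw [← hBc, hrk]
  by_cases h2 : 2 ≤ D.comps s
  · right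
    have := Fintype.ofFinite (Quot (D.Join s))
    have hcard : D.comps s = Fintype.card (Quot (D.Join s)) := by
      unfold comps
      exact Nat.card_eq_fintype_card
    -- every component has at least three crossings
    have h3 : ∀ q : Quot (D.Join s), 3 ≤ (B.filter fun c => Third_x D s q c ≠ 0).card := by
      intro q
      obtain ⟨h4, h5⟩ := hker _ (Third_ker D s q)
      have h6 := Third_ne D s q h2
      set S := B.filter fun c => Third_x D s q c ≠ 0 with hS
      have h1' : ∀ z : ZMod 2, z ≠ 0 → z = 1 := by decide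
      have h7 : ∑ c ∈ S, G c = 0 := by
        funext d
        rw [Finset.sum_apply, Pi.zero_apply]
        have h8 := congrFun h5 d
        rw [Pi.zero_apply] at h8
        refine Eq.trans ?_ h8
        unfold Matrix.mulVec dotProduct
        rw [hS, Finset.sum_filter, ← Finset.sum_subset (Finset.subset_univ B)]
        · refine Finset.sum_congr rfl fun c _ => ?_
          by_cases hc : Third_x D s q c = 0
          · rw [if_neg (by simpa using hc), hc, mul_zero]
          · rw [if_pos hc, h1' _ hc, mul_one, hG, D.gmat_symm]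
        · intro c _ hc
          rw [h4 c hc, mul_zero]
      have h8 : S.Nonempty := by
        obtain ⟨c, hc⟩ := Function.ne_iff.1 h6
        refine ⟨c, Finset.mem_filter.2 ⟨?_, hc⟩⟩
        by_contra hcB
        exact hc (h4 c hcB)
      by_contra hlt
      have h9 : S.card = 1 ∨ S.card = 2 := by
        have := Finset.card_pos.2 h8
        omega
      rcases h9 with h9 | h9
      · obtain ⟨c, hc⟩ := Finset.card_eq_one.1 h9
        rw [hc, Finset.sum_singleton] at h7
        have hcB : c ∈ B := (Finset.mem_filter.1 (hS ▸ (by rw [hc]; simp : c ∈ S) : c ∈ _)).1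
        exact hB0 c hcB h7
      · obtain ⟨c, d, hcd, hc⟩ := Finset.card_eq_two.1 h9
        rw [hc, Finset.sum_pair hcd] at h7
        have hcB : c ∈ B := (Finset.mem_filter.1 (hS ▸ (by rw [hc]; simp : c ∈ S) : c ∈ _)).1
        have hdB : d ∈ B := (Finset.mem_filter.1 (hS ▸ (by rw [hc]; simp : d ∈ S) : d ∈ _)).1
        refine hcd (hBinj c hcB d hdB ?_)
        have key : ∀ a b : ZMod 2, a + b = 0 → a = b := by decide
        funext e
        exact key _ _ (congrFun h7 e)
    have h4 : Fintype.card (Quot (D.Join s)) * 3 ≤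
        ∑ q : Quot (D.Join s), (B.filter fun c => Third_x D s q c ≠ 0).card := by
      rw [← smul_eq_mul, ← Finset.card_univ, ← Finset.sum_const]
      exact Finset.sum_le_sum fun q _ => h3 q
    have h5 : ∑ q : Quot (D.Join s), (B.filter fun c => Third_x D s q c ≠ 0).card ≤
        B.card * 2 := by
      simp only [Finset.card_filter]
      rw [Finset.sum_comm]
      refine (Finset.sum_le_card_nsmul _ _ 2 fun c _ => ?_).trans_eq (smul_eq_mul _ _)
      rw [← Finset.card_filter]
      have h6 : (Finset.univ.filter fun q => Third_x D s q c ≠ 0) ⊆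
          {D.end₁ s c, D.end₂ s c} := by
        intro q hq
        rw [Finset.mem_insert, Finset.mem_singleton]
        by_contra hcon
        push Not at hcon
        refine (Finset.mem_filter.1 hq).2 ?_
        unfold Third_x
        rw [if_neg hcon.1.symm, if_neg hcon.2.symm, add_zero]
      exact (Finset.card_le_card h6).trans Finset.card_le_two
    omega
  · left
    have := D.comps_pos s
    omega

end Pool.Agent.EQT
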