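import Pool.Agent.EQT.All
import Pool.Agent.EQT.Third

/-!
# EQT: the theorem in terms of the twist classes
-/

set_option autoImplicit false

open Submodule Module LaurentPolynomial

namespace Pool.Agent.EQT

open Pool.Agent.SPT Pool.Agent.Helper16.Knotoid

variable {n : ℕ}

open Classical in
/-- The number of the twist classes of the crossings which are interlaced with some crossing. -/
noncomputable def twistClasses (I : Fin n → Fin n → Prop) : ℕ :=
  ((Finset.univ.filter fun i => ∃ j, I i j).image fun i =>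
    (Finset.univ.filter fun j => Twins I i j)).card

section

variable {I : Fin n → Fin n → Prop} {e : Fin n → Bool}

/-- the relation of the state which cuts the twist regions -/
def Twin_R (I : Fin n → Fin n → Prop) (e : Fin n → Bool) (i j : Fin n) : Prop :=
  I i j ∨ (i = j ∧ cutState I e i ≠ e i)

private theorem Twin_cut (I : Fin n → Fin n → Prop) (e : Fin n → Bool) (i : Fin n) :
    cutState I e i ≠ e i ↔ ∃ j, Twins I i j ∧ I i j := by
  classical
  unfold cutState
  by_cases h : ∃ j, Twins I i j ∧ I i j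
  · rw [if_pos h]
    exact ⟨fun _ => h, fun _ => by cases e i <;> decide⟩
  · rw [if_neg h]
    exact ⟨fun h' => absurd rfl h', fun h' => absurd h' h⟩

private theorem Twin_symm {i j : Fin n} (h : Twins I i j) : Twins I j i :=
  fun k h1 h2 => (h k h2 h1).symm

private theorem Twin_adj (hi : ∀ i, ¬ I i i) (hs : ∀ i j, I i j → I j i) {i j k : Fin n}
    (h1 : Twins I i j) (h2 : I i j) (h3 : Twins I i k) (hk : k ≠ i) : I i k := by
  by_cases hkj : k = j
  · rw [hkj]
    exact h2
  · have hji : j ≠ i := by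
      intro h
      rw [h] at h2
      exact hi i h2
    have h4 := (h3 j hji (Ne.symm hkj)).1 h2
    exact (h1 k hk hkj).2 (hs _ _ h4)

private theorem Twin_diag (hi : ∀ i, ¬ I i i) (hs : ∀ i j, I i j → I j i) {i j : Fin n}
    (h : Twins I i j) (hij : j ≠ i) : cutState I e i ≠ e i ↔ I i j := by
  rw [Twin_cut]
  constructor
  · rintro ⟨k, h1, h2⟩
    exact Twin_adj hi hs h1 h2 h hij
  · intro h2
    exact ⟨j, h, h2⟩

/-- equal rows are twins -/
theorem Twin_row (hi : ∀ i, ¬ I i i) (hs : ∀ i j, I i j → I j i) (i j : Fin n) :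
    row (Twin_R I e) i = row (Twin_R I e) j ↔ Twins I i j := by
  classical
  have h0 : row (Twin_R I e) i = row (Twin_R I e) j ↔
      ∀ k, (Twin_R I e i k ↔ Twin_R I e j k) := by
    unfold row
    constructor
    · intro h k
      have h1 := congrFun h k
      beta_reduce at h1
      by_cases h2 : Twin_R I e i k <;> by_cases h3 : Twin_R I e j k <;> simp_all
    · intro h
      funext k
      beta_reduce
      rw [if_congr (h k) rfl rfl]
  rw [h0]
  constructor
  · intro h k h1 h2
    have h3 := h k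
    unfold Twin_R at h3
    constructor
    · intro h4
      rcases h3.1 (Or.inl h4) with h5 | h5
      · exact h5
      · exact absurd h5.1.symm h2
    · intro h4
      rcases h3.2 (Or.inl h4) with h5 | h5
      · exact h5
      · exact absurd h5.1.symm h1
  · intro h k
    by_cases hij : i = j
    · rw [hij]
    unfold Twin_R
    by_cases h1 : k = i
    · subst h1
      have h2 : ¬ I k k := hi k
      have h3 := Twin_diag (e := e) hi hs h (Ne.symm hij)
      constructor
      · rintro (h4 | ⟨-, h4⟩)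
        · exact absurd h4 h2
        · exact Or.inl (hs _ _ (h3.1 h4))
      · rintro (h4 | ⟨h4, -⟩)
        · exact Or.inr ⟨rfl, h3.2 (hs _ _ h4)⟩
        · exact absurd h4.symm hij
    · by_cases h2 : k = j
      · subst h2
        have h4 : ¬ I k k := hi k
        have h3 := Twin_diag (e := e) hi hs (Twin_symm h) hij
        constructor
        · rintro (h5 | ⟨h5, -⟩)
          · exact Or.inr ⟨rfl, h3.2 (hs _ _ h5)⟩
          · exact absurd h5 hij
        · rintro (h5 | ⟨-, h5⟩)
          · exact absurd h5 h4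
          · exact Or.inl (hs _ _ (h3.1 h5))
      · have h3 := h k h1 h2
        constructor
        · rintro (h4 | ⟨h4, -⟩)
          · exact Or.inl (h3.1 h4)
          · exact absurd h4.symm h1
        · rintro (h4 | ⟨h4, -⟩)
          · exact Or.inl (h3.2 h4)
          · exact absurd h4.symm h2

/-- nonzero rows -/
theorem Twin_ne (i : Fin n) : row (Twin_R I e) i ≠ 0 ↔ ∃ j, I i j := by
  constructor
  · intro h
    obtain ⟨k, hk⟩ := Function.ne_iff.1 h
    unfold row at hk
    beta_reduce at hk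
    have h1 : Twin_R I e i k := by
      by_contra h2
      rw [if_neg h2] at hk
      exact hk rfl
    rcases h1 with h1 | ⟨-, h1⟩
    · exact ⟨k, h1⟩
    · obtain ⟨j, -, hj⟩ := (Twin_cut I e i).1 h1
      exact ⟨j, hj⟩
  · rintro ⟨j, hj⟩ h
    have h1 := congrFun h j
    unfold row at h1
    beta_reduce at h1
    rw [if_pos (show Twin_R I e i j from Or.inl hj)] at h1
    exact one_ne_zero h1

/-- the twist number of a row -/
theorem Twin_twist (hi : ∀ i, ¬ I i i) (hs : ∀ i j, I i j → I j i) (i : Fin n) :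
    twist (Twin_R I e) (cutState I e) (row (Twin_R I e) i) = twistNumber I e i ∨
      twist (Twin_R I e) (cutState I e) (row (Twin_R I e) i) = -twistNumber I e i := by
  classical
  have h1 : twist (Twin_R I e) (cutState I e) (row (Twin_R I e) i) =
      ∑ c with Twins I i c, if cutState I e c then 1 else -1 := by
    unfold twist
    refine Finset.sum_congr ?_ fun _ _ => rfl
    ext c
    rw [Finset.mem_filter, Finset.mem_filter, eq_comm, Twin_row hi hs]
  have h2 : ∀ c, Twins I i c → (cutState I e c ≠ e c ↔ cutState I e i ≠ e i) := by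
    intro c hc
    by_cases hci : c = i
    · rw [hci]
    · rw [Twin_diag hi hs hc hci, Twin_diag hi hs (Twin_symm hc) (Ne.symm hci)]
      exact ⟨hs _ _, hs _ _⟩
  rw [h1]
  unfold twistNumber
  by_cases h3 : cutState I e i ≠ e i
  · right
    rw [← Finset.sum_neg_distrib]
    refine Finset.sum_congr rfl fun c hc => ?_
    have h4 := (h2 c (Finset.mem_filter.1 hc).2).2 h3
    revert h4
    cases cutState I e c <;> cases e c <;> simp
  · left
    refine Finset.sum_congr rfl fun c hc => ?_
    have h4 : cutState I e c = e c := by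
      by_contra h5
      exact h3 ((h2 c (Finset.mem_filter.1 hc).2).1 h5)
    rw [h4]

/-- all twist numbers of the rows are odd multiples -/
theorem Twin_odd (hi : ∀ i, ¬ I i i) (hs : ∀ i j, I i j → I j i) (M : ℕ)
    (h : AllOdd I e M) : OddMultiples (Twin_R I e) (cutState I e) M := by
  classical
  have h1 : ∀ v ∈ rows (Twin_R I e), v ≠ 0 →
      ∃ k : ℤ, twist (Twin_R I e) (cutState I e) v = (2 * k + 1) * M := by
    intro v hv hv0
    unfold rows at hv
    obtain ⟨i, -, rfl⟩ := Finset.mem_image.1 hv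
    obtain ⟨k, hk⟩ := h i ((Twin_ne i).1 hv0)
    rcases Twin_twist (e := e) hi hs i with h2 | h2
    · exact ⟨k, by rw [h2, hk]⟩
    · exact ⟨-k - 1, by rw [h2, hk]; ring⟩
  refine ⟨0, fun v hv hv0 _ => ?_, ?_⟩
  · obtain ⟨k, hk⟩ := h1 v hv hv0
    rw [hk]
    exact Dvd.intro_left _ rfl
  · apply le_antisymm
    · exact span_mono fun v hv => hv.1
    · rw [span_le]
      intro v hv
      by_cases hv0 : v = 0
      · rw [hv0]
        exact Submodule.zero_mem _
      · exact subset_span ⟨hv, hv0, h1 v hv hv0⟩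

private theorem Twin_card {α β γ : Type} [DecidableEq β] [DecidableEq γ] (s : Finset α)
    (f : α → β) (g : α → γ) (h : ∀ i ∈ s, ∀ j ∈ s, g i = g j → f i = f j) :
    (s.image f).card ≤ (s.image g).card := by
  classical
  rcases s.eq_empty_or_nonempty with rfl | ⟨a, ha⟩
  · simp
  · have hne : Nonempty α := ⟨a⟩
    have h1 : ∀ u ∈ s.image g, ∃ i ∈ s, g i = u := fun u hu => by
      obtain ⟨i, hi, hg⟩ := Finset.mem_image.1 hu
      exact ⟨i, hi, hg⟩
    choose! r hr using h1
    refine Finset.card_le_card_of_surjOn (fun u => f (r u)) ?_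
    intro v hv
    obtain ⟨i, hi, rfl⟩ := Finset.mem_image.1 (Finset.mem_coe.1 hv)
    have h2 := hr (g i) (Finset.mem_image_of_mem g hi)
    exact ⟨g i, Finset.mem_coe.2 (Finset.mem_image_of_mem g hi), h _ h2.1 _ hi h2.2⟩

/-- the number of the different nonzero rows -/
theorem Twin_count (hi : ∀ i, ¬ I i i) (hs : ∀ i j, I i j → I j i) :
    twistClasses I = ((rows (Twin_R I e)).erase 0).card := by
  classical
  have h1 : (rows (Twin_R I e)).erase 0 =
      (Finset.univ.filter fun i => ∃ j, I i j).image (row (Twin_R I e)) := by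
    ext v
    unfold rows
    rw [Finset.mem_erase, Finset.mem_image, Finset.mem_image]
    constructor
    · rintro ⟨h1, i, -, rfl⟩
      exact ⟨i, Finset.mem_filter.2 ⟨Finset.mem_univ _, (Twin_ne i).1 h1⟩, rfl⟩
    · rintro ⟨i, h1, rfl⟩
      exact ⟨(Twin_ne i).2 (Finset.mem_filter.1 h1).2, i, Finset.mem_univ _, rfl⟩
  have h2 : ∀ i j, ((Finset.univ.filter fun k => Twins I i k) =
      (Finset.univ.filter fun k => Twins I j k)) ↔
        row (Twin_R I e) i = row (Twin_R I e) j := by
    intro i j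
    constructor
    · intro h
      have h3 : j ∈ Finset.univ.filter fun k => Twins I j k :=
        Finset.mem_filter.2 ⟨Finset.mem_univ _, fun k _ _ => Iff.rfl⟩
      rw [← h] at h3
      exact (Twin_row hi hs i j).2 (Finset.mem_filter.1 h3).2
    · intro h
      ext k
      rw [Finset.mem_filter, Finset.mem_filter, ← Twin_row (e := e) hi hs,
        ← Twin_row (e := e) hi hs, h]
  rw [h1]
  unfold twistClasses
  exact le_antisymm (Twin_card _ _ _ fun i _ j _ h => (h2 i j).2 h)
    (Twin_card _ _ _ fun i _ j _ h => (h2 i j).1 h)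

end

/-! ### the constants -/

private theorem Twin_q (M : ℕ) : qM M = 2 - 2 * Real.cos (Real.pi / M) := by
  have h2 := Real.cos_sq' (Real.pi / (2 * M))
  have h3 : Real.cos (Real.pi / M) = 2 * Real.cos (Real.pi / (2 * M)) ^ 2 - 1 := by
    rw [← Real.cos_two_mul]
    congr 1
    ring
  rw [h3, h2]
  unfold qM
  ring

/-- the constant is at least `2 ^ (1 / 4)` -/
theorem kap_four {M : ℕ} (hM : 4 ≤ M) : 2 ≤ kap M ^ 4 ∧ 1 < kap M := by
  have hP := par_kap M hM
  have hM' : (4 : ℝ) ≤ M := by exact_mod_cast hM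
  have h0 : 0 < qM M := by
    unfold qM
    have h2 : 0 < Real.sin (Real.pi / (2 * M)) := by
      refine Real.sin_pos_of_pos_of_lt_pi (by positivity) ?_
      rw [div_lt_iff₀ (by positivity)]
      nlinarith [Real.pi_pos]
    positivity
  have h2 : Real.cos (Real.pi / 4) ≤ Real.cos (Real.pi / M) := by
    refine Real.cos_le_cos_of_nonneg_of_le_pi (by positivity) ?_ ?_
    · linarith [Real.pi_pos]
    · exact div_le_div_of_nonneg_left Real.pi_pos.le (by norm_num) hM'
  rw [Real.cos_pi_div_four] at h2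
  have h3 : qM M ≤ 2 - Real.sqrt 2 := by
    rw [Twin_q]
    linarith
  have hs : Real.sqrt 2 ^ 2 = 2 := Real.sq_sqrt (by norm_num)
  have hs0 : 0 ≤ Real.sqrt 2 := Real.sqrt_nonneg 2
  have hs1 : (1.4 : ℝ) ≤ Real.sqrt 2 := Real.le_sqrt_of_sq_le (by norm_num)
  have h4 : Real.sqrt 2 ≤ 4 / qM M - 6 + qM M := by
    have h5 : (6 + Real.sqrt 2 - qM M) * qM M ≤ 4 := by nlinarith
    have h6 : 6 + Real.sqrt 2 - qM M ≤ 4 / qM M := by
      rw [le_div_iff₀ h0]
      exact h5
    linarith
  have h5 : kap M ^ 2 = 4 / qM M - 6 + qM M := by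
    unfold kap
    exact Real.sq_sqrt (by linarith)
  have h6 : Real.sqrt 2 ≤ kap M ^ 2 := by
    rw [h5]
    exact h4
  constructor
  · have h7 : kap M ^ 4 = (kap M ^ 2) ^ 2 := by ring
    rw [h7]
    nlinarith
  · have h8 := hP.kpos
    nlinarith

/-- the constant for `M ≥ 5` -/
theorem kap_five {M : ℕ} (hM : 5 ≤ M) : (M : ℝ) / 3 ≤ kap M := by
  have hM' : (5 : ℝ) ≤ M := by exact_mod_cast hM
  have h0 : 0 < qM M := by
    unfold qM
    have h2 : 0 < Real.sin (Real.pi / (2 * M)) := by
      refine Real.sin_pos_of_pos_of_lt_pi (by positivity) ?_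
      rw [div_lt_iff₀ (by positivity)]
      nlinarith [Real.pi_pos]
    positivity
  have h1 : qM M ≤ (Real.pi / M) ^ 2 := by
    unfold qM
    have h2 : 0 ≤ Real.sin (Real.pi / (2 * M)) := by
      refine Real.sin_nonneg_of_nonneg_of_le_pi (by positivity) ?_
      rw [div_le_iff₀ (by positivity)]
      nlinarith [Real.pi_pos]
    have h3 : Real.sin (Real.pi / (2 * M)) ≤ Real.pi / (2 * M) :=
      Real.sin_le (by positivity)
    have h4 : Real.pi / M = 2 * (Real.pi / (2 * M)) := by ring
    rw [h4]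
    nlinarith
  have h2 : Real.pi ^ 2 ≤ 9.93 := by
    nlinarith [Real.pi_lt_d2, Real.pi_pos]
  unfold kap
  refine Real.le_sqrt_of_sq_le ?_
  have h3 : ((M : ℝ) ^ 2 / 9 + 6) * qM M ≤ 4 := by
    have h4 : ((M : ℝ) ^ 2 / 9 + 6) * qM M ≤ ((M : ℝ) ^ 2 / 9 + 6) * (Real.pi / M) ^ 2 :=
      mul_le_mul_of_nonneg_left h1 (by positivity)
    have h5 : ((M : ℝ) ^ 2 / 9 + 6) * (Real.pi / M) ^ 2 =
        Real.pi ^ 2 / 9 + 6 * Real.pi ^ 2 / (M : ℝ) ^ 2 := by
      field_simp
    have h6 : 6 * Real.pi ^ 2 / (M : ℝ) ^ 2 ≤ 6 * 9.93 / 25 := by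
      apply div_le_div₀ (by norm_num) (by linarith) (by norm_num)
      nlinarith
    rw [h5] at h4
    linarith
  have h4 : (M : ℝ) ^ 2 / 9 + 6 ≤ 4 / qM M := by
    rw [le_div_iff₀ h0]
    exact h3
  have h5 : ((M : ℝ) / 3) ^ 2 = (M : ℝ) ^ 2 / 9 := by ring
  rw [h5]
  linarith

/-! ### the theorems -/

/-- from the rank to the number of the twist classes -/
theorem Twin_final {I : Fin n → Fin n → Prop} {e : Fin n → Bool} (hi : ∀ i, ¬ I i i)
    (hs : ∀ i j, I i j → I j i) {M : ℕ} (hM : 4 ≤ M) {S : ℝ}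
    (h1 : kap M ^ rk (Twin_R I e) ≤ S)
    (h2 : ((rows (Twin_R I e)).erase 0).card ≤ rk (Twin_R I e) ∨
      ((rows (Twin_R I e)).erase 0).card + 3 ≤ 3 * rk (Twin_R I e)) :
    kap M ^ twistClasses I ≤ S ^ 3 ∧ ((∃ i j, I i j) → 1 < S) := by
  obtain ⟨-, hk⟩ := kap_four hM
  have hk0 : 0 ≤ kap M := by linarith
  rw [← Twin_count (e := e) hi hs] at h2
  have h3 : twistClasses I ≤ 3 * rk (Twin_R I e) := by omega
  refine ⟨?_, fun ⟨i, j, hij⟩ => ?_⟩
  · calc kap M ^ twistClasses I ≤ kap M ^ (3 * rk (Twin_R I e)) :=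
          pow_le_pow_right₀ hk.le h3
      _ = (kap M ^ rk (Twin_R I e)) ^ 3 := by rw [← pow_mul, mul_comm]
      _ ≤ S ^ 3 := pow_le_pow_left₀ (pow_nonneg hk0 _) h1 3
  · have h4 : rk (Twin_R I e) ≠ 0 := by
      intro h4
      unfold rk at h4
      rw [Submodule.finrank_eq_zero, span_eq_bot] at h4
      classical
      refine (Twin_ne (e := e) i).2 ⟨j, hij⟩ (h4 _ ?_)
      unfold rows
      rw [Finset.mem_coe]
      exact Finset.mem_image_of_mem _ (Finset.mem_univ i)
    exact (one_lt_pow₀ hk h4).trans_le h1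

theorem Twin_irrefl (D : GaussDiagram n) (i : Fin n) : ¬ D.Interlaced i i := by
  unfold GaussDiagram.Interlaced GaussDiagram.Inside
  simp

theorem Twin_int_symm (D : GaussDiagram n) (i j : Fin n) (h : D.Interlaced i j) :
    D.Interlaced j i := by
  have h1 : D.Cut D.sign i j := Or.inl h
  rw [UNI.cut_iff, D.gmat_symm, ← UNI.cut_iff] at h1
  rcases h1 with h1 | ⟨-, h1⟩
  · exact h1
  · exact absurd rfl h1

/-- **knotoid diagrams**, twist classes -/
theorem knotoid_twist {M : ℕ} (hM : 4 ≤ M) (D : GaussDiagram n)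
    (h : AllOdd D.Interlaced D.sign M) :
    kap M ^ rk (D.Cut (cutState D.Interlaced D.sign)) ≤ (coeffSum D.normalizedBracket : ℝ) ∧
    kap M ^ twistClasses D.Interlaced ≤ (coeffSum D.normalizedBracket : ℝ) ^ 3 ∧
      ((∃ i j, D.Interlaced i j) → 1 < coeffSum D.normalizedBracket) := by
  have h0 : D.Cut (cutState D.Interlaced D.sign) = Twin_R D.Interlaced D.sign := rfl
  have h1 := thm_KnotoidE M n D (cutState D.Interlaced D.sign) hM
    (Twin_odd (Twin_irrefl D) (Twin_int_symm D) M h)
  obtain ⟨h2, h3⟩ := Twin_final (e := D.sign) (Twin_irrefl D) (Twin_int_symm D) hM h1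
    (third D (cutState D.Interlaced D.sign))
  exact ⟨h1, h2, fun h4 => by exact_mod_cast h3 h4⟩

/-- **knot diagrams**, twist classes -/
theorem knot_twist {M : ℕ} (hM : 4 ≤ M) (g : GaussJones.Code n) (e : Fin n → Bool)
    (h : AllOdd (GaussJones.Interlaced g) e M) :
    kap M ^ rk (GaussJones.Cut g e (cutState (GaussJones.Interlaced g) e)) ≤
      (coeffSum (GaussJones.fPoly g e) : ℝ) ∧
    kap M ^ twistClasses (GaussJones.Interlaced g) ≤ (coeffSum (GaussJones.fPoly g e) : ℝ) ^ 3 ∧
      ((∃ i j, GaussJones.Interlaced g i j) → 1 < coeffSum (GaussJones.fPoly g e)) := by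
  have hi : ∀ i, ¬ GaussJones.Interlaced g i i := by
    intro i h
    rcases h with h | h <;> exact lt_irrefl _ h.1
  have hs : ∀ i j, GaussJones.Interlaced g i j → GaussJones.Interlaced g j i :=
    fun i j h => h.symm
  have h0 : GaussJones.Cut g e (cutState (GaussJones.Interlaced g) e) =
      Twin_R (GaussJones.Interlaced g) e := rfl
  have h1 := thm_KnotE M n g e (cutState (GaussJones.Interlaced g) e) hM
    (Twin_odd hi hs M h)
  have h5 : GaussJones.Cut g e (cutState (GaussJones.Interlaced g) e) =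
      (UNI.cutOpen g e).Cut (cutState (GaussJones.Interlaced g) e) := by
    funext i j
    exact propext (UNI.cut_closed g e _ i j)
  have h6 := third (UNI.cutOpen g e) (cutState (GaussJones.Interlaced g) e)
  rw [← h5] at h6
  obtain ⟨h2, h3⟩ := Twin_final (e := e) hi hs hM h1 h6
  exact ⟨h1, h2, fun h4 => by exact_mod_cast h3 h4⟩

theorem thm_KnotoidT : St_KnotoidT := fun _ _ D hM h =>
  ⟨(knotoid_twist hM D h).1, (knotoid_twist hM D h).2.2⟩

theorem thm_KnotT : St_KnotT := fun _ _ g e hM h =>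
  ⟨(knot_twist hM g e h).1, (knot_twist hM g e h).2.2⟩

/-! ### small facts for the final statements -/

theorem coeffSum_nonneg (f : ℤ[T;T⁻¹]) : 0 ≤ coeffSum f :=
  Finset.sum_nonneg fun _ _ => abs_nonneg _

theorem coeffSum_one : coeffSum (1 : ℤ[T;T⁻¹]) = 1 := by
  unfold coeffSum
  have h : (1 : ℤ[T;T⁻¹]) = T 0 := T_zero.symm
  have h1 : ∀ i : ℤ, (1 : ℤ[T;T⁻¹]).coeff i = if i = 0 then 1 else 0 := by
    intro i
    rw [h, T_apply]
    by_cases hi : i = 0
    · simp [hi]
    · rw [if_neg (fun h' => hi h'.symm), if_neg hi]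
  have h2 : (1 : ℤ[T;T⁻¹]).coeff.support = {0} := by
    ext i
    rw [Finsupp.mem_support_iff, h1, Finset.mem_singleton]
    by_cases hi : i = 0 <;> simp [hi]
  rw [h2, Finset.sum_singleton, h1, if_pos rfl, abs_one]

theorem rpow_third {x S : ℝ} {t : ℕ} (hx : 0 ≤ x) (hS : 0 ≤ S) (h : x ^ t ≤ S ^ 3) :
    x ^ ((t : ℝ) / 3) ≤ S := by
  have h1 : (x ^ ((t : ℝ) / 3)) ^ 3 ≤ S ^ 3 := by
    rw [← Real.rpow_natCast (x ^ ((t : ℝ) / 3)), ← Real.rpow_mul hx]
    have h2 : (t : ℝ) / 3 * ((3 : ℕ) : ℝ) = t := by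
      push_cast
      ring
    rw [h2, Real.rpow_natCast]
    exact h
  exact le_of_pow_le_pow_left₀ (by norm_num) hS h1

end Pool.Agent.EQT
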