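import Pool.Agent.EQT.GAsm
import Pool.Agent.EQT.Third
import Pool.Agent.EQT.Twin
import Pool.Agent.EQT.DvC

/-!
# EQT, module DvD: the value at `An M`, twist classes

-/

set_option autoImplicit false
set_option linter.unusedSectionVars false

open Submodule Module LaurentPolynomial

namespace Pool.Agent.EQT

open Pool.Agent.SPT Pool.Agent.Helper16.Knotoid Pool.Agent.Helper16.Knotoid.GaussDiagram

variable {n : ℕ}

/-! ### the value -/

/-- **the value of the normalized bracket, twist classes** -/
theorem ev_twist {M : ℕ} (hM : 4 ≤ M) (D : GaussDiagram n) (h : AllOdd D.Interlaced D.sign M) :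
    kap M ^ twistClasses D.Interlaced ≤ ‖evθ (-(Real.pi / M)) D.normalizedBracket‖ ^ 3 ∧
      ((∃ i j, D.Interlaced i j) → 1 < ‖evθ (-(Real.pi / M)) D.normalizedBracket‖) :=
  Twin_final (e := D.sign) (int_irrefl D) (int_symm D) hM
    (evn_knotoid hM D (cutState D.Interlaced D.sign)
      (Twin_odd (int_irrefl D) (int_symm D) M h))
    (third D (cutState D.Interlaced D.sign))

/-! ### the restricted diagram -/

theorem restr_twins (D : GaussDiagram n) (Y : Finset (Fin n)) (c d : Fin Y.card) :
    Twins (restr D Y).Interlaced c d ↔ TwinsIn D.Interlaced Y (emb Y c) (emb Y d) := by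
  constructor
  · intro h k hk h1 h2
    obtain ⟨a, rfl⟩ := emb_surj Y hk
    rw [← restr_interlaced, ← restr_interlaced]
    exact h a (fun h' => h1 (by rw [h'])) (fun h' => h2 (by rw [h']))
  · intro h a h1 h2
    rw [restr_interlaced, restr_interlaced]
    exact h _ (emb_mem Y a) (fun h' => h1 (emb_inj Y h')) (fun h' => h2 (emb_inj Y h'))

theorem restr_exists (D : GaussDiagram n) (Y : Finset (Fin n)) (c : Fin Y.card) :
    (∃ d, (restr D Y).Interlaced c d) ↔ ∃ j ∈ Y, D.Interlaced (emb Y c) j := by
  constructor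
  · rintro ⟨d, hd⟩
    exact ⟨emb Y d, emb_mem Y d, (restr_interlaced D Y c d).1 hd⟩
  · rintro ⟨j, hj, hcj⟩
    obtain ⟨d, rfl⟩ := emb_surj Y hj
    exact ⟨d, (restr_interlaced D Y c d).2 hcj⟩

open Classical in
/-- the twist classes of the restricted diagram -/
theorem restr_class (D : GaussDiagram n) (Y : Finset (Fin n)) (c : Fin Y.card) :
    classIn D.Interlaced Y (emb Y c) =
      (Finset.univ.filter fun d => Twins (restr D Y).Interlaced c d).image (emb Y) := by
  ext j
  rw [mem_classIn, Finset.mem_image]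
  constructor
  · rintro ⟨hj, h⟩
    obtain ⟨d, rfl⟩ := emb_surj Y hj
    exact ⟨d, Finset.mem_filter.2 ⟨Finset.mem_univ d, (restr_twins D Y c d).2 h⟩, rfl⟩
  · rintro ⟨d, hd, rfl⟩
    exact ⟨emb_mem Y d, (restr_twins D Y c d).1 (Finset.mem_filter.1 hd).2⟩

theorem restr_number (D : GaussDiagram n) (Y : Finset (Fin n)) (c : Fin Y.card) :
    twistNumber (restr D Y).Interlaced (restr D Y).sign c =
      twistIn D.Interlaced D.sign Y (emb Y c) := by
  classical
  unfold twistNumber twistIn
  rw [restr_class, Finset.sum_image fun a _ b _ h => emb_inj Y h]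
  rfl

theorem restr_odd (D : GaussDiagram n) (Y : Finset (Fin n)) (M : ℕ)
    (h : OddIn D.Interlaced D.sign M Y) : AllOdd (restr D Y).Interlaced (restr D Y).sign M := by
  intro c hc
  rw [restr_number]
  exact h _ (emb_mem Y c) ((restr_exists D Y c).1 hc)

theorem restr_classes (D : GaussDiagram n) (Y : Finset (Fin n)) :
    twistClasses (restr D Y).Interlaced = classesIn D.Interlaced Y := by
  classical
  unfold twistClasses classesIn
  have h1 : (Y.filter fun i => ∃ j ∈ Y, D.Interlaced i j).image (classIn D.Interlaced Y) =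
      ((Finset.univ.filter fun c => ∃ d, (restr D Y).Interlaced c d).image fun c =>
        Finset.univ.filter fun d => Twins (restr D Y).Interlaced c d).image
          (fun S => S.image (emb Y)) := by
    ext S
    rw [Finset.mem_image, Finset.mem_image]
    constructor
    · rintro ⟨i, hi, rfl⟩
      rw [Finset.mem_filter] at hi
      obtain ⟨c, rfl⟩ := emb_surj Y hi.1
      exact ⟨_, Finset.mem_image_of_mem _ (Finset.mem_filter.2 ⟨Finset.mem_univ c,
        (restr_exists D Y c).2 hi.2⟩), (restr_class D Y c).symm⟩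
    · rintro ⟨S', hS', rfl⟩
      obtain ⟨c, hc, rfl⟩ := Finset.mem_image.1 hS'
      exact ⟨emb Y c, Finset.mem_filter.2 ⟨emb_mem Y c,
        (restr_exists D Y c).1 (Finset.mem_filter.1 hc).2⟩, restr_class D Y c⟩
  rw [h1]
  exact (Finset.card_image_of_injective _ (Finset.image_injective (emb Y).injective)).symm

/-- **the value of the normalized bracket, if twist classes are removed** -/
theorem ev_remains {M : ℕ} (hM : 4 ≤ M) (D : GaussDiagram n) (Y : Finset (Fin n))
    (h1 : Remains D.Interlaced D.sign M Y) (h2 : OddIn D.Interlaced D.sign M Y) :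
    kap M ^ classesIn D.Interlaced Y ≤ ‖evθ (-(Real.pi / M)) D.normalizedBracket‖ ^ 3 ∧
      ((∃ i ∈ Y, ∃ j ∈ Y, D.Interlaced i j) →
        1 < ‖evθ (-(Real.pi / M)) D.normalizedBracket‖) := by
  have h3 := ev_twist hM (restr D Y) (restr_odd D Y M h2)
  rw [norm_remains D M hM Y h1, restr_classes] at h3
  refine ⟨h3.1, fun ⟨i, hi, j, hj, hij⟩ => h3.2 ?_⟩
  obtain ⟨c, rfl⟩ := emb_surj Y hi
  obtain ⟨d, rfl⟩ := emb_surj Y hj
  exact ⟨c, d, (restr_interlaced D Y c d).2 hij⟩

end Pool.Agent.EQT
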