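import Pool.Agent.EQT.Stmt

/-!
# EQT: removing twist classes

`I` is the relation of being interlaced on the crossings `0, …, n-1`, `e` gives the signs.
-/

set_option autoImplicit false

namespace Pool.Agent.EQT

variable {n : ℕ}

/-- The crossings `i` and `j` are interlaced with the same other crossings of `Y`. -/
def TwinsIn (I : Fin n → Fin n → Prop) (Y : Finset (Fin n)) (i j : Fin n) : Prop :=
  ∀ k ∈ Y, k ≠ i → k ≠ j → (I i k ↔ I j k)

open Classical in
/-- The twist class of `i` among the crossings of `Y`. -/
noncomputable def classIn (I : Fin n → Fin n → Prop) (Y : Finset (Fin n)) (i : Fin n) :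
    Finset (Fin n) := Y.filter fun j => TwinsIn I Y i j

/-- The twist number of `i` among the crossings of `Y`: the sum of the signs of its twist class. -/
noncomputable def twistIn (I : Fin n → Fin n → Prop) (e : Fin n → Bool) (Y : Finset (Fin n))
    (i : Fin n) : ℤ := ∑ j ∈ classIn I Y i, if e j then 1 else -1

open Classical in
/-- The sets of crossings which remain if crossings are removed as follows: a crossing may be
removed if it is interlaced with no remaining crossing, and a twist class may be removed if its twist
number is divisible by `2M` (classes and twist numbers among the remaining crossings). -/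
inductive Remains (I : Fin n → Fin n → Prop) (e : Fin n → Bool) (M : ℕ) : Finset (Fin n) → Prop
  | all : Remains I e M Finset.univ
  | isolated (Y : Finset (Fin n)) (i : Fin n) : Remains I e M Y → (∀ j ∈ Y, ¬ I i j) →
      Remains I e M (Y.erase i)
  | twist (Y : Finset (Fin n)) (i : Fin n) : Remains I e M Y → i ∈ Y →
      (∃ k : ℤ, twistIn I e Y i = 2 * k * M) → Remains I e M (Y \ classIn I Y i)

/-- All the twist numbers among the crossings of `Y`, for the crossings interlaced with some
crossing of `Y`, are odd multiples of `M`. -/
def OddIn (I : Fin n → Fin n → Prop) (e : Fin n → Bool) (M : ℕ) (Y : Finset (Fin n)) : Prop :=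
  ∀ i ∈ Y, (∃ j ∈ Y, I i j) → ∃ k : ℤ, twistIn I e Y i = (2 * k + 1) * M

/-- All the twist numbers among the crossings of `Y`, for the crossings interlaced with some
crossing of `Y`, are divisible by `M`. -/
def DivIn (I : Fin n → Fin n → Prop) (e : Fin n → Bool) (M : ℕ) (Y : Finset (Fin n)) : Prop :=
  ∀ i ∈ Y, (∃ j ∈ Y, I i j) → ∃ k : ℤ, twistIn I e Y i = k * M

open Classical in
/-- The number of the twist classes among the crossings of `Y`, of the crossings which are
interlaced with some crossing of `Y`. -/
noncomputable def classesIn (I : Fin n → Fin n → Prop) (Y : Finset (Fin n)) : ℕ :=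
  ((Y.filter fun i => ∃ j ∈ Y, I i j).image (classIn I Y)).card

end Pool.Agent.EQT
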