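import Pool.Agent.ThA.Chain
import Pool.Agent.ThA.ChainK

/-!
# EQT: moves on two strands

`Insertion` (Pool/Agent/ThA/SixMoves.lean): a diagram arises from another one by inserting a twist
region; `I.total` is the sum of the signs of the new crossings.
-/

set_option autoImplicit false

namespace Pool.Agent.EQT

open Pool.Agent.ThA

/-- `TMoves m D D'`: the knot diagram `D'` is obtained from `D` by a sequence of steps of three kinds:
a diagram may be replaced by any other one with the same polynomial `f` (diagrams of isotopic knots
have the same `f`), a twist region whose sum of signs is divisible by `m` may be inserted (see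
`Insertion`), and such a twist region may be deleted. -/
inductive TMoves (m : ℕ) (D : Diagram) : Diagram → Prop
  | refl : TMoves m D D
  | same (D' D'' : Diagram) : TMoves m D D' → D''.f = D'.f → TMoves m D D''
  | insert (D' D'' : Diagram) (I : Insertion D'.code D'.sign D''.code D''.sign) :
      TMoves m D D' → (m : ℤ) ∣ I.total → TMoves m D D''
  | delete (D' D'' : Diagram) (I : Insertion D''.code D''.sign D'.code D'.sign) :
      TMoves m D D' → (m : ℤ) ∣ I.total → TMoves m D D''

/-- `KTMoves m D D'`: the knotoid diagram `D'` is obtained from `D` by a sequence of steps of three
kinds: a diagram may be replaced by any other one with the same polynomial `f` (diagrams of isotopic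
knotoids have the same `f`), a twist region whose sum of signs is divisible by `m` may be inserted (see
`Insertion`), and such a twist region may be deleted. -/
inductive KTMoves (m : ℕ) (D : KDiagram) : KDiagram → Prop
  | refl : KTMoves m D D
  | same (D' D'' : KDiagram) : KTMoves m D D' → D''.f = D'.f → KTMoves m D D''
  | insert (D' D'' : KDiagram) (I : KInsertion D' D'') :
      KTMoves m D D' → (m : ℤ) ∣ I.total → KTMoves m D D''
  | delete (D' D'' : KDiagram) (I : KInsertion D'' D') :
      KTMoves m D D' → (m : ℤ) ∣ I.total → KTMoves m D D''

end Pool.Agent.EQT
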