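import Pool.Agent.EQT.Ins
import Pool.Agent.EQT.MovDefs
import Pool.Agent.EQT.DvD

/-!
# EQT, module DvE: twist classes are removed, and moves on two strands
-/

set_option autoImplicit false
set_option linter.unusedSectionVars false

open Submodule Module LaurentPolynomial

namespace Pool.Agent.EQT

open Pool.Agent.ThA Pool.Agent.SPT Pool.Agent.UNI Pool.Agent.Helper16.Knotoid

variable {n : ℕ}

private theorem DvE_one (M : ℕ) (hM : 4 ≤ M) (t : ℤ) (ht : ((2 * M : ℕ) : ℤ) ∣ t) :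
    (-(Aθ (-(Real.pi / M))) ^ 4) ^ t = 1 := by
  obtain ⟨k, rfl⟩ := ht
  have h1 : (-(Aθ (-(Real.pi / M))) ^ 4) ^ (((2 * M : ℕ) : ℤ)) = 1 := by
    rw [_root_.zpow_natCast, Aθ_An]
    have h2 : -(An M) ^ 4 = (yn M)⁻¹ := by
      rw [yn_eq M (by omega), inv_pow, ← neg_inv, inv_inv]
    rw [h2, inv_pow, mul_comm, pow_mul, yn_pow M (by omega)]
    norm_num
  rw [_root_.zpow_mul, h1, one_zpow]

private theorem DvE_d (M : ℕ) (hM : 4 ≤ M) :
    -(Aθ (-(Real.pi / M))) ^ 2 - ((Aθ (-(Real.pi / M)))⁻¹) ^ 2 ≠ 0 := by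
  rw [Aθ_An, An_d]
  have := rn_pos M hM
  exact_mod_cast (neg_lt_zero.2 this).ne

private theorem DvE_ins {n' M : ℕ} (hM : 4 ≤ M) {g : GaussJones.Code n} {e : Fin n → Bool}
    {g' : GaussJones.Code n'} {e' : Fin n' → Bool} (I : Insertion g e g' e')
    (h : ((2 * M : ℕ) : ℤ) ∣ I.total) :
    ‖evθ (-(Real.pi / M)) (GaussJones.fPoly g' e')‖ =
      ‖evθ (-(Real.pi / M)) (GaussJones.fPoly g e)‖ := by
  refine ev_insertion I ?_ _ (DvE_d M hM) (DvE_one M hM _ h)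
  obtain ⟨k, hk⟩ := h
  rw [hk, even_iff_two_dvd]
  push_cast
  exact ⟨M * k, by ring⟩

/-- **moves of knot diagrams** -/
theorem tmoves_ev {M : ℕ} (hM : 4 ≤ M) {D D' : Diagram} (h : TMoves (2 * M) D D') :
    ‖evθ (-(Real.pi / M)) D'.f‖ = ‖evθ (-(Real.pi / M)) D.f‖ := by
  induction h with
  | refl => rfl
  | same D' D'' _ hf ih => rw [hf, ih]
  | insert D' D'' I _ h2 ih => exact (DvE_ins hM I h2).trans ih
  | delete D' D'' I _ h2 ih => exact (DvE_ins hM I h2).symm.trans ih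

/-- **moves of knotoid diagrams** -/
theorem ktmoves_ev {M : ℕ} (hM : 4 ≤ M) {D D' : KDiagram} (h : KTMoves (2 * M) D D') :
    ‖evθ (-(Real.pi / M)) D'.f‖ = ‖evθ (-(Real.pi / M)) D.f‖ := by
  have hf : ∀ D : KDiagram, D.f = GaussJones.fPoly D.D.pos D.D.sign :=
    fun D => normalizedBracket_eq D.D
  induction h with
  | refl => rfl
  | same D' D'' _ hf ih => rw [hf, ih]
  | insert D' D'' I _ h2 ih =>
    rw [← ih, hf D', hf D'']
    exact DvE_ins hM I h2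
  | delete D' D'' I _ h2 ih =>
    rw [← ih, hf D', hf D'']
    exact (DvE_ins hM I h2).symm

/-- **knot diagrams**, the value of `f` -/
theorem ev_remains_knot {M : ℕ} (hM : 4 ≤ M) (g : GaussJones.Code n) (e : Fin n → Bool)
    (Y : Finset (Fin n)) (h1 : Remains (GaussJones.Interlaced g) e M Y)
    (h2 : OddIn (GaussJones.Interlaced g) e M Y) :
    kap M ^ classesIn (GaussJones.Interlaced g) Y ≤
        ‖evθ (-(Real.pi / M)) (GaussJones.fPoly g e)‖ ^ 3 ∧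
      ((∃ i ∈ Y, ∃ j ∈ Y, GaussJones.Interlaced g i j) →
        1 < ‖evθ (-(Real.pi / M)) (GaussJones.fPoly g e)‖) := by
  have h5 : GaussJones.Interlaced g = (UNI.cutOpen g e).Interlaced := by
    funext i j
    exact propext (UNI.interlaced_iff g e i j)
  have h6 : GaussJones.fPoly g e = (UNI.cutOpen g e).normalizedBracket :=
    (normalizedBracket_eq (UNI.cutOpen g e)).symm
  rw [h5] at h1 h2 ⊢
  rw [h6]
  exact ev_remains hM (UNI.cutOpen g e) Y h1 h2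

private theorem DvE_end {M : ℕ} {f f' : ℤ[T;T⁻¹]} {t : ℕ} {p : Prop}
    (h : ‖evθ (-(Real.pi / M)) f'‖ = ‖evθ (-(Real.pi / M)) f‖)
    (h1 : kap M ^ t ≤ ‖evθ (-(Real.pi / M)) f‖ ^ 3 ∧
      (p → 1 < ‖evθ (-(Real.pi / M)) f‖)) (hM : 4 ≤ M) :
    kap M ^ ((t : ℝ) / 3) ≤ (coeffSum f' : ℝ) ∧ (p → 1 < coeffSum f' ∧ f' ≠ 1) := by
  obtain ⟨h3, h4⟩ := kap_four hM
  have h5 := norm_ev_le (-(Real.pi / M)) f'
  rw [h] at h5
  refine ⟨?_, fun hij => ?_⟩
  · exact (rpow_third (by linarith) (norm_nonneg _) h1.1).trans h5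
  · have h7 : (1 : ℝ) < (coeffSum f' : ℝ) := (h1.2 hij).trans_le h5
    have h8 : 1 < coeffSum f' := by exact_mod_cast h7
    refine ⟨h8, fun hf => ?_⟩
    rw [hf, coeffSum_one] at h8
    exact lt_irrefl _ h8

theorem exists_of_classesIn {I : Fin n → Fin n → Prop} {Y : Finset (Fin n)}
    (h : 1 ≤ classesIn I Y) : ∃ i ∈ Y, ∃ j ∈ Y, I i j := by
  classical
  unfold classesIn at h
  obtain ⟨S, hS⟩ := Finset.card_pos.1 h
  obtain ⟨i, hi, -⟩ := Finset.mem_image.1 hS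
  exact ⟨i, (Finset.mem_filter.1 hi).1, (Finset.mem_filter.1 hi).2⟩

/-- **Knots.** -/
theorem knot_div {M : ℕ} (hM : 4 ≤ M) (D D' : Diagram) (hm : TMoves (2 * M) D D') :
    (∀ Y, Remains (GaussJones.Interlaced D.code) D.sign M Y →
      OddIn (GaussJones.Interlaced D.code) D.sign M Y →
      kap M ^ ((classesIn (GaussJones.Interlaced D.code) Y : ℝ) / 3) ≤ (coeffSum D'.f : ℝ) ∧
      ((∃ i ∈ Y, ∃ j ∈ Y, GaussJones.Interlaced D.code i j) →
        1 < coeffSum D'.f ∧ D'.f ≠ 1)) ∧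
    (DivIn (GaussJones.Interlaced D.code) D.sign M Finset.univ →
      ∃ Y, Remains (GaussJones.Interlaced D.code) D.sign M Y ∧
        OddIn (GaussJones.Interlaced D.code) D.sign M Y ∧
        ∀ i ∈ Y, ∃ j ∈ Y, GaussJones.Interlaced D.code i j) ∧
    2 ≤ kap M ^ 4 ∧ (5 ≤ M → (M : ℝ) / 3 ≤ kap M) := by
  refine ⟨fun Y h1 h2 => DvE_end (tmoves_ev hM hm) (ev_remains_knot hM D.code D.sign Y h1 h2) hM,
    fun h => ?_, (kap_four hM).1, fun h => kap_five h⟩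
  have hi : ∀ i, ¬ GaussJones.Interlaced D.code i i := by
    intro i h
    rcases h with h | h <;> exact lt_irrefl _ h.1
  have hs : ∀ i j, GaussJones.Interlaced D.code i j → GaussJones.Interlaced D.code j i :=
    fun i j h => h.symm
  exact exists_odd hi hs _ Finset.univ rfl Remains.all h

/-- **Knotoids.** -/
theorem knotoid_div {M : ℕ} (hM : 4 ≤ M) (D D' : KDiagram) (hm : KTMoves (2 * M) D D') :
    (∀ Y, Remains D.D.Interlaced D.D.sign M Y → OddIn D.D.Interlaced D.D.sign M Y →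
      kap M ^ ((classesIn D.D.Interlaced Y : ℝ) / 3) ≤ (coeffSum D'.f : ℝ) ∧
      ((∃ i ∈ Y, ∃ j ∈ Y, D.D.Interlaced i j) → 1 < coeffSum D'.f ∧ D'.f ≠ 1)) ∧
    (DivIn D.D.Interlaced D.D.sign M Finset.univ →
      ∃ Y, Remains D.D.Interlaced D.D.sign M Y ∧ OddIn D.D.Interlaced D.D.sign M Y ∧
        ∀ i ∈ Y, ∃ j ∈ Y, D.D.Interlaced i j) ∧
    2 ≤ kap M ^ 4 ∧ (5 ≤ M → (M : ℝ) / 3 ≤ kap M) :=
  ⟨fun Y h1 h2 => DvE_end (ktmoves_ev hM hm) (ev_remains hM D.D Y h1 h2) hM,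
    fun h => exists_odd (int_irrefl D.D) (int_symm D.D) _ Finset.univ rfl Remains.all h,
    (kap_four hM).1, fun h => kap_five h⟩

end Pool.Agent.EQT
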