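import Mathlib
import Pool.Agent.UNI.One

/-!
# EQT, module GAbs: the state sum of a symmetric matrix, with the growth of the rank
-/

set_option autoImplicit false
set_option linter.unusedSectionVars false

open Module Matrix

namespace Pool.Agent.EQT

open Pool.Agent.UNI

/-- **UAG** (the algebraic part, with growth).  `X` is a set of distinct nonzero functionals which
spans the dual space, `x ≥ 1 + 1/√2`, `z = -√x`, `K ^ 2 = 4 x - 6 + 1 / x`. -/
def St_UAG : Prop :=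
  ∀ (V : Type) [AddCommGroup V] [Module (ZMod 2) V] [Module.Finite (ZMod 2) V]
    (β : V →ₗ[ZMod 2] V →ₗ[ZMod 2] ZMod 2), (∀ a b, β a b = β b a) →
    ∀ X : Finset (Dual (ZMod 2) V), (0 : Dual (ZMod 2) V) ∉ X → ck X = ⊥ →
      ∀ x K : ℝ, 1 + 1 / Real.sqrt 2 ≤ x → 0 ≤ K → K ^ 2 = 4 * x - 6 + 1 / x →
      K ^ finrank (ZMod 2) V ≤ |∑ U ∈ X.powerset, (-2) ^ U.card * wt β (-Real.sqrt x) (ck U)|

/-- a point of the unit circle is between `1` and `-1` -/
theorem circleG (K a b : ℝ) (v : ℂ) (hK : 0 ≤ K) (hv : ‖v‖ = 1) (ha : K ≤ |a|)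
    (hb : K ≤ |a - 2 * b|) : K ≤ ‖(a : ℂ) + (v - 1) * b‖ := by
  have h1 : v.re ^ 2 + v.im ^ 2 = 1 := by
    have h2 := Complex.sq_norm v
    rw [hv, Complex.normSq_apply] at h2
    nlinarith
  have hre : v.re ≤ 1 := by nlinarith [sq_nonneg v.im]
  have hre' : -1 ≤ v.re := by nlinarith [sq_nonneg v.im]
  have ha2 : K ^ 2 ≤ a ^ 2 := by
    rw [← sq_abs a]
    exact pow_le_pow_left₀ hK ha 2
  have hb2 : K ^ 2 ≤ (a - 2 * b) ^ 2 := by
    rw [← sq_abs (a - 2 * b)]
    exact pow_le_pow_left₀ hK hb 2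
  have h3 : ‖(a : ℂ) + (v - 1) * b‖ ^ 2 = (1 + v.re) / 2 * a ^ 2 +
      (1 - v.re) / 2 * (a - 2 * b) ^ 2 := by
    rw [Complex.sq_norm, Complex.normSq_apply]
    have e1 : ((a : ℂ) + (v - 1) * b).re = a + (v.re - 1) * b := by simp
    have e2 : ((a : ℂ) + (v - 1) * b).im = v.im * b := by simp
    rw [e1, e2]
    have h4 : v.im * b * (v.im * b) = v.im ^ 2 * b ^ 2 := by ring
    have h5 : v.im ^ 2 = 1 - v.re ^ 2 := by linarith
    rw [h4, h5]
    ring
  have h4 : K ^ 2 ≤ ‖(a : ℂ) + (v - 1) * b‖ ^ 2 := by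
    rw [h3]
    have e1 := mul_le_mul_of_nonneg_left ha2 (show 0 ≤ (1 + v.re) / 2 by linarith)
    have e2 := mul_le_mul_of_nonneg_left hb2 (show 0 ≤ (1 - v.re) / 2 by linarith)
    linarith
  exact le_of_sq_le_sq h4 (norm_nonneg _)

section

variable {V : Type} [AddCommGroup V] [Module (ZMod 2) V]

/-- the weighted sum over the subsets -/
noncomputable def SW (c : Dual (ZMod 2) V → ℂ) (f : Submodule (ZMod 2) V → ℝ)
    (X : Finset (Dual (ZMod 2) V)) : ℂ :=
  ∑ U ∈ X.powerset, (∏ k ∈ U, c k) * ((f (ck U) : ℝ) : ℂ)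

variable (c : Dual (ZMod 2) V → ℂ) (f : Submodule (ZMod 2) V → ℝ) [DecidableEq (Dual (ZMod 2) V)]

theorem SW_filter (X : Finset (Dual (ZMod 2) V)) [DecidablePred fun k => c k ≠ 0] :
    SW c f (X.filter fun k => c k ≠ 0) = SW c f X := by
  unfold SW
  refine Finset.sum_subset (Finset.powerset_mono.2 (Finset.filter_subset _ _)) fun U hU hU' => ?_
  rw [Finset.mem_powerset] at hU hU'
  obtain ⟨k, hk, hk'⟩ := Finset.not_subset.1 hU'
  have h0 : c k = 0 := by
    by_contra h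
    exact hk' (Finset.mem_filter.2 ⟨hU hk, h⟩)
  rw [Finset.prod_eq_zero hk h0, zero_mul]

theorem SW_insert (X : Finset (Dual (ZMod 2) V)) (k : Dual (ZMod 2) V) (hk : k ∉ X) :
    SW c f (insert k X) = SW c f X +
      c k * ∑ U ∈ X.powerset, (∏ j ∈ U, c j) * ((f (ck (insert k U)) : ℝ) : ℂ) := by
  unfold SW
  rw [Finset.sum_powerset_insert hk, Finset.mul_sum]
  congr 1
  refine Finset.sum_congr rfl fun U hU => ?_
  rw [Finset.prod_insert fun h => hk (Finset.mem_powerset.1 hU h), mul_assoc]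

theorem ck_insert_zero (U : Finset (Dual (ZMod 2) V)) : ck (insert 0 U) = ck U := by
  ext y
  constructor
  · intro h u hu
    exact h u (Finset.mem_insert_of_mem hu)
  · intro h u hu
    rcases Finset.mem_insert.1 hu with rfl | hu
    · rfl
    · exact h u hu

theorem SW_zero (X : Finset (Dual (ZMod 2) V)) (hX : (0 : Dual (ZMod 2) V) ∉ X) :
    SW c f (insert 0 X) = (1 + c 0) * SW c f X := by
  rw [SW_insert c f X 0 hX]
  simp only [ck_insert_zero]
  unfold SW
  ring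

theorem SW_two (X : Finset (Dual (ZMod 2) V)) (hX : ∀ k ∈ X, c k = -2) :
    SW c f X = ((∑ U ∈ X.powerset, (-2) ^ U.card * f (ck U) : ℝ) : ℂ) := by
  unfold SW
  push_cast
  refine Finset.sum_congr rfl fun U hU => ?_
  rw [Finset.prod_congr rfl fun k hk => hX k (Finset.mem_powerset.1 hU hk), Finset.prod_const]

theorem SW_one (X : Finset (Dual (ZMod 2) V)) (hX : ∀ k ∈ X, c k = -2) (k : Dual (ZMod 2) V)
    (hk : k ∉ X) (K : ℝ) (hK : 0 ≤ K) (hc : ‖c k + 1‖ = 1)
    (h1 : K ≤ |∑ U ∈ X.powerset, (-2) ^ U.card * f (ck U)|)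
    (h2 : K ≤ |∑ U ∈ (insert k X).powerset, (-2) ^ U.card * f (ck U)|) :
    K ≤ ‖SW c f (insert k X)‖ := by
  obtain ⟨a, ha⟩ : ∃ a, a = ∑ U ∈ X.powerset, (-2) ^ U.card * f (ck U) := ⟨_, rfl⟩
  obtain ⟨b, hb⟩ : ∃ b, b = ∑ U ∈ X.powerset, (-2) ^ U.card * f (ck (insert k U)) := ⟨_, rfl⟩
  have e1 : SW c f (insert k X) = (a : ℂ) + ((c k + 1) - 1) * (b : ℂ) := by
    rw [SW_insert c f X k hk, SW_two c f X hX, ← ha, add_sub_cancel_right, hb]
    congr 2
    push_cast
    refine Finset.sum_congr rfl fun U hU => ?_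
    rw [Finset.prod_congr rfl fun k hk => hX k (Finset.mem_powerset.1 hU hk), Finset.prod_const]
  have e2 : ∑ U ∈ (insert k X).powerset, (-2) ^ U.card * f (ck U) = a - 2 * b := by
    rw [Finset.sum_powerset_insert hk, ← ha, hb, Finset.mul_sum, sub_eq_add_neg,
      ← Finset.sum_neg_distrib]
    congr 1
    refine Finset.sum_congr rfl fun U hU => ?_
    rw [Finset.card_insert_of_notMem fun h => hk (Finset.mem_powerset.1 hU h), pow_succ]
    ring
  rw [e1]
  rw [← ha] at h1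
  rw [e2] at h2
  exact circleG K a b _ hK hc h1 h2

end

section

variable {E : Type} [Fintype E] [DecidableEq E] {M : Matrix E E (ZMod 2)}

private theorem GAbs_zpow (y : ℂ) (hy : y ≠ 0) (s : Finset E) (f : E → ℤ) :
    ∏ c ∈ s, y ^ (f c) = y ^ (∑ c ∈ s, f c) := by
  induction s using Finset.induction_on with
  | empty => simp
  | insert a s ha ih => rw [Finset.prod_insert ha, Finset.sum_insert ha, zpow_add₀ hy, ih]

/-- the product of the weights over a class, the even case -/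
theorem prod_wn_even (n : ℕ) (hn : 4 ≤ n) (σ : E → Bool) (s : Finset E) (j : ℤ)
    (h : ∑ c ∈ s, (if σ c then (1 : ℤ) else -1) = (2 * j) * n) :
    ∏ c ∈ s, wn n (σ c) = 1 := by
  have hy := yn_ne n
  have h1 : ∀ c ∈ s, wn n (σ c) = yn n ^ (-(if σ c then (1 : ℤ) else -1)) := by
    intro c _
    unfold wn
    cases σ c <;> simp
  rw [Finset.prod_congr rfl h1, GAbs_zpow _ hy, Finset.sum_neg_distrib, h, _root_.zpow_neg,
    mul_comm, _root_.zpow_mul, _root_.zpow_natCast, yn_pow n (by omega), _root_.zpow_mul]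
  norm_num

/-- the norm of the product of the weights over a class -/
theorem prod_wn_norm (n : ℕ) (σ : E → Bool) (s : Finset E) : ‖∏ c ∈ s, wn n (σ c)‖ = 1 := by
  have h : ‖yn n‖ = 1 := Complex.norm_exp_ofReal_mul_I _
  rw [norm_prod]
  refine Finset.prod_eq_one fun c _ => ?_
  unfold wn
  split_ifs
  · rw [norm_inv, h, inv_one]
  · exact h

open Classical in
/-- **The state sum of a symmetric matrix**: the twist numbers of the nonzero rows different from `w`
are divisible by `n`, the rows different from `w` whose twist number is an odd multiple of `n` span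
all rows. -/
theorem absG (hUAG : St_UAG) (hM : ∀ i j, M i j = M j i) (σ : E → Bool) (n : ℕ) (hn : 4 ≤ n)
    (w : E → ZMod 2)
    (hdiv : ∀ c, M c ≠ 0 → M c ≠ w → ∃ j : ℤ,
      ∑ c' ∈ Finset.univ.filter (fun c' => M c' = M c), (if σ c' then (1 : ℤ) else -1) = j * n)
    (hspan : ∀ x : E → ZMod 2, (∀ c, M c ≠ w → (∃ j : ℤ,
      ∑ c' ∈ Finset.univ.filter (fun c' => M c' = M c), (if σ c' then (1 : ℤ) else -1) =
        (2 * j + 1) * n) → (M.mulVec x) c = 0) → M.mulVec x = 0)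
    (K : ℝ) (hK : 0 ≤ K) (hK2 : K ^ 2 = 4 / rn n ^ 2 - 6 + rn n ^ 2) :
    K ^ finrank (ZMod 2) (Im M) ≤ ‖∑ s : E → Bool, (∏ c, if s c then An n else (An n)⁻¹) *
      (-(An n) ^ 2 - ((An n)⁻¹) ^ 2) ^
        (finrank (ZMod 2) (LinearMap.ker (SM M σ s).mulVecLin))‖ := by
  rw [absEval hM σ n hn]
  obtain ⟨X, hX⟩ : ∃ X, X = Finset.univ.image (co M) := ⟨_, rfl⟩
  obtain ⟨cf, hcf⟩ : ∃ cf, cf = cw (co M) (fun c => wn n (σ c)) Finset.univ := ⟨_, rfl⟩
  obtain ⟨f, hf⟩ : ∃ f : Submodule (ZMod 2) (Im M) → ℝ,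
      f = fun Y => wt (fo M) (-Real.sqrt (1 / rn n ^ 2)) Y := ⟨_, rfl⟩
  have hgoal : (∑ U ∈ (Finset.univ.image (co M)).powerset,
      (∏ k ∈ U, cw (co M) (fun c => wn n (σ c)) Finset.univ k) *
        ((wt (fo M) (-Real.sqrt (1 / rn n ^ 2)) (ck U) : ℝ) : ℂ)) = SW cf f X := by
    unfold SW
    rw [hcf, hf, hX]
  rw [hgoal]
  -- the classes
  have hcls : ∀ c, cf (co M c) + 1 =
      ∏ c' ∈ Finset.univ.filter (fun c' => M c' = M c), wn n (σ c') := by
    intro c
    rw [hcf]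
    unfold cw
    rw [sub_add_cancel]
    refine Finset.prod_congr ?_ fun _ _ => rfl
    exact Finset.filter_congr fun c' _ => co_eq_iff c' c
  have hnorm : ∀ k ∈ X, ‖cf k + 1‖ = 1 := by
    intro k hk
    rw [hX] at hk
    obtain ⟨c, -, rfl⟩ := Finset.mem_image.1 hk
    rw [hcls]
    exact prod_wn_norm n σ _
  have hodd : ∀ c, (∃ j : ℤ, ∑ c' ∈ Finset.univ.filter (fun c' => M c' = M c),
      (if σ c' then (1 : ℤ) else -1) = (2 * j + 1) * n) → cf (co M c) = -2 := by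
    rintro c ⟨j, hj⟩
    have h1 := hcls c
    rw [prod_wn n hn σ _ j hj] at h1
    linear_combination h1
  obtain ⟨ζ, hζ⟩ : ∃ ζ : Dual (ZMod 2) (Im M), ∀ c, M c ≠ 0 → (co M c = ζ ↔ M c = w) := by
    by_cases h : ∃ z, M z = w
    · obtain ⟨z, rfl⟩ := h
      exact ⟨co M z, fun c _ => co_eq_iff c z⟩
    · push Not at h
      exact ⟨0, fun c hc => ⟨fun h1 => absurd h1 (co_ne_zero c hc), fun h1 => absurd h1 (h c)⟩⟩
  -- the different classes
  obtain ⟨O, hO⟩ : ∃ O, O = ((X.filter fun k => cf k ≠ 0).erase 0).erase ζ := ⟨_, rfl⟩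
  have hO2 : ∀ k ∈ O, cf k = -2 := by
    intro k hk
    rw [hO, Finset.mem_erase, Finset.mem_erase, Finset.mem_filter, hX] at hk
    obtain ⟨hk1, hk2, hk3, hk4⟩ := hk
    obtain ⟨c, -, rfl⟩ := Finset.mem_image.1 hk3
    have hc0 : M c ≠ 0 := by
      intro h
      apply hk2
      apply LinearMap.ext
      rintro ⟨_, x, rfl⟩
      show M c ⬝ᵥ x = 0
      rw [h, zero_dotProduct]
    have hcw' : M c ≠ w := fun h => hk1 ((hζ c hc0).2 h)
    obtain ⟨j, hj⟩ := hdiv c hc0 hcw'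
    rcases Int.even_or_odd' j with ⟨i, hi | hi⟩
    · exfalso
      apply hk4
      rw [hi] at hj
      have h1 := hcls c
      rw [prod_wn_even n hn σ _ i hj] at h1
      linear_combination h1
    · rw [hi] at hj
      exact hodd c ⟨i, hj⟩
  have hO0 : (0 : Dual (ZMod 2) (Im M)) ∉ O := by
    rw [hO]
    intro h
    exact Finset.notMem_erase _ _ (Finset.mem_of_mem_erase h)
  have hOck : ck O = ⊥ := by
    rw [eq_bot_iff]
    rintro ⟨_, x, rfl⟩ hy
    rw [Submodule.mem_bot]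
    apply Subtype.ext
    refine hspan x fun c hc hj => ?_
    by_cases hc0 : M c = 0
    · show M c ⬝ᵥ x = 0
      rw [hc0, zero_dotProduct]
    · refine hy (co M c) ?_
      rw [hO, Finset.mem_erase, Finset.mem_erase, Finset.mem_filter, hX]
      refine ⟨fun h => hc ((hζ c hc0).1 h), co_ne_zero c hc0,
        Finset.mem_image_of_mem _ (Finset.mem_univ c), ?_⟩
      rw [hodd c hj]
      norm_num
  have hU : ∀ Y : Finset (Dual (ZMod 2) (Im M)), (0 : Dual (ZMod 2) (Im M)) ∉ Y → O ⊆ Y →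
      K ^ finrank (ZMod 2) (Im M) ≤ |∑ U ∈ Y.powerset, (-2) ^ U.card * f (ck U)| := by
    intro Y hY hOY
    rw [hf]
    refine hUAG (Im M) (fo M) (fo_symm hM) Y hY ?_ _ K (rn_x n hn) hK ?_
    · rw [eq_bot_iff, ← hOck]
      intro y hy u hu
      exact hy u (hOY hu)
    · rw [hK2, one_div_one_div]
      ring
  have hKr : 0 ≤ K ^ finrank (ZMod 2) (Im M) := pow_nonneg hK _
  -- the zero row
  have hred : ‖SW cf f X‖ = ‖SW cf f ((X.filter fun k => cf k ≠ 0).erase 0)‖ := by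
    rw [← SW_filter cf f X]
    by_cases h0 : (0 : Dual (ZMod 2) (Im M)) ∈ X.filter fun k => cf k ≠ 0
    · have h1 : ‖1 + cf 0‖ = 1 := by
        rw [add_comm]
        exact hnorm 0 (Finset.mem_filter.1 h0).1
      conv_lhs => rw [← Finset.insert_erase h0]
      rw [SW_zero cf f _ (Finset.notMem_erase _ _), norm_mul, h1, one_mul]
    · rw [Finset.erase_eq_of_notMem h0]
  rw [hred]
  by_cases hζX : ζ ∈ (X.filter fun k => cf k ≠ 0).erase 0
  · have h1 : (X.filter fun k => cf k ≠ 0).erase 0 = insert ζ O := by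
      rw [hO, Finset.insert_erase hζX]
    rw [h1]
    have h2 : ζ ∈ X := (Finset.mem_filter.1 (Finset.mem_of_mem_erase hζX)).1
    refine SW_one cf f O hO2 ζ (by rw [hO]; exact Finset.notMem_erase _ _) _ hKr (hnorm ζ h2)
      (hU O hO0 subset_rfl) (hU _ ?_ (Finset.subset_insert _ _))
    rw [← h1]
    exact Finset.notMem_erase _ _
  · have h1 : (X.filter fun k => cf k ≠ 0).erase 0 = O := by
      rw [hO, Finset.erase_eq_of_notMem hζX]
    rw [h1, SW_two cf f O hO2, Complex.norm_real, Real.norm_eq_abs]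
    exact hU O hO0 subset_rfl

end

end Pool.Agent.EQT
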