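import Pool.Agent.UNI.ThmC
import Pool.Agent.EQT.GComplete

/-!
# EQT, module GThmC: Theorem C with growth
-/

set_option autoImplicit false

open Module

namespace Pool.Agent.EQT

open Pool.Agent.UNI

theorem thmCG (h2 : St_Mixed) (h3 : St_ResEval) (h4 : St_ResTop)
    (h5 : St_ResPush) (h6 : St_Comb) (h7 : St_Step) (η c : ℝ) (hη : 1 / 3 ≤ η) (hη1 : η < 1)
    (hc : 0 ≤ c) (hc2 : c ^ 2 = η ^ 2 + 4 * η - 1) (V : Type) [AddCommGroup V]
    [Module (ZMod 2) V] [Finite V] (Φ : (Submodule (ZMod 2) V → ℝ) →ₗ[ℝ] ℝ) (hΦ : Pos η Φ)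
    (x : V → ℝ) (hx : ∀ v, v ≠ 0 → x v = 1 ∨ x v = -1)
    (hs : Submodule.span (ZMod 2) {v | v ≠ 0 ∧ x v = -1} = ⊤) :
    c ^ finrank (ZMod 2) V * coef Φ ⊤ ≤ Φ (rho x) := by
  have hη0 : 0 ≤ η := by linarith
  suffices H : ∀ m : ℕ, ∀ (V : Type) [AddCommGroup V] [Module (ZMod 2) V] [Finite V]
      (Φ : (Submodule (ZMod 2) V → ℝ) →ₗ[ℝ] ℝ), finrank (ZMod 2) V = m → Pos η Φ →
      ∀ x : V → ℝ, (∀ v, v ≠ 0 → x v = 1 ∨ x v = -1) →
        Submodule.span (ZMod 2) {v | v ≠ 0 ∧ x v = -1} = ⊤ →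
        c ^ m * coef Φ ⊤ ≤ Φ (rho x) by
    exact H _ V Φ rfl hΦ x hx hs
  clear hs hx x hΦ Φ
  intro m
  induction m using Nat.strong_induction_on with
  | _ m IH =>
    intro V _ _ _ Φ hV hΦ x hx hs
    classical
    have : Module.Finite (ZMod 2) V := Module.Finite.of_finite
    rcases Nat.eq_zero_or_pos m with hm0 | hm
    · subst hm0
      have hsub : Subsingleton V := Module.finrank_zero_iff.mp hV
      have h8 : rho x = del ⊤ := by
        funext U
        have hU : U = ⊤ := by
          rw [eq_top_iff]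
          intro u _
          rw [Subsingleton.elim u 0]
          exact U.zero_mem
        subst hU
        rw [rho_apply]
        have h9 : nz (⊤ : Submodule (ZMod 2) V) = ∅ := by
          rw [Finset.eq_empty_iff_forall_notMem]
          intro v hv
          exact (mem_nz.1 hv).2 (Subsingleton.elim v 0)
        rw [h9, Finset.prod_empty]
        simp [del]
      rw [h8, pow_zero, one_mul]
      unfold coef
      rw [finrank_top, hV, pow_zero, one_mul]
    have hpos : ∀ (V' : Type) [AddCommGroup V'] [Module (ZMod 2) V'] [Finite V']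
        (Ψ : (Submodule (ZMod 2) V' → ℝ) →ₗ[ℝ] ℝ) (x : V' → ℝ),
        finrank (ZMod 2) V' < finrank (ZMod 2) V → Pos η Ψ →
        (∀ v, v ≠ 0 → x v = 1 ∨ x v = -1) →
        Submodule.span (ZMod 2) {v | v ≠ 0 ∧ x v = -1} = ⊤ → 0 ≤ Ψ (rho x) := by
      intro V' _ _ _ Ψ y hd hΨ hy hys
      refine le_trans ?_ (IH _ (by rw [← hV]; exact hd) V' Ψ rfl hΨ y hy hys)
      exact mul_nonneg (pow_nonneg hc _) (ThmC_coef hΨ)
    rcases h6 V x (by rw [hV]; exact hm) hx hs with hall | ⟨T, hTb, hTt, hTs, hTq⟩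
    · have h8 : Φ (rho x) = Φ (rho fun _ => -1) := by
        congr 1
        funext U
        exact rho_congr fun v _ hv => hall v hv
      rw [h8, ← hV]
      exact completeG h7 hη hη1 hc hc2 V Φ hΦ (by rw [hV]; exact hm)
    · obtain ⟨w₁, hw₁⟩ : ∃ w₁ : V → ℝ, w₁ = fun v => if v ∈ T then 1 else x v := ⟨_, rfl⟩
      have hw1 : ∀ v, v ∈ T → v ≠ 0 → w₁ v = 1 := by
        intro v hv _
        rw [hw₁]
        exact if_pos hv
      have hw2 : ∀ v, v ∉ T → w₁ v = x v := by
        intro v hv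
        rw [hw₁]
        exact if_neg hv
      have hΨ := ThmC_claim h2 h5 hη0 hη1 hpos Φ hΦ x hx T hTb hTq w₁ hw1 hw2
      have hdT : 1 ≤ finrank (ZMod 2) T := Submodule.one_le_finrank_iff.mpr hTb
      have hdq : 1 ≤ finrank (ZMod 2) (V ⧸ T) := by
        by_contra hcon
        have h8 := T.finrank_quotient_add_finrank
        exact hTt (Submodule.eq_top_of_finrank_eq (by omega))
      have hsum := T.finrank_quotient_add_finrank
      rw [hV] at hsum
      -- the subspace
      have e1 := IH (finrank (ZMod 2) T) (by omega) T (res T (rho w₁) Φ) rfl hΨ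
        (fun v => x v) (fun v hv => hx v fun h => hv (Subtype.ext h)) (ThmC_span T _ hTs)
      -- the quotient
      have hcong : ∀ q : V ⧸ T, q ≠ 0 → pw T.mkQ w₁ q = pw T.mkQ x q := by
        intro q hq
        refine ThmC_congr fun v hv => hw2 v fun hvT => hq ?_
        rw [← hv]
        exact (Submodule.Quotient.mk_eq_zero T).mpr hvT
      have e2 := IH (finrank (ZMod 2) (V ⧸ T)) (by omega) (V ⧸ T) (UNI.push T.mkQ Φ) rfl
        (hΦ.push _ T.mkQ_surjective) (pw T.mkQ w₁) (by
          intro q hq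
          rw [hcong q hq]
          refine ThmC_pm fun v hv => hx v ?_
          rintro rfl
          exact hq (by rw [← hv, map_zero])) (by
          rw [← hTq]
          congr 1
          ext q
          constructor
          · rintro ⟨hq, h8⟩
            exact ⟨hq, by rw [← hcong q hq]; exact h8⟩
          · rintro ⟨hq, h8⟩
            exact ⟨hq, by rw [hcong q hq]; exact h8⟩)
      rw [← h4 V T Φ w₁ hw1, ThmC_coef_push] at e2
      rw [h3 V T Φ x w₁ hw1 hw2]
      refine le_trans ?_ e1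
      refine le_trans ?_ (mul_le_mul_of_nonneg_left e2 (pow_nonneg hc _))
      rw [← hsum, pow_add]
      apply le_of_eq
      ring

end Pool.Agent.EQT
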