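import Pool.Agent.EQT.GAbs
import Pool.Agent.EQT.GFinal

/-!
# EQT, module ExA: one exceptional functional

If the exceptional functional `ζ` is a coloop, the imaginary part of the sum is the sum for the
hyperplane `ker ζ`, up to a factor.
-/

set_option autoImplicit false
set_option linter.unusedSectionVars false

open Module

namespace Pool.Agent.EQT

open Pool.Agent.UNI

section

variable {V : Type} [AddCommGroup V] [Module (ZMod 2) V] [Module.Finite (ZMod 2) V]

private theorem ExA_eq (ζ : Dual (ZMod 2) V) (w0 : V) (hw : ζ w0 = 1) (u u' : Dual (ZMod 2) V)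
    (h0 : u w0 = u' w0)
    (h : (LinearMap.ker ζ).subtype.dualMap u = (LinearMap.ker ζ).subtype.dualMap u') : u = u' := by
  apply LinearMap.ext
  intro v
  have h1 : v - ζ v • w0 ∈ LinearMap.ker ζ := by
    rw [LinearMap.mem_ker, map_sub, map_smul, hw, smul_eq_mul, mul_one, sub_self]
  have h2 := LinearMap.congr_fun h ⟨v - ζ v • w0, h1⟩
  rw [LinearMap.dualMap_apply, LinearMap.dualMap_apply] at h2
  have h3 : u (v - ζ v • w0) = u' (v - ζ v • w0) := h2
  rw [map_sub, map_sub, map_smul, map_smul, h0] at h3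
  exact sub_left_injective h3

private theorem ExA_ck [DecidableEq (Dual (ZMod 2) V)] (ζ : Dual (ZMod 2) V)
    [DecidableEq (Dual (ZMod 2) (LinearMap.ker ζ))] (U : Finset (Dual (ZMod 2) V)) :
    (ck (U.image (LinearMap.ker ζ).subtype.dualMap)).map (LinearMap.ker ζ).subtype =
      ck (insert ζ U) := by
  ext y
  rw [Submodule.mem_map]
  constructor
  · rintro ⟨⟨y, hy⟩, h1, rfl⟩
    intro u hu
    rcases Finset.mem_insert.1 hu with rfl | hu
    · exact hy
    · exact h1 _ (Finset.mem_image_of_mem _ hu)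
  · intro h
    refine ⟨⟨y, h ζ (Finset.mem_insert_self _ _)⟩, ?_, rfl⟩
    intro u hu
    obtain ⟨u', hu', rfl⟩ := Finset.mem_image.1 hu
    exact h u' (Finset.mem_insert_of_mem hu')

private theorem ExA_rad (β : V →ₗ[ZMod 2] V →ₗ[ZMod 2] ZMod 2) (H : Submodule (ZMod 2) V)
    (Y : Submodule (ZMod 2) H) :
    (rad (β.domRestrict₁₂ H H) Y).map H.subtype = rad β (Y.map H.subtype) := by
  ext y
  rw [Submodule.mem_map]
  constructor
  · rintro ⟨y, ⟨h1, h2⟩, rfl⟩
    refine ⟨Submodule.mem_map_of_mem h1, ?_⟩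
    rintro _ ⟨y', hy', rfl⟩
    exact h2 y' hy'
  · rintro ⟨⟨y, hy, rfl⟩, h2⟩
    refine ⟨y, ⟨hy, fun y' hy' => ?_⟩, rfl⟩
    exact h2 _ (Submodule.mem_map_of_mem hy')

/-- **the sum over the sets which contain a coloop** -/
theorem coloop_sum [DecidableEq (Dual (ZMod 2) V)] (hUAG : St_UAG)
    (β : V →ₗ[ZMod 2] V →ₗ[ZMod 2] ZMod 2) (hβ : ∀ a b, β a b = β b a) (ζ : Dual (ZMod 2) V)
    (O : Finset (Dual (ZMod 2) V)) (h0 : (0 : Dual (ZMod 2) V) ∉ O) (hspan : ck (insert ζ O) = ⊥)
    (hck : ck O ≠ ⊥) (x K : ℝ) (hx : 1 + 1 / Real.sqrt 2 ≤ x) (hK : 0 ≤ K)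
    (hK2 : K ^ 2 = 4 * x - 6 + 1 / x) :
    Real.sqrt x * K ^ (finrank (ZMod 2) V - 1) ≤
      |∑ U ∈ O.powerset, (-2) ^ U.card * wt β (-Real.sqrt x) (ck (insert ζ U))| := by
  classical
  have hx0 : 0 < x := lt_of_lt_of_le (by positivity) hx
  have hsx : 0 < Real.sqrt x := Real.sqrt_pos.mpr hx0
  have hz : (-Real.sqrt x) ≠ 0 := neg_ne_zero.mpr hsx.ne'
  -- a vector
  obtain ⟨w0, hw0, hne⟩ := Submodule.exists_mem_ne_zero_of_ne_bot hck
  have hζw : ζ w0 = 1 := by
    have h1 : ζ w0 ≠ 0 := by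
      intro h
      apply hne
      have h2 : w0 ∈ ck (insert ζ O) := by
        intro u hu
        rcases Finset.mem_insert.1 hu with rfl | hu
        · exact h
        · exact hw0 u hu
      rw [hspan] at h2
      exact (Submodule.mem_bot _).1 h2
    revert h1
    generalize ζ w0 = a
    revert a
    decide
  have hζ0 : ζ ≠ 0 := by
    rintro rfl
    rw [LinearMap.zero_apply] at hζw
    exact zero_ne_one hζw
  obtain ⟨H, hH⟩ : ∃ H, H = LinearMap.ker ζ := ⟨_, rfl⟩
  have hinj : Set.InjOn (LinearMap.ker ζ).subtype.dualMap (O : Set (Dual (ZMod 2) V)) := by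
    intro u hu u' hu' h
    exact ExA_eq ζ w0 hζw u u' (by rw [hw0 u hu, hw0 u' hu']) h
  -- the hyperplane
  have hrank : finrank (ZMod 2) V = finrank (ZMod 2) (LinearMap.ker ζ) + 1 := by
    have h1 := LinearMap.finrank_range_add_finrank_ker ζ
    have h2 : LinearMap.range ζ = ⊤ := by
      rw [LinearMap.range_eq_top]
      intro r
      exact ⟨r • w0, by rw [map_smul, hζw, smul_eq_mul, mul_one]⟩
    rw [h2, finrank_top, finrank_self] at h1
    omega
  obtain ⟨β1, hβ1⟩ : ∃ β1, β1 = β.domRestrict₁₂ (LinearMap.ker ζ) (LinearMap.ker ζ) := ⟨_, rfl⟩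
  have hmain := hUAG (LinearMap.ker ζ) β1 (fun a b => by rw [hβ1]; exact hβ a b)
    (O.image (LinearMap.ker ζ).subtype.dualMap) ?_ ?_ x K hx hK hK2
  rotate_left
  · intro h
    obtain ⟨u, hu, hu0⟩ := Finset.mem_image.1 h
    apply h0
    have h1 : u = 0 := ExA_eq ζ w0 hζw u 0 (by rw [hw0 u hu, LinearMap.zero_apply])
      (by rw [hu0, map_zero])
    rwa [h1] at hu
  · have h1 := ExA_ck ζ O
    rw [hspan] at h1
    rw [eq_bot_iff]
    intro y hy
    have h2 := Submodule.mem_map_of_mem (f := (LinearMap.ker ζ).subtype) hy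
    rw [h1, Submodule.mem_bot] at h2
    rw [Submodule.mem_bot]
    exact Subtype.ext h2
  -- the two sums
  have hsum : ∑ U ∈ O.powerset, (-2 : ℝ) ^ U.card * wt β (-Real.sqrt x) (ck (insert ζ U)) =
      (-Real.sqrt x) * ∑ U ∈ (O.image (LinearMap.ker ζ).subtype.dualMap).powerset,
        (-2 : ℝ) ^ U.card * wt β1 (-Real.sqrt x) (ck U) := by
    rw [Finset.mul_sum]
    refine Finset.sum_bij (fun U _ => U.image (LinearMap.ker ζ).subtype.dualMap) ?_ ?_ ?_ ?_
    · intro U hU
      exact Finset.mem_powerset.2 (Finset.image_subset_image (Finset.mem_powerset.1 hU))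
    · intro U hU U' hU' h
      exact Finset.image_injOn_powerset_of_injOn hinj hU hU' h
    · intro U hU
      obtain ⟨U', hU', h⟩ := Finset.subset_image_iff.1 (Finset.mem_powerset.1 hU)
      refine ⟨U', Finset.mem_powerset.2 ?_, h⟩
      exact_mod_cast hU'
    · intro U hU
      have hU1 := Finset.mem_powerset.1 hU
      rw [Finset.card_image_of_injOn (hinj.mono (by exact_mod_cast hU1))]
      have h1 : wt β (-Real.sqrt x) (ck (insert ζ U)) = (-Real.sqrt x) *
          wt β1 (-Real.sqrt x) (ck (U.image (LinearMap.ker ζ).subtype.dualMap)) := by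
        unfold wt
        have h2 := Submodule.finrank_map_subtype_eq (LinearMap.ker ζ)
          (ck (U.image (LinearMap.ker ζ).subtype.dualMap))
        rw [ExA_ck] at h2
        have h3 := Submodule.finrank_map_subtype_eq (LinearMap.ker ζ)
          (rad β1 (ck (U.image (LinearMap.ker ζ).subtype.dualMap)))
        rw [hβ1, ExA_rad, ExA_ck] at h3
        rw [h2, h3, hrank, hβ1, ← zpow_one_add₀ hz]
        congr 1
        push_cast
        ring
      rw [h1]
      ring
  rw [hsum, abs_mul, abs_neg, abs_of_pos hsx]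
  refine mul_le_mul_of_nonneg_left ?_ hsx.le
  have h5 : finrank (ZMod 2) V - 1 = finrank (ZMod 2) (LinearMap.ker ζ) := by omega
  rw [h5]
  exact hmain

end

section

variable {V : Type} [AddCommGroup V] [Module (ZMod 2) V]
  (c : Dual (ZMod 2) V → ℂ) (f : Submodule (ZMod 2) V → ℝ) [DecidableEq (Dual (ZMod 2) V)]

/-- the imaginary part -/
theorem SW_im (O : Finset (Dual (ZMod 2) V)) (hO : ∀ k ∈ O, c k = -2) (k : Dual (ZMod 2) V)
    (hk : k ∉ O) : |(c k).im| * |∑ U ∈ O.powerset, (-2) ^ U.card * f (ck (insert k U))| ≤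
      ‖SW c f (insert k O)‖ := by
  obtain ⟨b, hb⟩ : ∃ b, b = ∑ U ∈ O.powerset, (-2) ^ U.card * f (ck (insert k U)) := ⟨_, rfl⟩
  have e1 : SW c f (insert k O) =
      ((∑ U ∈ O.powerset, (-2) ^ U.card * f (ck U) : ℝ) : ℂ) + c k * (b : ℂ) := by
    rw [SW_insert c f O k hk, SW_two c f O hO, hb]
    congr 2
    push_cast
    refine Finset.sum_congr rfl fun U hU => ?_
    rw [Finset.prod_congr rfl fun k hk => hO k (Finset.mem_powerset.1 hU hk), Finset.prod_const]
  have e2 : (SW c f (insert k O)).im = (c k).im * b := by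
    rw [e1, Complex.add_im, Complex.ofReal_im, zero_add, Complex.mul_im, Complex.ofReal_re,
      Complex.ofReal_im, mul_zero, zero_add]
  rw [← hb, ← abs_mul, ← e2]
  exact Complex.abs_im_le_norm _

end

end Pool.Agent.EQT
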