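import Pool.Agent.EQT.ExA

/-!
# EQT, module ExB: the state sum of a symmetric matrix with one exceptional class of rows
-/

set_option autoImplicit false
set_option linter.unusedSectionVars false

open Module Matrix

namespace Pool.Agent.EQT

open Pool.Agent.UNI

/-! ### the exceptional weight -/

private theorem ExB_mod (n : ℕ) (hn : 4 ≤ n) (j : ℕ) (h1 : 1 ≤ j) (h2 : j ≤ n - 1) :
    Real.sin (Real.pi / n) ≤ Real.sin (Real.pi * j / n) := by
  have hn' : (4 : ℝ) ≤ n := by exact_mod_cast hn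
  have hn0 : (0 : ℝ) < n := by linarith
  have hj1 : (1 : ℝ) ≤ j := by exact_mod_cast h1
  have hj2 : (j : ℝ) ≤ n - 1 := by
    have h3 : j + 1 ≤ n := by omega
    have h4 : ((j + 1 : ℕ) : ℝ) ≤ n := by exact_mod_cast h3
    push_cast at h4
    linarith
  have hpi := Real.pi_pos
  rcases le_total (2 * (j : ℝ)) n with h | h
  · refine Real.sin_le_sin_of_le_of_le_pi_div_two ?_ ?_ ?_
    · have : 0 ≤ Real.pi / n := by positivity
      linarith
    · rw [div_le_div_iff₀ hn0 (by norm_num)]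
      nlinarith
    · rw [div_le_div_iff₀ hn0 hn0]
      nlinarith [mul_pos hpi hn0]
  · have h5 : Real.pi * j / n = Real.pi - Real.pi * (n - j) / n := by
      field_simp
      ring
    rw [h5, Real.sin_pi_sub]
    refine Real.sin_le_sin_of_le_of_le_pi_div_two ?_ ?_ ?_
    · have : 0 ≤ Real.pi / n := by positivity
      linarith
    · rw [div_le_div_iff₀ hn0 (by norm_num)]
      nlinarith
    · rw [div_le_div_iff₀ hn0 hn0]
      nlinarith [mul_pos hpi hn0]

private theorem ExB_sin (n : ℕ) (hn : 4 ≤ n) (T : ℤ) (hT : ¬ (n : ℤ) ∣ T) :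
    Real.sin (Real.pi / n) ≤ |Real.sin (Real.pi * T / n)| := by
  have hn0 : (n : ℝ) ≠ 0 := by
    have : n ≠ 0 := by omega
    exact_mod_cast this
  have hnz : (0 : ℤ) < n := by exact_mod_cast (show 0 < n by omega)
  have h0 := Int.emod_nonneg T hnz.ne'
  have h1 := Int.emod_lt_of_pos T hnz
  have h2 : T % n ≠ 0 := fun h => hT (Int.dvd_of_emod_eq_zero h)
  obtain ⟨j, hj⟩ : ∃ j : ℕ, T % n = j := ⟨(T % n).toNat, (Int.toNat_of_nonneg h0).symm⟩
  have h3 := Int.emod_add_mul_ediv T n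
  have h4 : (T : ℝ) = j + n * (T / n : ℤ) := by
    have h5 : T = (j : ℤ) + n * (T / n) := by
      rw [← hj]
      exact h3.symm
    exact_mod_cast congrArg (fun a : ℤ => (a : ℝ)) h5
  have h5 : Real.pi * T / n = Real.pi * j / n + (T / n : ℤ) * Real.pi := by
    rw [h4]
    field_simp
  rw [h5, Real.sin_add_int_mul_pi, abs_mul, abs_zpow, abs_neg, abs_one, _root_.one_zpow, one_mul]
  refine (ExB_mod n hn j ?_ ?_).trans (le_abs_self _)
  · omega
  · omega

private theorem ExB_zpow {E : Type} [DecidableEq E] (y : ℂ) (hy : y ≠ 0) (s : Finset E)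
    (f : E → ℤ) : ∏ c ∈ s, y ^ (f c) = y ^ (∑ c ∈ s, f c) := by
  induction s using Finset.induction_on with
  | empty => simp
  | insert a s ha ih => rw [Finset.prod_insert ha, Finset.sum_insert ha, zpow_add₀ hy, ih]

/-- the imaginary part of the weight of the exceptional class -/
theorem prod_wn_im {E : Type} [DecidableEq E] (n : ℕ) (hn : 4 ≤ n) (σ : E → Bool) (s : Finset E)
    (hT : ¬ (n : ℤ) ∣ ∑ c ∈ s, (if σ c then (1 : ℤ) else -1)) :
    rn n * Real.cos (Real.pi / (2 * n)) ≤ |(∏ c ∈ s, wn n (σ c)).im| := by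
  obtain ⟨T, hT1⟩ : ∃ T, T = ∑ c ∈ s, (if σ c then (1 : ℤ) else -1) := ⟨_, rfl⟩
  rw [← hT1] at hT
  have hy := yn_ne n
  have hn0 : (n : ℂ) ≠ 0 := by
    have : n ≠ 0 := by omega
    exact_mod_cast this
  have h1 : ∀ c ∈ s, wn n (σ c) = yn n ^ (-(if σ c then (1 : ℤ) else -1)) := by
    intro c _
    unfold wn
    cases σ c <;> simp
  have h2 : (∏ c ∈ s, wn n (σ c)) = Complex.exp (((-(Real.pi * T / n) : ℝ) : ℂ) * Complex.I) := by
    rw [Finset.prod_congr rfl h1, ExB_zpow _ hy, Finset.sum_neg_distrib, ← hT1]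
    unfold yn
    rw [← Complex.exp_int_mul]
    congr 1
    push_cast
    ring
  rw [h2, Complex.exp_ofReal_mul_I_im, Real.sin_neg, abs_neg]
  refine le_trans (le_of_eq ?_) (ExB_sin n hn T hT)
  unfold rn
  rw [mul_assoc, ← mul_assoc]
  have h3 : Real.pi / n = 2 * (Real.pi / (2 * n)) := by
    field_simp
  rw [h3, Real.sin_two_mul]

section

variable {E : Type} [Fintype E] [DecidableEq E] {M : Matrix E E (ZMod 2)}

open Classical in
/-- **The state sum of a symmetric matrix**: the twist numbers of the nonzero rows different from the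
row of `z` are odd multiples of `n`, the twist number of the row of `z` is not divisible by `2 n`. -/
theorem absH (hUAG : St_UAG) (hM : ∀ i j, M i j = M j i) (σ : E → Bool) (n : ℕ) (hn : 4 ≤ n)
    (z : E) (hz : M z ≠ 0)
    (hodd : ∀ c, M c ≠ 0 → M c ≠ M z → ∃ j : ℤ,
      ∑ c' ∈ Finset.univ.filter (fun c' => M c' = M c), (if σ c' then (1 : ℤ) else -1) =
        (2 * j + 1) * n)
    (hT : ¬ ∃ j : ℤ,
      ∑ c' ∈ Finset.univ.filter (fun c' => M c' = M z), (if σ c' then (1 : ℤ) else -1) =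
        (2 * j) * n)
    (K : ℝ) (hK : 1 ≤ K) (hK2 : K ^ 2 = 4 / rn n ^ 2 - 6 + rn n ^ 2) :
    Real.cos (Real.pi / (2 * n)) * K ^ (finrank (ZMod 2) (Im M) - 1) ≤
      ‖∑ s : E → Bool, (∏ c, if s c then An n else (An n)⁻¹) *
      (-(An n) ^ 2 - ((An n)⁻¹) ^ 2) ^
        (finrank (ZMod 2) (LinearMap.ker (SM M σ s).mulVecLin))‖ := by
  rw [absEval hM σ n hn]
  have hr := rn_pos n hn
  have hK0 : 0 ≤ K := by linarith
  have hcos : Real.cos (Real.pi / (2 * n)) ≤ 1 := Real.cos_le_one _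
  obtain ⟨X, hX⟩ : ∃ X, X = Finset.univ.image (co M) := ⟨_, rfl⟩
  obtain ⟨cf, hcf⟩ : ∃ cf, cf = cw (co M) (fun c => wn n (σ c)) Finset.univ := ⟨_, rfl⟩
  obtain ⟨f, hf⟩ : ∃ f : Submodule (ZMod 2) (Im M) → ℝ,
      f = fun Y => wt (fo M) (-Real.sqrt (1 / rn n ^ 2)) Y := ⟨_, rfl⟩
  have hgoal : (∑ U ∈ (Finset.univ.image (co M)).powerset,
      (∏ k ∈ U, cw (co M) (fun c => wn n (σ c)) Finset.univ k) *
        ((wt (fo M) (-Real.sqrt (1 / rn n ^ 2)) (ck U) : ℝ) : ℂ)) = SW cf f X := by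
    unfold SW
    rw [hcf, hf, hX]
  rw [hgoal]
  -- the classes
  have hcls : ∀ c, cf (co M c) + 1 =
      ∏ c' ∈ Finset.univ.filter (fun c' => M c' = M c), wn n (σ c') := by
    intro c
    rw [hcf]
    unfold cw
    rw [sub_add_cancel]
    refine Finset.prod_congr ?_ fun _ _ => rfl
    exact Finset.filter_congr fun c' _ => co_eq_iff c' c
  have hnorm : ∀ k ∈ X, ‖cf k + 1‖ = 1 := by
    intro k hk
    rw [hX] at hk
    obtain ⟨c, -, rfl⟩ := Finset.mem_image.1 hk
    rw [hcls]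
    exact prod_wn_norm n σ _
  have hoddc : ∀ c, (∃ j : ℤ, ∑ c' ∈ Finset.univ.filter (fun c' => M c' = M c),
      (if σ c' then (1 : ℤ) else -1) = (2 * j + 1) * n) → cf (co M c) = -2 := by
    rintro c ⟨j, hj⟩
    have h1 := hcls c
    rw [prod_wn n hn σ _ j hj] at h1
    linear_combination h1
  obtain ⟨ζ, hζ⟩ : ∃ ζ, ζ = co M z := ⟨_, rfl⟩
  have hζ0 : ζ ≠ 0 := by
    rw [hζ]
    exact co_ne_zero z hz
  have hζX : ζ ∈ X := by
    rw [hX, hζ]
    exact Finset.mem_image_of_mem _ (Finset.mem_univ z)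
  -- the different classes
  obtain ⟨O, hO⟩ : ∃ O, O = (X.erase 0).erase ζ := ⟨_, rfl⟩
  have hOζ : ζ ∉ O := by
    rw [hO]
    exact Finset.notMem_erase _ _
  have hins : X.erase 0 = insert ζ O := by
    rw [hO, Finset.insert_erase (Finset.mem_erase.2 ⟨hζ0, hζX⟩)]
  have hO2 : ∀ k ∈ O, cf k = -2 := by
    intro k hk
    rw [hO, Finset.mem_erase, Finset.mem_erase, hX] at hk
    obtain ⟨hk1, hk2, hk3⟩ := hk
    obtain ⟨c, -, rfl⟩ := Finset.mem_image.1 hk3
    have hc0 : M c ≠ 0 := by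
      intro h
      apply hk2
      apply LinearMap.ext
      rintro ⟨_, x, rfl⟩
      show M c ⬝ᵥ x = 0
      rw [h, zero_dotProduct]
    have hcz : M c ≠ M z := fun h => hk1 (by rw [hζ]; exact (co_eq_iff c z).2 h)
    exact hoddc c (hodd c hc0 hcz)
  have hO0 : (0 : Dual (ZMod 2) (Im M)) ∉ O := by
    rw [hO]
    intro h
    exact Finset.notMem_erase _ _ (Finset.mem_of_mem_erase h)
  have hI0 : (0 : Dual (ZMod 2) (Im M)) ∉ insert ζ O := by
    rw [← hins]
    exact Finset.notMem_erase _ _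
  have hIck : ck (insert ζ O) = ⊥ := by
    rw [eq_bot_iff]
    rintro ⟨_, x, rfl⟩ hy
    rw [Submodule.mem_bot]
    apply Subtype.ext
    funext c
    by_cases hc0 : M c = 0
    · show M c ⬝ᵥ x = 0
      rw [hc0, zero_dotProduct]
    · refine hy (co M c) ?_
      rw [← hins, Finset.mem_erase, hX]
      exact ⟨co_ne_zero c hc0, Finset.mem_image_of_mem _ (Finset.mem_univ c)⟩
  have hK2' : K ^ 2 = 4 * (1 / rn n ^ 2) - 6 + 1 / (1 / rn n ^ 2) := by
    rw [hK2, one_div_one_div]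
    ring
  have hU : ∀ Y : Finset (Dual (ZMod 2) (Im M)), (0 : Dual (ZMod 2) (Im M)) ∉ Y → ck Y = ⊥ →
      K ^ finrank (ZMod 2) (Im M) ≤ |∑ U ∈ Y.powerset, (-2) ^ U.card * f (ck U)| := by
    intro Y hY hOY
    rw [hf]
    exact hUAG (Im M) (fo M) (fo_symm hM) Y hY hOY _ K (rn_x n hn) hK0 hK2'
  have hKr : Real.cos (Real.pi / (2 * n)) * K ^ (finrank (ZMod 2) (Im M) - 1) ≤
      K ^ finrank (ZMod 2) (Im M) := by
    have h1 : K ^ (finrank (ZMod 2) (Im M) - 1) ≤ K ^ finrank (ZMod 2) (Im M) :=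
      pow_le_pow_right₀ hK (Nat.sub_le _ _)
    have h2 : 0 ≤ K ^ (finrank (ZMod 2) (Im M) - 1) := pow_nonneg hK0 _
    nlinarith
  -- the zero row
  have hred : ‖SW cf f X‖ = ‖SW cf f (insert ζ O)‖ := by
    rw [← hins]
    by_cases h0 : (0 : Dual (ZMod 2) (Im M)) ∈ X
    · have h1 : ‖1 + cf 0‖ = 1 := by
        rw [add_comm]
        exact hnorm 0 h0
      conv_lhs => rw [← Finset.insert_erase h0]
      rw [SW_zero cf f _ (Finset.notMem_erase _ _), norm_mul, h1, one_mul]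
    · rw [Finset.erase_eq_of_notMem h0]
  rw [hred]
  by_cases hck : ck O = ⊥
  · exact hKr.trans (SW_one cf f O hO2 ζ hOζ _ (pow_nonneg hK0 _) (hnorm ζ hζX) (hU O hO0 hck)
      (hU _ hI0 hIck))
  by_cases hTn : (n : ℤ) ∣ ∑ c' ∈ Finset.univ.filter (fun c' => M c' = M z),
      (if σ c' then (1 : ℤ) else -1)
  · -- an odd multiple
    obtain ⟨j, hj⟩ := hTn
    have h1 : cf ζ = -2 := by
      rw [hζ]
      refine hoddc z ?_
      rcases Int.even_or_odd' j with ⟨i, hi | hi⟩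
      · exact absurd ⟨i, by rw [hj, hi]; ring⟩ hT
      · exact ⟨i, by rw [hj, hi]; ring⟩
    have h2 : ∀ k ∈ insert ζ O, cf k = -2 := by
      intro k hk
      rcases Finset.mem_insert.1 hk with rfl | hk
      · exact h1
      · exact hO2 k hk
    rw [SW_two cf f _ h2, Complex.norm_real, Real.norm_eq_abs]
    exact hKr.trans (hU _ hI0 hIck)
  · -- a coloop
    refine le_trans ?_ (SW_im cf f O hO2 ζ hOζ)
    have h1 := coloop_sum hUAG (fo M) (fo_symm hM) ζ O hO0 hIck hck _ K (rn_x n hn) hK0 hK2'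
    have h2 : rn n * Real.cos (Real.pi / (2 * n)) ≤ |(cf ζ).im| := by
      have h3 : (cf ζ).im = (∏ c' ∈ Finset.univ.filter (fun c' => M c' = M z), wn n (σ c')).im := by
        rw [← hcls z, hζ, Complex.add_im, Complex.one_im, add_zero]
      rw [h3]
      exact prod_wn_im n hn σ _ hTn
    have h3 : Real.sqrt (1 / rn n ^ 2) = 1 / rn n := by
      rw [Real.sqrt_div zero_le_one, Real.sqrt_one, Real.sqrt_sq hr.le]
    have hc0 : 0 ≤ Real.cos (Real.pi / (2 * n)) := by
      apply Real.cos_nonneg_of_neg_pi_div_two_le_of_le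
      · have : 0 ≤ Real.pi / (2 * (n : ℝ)) := by positivity
        linarith [Real.pi_pos]
      · have hn' : (4 : ℝ) ≤ n := by exact_mod_cast hn
        rw [div_le_div_iff₀ (by positivity) (by norm_num)]
        nlinarith [Real.pi_pos]
    have hpow : 0 ≤ K ^ (finrank (ZMod 2) (Im M) - 1) := pow_nonneg hK0 _
    calc Real.cos (Real.pi / (2 * n)) * K ^ (finrank (ZMod 2) (Im M) - 1)
        = (rn n * Real.cos (Real.pi / (2 * n))) *
            (Real.sqrt (1 / rn n ^ 2) * K ^ (finrank (ZMod 2) (Im M) - 1)) := by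
          rw [h3]
          field_simp
      _ ≤ |(cf ζ).im| * |∑ U ∈ O.powerset, (-2) ^ U.card * f (ck (insert ζ U))| := by
          refine mul_le_mul h2 ?_ (by positivity) (abs_nonneg _)
          rw [hf]
          exact h1

end

end Pool.Agent.EQT
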