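import Pool.Agent.EQT.ExB
import Pool.Agent.EQT.DvD

/-!
# EQT, module ExC: Gauss diagrams with one exceptional twist class
-/

set_option autoImplicit false
set_option linter.unusedSectionVars false

open Submodule Module LaurentPolynomial

namespace Pool.Agent.EQT

open Pool.Agent.SPT Pool.Agent.UNI Pool.Agent.Helper16.Knotoid
open Pool.Agent.Helper16.Knotoid.GaussDiagram

variable {n : ℕ}

/-! ### the constants -/

theorem ExC_cos {M : ℕ} (hM : 4 ≤ M) :
    0 < Real.cos (Real.pi / (2 * M)) ∧ (2 + Real.sqrt 2) / 4 ≤ Real.cos (Real.pi / (2 * M)) ^ 2 := by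
  have hM' : (4 : ℝ) ≤ M := by exact_mod_cast hM
  have hpi := Real.pi_pos
  have h1 : Real.cos (Real.pi / 8) ≤ Real.cos (Real.pi / (2 * M)) := by
    refine Real.cos_le_cos_of_nonneg_of_le_pi (by positivity) (by linarith) ?_
    exact div_le_div_of_nonneg_left hpi.le (by norm_num) (by linarith)
  have h2 : 0 < Real.cos (Real.pi / 8) :=
    Real.cos_pos_of_mem_Ioo ⟨by linarith, by linarith⟩
  have h3 : Real.cos (Real.pi / 8) ^ 2 = (2 + Real.sqrt 2) / 4 := by
    have h4 := Real.cos_sq (Real.pi / 8)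
    have h5 : 2 * (Real.pi / 8) = Real.pi / 4 := by ring
    rw [h5, Real.cos_pi_div_four] at h4
    rw [h4]
    ring
  refine ⟨h2.trans_le h1, ?_⟩
  rw [← h3]
  exact pow_le_pow_left₀ h2.le h1 2

theorem ExC_nine {M : ℕ} (hM : 4 ≤ M) : 9 / 10 ≤ Real.cos (Real.pi / (2 * M)) := by
  obtain ⟨h1, h2⟩ := ExC_cos hM
  have h3 : (1.4 : ℝ) ≤ Real.sqrt 2 := Real.le_sqrt_of_sq_le (by norm_num)
  nlinarith

theorem ExC_one {M : ℕ} (hM : 4 ≤ M) : 1 < Real.cos (Real.pi / (2 * M)) * kap M := by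
  obtain ⟨h1, h2⟩ := ExC_cos hM
  obtain ⟨h3, h4⟩ := kap_four hM
  have hs : Real.sqrt 2 ^ 2 = 2 := Real.sq_sqrt (by norm_num)
  have hs0 : 0 ≤ Real.sqrt 2 := Real.sqrt_nonneg 2
  have h5 : Real.sqrt 2 ≤ kap M ^ 2 := by
    have h6 : kap M ^ 4 = (kap M ^ 2) ^ 2 := by ring
    rw [h6] at h3
    exact Real.sqrt_le_iff.2 ⟨by positivity, h3⟩
  have h6 : (2 + Real.sqrt 2) / 4 * Real.sqrt 2 ≤
      Real.cos (Real.pi / (2 * M)) ^ 2 * kap M ^ 2 :=
    mul_le_mul h2 h5 hs0 (by positivity)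
  have h7 : (1.4 : ℝ) ≤ Real.sqrt 2 := Real.le_sqrt_of_sq_le (by norm_num)
  have h8 : 1 < (Real.cos (Real.pi / (2 * M)) * kap M) ^ 2 := by
    rw [mul_pow]
    nlinarith
  nlinarith [mul_pos h1 (by linarith : (0 : ℝ) < kap M)]

/-! ### the value -/

/-- **one exceptional twist class**, for the value of the normalized bracket -/
theorem ev_but {M : ℕ} (hM : 4 ≤ M) (D : GaussDiagram n) (z : Fin n)
    (hz : ∃ j, D.Interlaced z j)
    (h : ∀ i, (∃ j, D.Interlaced i j) → ¬ Twins D.Interlaced i z →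
      ∃ k : ℤ, twistNumber D.Interlaced D.sign i = (2 * k + 1) * M)
    (hT : ¬ ∃ k : ℤ, twistNumber D.Interlaced D.sign z = 2 * k * M) :
    Real.cos (Real.pi / (2 * M)) *
        kap M ^ (rk (D.Cut (cutState D.Interlaced D.sign)) - 1) ≤
      ‖evθ (-(Real.pi / M)) D.normalizedBracket‖ := by
  classical
  have hi := Twin_irrefl D
  have hs := Twin_int_symm D
  obtain ⟨σ, hσ⟩ : ∃ σ, σ = cutState D.Interlaced D.sign := ⟨_, rfl⟩
  have h0 : D.Cut σ = Twin_R D.Interlaced D.sign := by rw [hσ]; rfl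
  -- the rows
  have hrow : ∀ c d, D.gmat σ c = D.gmat σ d ↔ Twins D.Interlaced c d := by
    intro c d
    rw [← Twin_row (e := D.sign) hi hs, ← h0, row_eq, row_eq]
  have hne : ∀ c, D.gmat σ c ≠ 0 ↔ ∃ j, D.Interlaced c j := by
    intro c
    rw [← Twin_ne (e := D.sign) c, ← h0, row_eq]
  have htw : ∀ c, (∑ c' ∈ Finset.univ.filter (fun c' => D.gmat σ c' = D.gmat σ c),
      (if σ c' then (1 : ℤ) else -1)) = twistNumber D.Interlaced D.sign c ∨
      (∑ c' ∈ Finset.univ.filter (fun c' => D.gmat σ c' = D.gmat σ c),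
      (if σ c' then (1 : ℤ) else -1)) = -twistNumber D.Interlaced D.sign c := by
    intro c
    have h1 := Twin_twist (e := D.sign) hi hs c
    have h2 : twist (Twin_R D.Interlaced D.sign) (cutState D.Interlaced D.sign)
        (row (Twin_R D.Interlaced D.sign) c) =
        ∑ c' ∈ Finset.univ.filter (fun c' => D.gmat σ c' = D.gmat σ c),
          (if σ c' then (1 : ℤ) else -1) := by
      rw [← h0, ← hσ]
      unfold twist
      refine Finset.sum_congr ?_ fun _ _ => rfl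
      ext c'
      rw [Finset.mem_filter, Finset.mem_filter, row_eq, row_eq]
    rw [h2] at h1
    exact h1
  have h1 := absH thm_UAG (D.gmat_symm σ) σ M hM z ((hne z).2 hz) (fun c hc hcz => by
      obtain ⟨k, hk⟩ := h c ((hne c).1 hc) (fun h' => hcz ((hrow c z).2 h'))
      rcases htw c with h2 | h2
      · exact ⟨k, by rw [← hk, ← h2]⟩
      · refine ⟨-k - 1, ?_⟩
        have h3 : (2 * (-k - 1) + 1) * (M : ℤ) = -((2 * k + 1) * M) := by ring
        rw [h3, ← hk, ← h2]) (fun ⟨j, hj⟩ => by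
      apply hT
      rcases htw z with h2 | h2
      · refine ⟨j, ?_⟩
        rw [← h2, ← hj]
      · refine ⟨-j, ?_⟩
        have h3 : (2 : ℤ) * -j * M = -(2 * j * M) := by ring
        rw [h3, ← hj, h2, neg_neg]) (kap M) (kap_four hM).2.le
      (by rw [kap_sq M hM, qM_eq])
  rw [← rk_gmat] at h1
  rw [← hσ]
  refine h1.trans (le_of_eq ?_)
  have h2 := norm_f D σ (-(Real.pi / M))
  rw [Aθ_An] at h2
  rw [h2]
  rfl

/-- from the rank to the number of the twist classes -/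
theorem ev_but_classes {M : ℕ} (hM : 4 ≤ M) (D : GaussDiagram n) (z : Fin n)
    (hz : ∃ j, D.Interlaced z j)
    (h : ∀ i, (∃ j, D.Interlaced i j) → ¬ Twins D.Interlaced i z →
      ∃ k : ℤ, twistNumber D.Interlaced D.sign i = (2 * k + 1) * M)
    (hT : ¬ ∃ k : ℤ, twistNumber D.Interlaced D.sign z = 2 * k * M)
    (ht : 2 ≤ twistClasses D.Interlaced) :
    (9 / 10) ^ 3 * kap M ^ twistClasses D.Interlaced ≤
        ‖evθ (-(Real.pi / M)) D.normalizedBracket‖ ^ 3 ∧
      1 < ‖evθ (-(Real.pi / M)) D.normalizedBracket‖ := by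
  have h1 := ev_but hM D z hz h hT
  have h2 := third D (cutState D.Interlaced D.sign)
  obtain ⟨-, hk⟩ := kap_four hM
  have hk0 : 0 ≤ kap M := by linarith
  obtain ⟨hc0, -⟩ := ExC_cos hM
  have hcount : twistClasses D.Interlaced =
      ((rows (D.Cut (cutState D.Interlaced D.sign))).erase 0).card :=
    Twin_count (e := D.sign) (Twin_irrefl D) (Twin_int_symm D)
  rw [← hcount] at h2
  obtain ⟨r, hr⟩ : ∃ r, r = rk (D.Cut (cutState D.Interlaced D.sign)) := ⟨_, rfl⟩
  rw [← hr] at h1 h2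
  obtain ⟨t, ht'⟩ : ∃ t, t = twistClasses D.Interlaced := ⟨_, rfl⟩
  rw [← ht'] at h2 ht ⊢
  have h3 : t ≤ 3 * (r - 1) := by omega
  have h4 : 1 ≤ r - 1 := by omega
  constructor
  · calc (9 / 10) ^ 3 * kap M ^ t ≤ Real.cos (Real.pi / (2 * M)) ^ 3 * kap M ^ (3 * (r - 1)) := by
          refine mul_le_mul (pow_le_pow_left₀ (by norm_num) (ExC_nine hM) 3)
            (pow_le_pow_right₀ hk.le h3) (pow_nonneg hk0 _) (by positivity)
      _ = (Real.cos (Real.pi / (2 * M)) * kap M ^ (r - 1)) ^ 3 := by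
          rw [mul_pow, ← pow_mul, mul_comm 3]
      _ ≤ _ := pow_le_pow_left₀ (mul_nonneg hc0.le (pow_nonneg hk0 _)) h1 3
  · refine lt_of_lt_of_le (ExC_one hM) (le_trans ?_ h1)
    refine mul_le_mul_of_nonneg_left ?_ hc0.le
    calc kap M = kap M ^ 1 := (pow_one _).symm
      _ ≤ kap M ^ (r - 1) := pow_le_pow_right₀ hk.le h4

end Pool.Agent.EQT
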