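import Pool.Agent.EQT.ExDefs
import Pool.Agent.EQT.DvB

/-!
# EQT, module ExD: removing twist classes, one exceptional class, combinatorics
-/

set_option autoImplicit false
set_option linter.unusedSectionVars false

namespace Pool.Agent.EQT

variable {n : ℕ} {I : Fin n → Fin n → Prop} {e : Fin n → Bool} {Y : Finset (Fin n)}

/-- removing a crossing which is interlaced with no other does not change the other classes -/
theorem class_isolated (hirr : ∀ i, ¬ I i i) (hs : ∀ i j, I i j → I j i) (i : Fin n)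
    (h0 : ∀ j ∈ Y, ¬ I i j) (a b : Fin n) (ha : a ∈ Y.erase i) (hb : b ∈ Y.erase i)
    (hab : I a b) : classIn I (Y.erase i) a = classIn I Y a := by
  have haY := Finset.mem_of_mem_erase ha
  have hbY := Finset.mem_of_mem_erase hb
  ext c
  rw [mem_classIn, mem_classIn, Finset.mem_erase]
  constructor
  · rintro ⟨⟨hci, hc⟩, h1⟩
    refine ⟨hc, fun k hk hka hkc => ?_⟩
    by_cases hki : k = i
    · subst hki
      exact ⟨fun h2 => absurd (hs _ _ h2) (h0 a haY), fun h2 => absurd (hs _ _ h2) (h0 c hc)⟩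
    · exact h1 k (Finset.mem_erase.2 ⟨hki, hk⟩) hka hkc
  · rintro ⟨hc, h1⟩
    refine ⟨⟨?_, hc⟩, h1.mono (Finset.erase_subset _ _)⟩
    rintro rfl
    have hbc : b ≠ c := fun h2 => h0 a haY (hs _ _ (h2 ▸ hab))
    have hba : b ≠ a := fun h2 => hirr a (h2 ▸ hab)
    exact h0 b hbY ((h1 b hbY hba hbc).1 hab)

/-- a class after the removal of a class -/
theorem sum_class (hirr : ∀ i, ¬ I i i) (hs : ∀ i j, I i j → I j i) {M : ℕ} (i z : Fin n)
    (hi : i ∈ Y) (h : DivBut I e M Y z) (a b : Fin n) (ha : a ∈ Y \ classIn I Y i)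
    (hb : b ∈ Y \ classIn I Y i) (hab : I a b)
    (hno : ∀ c ∈ classIn I (Y \ classIn I Y i) a, ¬ TwinsIn I Y c z) :
    ∃ k : ℤ, twistIn I e (Y \ classIn I Y i) a = k * M := by
  classical
  have hbY := (Finset.mem_sdiff.1 hb).1
  have haY := (Finset.mem_sdiff.1 ha).1
  have hsub : classIn I (Y \ classIn I Y i) a ⊆ Y := fun c hc =>
    (Finset.mem_sdiff.1 (classIn_sub a hc)).1
  have hY' : Y \ classIn I Y i ⊆ Y := Finset.sdiff_subset
  have hcl : ∀ c ∈ classIn I (Y \ classIn I Y i) a, classIn I Y c ⊆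
      classIn I (Y \ classIn I Y i) a := by
    intro c hc d hd
    have hc' := mem_classIn.1 hc
    have hd' := mem_classIn.1 hd
    have hcY := (Finset.mem_sdiff.1 hc'.1).1
    have hdY : d ∈ Y \ classIn I Y i := by
      refine Finset.mem_sdiff.2 ⟨hd'.1, fun h1 => (Finset.mem_sdiff.1 hc'.1).2 ?_⟩
      rw [mem_classIn] at h1 ⊢
      exact ⟨hcY, h1.2.trans hs hi hd'.1 hcY hd'.2.symm⟩
    exact mem_classIn.2 ⟨hdY, hc'.2.trans hs ha hc'.1 hdY (hd'.2.mono hY')⟩
  refine twistIn_sum (e := e) hs (classIn I (Y \ classIn I Y i) a) hsub M hcl fun c hc => ?_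
  have hc' := mem_classIn.1 hc
  have hcY := (Finset.mem_sdiff.1 hc'.1).1
  refine h c hcY ?_ (hno c hc)
  by_cases hca : c = a
  · exact ⟨b, hbY, by rw [hca]; exact hab⟩
  · by_cases hbc : b = c
    · exact ⟨a, haY, by rw [← hbc]; exact hs _ _ hab⟩
    · by_cases hba : b = a
      · exact absurd (hba ▸ hab) (hirr a)
      · exact ⟨b, hbY, (hc'.2 b hb hba hbc).1 hab⟩

/-- **at most one twist number is not divisible by `M`, after removals** -/
theorem remains_but (hirr : ∀ i, ¬ I i i) (hs : ∀ i j, I i j → I j i) {M : ℕ} {z : Fin n}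
    (h : DivBut I e M Finset.univ z) (hY : Remains I e M Y) :
    Y = ∅ ∨ ∃ z' ∈ Y, DivBut I e M Y z' := by
  classical
  -- a set without exceptional class
  have hnone : ∀ Y : Finset (Fin n), (∀ z', DivBut I e M Y z') →
      Y = ∅ ∨ ∃ z' ∈ Y, DivBut I e M Y z' := by
    intro Y h1
    rcases Y.eq_empty_or_nonempty with h2 | ⟨z', h2⟩
    · exact Or.inl h2
    · exact Or.inr ⟨z', h2, h1 z'⟩
  induction hY with
  | all => exact Or.inr ⟨z, Finset.mem_univ z, h⟩
  | isolated Y i _ h0 ih =>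
    rcases ih with ih | ⟨z', hz', ih⟩
    · left
      rw [ih]
      rfl
    -- the divisible classes
    have hkey : ∀ a ∈ Y.erase i, (∃ b ∈ Y.erase i, I a b) → ¬ TwinsIn I Y a z' →
        ∃ k : ℤ, twistIn I e (Y.erase i) a = k * M := by
      intro a ha hrow hno
      obtain ⟨b, hb, hab⟩ := hrow
      obtain ⟨k, hk⟩ := ih a (Finset.mem_of_mem_erase ha) ⟨b, Finset.mem_of_mem_erase hb, hab⟩ hno
      refine ⟨k, ?_⟩
      rw [← hk]
      unfold twistIn
      rw [class_isolated hirr hs i h0 a b ha hb hab]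
    by_cases hzi : z' = i
    · refine hnone _ fun z'' a ha hrow _ => hkey a ha hrow fun htw => ?_
      obtain ⟨b, hb, hab⟩ := hrow
      rw [hzi] at htw
      by_cases hba : b = a
      · exact hirr a (hba ▸ hab)
      · have hbi := Finset.ne_of_mem_erase hb
        exact h0 b (Finset.mem_of_mem_erase hb)
          ((htw b (Finset.mem_of_mem_erase hb) hba hbi).1 hab)
    · exact Or.inr ⟨z', Finset.mem_erase.2 ⟨hzi, hz'⟩, fun a ha hrow hno =>
        hkey a ha hrow fun htw => hno (htw.mono (Finset.erase_subset _ _))⟩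
  | twist Y i _ hi hj ih =>
    rcases ih with ih | ⟨z', hz', ih⟩
    · rw [ih] at hi
      exact absurd hi (Finset.notMem_empty i)
    by_cases hzi : z' ∈ classIn I Y i
    · refine hnone _ fun z'' a ha hrow _ => ?_
      obtain ⟨b, hb, hab⟩ := hrow
      refine sum_class hirr hs i z' hi ih a b ha hb hab fun c hc htw => ?_
      have hc' := Finset.mem_sdiff.1 (classIn_sub a hc)
      exact hc'.2 (mem_classIn.2 ⟨hc'.1, (mem_classIn.1 hzi).2.trans hs hi hz' hc'.1 htw.symm⟩)
    · have hz'' : z' ∈ Y \ classIn I Y i := Finset.mem_sdiff.2 ⟨hz', hzi⟩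
      refine Or.inr ⟨z', hz'', fun a ha hrow hno => ?_⟩
      obtain ⟨b, hb, hab⟩ := hrow
      refine sum_class hirr hs i z' hi ih a b ha hb hab fun c hc htw => hno ?_
      have hc' := mem_classIn.1 hc
      exact hc'.2.trans hs ha hc'.1 hz'' (htw.mono Finset.sdiff_subset)

/-- **the removals end** -/
theorem exists_reduced {M : ℕ} : ∀ (k : ℕ) (Y : Finset (Fin n)), Y.card = k → Remains I e M Y →
    ∃ Y', Remains I e M Y' ∧ Reduced I e M Y' := by
  classical
  intro k
  induction k using Nat.strong_induction_on with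
  | _ k ih =>
    intro Y hk hY
    by_cases h1 : ∃ c ∈ Y, ∀ d ∈ Y, ¬ I c d
    · obtain ⟨c, hc, h0⟩ := h1
      refine ih (Y.erase c).card ?_ (Y.erase c) rfl (Remains.isolated Y c hY h0)
      rw [← hk]
      exact Finset.card_erase_lt_of_mem hc
    push Not at h1
    by_cases h2 : ∃ c ∈ Y, ∃ j : ℤ, twistIn I e Y c = 2 * j * M
    · obtain ⟨c, hc, hj⟩ := h2
      refine ih (Y \ classIn I Y c).card ?_ (Y \ classIn I Y c) rfl
        (Remains.twist Y c hY hc hj)
      rw [← hk]
      exact Finset.card_lt_card (Finset.sdiff_ssubset (classIn_sub c) ⟨c, self_mem_classIn hc⟩)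
    push Not at h2
    exact ⟨Y, hY, fun i hi => ⟨h1 i hi, fun ⟨j, hj⟩ => h2 i hi j hj⟩⟩

/-- in a reduced set, the divisible twist numbers are odd multiples -/
theorem reduced_odd {M : ℕ} {z : Fin n} (h : DivBut I e M Y z) (hr : Reduced I e M Y) (i : Fin n)
    (hi : i ∈ Y) (hrow : ∃ j ∈ Y, I i j) (hno : ¬ TwinsIn I Y i z) :
    ∃ k : ℤ, twistIn I e Y i = (2 * k + 1) * M := by
  obtain ⟨j, hj⟩ := h i hi hrow hno
  rcases Int.even_or_odd' j with ⟨l, hl | hl⟩
  · exact absurd ⟨l, by rw [hj, hl]⟩ (hr i hi).2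
  · exact ⟨l, by rw [hj, hl]⟩

end Pool.Agent.EQT
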