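import Pool.Agent.EQT.DvDefs

/-!
# EQT: removing twist classes, one exceptional twist class

`I` is the relation of being interlaced on the crossings `0, …, n-1`, `e` gives the signs; see
`DvDefs.lean`.
-/

set_option autoImplicit false

namespace Pool.Agent.EQT

variable {n : ℕ}

/-- Among the crossings of `Y`, all the twist numbers but that of the twist class of `z` are
divisible by `M` (for the crossings interlaced with some crossing of `Y`). -/
def DivBut (I : Fin n → Fin n → Prop) (e : Fin n → Bool) (M : ℕ) (Y : Finset (Fin n))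
    (z : Fin n) : Prop :=
  ∀ i ∈ Y, (∃ j ∈ Y, I i j) → ¬ TwinsIn I Y i z → ∃ k : ℤ, twistIn I e Y i = k * M

/-- Nothing can be removed from `Y`: every crossing of `Y` is interlaced with some crossing of `Y`,
and no twist number is divisible by `2M`. -/
def Reduced (I : Fin n → Fin n → Prop) (e : Fin n → Bool) (M : ℕ) (Y : Finset (Fin n)) : Prop :=
  ∀ i ∈ Y, (∃ j ∈ Y, I i j) ∧ ¬ ∃ k : ℤ, twistIn I e Y i = 2 * k * M

end Pool.Agent.EQT
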