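import Pool.Agent.EQT.ExC
import Pool.Agent.EQT.ExD
import Pool.Agent.EQT.DvE

/-!
# EQT, module ExE: the final theorems, all twist numbers but at most one are divisible by `M`
-/

set_option autoImplicit false
set_option linter.unusedSectionVars false

open Submodule Module LaurentPolynomial

namespace Pool.Agent.EQT

open Pool.Agent.ThA Pool.Agent.SPT Pool.Agent.UNI Pool.Agent.Helper16.Knotoid
open Pool.Agent.Helper16.Knotoid.GaussDiagram

variable {n : ℕ}

/-- **the value of the normalized bracket** -/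
theorem ev_reduced {M : ℕ} (hM : 4 ≤ M) (D : GaussDiagram n) (z : Fin n)
    (h : DivBut D.Interlaced D.sign M Finset.univ z) (Y : Finset (Fin n))
    (hY : Remains D.Interlaced D.sign M Y) (hr : Reduced D.Interlaced D.sign M Y)
    (ht : 2 ≤ classesIn D.Interlaced Y) :
    (9 / 10) ^ 3 * kap M ^ classesIn D.Interlaced Y ≤
        ‖evθ (-(Real.pi / M)) D.normalizedBracket‖ ^ 3 ∧
      1 < ‖evθ (-(Real.pi / M)) D.normalizedBracket‖ := by
  have hi := int_irrefl D
  have hs := int_symm D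
  rcases remains_but hi hs h hY with h1 | ⟨z', hz', h1⟩
  · exfalso
    obtain ⟨i, hiY, -⟩ := exists_of_classesIn (I := D.Interlaced) (Y := Y) (by omega)
    rw [h1] at hiY
    exact Finset.notMem_empty i hiY
  obtain ⟨c, rfl⟩ := emb_surj Y hz'
  have h2 := ev_but_classes hM (restr D Y) c ((restr_exists D Y c).2 (hr _ hz').1)
    (fun a ha hno => by
      rw [restr_number]
      exact reduced_odd h1 hr _ (emb_mem Y a) ((restr_exists D Y a).1 ha)
        fun h3 => hno ((restr_twins D Y a c).2 h3))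
    (by
      rw [restr_number]
      exact (hr _ hz').2)
    (by
      rw [restr_classes]
      exact ht)
  rw [norm_remains D M hM Y hY, restr_classes] at h2
  exact h2

private theorem ExE_end {M : ℕ} {f f' : ℤ[T;T⁻¹]} {t : ℕ}
    (h : ‖evθ (-(Real.pi / M)) f'‖ = ‖evθ (-(Real.pi / M)) f‖)
    (h1 : (9 / 10) ^ 3 * kap M ^ t ≤ ‖evθ (-(Real.pi / M)) f‖ ^ 3 ∧
      1 < ‖evθ (-(Real.pi / M)) f‖) (hM : 4 ≤ M) :
    9 / 10 * kap M ^ ((t : ℝ) / 3) ≤ (coeffSum f' : ℝ) ∧ f' ≠ 1 := by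
  obtain ⟨h3, h4⟩ := kap_four hM
  have h5 := norm_ev_le (-(Real.pi / M)) f'
  rw [h] at h5
  constructor
  · refine le_trans ?_ h5
    have hk0 : 0 ≤ kap M := by linarith
    have h6 : (9 / 10 * kap M ^ ((t : ℝ) / 3)) ^ 3 ≤ ‖evθ (-(Real.pi / M)) f‖ ^ 3 := by
      rw [mul_pow, ← Real.rpow_natCast (kap M ^ ((t : ℝ) / 3)), ← Real.rpow_mul hk0]
      have h7 : (t : ℝ) / 3 * ((3 : ℕ) : ℝ) = t := by
        push_cast
        ring
      rw [h7, Real.rpow_natCast]
      exact h1.1
    exact le_of_pow_le_pow_left₀ (by norm_num) (norm_nonneg _) h6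
  · intro hf
    have h7 : (1 : ℝ) < (coeffSum f' : ℝ) := h1.2.trans_le h5
    rw [hf, coeffSum_one] at h7
    norm_num at h7

/-- **Knots.** -/
theorem knot_but {M : ℕ} (hM : 4 ≤ M) (D D' : Diagram) (hm : TMoves (2 * M) D D') (z : Fin D.n)
    (h : DivBut (GaussJones.Interlaced D.code) D.sign M Finset.univ z) :
    (∃ Y, Remains (GaussJones.Interlaced D.code) D.sign M Y ∧
      Reduced (GaussJones.Interlaced D.code) D.sign M Y) ∧
    ∀ Y, Remains (GaussJones.Interlaced D.code) D.sign M Y →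
      Reduced (GaussJones.Interlaced D.code) D.sign M Y →
      2 ≤ classesIn (GaussJones.Interlaced D.code) Y →
      9 / 10 * kap M ^ ((classesIn (GaussJones.Interlaced D.code) Y : ℝ) / 3) ≤
        (coeffSum D'.f : ℝ) ∧ D'.f ≠ 1 := by
  refine ⟨exists_reduced _ Finset.univ rfl Remains.all, fun Y h1 h2 ht => ?_⟩
  refine ExE_end (tmoves_ev hM hm) ?_ hM
  have h5 : GaussJones.Interlaced D.code = (UNI.cutOpen D.code D.sign).Interlaced := by
    funext i j
    exact propext (UNI.interlaced_iff D.code D.sign i j)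
  have h6 : D.f = (UNI.cutOpen D.code D.sign).normalizedBracket :=
    (normalizedBracket_eq (UNI.cutOpen D.code D.sign)).symm
  rw [h5] at h h1 h2 ht ⊢
  rw [h6]
  exact ev_reduced hM (UNI.cutOpen D.code D.sign) z h Y h1 h2 ht

/-- **Knotoids.** -/
theorem knotoid_but {M : ℕ} (hM : 4 ≤ M) (D D' : KDiagram) (hm : KTMoves (2 * M) D D')
    (z : Fin D.n) (h : DivBut D.D.Interlaced D.D.sign M Finset.univ z) :
    (∃ Y, Remains D.D.Interlaced D.D.sign M Y ∧ Reduced D.D.Interlaced D.D.sign M Y) ∧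
    ∀ Y, Remains D.D.Interlaced D.D.sign M Y → Reduced D.D.Interlaced D.D.sign M Y →
      2 ≤ classesIn D.D.Interlaced Y →
      9 / 10 * kap M ^ ((classesIn D.D.Interlaced Y : ℝ) / 3) ≤ (coeffSum D'.f : ℝ) ∧
        D'.f ≠ 1 :=
  ⟨exists_reduced _ Finset.univ rfl Remains.all, fun Y h1 h2 ht =>
    ExE_end (ktmoves_ev hM hm) (ev_reduced hM D.D z h Y h1 h2 ht) hM⟩

end Pool.Agent.EQT
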