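import Pool.Agent.EQT.GFinal
import Pool.Agent.EQT.Stmt
import Pool.Agent.SPT.Fin

/-!
# EQT, module GAsm: the general forms
-/

set_option autoImplicit false
set_option linter.unusedSectionVars false

open Submodule LaurentPolynomial Pool.Agent.SPT Pool.Agent.UNI
open Pool.Agent.Helper16.Knotoid

namespace Pool.Agent.EQT

variable {n : ℕ}

theorem qM_eq (M : ℕ) : qM M = rn M ^ 2 := by
  unfold qM rn
  ring

theorem qM_pos (M : ℕ) (hM : 4 ≤ M) : 0 < qM M := by
  rw [qM_eq]
  exact pow_pos (rn_pos M hM) 2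

theorem qM_le (M : ℕ) (hM : 4 ≤ M) : qM M ≤ 2 - Real.sqrt 2 := by
  have h1 := rn_x M hM
  have h2 := qM_pos M hM
  rw [← qM_eq] at h1
  have h3 : 0 < Real.sqrt 2 := Real.sqrt_pos.mpr (by norm_num)
  have h4 : Real.sqrt 2 * Real.sqrt 2 = 2 := Real.mul_self_sqrt (by norm_num)
  have h5 : 1 / Real.sqrt 2 = Real.sqrt 2 / 2 := by
    rw [div_eq_div_iff h3.ne' (by norm_num)]
    linarith
  rw [h5, le_div_iff₀ h2] at h1
  have h6 : 0 < 2 - Real.sqrt 2 := by nlinarith
  nlinarith

theorem qM_le' (M : ℕ) (hM : 4 ≤ M) : qM M ≤ 2 / 3 := by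
  have h1 := qM_le M hM
  have h2 : (4 : ℝ) / 3 ≤ Real.sqrt 2 := by
    rw [Real.le_sqrt] <;> norm_num
  linarith

theorem kap_sq (M : ℕ) (hM : 4 ≤ M) : kap M ^ 2 = 4 / qM M - 6 + qM M := by
  unfold kap
  rw [Real.sq_sqrt]
  have h1 := qM_pos M hM
  have h2 := qM_le' M hM
  have h3 : 6 ≤ 4 / qM M := by
    rw [le_div_iff₀ h1]
    linarith
  linarith

theorem kap_nonneg (M : ℕ) : 0 ≤ kap M := Real.sqrt_nonneg _

theorem Aθ_An (M : ℕ) : Aθ (-(Real.pi / M)) = An M := by
  unfold Aθ An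
  congr 2
  push_cast
  ring

/-- the rank of the rows -/
theorem rk_gmat (D : GaussDiagram n) (σ : Fin n → Bool) :
    rk (D.Cut σ) = Module.finrank (ZMod 2) (Im (D.gmat σ)) := by
  classical
  have h1 : (rows (D.Cut σ) : Set (Fin n → ZMod 2)) = Set.range (D.gmat σ).row := by
    unfold rows
    ext v
    rw [Finset.mem_coe, Finset.mem_image]
    constructor
    · rintro ⟨c, -, rfl⟩
      exact ⟨c, (row_eq D σ c).symm⟩
    · rintro ⟨c, rfl⟩
      exact ⟨c, Finset.mem_univ c, row_eq D σ c⟩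
  unfold rk
  rw [h1]
  exact (Matrix.rank_eq_finrank_span_row (D.gmat σ)).symm

/-- **knotoid diagrams**, general form, for the value of the normalized bracket at `An M` -/
theorem evn_knotoid {M : ℕ} (hM : 4 ≤ M) (D : GaussDiagram n) (σ : Fin n → Bool)
    (h : OddMultiples (D.Cut σ) σ M) :
    kap M ^ rk (D.Cut σ) ≤ ‖evθ (-(Real.pi / M)) D.normalizedBracket‖ := by
  classical
  obtain ⟨w, hw1, hw2⟩ := h
  have htw : ∀ v, twist (D.Cut σ) σ v =
      ∑ c' ∈ Finset.univ.filter (fun c' => D.gmat σ c' = v), (if σ c' then (1 : ℤ) else -1) := by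
    intro v
    unfold twist
    refine Finset.sum_congr ?_ fun _ _ => rfl
    ext c
    rw [Finset.mem_filter, Finset.mem_filter, row_eq]
  have hmem : ∀ c, D.gmat σ c ∈ rows (D.Cut σ) := by
    intro c
    unfold rows
    rw [← row_eq D σ c]
    exact Finset.mem_image_of_mem _ (Finset.mem_univ c)
  have hall : ∀ v ∈ rows (D.Cut σ), ∃ c, D.gmat σ c = v := by
    intro v hv
    unfold rows at hv
    obtain ⟨c, -, rfl⟩ := Finset.mem_image.1 hv
    exact ⟨c, (row_eq D σ c).symm⟩
  have h1 := absG thm_UAG (D.gmat_symm σ) σ M hM w (fun c hc hcw => by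
      obtain ⟨j, hj⟩ := hw1 _ (hmem c) hc hcw
      refine ⟨j, ?_⟩
      have h5 := htw (D.gmat σ c)
      rw [hj, mul_comm] at h5
      convert h5.symm) (fun x hx => by
      have h2 : ∀ v ∈ span (ZMod 2) {v | v ∈ rows (D.Cut σ) ∧ v ≠ w ∧
          ∃ k : ℤ, twist (D.Cut σ) σ v = (2 * k + 1) * M}, v ⬝ᵥ x = 0 := by
        intro v hv
        induction hv using Submodule.span_induction with
        | mem u hu =>
          obtain ⟨hu1, hu2, k, hk⟩ := hu
          obtain ⟨c, rfl⟩ := hall u hu1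
          refine hx c hu2 ⟨k, ?_⟩
          have h5 := htw (D.gmat σ c)
          rw [hk] at h5
          convert h5.symm
        | zero => exact zero_dotProduct x
        | add a b _ _ ha hb => rw [add_dotProduct, ha, hb, add_zero]
        | smul r a _ ha => rw [smul_dotProduct, ha, smul_zero]
      funext c
      refine h2 (D.gmat σ c) ?_
      rw [hw2]
      exact subset_span (hmem c)) (kap M) (kap_nonneg M) (by rw [kap_sq M hM, qM_eq])
  rw [← rk_gmat] at h1
  refine h1.trans (le_of_eq ?_)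
  have h2 := norm_f D σ (-(Real.pi / M))
  rw [Aθ_An] at h2
  rw [h2]
  rfl

end Pool.Agent.EQT
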