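import Pool.Agent.EQT.Twin
import Pool.Agent.ThA.PolyK
import Pool.Agent.ThA.SixMoves
import Pool.Agent.ThA.Chain

/-!
# EQT: insertion of twist regions

The absolute value of `f` at `- A ^ 4 = exp (i θ)` does not change when a twist region is inserted whose
sum of signs `k` satisfies `exp (i k θ) = 1`.
-/

set_option autoImplicit false

open Module LaurentPolynomial

namespace Pool.Agent.EQT

open Pool.Agent.ThA Pool.Agent.GaussJones Pool.Agent.SPT

section Sums

variable {ι ι' : Type*} [Fintype ι] [DecidableEq ι] [Fintype ι'] [DecidableEq ι']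

private theorem Ins_split {R : Type*} [CommRing R] (f : ι ↪ ι') (F : Finset ι' → R) :
    ∑ W', F W' = ∑ W : Finset ι, ∑ S ∈ (off f).powerset, F (W.map f ∪ S) := by
  rw [← Finset.sum_product']
  refine Finset.sum_nbij' (fun W' => (Finset.univ.filter (fun c => f c ∈ W'), W' ∩ off f))
    (fun p => p.1.map f ∪ p.2) ?_ ?_ ?_ ?_ ?_
  · intro W' _
    rw [Finset.mem_product]
    exact ⟨Finset.mem_univ _, Finset.mem_powerset.2 Finset.inter_subset_right⟩
  · intro p _
    exact Finset.mem_univ _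
  · intro W' _
    ext a
    rw [Finset.mem_union, Finset.mem_map, Finset.mem_inter]
    constructor
    · rintro (⟨c, hc, rfl⟩ | h)
      · exact (Finset.mem_filter.1 hc).2
      · exact h.1
    · intro h
      by_cases ha : a ∈ off f
      · exact Or.inr ⟨h, ha⟩
      · obtain ⟨c, rfl⟩ := exists_of_notMem_off f a ha
        exact Or.inl ⟨c, Finset.mem_filter.2 ⟨Finset.mem_univ _, h⟩, rfl⟩
  · rintro ⟨W, S⟩ hp
    have hS : S ⊆ off f := Finset.mem_powerset.1 (Finset.mem_product.1 hp).2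
    refine Prod.ext ?_ ?_
    · ext c
      show c ∈ Finset.univ.filter (fun c => f c ∈ W.map f ∪ S) ↔ c ∈ W
      rw [Finset.mem_filter, Finset.mem_union, Finset.mem_map' f]
      constructor
      · rintro ⟨-, h | h⟩
        · exact h
        · exact absurd (hS h) (notMem_off f c)
      · intro h
        exact ⟨Finset.mem_univ _, Or.inl h⟩
    · ext a
      show a ∈ (W.map f ∪ S) ∩ off f ↔ a ∈ S
      rw [Finset.mem_inter, Finset.mem_union]
      constructor
      · rintro ⟨h | h, ha⟩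
        · obtain ⟨c, -, rfl⟩ := Finset.mem_map.1 h
          exact absurd ha (notMem_off f c)
        · exact h
      · intro h
        exact ⟨Or.inr h, hS h⟩
  · intro W' _
    congr 1
    ext a
    rw [Finset.mem_union, Finset.mem_map, Finset.mem_inter]
    constructor
    · intro h
      by_cases ha : a ∈ off f
      · exact Or.inr ⟨h, ha⟩
      · obtain ⟨c, rfl⟩ := exists_of_notMem_off f a ha
        exact Or.inl ⟨c, Finset.mem_filter.2 ⟨Finset.mem_univ _, h⟩, rfl⟩
    · rintro (⟨c, hc, rfl⟩ | h)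
      · exact (Finset.mem_filter.1 hc).2
      · exact h.1

variable (M : Matrix ι ι (ZMod 2)) (M' : Matrix ι' ι' (ZMod 2)) (f : ι ↪ ι')
  (hM' : ∀ a b, M' a b = M' b a) (hf : ∀ i j, M' (f i) (f j) = M i j)
  (hrow : ∀ a ∈ off f, ∀ b ∈ off f, ∀ k, M' a k = M' b k) (heven : Even (off f).card)

include hM' hf hrow heven in
/-- the state sums are equal -/
private theorem Ins_sum (d : ℂ) (z : ι' → ℂ) (hz : ∏ a ∈ off f, z a = 1) :
    ∑ W : Finset ι', d ^ (ee M' W) * ∏ a ∈ W, (z a - 1) =
      ∑ W : Finset ι, d ^ (ee M W) * ∏ c ∈ W, (z (f c) - 1) := by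
  have hcl : ∀ i j k, kls f i = kls f j → M' i k = M' j k := by
    intro i j k h
    by_cases hi : i ∈ off f
    · have hj : j ∈ off f := by
        rw [← kls_off, ← h, kls_off]
        exact hi
      exact hrow i hi j hj k
    · obtain ⟨c, rfl⟩ := exists_of_notMem_off f i hi
      rw [kls_apply] at h
      rw [(kls_some f j c).1 h.symm]
  rw [Ins_split f]
  refine Finset.sum_congr rfl fun W _ => ?_
  have hdis : ∀ S ∈ (off f).powerset, Disjoint (W.map f) S := by
    intro S hS
    rw [Finset.disjoint_left]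
    intro a ha haS
    obtain ⟨c, -, rfl⟩ := Finset.mem_map.1 ha
    exact notMem_off f c (Finset.mem_powerset.1 hS haS)
  have himg : ∀ S ∈ (off f).powerset, S.Nonempty →
      (W.map f ∪ S).image (kls f) = insert none (W.map Function.Embedding.some) := by
    intro S hS hne
    ext c
    rw [Finset.mem_image, Finset.mem_insert, Finset.mem_map]
    constructor
    · rintro ⟨a, ha, rfl⟩
      rcases Finset.mem_union.1 ha with h | h
      · obtain ⟨c, hc, rfl⟩ := Finset.mem_map.1 h
        exact Or.inr ⟨c, hc, (kls_apply f c).symm⟩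
      · exact Or.inl ((kls_off f a).2 (Finset.mem_powerset.1 hS h))
    · rintro (rfl | ⟨c, hc, rfl⟩)
      · obtain ⟨a, ha⟩ := hne
        exact ⟨a, Finset.mem_union_right _ ha, (kls_off f a).2 (Finset.mem_powerset.1 hS ha)⟩
      · exact ⟨f c, Finset.mem_union_left _ (Finset.mem_map_of_mem f hc), kls_apply f c⟩
  have hterm : ∀ S ∈ (off f).powerset,
      d ^ (ee M' (W.map f ∪ S)) * ∏ a ∈ W.map f ∪ S, (z a - 1) =
        (if S = ∅ then d ^ (ee M W) - d ^ (YY M' (kls f) (insert none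
          (W.map Function.Embedding.some))) else 0) * (∏ c ∈ W, (z (f c) - 1)) +
        d ^ (YY M' (kls f) (insert none (W.map Function.Embedding.some))) *
          (∏ c ∈ W, (z (f c) - 1)) * ∏ a ∈ S, (z a - 1) := by
    intro S hS
    rw [Finset.prod_union (hdis S hS), Finset.prod_map]
    by_cases h0 : S = ∅
    · subst h0
      rw [if_pos rfl, Finset.union_empty, Finset.prod_empty, ee_off M M' f hM' hf hrow heven]
      ring
    · rw [if_neg h0, ee_eq_YY M' hM' (kls f) hcl, himg S hS (Finset.nonempty_of_ne_empty h0)]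
      ring
  rw [Finset.sum_congr rfl hterm, Finset.sum_add_distrib, ← Finset.sum_mul, ← Finset.mul_sum]
  have h1 : ∑ S ∈ (off f).powerset, ∏ a ∈ S, (z a - 1) = 1 := by
    rw [← Finset.prod_one_add]
    exact (Finset.prod_congr rfl fun a _ => by ring).trans hz
  have h2 : ∑ S ∈ (off f).powerset, (if S = ∅ then d ^ (ee M W) - d ^ (YY M' (kls f) (insert none
          (W.map Function.Embedding.some))) else 0) = d ^ (ee M W) - d ^ (YY M' (kls f)
            (insert none (W.map Function.Embedding.some))) := by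
    rw [Finset.sum_ite_eq_of_mem']
    exact Finset.mem_powerset.2 (Finset.empty_subset _)
  rw [h1, h2]
  ring

end Sums

/-! ### the evaluation of a code -/

section

variable {n n' : ℕ}

/-- the loop value -/
private noncomputable def Ins_d (θ : ℝ) : ℂ := -(Aθ θ) ^ 2 - ((Aθ θ)⁻¹) ^ 2

/-- the weights -/
private noncomputable def Ins_x (θ : ℝ) (b : Bool) : ℂ :=
  if b then -(Aθ θ) ^ 4 else -((Aθ θ)⁻¹) ^ 4

private theorem Ins_ratio (θ : ℝ) (hd : Ins_d θ ≠ 0) (b : Bool) :
    (if b then Aθ θ else (Aθ θ)⁻¹) =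
      (if !b then Aθ θ else (Aθ θ)⁻¹) * ((Ins_x θ b - 1) * (Ins_d θ)⁻¹) := by
  have hA : Aθ θ ≠ 0 := Complex.exp_ne_zero _
  have h3 : (Aθ θ)⁻¹ * (Aθ θ) = 1 := inv_mul_cancel₀ hA
  cases b with
  | true =>
    show Aθ θ = (Aθ θ)⁻¹ * ((-(Aθ θ) ^ 4 - 1) * (Ins_d θ)⁻¹)
    have h2 : Aθ θ * Ins_d θ = (Aθ θ)⁻¹ * (-(Aθ θ) ^ 4 - 1) := by
      unfold Ins_d
      linear_combination ((Aθ θ) ^ 3 - (Aθ θ)⁻¹) * h3
    rw [← mul_assoc, ← h2, mul_assoc, mul_inv_cancel₀ hd, mul_one]
  | false =>
    show (Aθ θ)⁻¹ = Aθ θ * ((-((Aθ θ)⁻¹) ^ 4 - 1) * (Ins_d θ)⁻¹)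
    have h2 : (Aθ θ)⁻¹ * Ins_d θ = Aθ θ * (-((Aθ θ)⁻¹) ^ 4 - 1) := by
      unfold Ins_d
      linear_combination (((Aθ θ)⁻¹) ^ 3 - (Aθ θ)) * h3
    rw [← mul_assoc, ← h2, mul_assoc, mul_inv_cancel₀ hd, mul_one]

private theorem Ins_norm (θ : ℝ) : ‖Aθ θ‖ = 1 := Complex.norm_exp_ofReal_mul_I _

/-- the absolute value of `f` -/
private theorem Ins_ev (g : Code n) (e σ : Fin n → Bool) (θ : ℝ) (hd : Ins_d θ ≠ 0) :
    ‖evθ θ (fPoly g e)‖ = ‖∑ W : Finset (Fin n), Ins_d θ ^ (ee (MS g σ) W) *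
      ∏ i ∈ W, (Ins_x θ (σ i == e i) - 1)‖ := by
  set u : ℂ := ∏ i, if !(σ i == e i) then Aθ θ else (Aθ θ)⁻¹ with hu
  have hun : ‖u‖ = 1 := by
    rw [hu, norm_prod]
    refine Finset.prod_eq_one fun c _ => ?_
    split_ifs
    · exact Ins_norm θ
    · rw [norm_inv, Ins_norm, inv_one]
  have h1 : ‖evθ θ (∏ i, if e i = true then -T (-3) else -T 3)‖ = 1 := by
    rw [map_prod, norm_prod]
    refine Finset.prod_eq_one fun c _ => ?_
    split_ifs
    · rw [map_neg, norm_neg, evθ_T, norm_zpow, Ins_norm, one_zpow]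
    · rw [map_neg, norm_neg, evθ_T, norm_zpow, Ins_norm, one_zpow]
  unfold fPoly
  rw [map_mul, norm_mul, h1, one_mul]
  have h2 : evθ θ (GaussJones.bracket g e) = u * ∑ W : Finset (Fin n),
      Ins_d θ ^ (ee (MS g σ) W) * ∏ i ∈ W, (Ins_x θ (σ i == e i) - 1) := by
    unfold GaussJones.bracket
    rw [map_sum, ← sum_states σ, Finset.mul_sum]
    refine Finset.sum_congr rfl fun s _ => ?_
    rw [map_mul, map_prod, map_pow, map_neg, map_add, evθ_T, evθ_T]
    have h3 : loops g s - 1 = kk (MS g σ) (Finset.univ.filter fun i => s i = σ i) :=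
      kap_MS g σ s
    have h4 : ∀ i, evθ θ (if s i = e i then T 1 else T (-1)) =
        (if !(σ i == e i) then Aθ θ else (Aθ θ)⁻¹) *
          if i ∈ Finset.univ.filter (fun i => s i = σ i) then
            (Ins_x θ (σ i == e i) - 1) * (Ins_d θ)⁻¹ else 1 := by
      intro i
      have h5 : evθ θ (if s i = e i then T 1 else T (-1)) =
          if (s i == e i) then Aθ θ else (Aθ θ)⁻¹ := by
        by_cases h : s i = e i
        · rw [if_pos h, evθ_T, zpow_one, if_pos (by rw [h]; simp)]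
        · rw [if_neg h, evθ_T, zpow_neg, zpow_one, if_neg (by simpa using h)]
      rw [h5]
      have hmem : i ∈ Finset.univ.filter (fun i => s i = σ i) ↔ s i = σ i := by
        rw [Finset.mem_filter]
        exact and_iff_right (Finset.mem_univ _)
      by_cases h : s i = σ i
      · rw [if_pos (hmem.2 h), h]
        exact Ins_ratio θ hd _
      · rw [if_neg (fun h' => h (hmem.1 h')), mul_one]
        have h2 : s i = !σ i := by
          revert h
          cases s i <;> cases σ i <;> simp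
        rw [h2]
        cases σ i <;> cases e i <;> rfl
    rw [Finset.prod_congr rfl fun i _ => h4 i, Finset.prod_mul_distrib, ← hu, mul_assoc]
    congr 1
    rw [Finset.prod_ite_mem, Finset.univ_inter, Finset.prod_mul_distrib, Finset.prod_const, h3]
    have h6 : -(Aθ θ ^ (2 : ℤ) + Aθ θ ^ (-2 : ℤ)) = Ins_d θ := by
      unfold Ins_d
      rw [zpow_neg, zpow_ofNat, inv_pow]
      ring
    rw [h6]
    unfold ee
    rw [zpow_sub₀ hd, zpow_natCast, zpow_natCast, inv_pow]
    ring
  rw [h2, norm_mul, hun, one_mul]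

/-- **The absolute value of `f` under the insertion of a twist region.** -/
theorem ev_insertion {g : Code n} {e : Fin n → Bool} {g' : Code n'} {e' : Fin n' → Bool}
    (I : Insertion g e g' e') (heven : Even I.total) (θ : ℝ)
    (hd : -(Aθ θ) ^ 2 - ((Aθ θ)⁻¹) ^ 2 ≠ 0) (hz : (-(Aθ θ) ^ 4) ^ I.total = 1) :
    ‖evθ θ (fPoly g' e')‖ = ‖evθ θ (fPoly g e)‖ := by
  rw [Ins_ev g e (fun _ => true) θ hd, Ins_ev g' e' (I.lift fun _ => true) θ hd,
    Ins_sum (MS g fun _ => true) (MS g' (I.lift fun _ => true)) I.old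
      (symm_diagonal _ _ (LL_symm g')) (I.MS_old _) (I.MS_row _) (I.even_total heven)]
  · congr 1
    refine Finset.sum_congr rfl fun W _ => ?_
    congr 1
    refine Finset.prod_congr rfl fun c _ => ?_
    rw [I.lift_old, I.sign]
  · have hA : Aθ θ ≠ 0 := Complex.exp_ne_zero _
    have hy : -(Aθ θ) ^ 4 ≠ 0 := neg_ne_zero.2 (pow_ne_zero _ hA)
    have h1 : ∀ a ∈ off I.old, Ins_x θ (I.lift (fun _ => true) a == e' a) =
        (-(Aθ θ) ^ 4) ^ (if I.par = true then -sgn e' a else sgn e' a) := by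
      intro a ha
      rw [I.lift_off _ a ha]
      have h2 : -((Aθ θ)⁻¹) ^ 4 = (-(Aθ θ) ^ 4)⁻¹ := by rw [inv_pow, inv_neg]
      have h3 : (-(Aθ θ) ^ 4) ^ (-1 : ℤ) = (-(Aθ θ) ^ 4)⁻¹ := zpow_neg_one _
      unfold sgn Ins_x
      cases I.par <;> cases e' a <;> simp [h2, h3]
    rw [Finset.prod_congr rfl h1]
    have h2 : ∀ (S : Finset (Fin n')) (k : Fin n' → ℤ),
        ∏ a ∈ S, (-(Aθ θ) ^ 4) ^ (k a) = (-(Aθ θ) ^ 4) ^ (∑ a ∈ S, k a) := by
      intro S k
      induction S using Finset.induction_on with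
      | empty => simp
      | insert a S ha ih => rw [Finset.prod_insert ha, Finset.sum_insert ha, zpow_add₀ hy, ih]
    rw [h2]
    have h3 : (∑ a ∈ off I.old, (if I.par = true then -sgn e' a else sgn e' a)) =
        if I.par = true then -I.total else I.total := by
      rw [I.total_eq]
      cases I.par
      · simp
      · simp
    rw [h3]
    split_ifs
    · rw [zpow_neg, hz, inv_one]
    · exact hz

end

end Pool.Agent.EQT
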