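import Pool.Agent.EQT.ExE

/-!
# Kept outside of Results (was MP_42db45_gt.EqualTwists): knot diagrams all of whose twist numbers, but at most one, are divisible by `M ≥ 4`

`D` is a diagram of a classical or virtual knot (Gauss code and signs).  Two crossings are in the same
twist class if they are interlaced with the same other crossings (for instance: the crossings of a
twist region); the twist number is the sum of the signs.  Let all the twist numbers but at most one be
divisible by `M ≥ 4`.  Twist classes whose twist number is divisible by `2M`, and crossings which are
interlaced with no other crossing, are removed, as long as there are any (classes and twist numbers are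
always those among the remaining crossings).  Let `t` be the number of the twist classes which remain.
If `t ≥ 2` then `f` is not `1`, and the sum of the absolute values of the coefficients of `f` is at
least `0.9 κ ^ (t / 3)`, where `κ = kap M` is at least `2 ^ (1 / 4)`, and at least `M / 3` if `M ≥ 5`.
The same holds for every diagram `D'` which is obtained from `D` by isotopies and by insertions and
deletions of twist regions on two strands whose sum of signs is divisible by `2M`.
-/

set_option autoImplicit false

namespace Pool.Agent.EQT.Kept42

open Pool.Agent.GaussJones Pool.Agent.EQT Pool.Agent.SPT Pool.Agent.ThA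

/-- Let `M ≥ 4`, let all the twist numbers of `D`, but at most that of the twist class of `z`, be
divisible by `M`, and let `D'` be obtained from `D` by isotopies and `t_2M`-moves.

* The removals end with some set `Y` of crossings from which nothing can be removed.
* For every such set `Y` with `t ≥ 2` twist classes, the sum of the absolute values of the coefficients
  of the polynomial `f` of `D'` is at least `0.9 (kap M) ^ (t / 3)`, and `f` is not `1`. -/
theorem result (M : ℕ) (hM : 4 ≤ M) (D D' : Diagram) (hD' : TMoves (2 * M) D D') (z : Fin D.n)
    (hz : DivBut (Interlaced D.code) D.sign M Finset.univ z) :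
    (∃ Y, Remains (Interlaced D.code) D.sign M Y ∧ Reduced (Interlaced D.code) D.sign M Y) ∧
    (∀ Y, Remains (Interlaced D.code) D.sign M Y → Reduced (Interlaced D.code) D.sign M Y →
      2 ≤ classesIn (Interlaced D.code) Y →
      9 / 10 * kap M ^ ((classesIn (Interlaced D.code) Y : ℝ) / 3) ≤ (coeffSum D'.f : ℝ) ∧
        D'.f ≠ 1) ∧
    2 ≤ kap M ^ 4 ∧ (5 ≤ M → (M : ℝ) / 3 ≤ kap M) := by
  obtain ⟨h1, h2⟩ := knot_but hM D D' hD' z hz
  exact ⟨h1, h2, (kap_four hM).1, fun h3 => kap_five h3⟩

end Pool.Agent.EQT.Kept42
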