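import Pool.Agent.EQT.St

/-!
# EQT [MAI]: the theorem (helper32)
-/

set_option autoImplicit false
set_option linter.unusedSectionVars false
set_option linter.unusedVariables false

namespace Pool.Agent.EQT

open Submodule Module

attribute [local instance] Classical.propDecidable Fintype.ofFinite

private theorem MAI_zero (δ κ : ℝ) (k : ℕ) : TA δ κ 0 k := by
  intro V _ _ _ m hm hn P hk h0 hP
  have hsub : Subsingleton V := (finrank_zero_iff (R := F2)).1 hn
  have h1 : ∀ U : Submodule F2 V, U = ⊤ := by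
    intro U
    refine eq_top_iff.2 fun v _ => ?_
    rw [Subsingleton.elim v 0]
    exact U.zero_mem
  have h2 : W m (chi P) = m ⊤ := by
    unfold W
    have e1 : (Finset.univ : Finset (Submodule F2 V)) = {⊤} := by
      ext U
      simp only [Finset.mem_univ, Finset.mem_singleton, true_iff]
      exact h1 U
    rw [e1, Finset.sum_singleton]
    have e2 : ∀ v ∈ Finset.univ.filter (fun v : V => v ∈ (⊤ : Submodule F2 V)), chi P v = 1 := by
      intro v _
      unfold chi
      rw [if_neg]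
      rw [Subsingleton.elim v 0]
      exact h0
    rw [Finset.prod_congr rfl e2, Finset.prod_const_one, mul_one]
  have h3 := hm.top
  rw [hn, pow_zero, one_mul] at h3
  rw [h2, h3, pow_zero]

private theorem MAI_step (δ κ : ℝ) (hpar : Par δ κ) (hCOA : St_COA) (hGCO : St_GCO)
    (hSTR : St_STR) (hCNE : St_CNE) (hFIN : St_FIN) (n k : ℕ)
    (hA : ∀ n' ≤ n, ∀ k', TA δ κ n' k') (hB : ∀ n' ≤ n, ∀ k', TB δ n' k')
    (hA1 : TA δ κ (n + 1) k) (hB1 : TB δ (n + 1) k) : TA δ κ (n + 1) (k + 1) := by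
  intro V _ _ _ m hm hn P hk h0 hP
  by_cases hc : ∃ e ∈ P, span F2 (P \ {e}) ≠ ⊤
  · obtain ⟨e, he, he'⟩ := hc
    exact hCOA δ κ hpar V m hm n hn (hA n le_rfl) (hB n le_rfl) P e h0 hP he he'
  push Not at hc
  by_cases hg : ∃ e ∈ P, span F2 {w | w ∈ P ∧ w + e ∉ P} = ⊤
  · obtain ⟨e, he, he'⟩ := hg
    have h1 := hGCO δ κ hpar V m hm n hn (hA n le_rfl) P e h0 he he'
    have h2 : (P \ {e}).ncard ≤ k := by
      rw [Set.ncard_sdiff_singleton_of_mem he]
      omega
    exact (hA1 V m hm hn (P \ {e}) h2 (fun h => h0 h.1) (hc e he)).trans h1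
  push Not at hg
  have hne : P.Nonempty := by
    by_contra hemp
    rw [Set.not_nonempty_iff_eq_empty] at hemp
    rw [hemp, span_empty] at hP
    have h1 : finrank F2 (⊤ : Submodule F2 V) = n + 1 := by
      rw [finrank_top]
      exact hn
    rw [← hP, finrank_bot] at h1
    omega
  obtain ⟨F, G, hFG, hF2, hFP, hdich, hspan⟩ := hSTR V P h0 hne hP hg
  by_cases hC : ∃ c ∈ G, c ≠ 0 ∧ ∀ f ∈ F, f ≠ 0 → c + f ∈ P
  · exact hCNE δ κ hpar V m hm n k hn (hB n le_rfl) hA1 F G P h0 hk hP hFG hF2 hFP hdich hspan hC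
  have hC' : ∀ c ∈ G, c ≠ 0 → ¬ ∀ f ∈ F, f ≠ 0 → c + f ∈ P :=
    fun c hcG hc0 h => hC ⟨c, hcG, hc0, h⟩
  have hZ : {c | c ∈ G ∧ c ≠ 0 ∧ ¬ ((∀ f ∈ F, f ≠ 0 → c + f ∈ P) ↔ c ∈ P)} =
      {v : V | v ∈ P ∧ v ∈ G} := by
    ext c
    simp only [Set.mem_ofPred_eq]
    constructor
    · rintro ⟨h1, h2, h3⟩
      refine ⟨?_, h1⟩
      by_contra h4
      exact h3 ⟨fun h => absurd h (hC' c h1 h2), fun h => absurd h h4⟩
    · rintro ⟨h1, h2⟩
      have h3 : c ≠ 0 := fun h => h0 (h ▸ h1)
      exact ⟨h2, h3, fun h => hC' c h2 h3 (h.2 h1)⟩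
  rw [hZ] at hspan
  have hPe : P = {v | v ∈ F ∧ v ≠ 0} ∪ {v : V | v ∈ P ∧ v ∈ G} := by
    ext v
    constructor
    · intro hv
      have h1 : v ∈ F ⊔ G := by
        rw [hFG.sup_eq_top]
        exact mem_top
      obtain ⟨f, hf, c, hcG, rfl⟩ := mem_sup.1 h1
      by_cases hc0 : c = 0
      · left
        subst hc0
        rw [add_zero] at hv ⊢
        exact ⟨hf, fun h => h0 (h ▸ hv)⟩
      · right
        by_cases hf0 : f = 0
        · subst hf0
          rw [zero_add] at hv ⊢
          exact ⟨hv, hcG⟩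
        · rcases hdich c hcG with h2 | h2
          · exact absurd h2 (hC' c hcG hc0)
          · rw [add_comm] at hv
            exact absurd hv (h2 f hf hf0)
    · rintro (h | h)
      · exact hFP v h.1 h.2
      · exact h.1
  exact hFIN δ κ hpar V m hm n k hn hA hB hB1 F G {v : V | v ∈ P ∧ v ∈ G} P hFG hF2
    (fun h => h0 h.1) (fun v hv => hv.2) hspan hPe hk

theorem thm_MAI (hSTB : St_STB) (hCOA : St_COA) (hGCO : St_GCO) (hSTR : St_STR) (hCNE : St_CNE)
    (hFIN : St_FIN) : St_MAI := by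
  intro δ κ hpar
  have key : ∀ n : ℕ, ∀ k : ℕ, TA δ κ n k ∧ TB δ n k := by
    intro n
    induction n using Nat.strong_induction_on with
    | _ n ih =>
      have hlt : ∀ n' < n, ∀ k', TB δ n' k' := fun n' hn' k' => (ih n' hn' k').2
      cases n with
      | zero =>
        intro k
        have h1 := MAI_zero δ κ k
        exact ⟨h1, hSTB δ κ hpar 0 k hlt h1⟩
      | succ n =>
        intro k
        induction k with
        | zero =>
          have h1 : TA δ κ (n + 1) 0 := by
            intro V _ _ _ m hm hn P hk h0 hP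
            exfalso
            have h2 : P = ∅ := (Set.ncard_eq_zero (Set.toFinite P)).1 (Nat.le_zero.1 hk)
            rw [h2, span_empty] at hP
            have h3 : finrank F2 (⊤ : Submodule F2 V) = n + 1 := by
              rw [finrank_top]
              exact hn
            rw [← hP, finrank_bot] at h3
            omega
          exact ⟨h1, hSTB δ κ hpar (n + 1) 0 hlt h1⟩
        | succ k ihk =>
          have h1 := MAI_step δ κ hpar hCOA hGCO hSTR hCNE hFIN n k
            (fun n' hn' k' => (ih n' (Nat.lt_succ_of_le hn') k').1)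
            (fun n' hn' k' => (ih n' (Nat.lt_succ_of_le hn') k').2) ihk.1 ihk.2
          exact ⟨h1, hSTB δ κ hpar (n + 1) (k + 1) hlt h1⟩
  exact fun n k => key n k

end Pool.Agent.EQT
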