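import Pool.Agent.EQT.Ins
import Pool.Agent.EQT.MovDefs

/-!
# EQT: moves on two strands

The absolute value of `f` at `- A ^ 4 = exp (i π / M)` is not changed by insertions of twist regions
whose sum of signs is divisible by `2 M`.
-/

set_option autoImplicit false

open Module Submodule LaurentPolynomial

namespace Pool.Agent.EQT

open Pool.Agent.ThA Pool.Agent.GaussJones Pool.Agent.SPT Pool.Agent.Helper16.Knotoid

/-- the angle -/
noncomputable abbrev ang (M : ℕ) : ℝ := Real.pi / M + 2 * Real.pi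

private theorem Mov_A4 (M : ℕ) :
    -(Aθ (ang M)) ^ 4 = Complex.exp (((Real.pi / M : ℝ) : ℂ) * Complex.I) := by
  unfold Aθ ang
  rw [← Complex.exp_nat_mul]
  have h3 : ((4 : ℕ) : ℂ) * ((((Real.pi + (Real.pi / M + 2 * Real.pi)) / 4 : ℝ) : ℂ) * Complex.I) =
      ((Real.pi / M : ℝ) : ℂ) * Complex.I + Real.pi * Complex.I + 2 * Real.pi * Complex.I := by
    push_cast
    ring
  rw [h3, Complex.exp_add, Complex.exp_two_pi_mul_I, Complex.exp_add, Complex.exp_pi_mul_I]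
  ring

private theorem Mov_one (M : ℕ) (hM : 4 ≤ M) (t : ℤ) (ht : ((2 * M : ℕ) : ℤ) ∣ t) :
    (-(Aθ (ang M)) ^ 4) ^ t = 1 := by
  obtain ⟨k, rfl⟩ := ht
  rw [Mov_A4, ← Complex.exp_int_mul, Complex.exp_eq_one_iff]
  refine ⟨k, ?_⟩
  have h2 : (M : ℂ) ≠ 0 := by
    have : (M : ℂ) ≠ ((0 : ℕ) : ℂ) := by
      rw [Ne, Nat.cast_inj]
      omega
    simpa using this
  push_cast
  field_simp

private theorem Mov_d (M : ℕ) (hM : 4 ≤ M) :
    -(Aθ (ang M)) ^ 2 - ((Aθ (ang M))⁻¹) ^ 2 ≠ 0 := by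
  intro h
  have hA : Aθ (ang M) ≠ 0 := Complex.exp_ne_zero _
  have h1 : -(Aθ (ang M)) ^ 4 = 1 := by
    have h2 : (Aθ (ang M)) ^ 2 * (-(Aθ (ang M)) ^ 2 - ((Aθ (ang M))⁻¹) ^ 2) = 0 := by
      rw [h, mul_zero]
    have h3 : (Aθ (ang M))⁻¹ * (Aθ (ang M)) = 1 := inv_mul_cancel₀ hA
    have h4 : (Aθ (ang M)) ^ 2 * ((Aθ (ang M))⁻¹) ^ 2 = 1 := by
      rw [← mul_pow, mul_comm, h3, one_pow]
    linear_combination h2 + h4
  rw [Mov_A4] at h1
  have hM' : (4 : ℝ) ≤ M := by exact_mod_cast hM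
  have h5 : (Complex.exp (((Real.pi / M : ℝ) : ℂ) * Complex.I)).im = 0 := by rw [h1]; rfl
  rw [Complex.exp_ofReal_mul_I_im] at h5
  have h6 : 0 < Real.sin (Real.pi / M) := by
    refine Real.sin_pos_of_pos_of_lt_pi (by positivity) ?_
    rw [div_lt_iff₀ (by positivity)]
    nlinarith [Real.pi_pos]
  linarith

/-- **insertions** -/
theorem ev_ins {n n' M : ℕ} (hM : 4 ≤ M) {g : Code n} {e : Fin n → Bool} {g' : Code n'}
    {e' : Fin n' → Bool} (I : Insertion g e g' e') (h : ((2 * M : ℕ) : ℤ) ∣ I.total) :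
    ‖evθ (ang M) (fPoly g' e')‖ = ‖evθ (ang M) (fPoly g e)‖ := by
  refine ev_insertion I ?_ (ang M) (Mov_d M hM) (Mov_one M hM _ h)
  obtain ⟨k, hk⟩ := h
  rw [hk, even_iff_two_dvd]
  push_cast
  exact ⟨M * k, by ring⟩

/-- **moves of knot diagrams** -/
theorem TMoves.ev {M : ℕ} (hM : 4 ≤ M) {D D' : Diagram} (h : TMoves (2 * M) D D') :
    ‖evθ (ang M) D'.f‖ = ‖evθ (ang M) D.f‖ := by
  induction h with
  | refl => rfl
  | same D' D'' _ hf ih => rw [hf, ih]
  | insert D' D'' I _ h2 ih => exact (ev_ins hM I h2).trans ih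
  | delete D' D'' I _ h2 ih => exact (ev_ins hM I h2).symm.trans ih

/-- **moves of knotoid diagrams** -/
theorem KTMoves.ev {M : ℕ} (hM : 4 ≤ M) {D D' : KDiagram} (h : KTMoves (2 * M) D D') :
    ‖evθ (ang M) D'.f‖ = ‖evθ (ang M) D.f‖ := by
  have hf : ∀ D : KDiagram, D.f = fPoly D.D.pos D.D.sign := fun D => normalizedBracket_eq D.D
  induction h with
  | refl => rfl
  | same D' D'' _ hf ih => rw [hf, ih]
  | insert D' D'' I _ h2 ih =>
    rw [← ih, hf D', hf D'']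
    exact ev_ins hM I h2
  | delete D' D'' I _ h2 ih =>
    rw [← ih, hf D', hf D'']
    exact (ev_ins hM I h2).symm

/-! ### the lower bound for the value of `f` -/

variable {n : ℕ}

/-- **knotoid diagrams**: the value of `f` -/
theorem ev_knotoid {M : ℕ} (hM : 4 ≤ M) (D : GaussDiagram n) (σ : Fin n → Bool)
    (h : OddMultiples (D.Cut σ) σ M) :
    kap M ^ rk (D.Cut σ) ≤ ‖evθ (ang M) D.normalizedBracket‖ := by
  classical
  obtain ⟨w, h1, h2⟩ := h
  have hrows : rows (D.Cut σ) = Finset.univ.image fun c => D.gmat σ c := by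
    unfold rows
    exact Finset.image_congr fun c _ => row_eq D σ c
  have hmem : ∀ v, v ∈ rows (D.Cut σ) ↔ ∃ c, D.gmat σ c = v := by
    intro v
    rw [hrows, Finset.mem_image]
    exact ⟨fun ⟨c, _, hc⟩ => ⟨c, hc⟩, fun ⟨c, hc⟩ => ⟨c, Finset.mem_univ c, hc⟩⟩
  have hcoe : (rows (D.Cut σ) : Set (Fin n → ZMod 2)) = Set.range fun c => D.gmat σ c := by
    ext v
    rw [Finset.mem_coe, hmem]
    rfl
  have hev := evm mai thm_AFF thm_PF thm_MOB thm_SYM thm_KER (D.gmat σ) (D.gmat_symm σ) σ M hM w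
    (twist (D.Cut σ) σ) (by
      intro v S hS
      unfold twist signedCount
      refine Finset.sum_congr ?_ fun _ _ => rfl
      ext c
      rw [Finset.mem_filter, row_eq, hS c]
      simp) (fun c hc hcw => h1 _ ((hmem _).2 ⟨c, rfl⟩) hc hcw) (by
      rw [← hcoe, ← h2]
      congr 1
      ext v
      simp only [Set.mem_ofPred_eq, hmem])
  rw [← norm_f D σ] at hev
  unfold rk
  rw [hcoe]
  exact hev

end Pool.Agent.EQT
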