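import Pool.Agent.EQT.Mov

/-!
# EQT: the theorem for classes of knots and knotoids under moves on two strands
-/

set_option autoImplicit false

open Module Submodule LaurentPolynomial

namespace Pool.Agent.EQT

open Pool.Agent.ThA Pool.Agent.SPT Pool.Agent.Helper16.Knotoid

variable {n : ℕ}

/-- **knotoid diagrams**, the value of `f` -/
theorem knotoid_ev {M : ℕ} (hM : 4 ≤ M) (D : GaussDiagram n) (h : AllOdd D.Interlaced D.sign M) :
    kap M ^ twistClasses D.Interlaced ≤ ‖evθ (ang M) D.normalizedBracket‖ ^ 3 ∧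
      ((∃ i j, D.Interlaced i j) → 1 < ‖evθ (ang M) D.normalizedBracket‖) :=
  Twin_final (e := D.sign) (Twin_irrefl D) (Twin_int_symm D) hM
    (ev_knotoid hM D (cutState D.Interlaced D.sign)
      (Twin_odd (Twin_irrefl D) (Twin_int_symm D) M h))
    (third D (cutState D.Interlaced D.sign))

/-- **knot diagrams**, the value of `f` -/
theorem knot_ev {M : ℕ} (hM : 4 ≤ M) (g : GaussJones.Code n) (e : Fin n → Bool)
    (h : AllOdd (GaussJones.Interlaced g) e M) :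
    kap M ^ twistClasses (GaussJones.Interlaced g) ≤ ‖evθ (ang M) (GaussJones.fPoly g e)‖ ^ 3 ∧
      ((∃ i j, GaussJones.Interlaced g i j) → 1 < ‖evθ (ang M) (GaussJones.fPoly g e)‖) := by
  have h5 : GaussJones.Interlaced g = (UNI.cutOpen g e).Interlaced := by
    funext i j
    exact propext (UNI.interlaced_iff g e i j)
  have h6 : GaussJones.fPoly g e = (UNI.cutOpen g e).normalizedBracket :=
    (normalizedBracket_eq (UNI.cutOpen g e)).symm
  rw [h5, h6]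
  rw [h5] at h
  exact knotoid_ev hM (UNI.cutOpen g e) h

private theorem MovFin_end {M : ℕ} {I : Fin n → Fin n → Prop} {f f' : ℤ[T;T⁻¹]}
    (h : ‖evθ (ang M) f'‖ = ‖evθ (ang M) f‖)
    (h1 : kap M ^ twistClasses I ≤ ‖evθ (ang M) f‖ ^ 3 ∧
      ((∃ i j, I i j) → 1 < ‖evθ (ang M) f‖)) (hM : 4 ≤ M) :
    kap M ^ ((twistClasses I : ℝ) / 3) ≤ (coeffSum f' : ℝ) ∧
    ((∃ i j, I i j) → 1 < coeffSum f' ∧ f' ≠ 1) ∧
    2 ≤ kap M ^ 4 ∧ (5 ≤ M → (M : ℝ) / 3 ≤ kap M) := by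
  obtain ⟨h3, h4⟩ := kap_four hM
  have h5 := norm_ev_le (ang M) f'
  rw [h] at h5
  refine ⟨?_, fun hij => ?_, h3, fun h6 => kap_five h6⟩
  · exact (rpow_third (by linarith) (norm_nonneg _) h1.1).trans h5
  · have h7 : (1 : ℝ) < (coeffSum f' : ℝ) := (h1.2 hij).trans_le h5
    have h8 : 1 < coeffSum f' := by exact_mod_cast h7
    refine ⟨h8, fun hf => ?_⟩
    rw [hf, coeffSum_one] at h8
    exact lt_irrefl _ h8

/-- **Knots.** -/
theorem knot_moves {M : ℕ} (hM : 4 ≤ M) (D D' : Diagram)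
    (h : AllOdd (GaussJones.Interlaced D.code) D.sign M) (hm : TMoves (2 * M) D D') :
    kap M ^ ((twistClasses (GaussJones.Interlaced D.code) : ℝ) / 3) ≤ (coeffSum D'.f : ℝ) ∧
    ((∃ i j, GaussJones.Interlaced D.code i j) → 1 < coeffSum D'.f ∧ D'.f ≠ 1) ∧
    2 ≤ kap M ^ 4 ∧ (5 ≤ M → (M : ℝ) / 3 ≤ kap M) :=
  MovFin_end (hm.ev hM) (knot_ev hM D.code D.sign h) hM

/-- **Knotoids.** -/
theorem knotoid_moves {M : ℕ} (hM : 4 ≤ M) (D D' : KDiagram)
    (h : AllOdd D.D.Interlaced D.D.sign M) (hm : KTMoves (2 * M) D D') :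
    kap M ^ ((twistClasses D.D.Interlaced : ℝ) / 3) ≤ (coeffSum D'.f : ℝ) ∧
    ((∃ i j, D.D.Interlaced i j) → 1 < coeffSum D'.f ∧ D'.f ≠ 1) ∧
    2 ≤ kap M ^ 4 ∧ (5 ≤ M → (M : ℝ) / 3 ≤ kap M) :=
  MovFin_end (hm.ev hM) (knotoid_ev hM D.D h) hM

end Pool.Agent.EQT
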