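import Pool.Agent.EQT.St

/-!
# EQT, module QUO: the quotient formula (helper30)
-/

set_option autoImplicit false

namespace Pool.Agent.EQT

open Submodule Module

attribute [local instance] Classical.propDecidable Fintype.ofFinite

/-- sums over the subspaces of the quotient above a given one -/
private theorem QUO_sum {V : Type} [AddCommGroup V] [Module F2 V] [Finite V] {R : Type}
    [CommRing R] (I : Submodule F2 V) (U₀ : Submodule F2 (V ⧸ I)) (f : Submodule F2 V → R) :
    ∑ U with U₀ ≤ U, f (U.comap I.mkQ) = ∑ U with U₀.comap I.mkQ ≤ U, f U := by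
  refine Finset.sum_bij' (fun U _ => U.comap I.mkQ) (fun U _ => U.map I.mkQ) ?_ ?_ ?_ ?_ ?_
  · intro U hU
    rw [Finset.mem_filter] at hU ⊢
    exact ⟨Finset.mem_univ _, Submodule.comap_mono hU.2⟩
  · intro U hU
    rw [Finset.mem_filter] at hU ⊢
    refine ⟨Finset.mem_univ _, ?_⟩
    have h1 := Submodule.map_mono (f := I.mkQ) hU.2
    rw [Submodule.map_comap_eq_of_surjective (Submodule.mkQ_surjective I)] at h1
    exact h1
  · intro U _
    exact Submodule.map_comap_eq_of_surjective (Submodule.mkQ_surjective I) U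
  · intro U hU
    rw [Finset.mem_filter] at hU
    have h1 : I ≤ U := (Submodule.le_comap_mkQ I U₀).trans hU.2
    show (U.map I.mkQ).comap I.mkQ = U
    rw [Submodule.comap_map_mkQ, sup_eq_right.2 h1]
  · intro U _
    rfl

/-- the products over the classes -/
private theorem QUO_prod {V : Type} [AddCommGroup V] [Module F2 V] [Finite V] {R : Type}
    [CommRing R] (I : Submodule F2 V) (U : Submodule F2 (V ⧸ I)) (x : V → R) :
    ∏ w ∈ @Finset.univ (V ⧸ I) (Fintype.ofFinite (V ⧸ I)) with w ∈ U, push I x w =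
      ∏ v with v ∈ U.comap I.mkQ ∧ v ∉ I, x v := by
  have h1 : ∏ w ∈ @Finset.univ (V ⧸ I) (Fintype.ofFinite (V ⧸ I)) with w ∈ U, push I x w =
      ∏ w ∈ @Finset.univ (V ⧸ I) (Fintype.ofFinite (V ⧸ I)) with w ∈ U ∧ w ≠ 0,
        ∏ v with I.mkQ v = w, x v := by
    rw [← Finset.filter_filter, Finset.prod_filter (fun w => w ≠ 0)]
    refine Finset.prod_congr rfl fun w _ => ?_
    unfold push
    by_cases hw : w = 0
    · rw [if_pos hw, if_neg (not_not.2 hw)]
    · rw [if_neg hw, if_pos hw]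
  rw [h1]
  have h2 : ∀ v ∈ Finset.univ.filter (fun v : V => v ∈ U.comap I.mkQ ∧ v ∉ I),
      I.mkQ v ∈ (@Finset.univ (V ⧸ I) (Fintype.ofFinite (V ⧸ I))).filter
        (fun w : V ⧸ I => w ∈ U ∧ w ≠ 0) := by
    intro v hv
    rw [Finset.mem_filter] at hv ⊢
    refine ⟨@Finset.mem_univ (V ⧸ I) (Fintype.ofFinite (V ⧸ I)) _, hv.2.1, fun h0 => hv.2.2 ?_⟩
    rw [Submodule.mkQ_apply, Submodule.Quotient.mk_eq_zero] at h0
    exact h0
  rw [← Finset.prod_fiberwise_of_maps_to h2]
  refine Finset.prod_congr rfl fun w hw => ?_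
  rw [Finset.mem_filter] at hw
  rw [Finset.filter_filter]
  refine Finset.prod_congr (Finset.filter_congr fun v _ => ?_) fun _ _ => rfl
  constructor
  · rintro rfl
    refine ⟨⟨hw.2.1, fun h0 => hw.2.2 ?_⟩, rfl⟩
    rw [Submodule.mkQ_apply, Submodule.Quotient.mk_eq_zero]
    exact h0
  · exact fun h => h.2

theorem thm_QUO : St_QUO := by
  intro V _ _ _ R _ δ m I
  refine ⟨fun x => ?_, fun U => ?_⟩
  · unfold W quo
    have h1 : ∀ U : Submodule F2 (V ⧸ I),
        (-δ) ^ finrank F2 I * m (U.comap I.mkQ) *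
          ∏ w ∈ @Finset.univ (V ⧸ I) (Fintype.ofFinite (V ⧸ I)) with w ∈ U, push I x w =
        (fun U' : Submodule F2 V => (-δ) ^ finrank F2 I *
          (m U' * ∏ v with v ∈ U' ∧ v ∉ I, x v)) (U.comap I.mkQ) := by
      intro U
      rw [QUO_prod, mul_assoc]
    refine (Finset.sum_congr rfl fun U _ => h1 U).trans ?_
    rw [Finset.mul_sum]
    have h2 := QUO_sum I (⊥ : Submodule F2 (V ⧸ I)) (fun U' : Submodule F2 V =>
      (-δ) ^ finrank F2 I * (m U' * ∏ v with v ∈ U' ∧ v ∉ I, x v))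
    have h3 : (⊥ : Submodule F2 (V ⧸ I)).comap I.mkQ = I := by
      rw [← LinearMap.ker, Submodule.ker_mkQ]
    rw [h3] at h2
    rw [← h2]
    refine Finset.sum_congr ?_ fun _ _ => rfl
    rw [Finset.filter_true_of_mem fun U _ => bot_le]
  · unfold cc quo
    rw [Finset.mul_sum]
    exact QUO_sum I U (fun U' => (-δ) ^ finrank F2 I * m U')

end Pool.Agent.EQT
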