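import Pool.Agent.EQT.Defs

/-!
# EQT: the statements of the abstract part

Every `def St_X : Prop` is a module `EQT/X.lean` with `theorem thm_X : St_X` or
`theorem thm_X (h : St_Y) : St_X` (cite the other statements as hypotheses, do not import their
modules). All files open with

`attribute [local instance] Classical.propDecidable Fintype.ofFinite`

(as `Defs.lean` does), so sums over `V`, `Submodule F2 V` need no further instances.
Notation in the proofs: `q = δ ^ 2`, `n = finrank F2 V`, `⟨g⟩ = ln g`, `c = cc m`, `W x = W m x`,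
`V / g` = the quotient by `ln g` with `quo δ m (ln g)`.
-/

set_option autoImplicit false
set_option linter.unusedSectionVars false
set_option linter.unusedVariables false

namespace Pool.Agent.EQT

open Submodule Module

attribute [local instance] Classical.propDecidable Fintype.ofFinite

/-! ### 1. Identities -/

/-- [QUO]: the quotient formula.
Proof. The subspaces of `V ⧸ I` correspond to the `U ≥ I` (`Submodule.comapMkQRelIso`,
`comap_map_mkQ`). The product over `w ∈ U / I`, `w ≠ 0`, of the products over the classes is the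
product over `v ∈ U`, `v ∉ I` (`Finset.prod_fiberwise`). -/
def St_QUO : Prop :=
  ∀ (V : Type) [AddCommGroup V] [Module F2 V] [Finite V] (R : Type) [CommRing R] (δ : R)
    (m : Submodule F2 V → R) (I : Submodule F2 V),
    (∀ x : V → R, W (quo δ m I) (push I x) =
      (-δ) ^ finrank F2 I * ∑ U with I ≤ U, m U * ∏ v with v ∈ U ∧ v ∉ I, x v) ∧
    ∀ U : Submodule F2 (V ⧸ I), cc (quo δ m I) U = (-δ) ^ finrank F2 I * cc m (U.comap I.mkQ)

/-- [ADQ]: quotients of admissible functions.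
Proof. [QUO], second part. `top`: `finrank (V ⧸ I) + finrank I = n`. `hyp`: for a hyperplane `H'` of
`V ⧸ I` take `H := H'.comap I.mkQ` and `s' := I.mkQ s`; for `U' ≤ H'` one has
`(U' ⊔ ln s').comap I.mkQ = U'.comap I.mkQ ⊔ ln s` (`I ≤ U'.comap I.mkQ`). -/
def St_ADQ : Prop :=
  ∀ (V : Type) [AddCommGroup V] [Module F2 V] [Finite V] (δ : ℝ) (m : Submodule F2 V → ℝ)
    (I : Submodule F2 V), Adm δ m → Adm δ (quo δ m I)

/-- [PF]: the expansion over the subsets, for a family of vectors.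
Proof. `cc m (span (r '' B)) = ∑ U, if (∀ i ∈ B, r i ∈ U) then m U else 0`. Exchange the sums; for each
`U` the sum over `B ⊆ {i | r i ∈ U}` of `∏ i ∈ B, (x i - 1)` is `∏ i with r i ∈ U, x i`
(`Finset.prod_add` / `Finset.prod_one_add`), and this is
`∏ v with v ∈ U, ∏ i with r i = v, x i` (`Finset.prod_fiberwise`). -/
def St_PF : Prop :=
  ∀ (V : Type) [AddCommGroup V] [Module F2 V] [Finite V] (R : Type) [CommRing R]
    (m : Submodule F2 V → R) (ι : Type) [Fintype ι] (r : ι → V) (x : ι → R),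
    ∑ B : Finset ι, (∏ i ∈ B, (x i - 1)) * cc m (span F2 (r '' (B : Set ι))) =
      W m (fun v => ∏ i with r i = v, x i)

/-- [DC]: deletion and contraction.
Proof. By [QUO] the last term is `- (1 - x e) ∑_(U ∋ e) m U ∏_(v ∈ U, v ∉ ln e) x v`; compare term by
term: for `e ∈ U` the product over `U` is `x 0 * x e * ∏_(v ∈ U, v ∉ ln e) x v`
(`ln e = {0, e}`). -/
def St_DC : Prop :=
  ∀ (V : Type) [AddCommGroup V] [Module F2 V] [Finite V] (δ : ℝ) (m : Submodule F2 V → ℝ)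
    (e : V) (x : V → ℝ), δ ≠ 0 → e ≠ 0 → x 0 = 1 →
    W m x = W m (Function.update x e 1) + (1 - x e) / δ * W (quo δ m (ln e)) (push (ln e) x)

/-- [AFF]: the polynomial is affine in each variable.
Proof. Term by term. -/
def St_AFF : Prop :=
  ∀ (V : Type) [AddCommGroup V] [Module F2 V] [Finite V] (R : Type) [CommRing R]
    (m : Submodule F2 V → R) (e : V) (x : V → R),
    (∃ a b : R, ∀ t, W m (Function.update x e t) = a + t * b) ∧
    ∀ l : R, W m (Function.update x e (l * x e)) = W m x + (l - 1) * Ws m e x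

/-- [E1].
Proof. Term by term: let `n` be the number of the `v ∈ U ⊓ F`, `v ≠ 0`; it is `0` or odd (a subspace
has `2 ^ d` elements), so `(-1) ^ n = 2 * 0 ^ n - 1 ^ n`. -/
def St_E1 : Prop :=
  ∀ (V : Type) [AddCommGroup V] [Module F2 V] [Finite V] (m : Submodule F2 V → ℝ)
    (F : Submodule F2 V) (x : V → ℝ),
    W m (setv F (-1) x) = 2 * W m (setv F 0 x) - W m (setv F 1 x)

/-- [E2].
Proof. By [QUO] the last term is `- ∑_g ∑_(U ∋ g) m U ∏_(v ∈ U, v ∉ ln g) (setv F 0 x v)`. Compare term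
by term: for a subspace `U` the left side is not zero only for `U ⊓ F = ⊥`; the first term on the
right for `U ⊓ F₁ = ⊥`; the summand of `g` for `U ⊓ F = ln g`; in each case the value is
`m U ∏_(v ∈ U, v ∉ F) x v` (`x 0 = 1`). If `U ⊓ F₁ = ⊥` then `U ⊓ F` is `⊥` or `ln g` for exactly one
`g ∈ F`, `g ∉ F₁` (`F₁` is a hyperplane of `F`). -/
def St_E2 : Prop :=
  ∀ (V : Type) [AddCommGroup V] [Module F2 V] [Finite V] (δ : ℝ) (m : Submodule F2 V → ℝ)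
    (F₁ F : Submodule F2 V) (x : V → ℝ), δ ≠ 0 → F₁ ≤ F → finrank F2 F₁ + 1 = finrank F2 F →
    x 0 = 1 →
    W m (setv F 0 x) = W m (setv F₁ 0 (setv {v | v ∈ F ∧ v ∉ F₁} 1 x)) +
      1 / δ * ∑ g with g ∈ F ∧ g ∉ F₁, W (quo δ m (ln g)) (push (ln g) (setv F 0 x))

/-! ### 2. Coloops -/

/-- [COL]: coloops.
Proof. Let `y := Function.update x e 1`. By [DC] `W x = W y + (1 - x e) / δ * W_(V / e)(push x)`
(`e ≠ 0` as `e ∉ H`). By [PF] for `r = id`: `W y = ∑_B ∏_(v ∈ B) (y v - 1) * c(span B)`, the terms with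
`B` not contained in `H` vanish. First case: `c(span B) = -δ * c(span B ⊔ ln s)` for `B ⊆ H`, so
`W y` is `∑_B ∏ (y v - 1) * cc (quo δ m (ln s)) (span (mkQ '' B)) = W_(V / s)(push y)` ([QUO] second
part, [PF] for `r = mkQ`; the class of `0` is `{0, s}`, the product of `y` over it is `1`).
Second case: `c(span B) = q * c(span B ⊔ ln s ⊔ ln e) = -δ * cc (quo δ m (ln e)) (span (mkQ '' B) ⊔
ln (mkQ s))`, and `∑_B ∏ (y v - 1) * cc m' (span (r '' B) ⊔ ln s')` is `Ws m' s'` of the pushed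
function (as [PF]: only the `U ∋ s'` occur; this variant of [PF] may be derived by applying [PF] to
the function `m'' U := if s' ∈ U then m' U else 0`). -/
def St_COL : Prop :=
  ∀ (V : Type) [AddCommGroup V] [Module F2 V] [Finite V] (δ : ℝ) (m : Submodule F2 V → ℝ)
    (H : Submodule F2 V) (e : V) (x : V → ℝ), 0 < δ → Adm δ m →
    finrank F2 H + 1 = finrank F2 V → e ∉ H → x 0 = 1 → (∀ v, v ∉ H → v ≠ e → x v = 1) →
    ∃ s : V, (s ∉ H ∧ W m x = W (quo δ m (ln s)) (push (ln s) (Function.update x e 1)) +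
        (1 - x e) / δ * W (quo δ m (ln e)) (push (ln e) x)) ∨
      (s ∈ H ∧ W m x = (1 - x e) / δ * W (quo δ m (ln e)) (push (ln e) x) -
        δ * Ws (quo δ m (ln e)) ((ln e).mkQ s) (push (ln e) x))

/-- [PSH]: the quotient by a line outside of `H`, for functions which are `1` outside of `H`.
Proof. `mkQ` maps `H` bijectively onto `V ⧸ ln s`; for `h ∈ H`, `h ≠ 0` the class is `{h, h + s}` and
`h + s ∉ H`. -/
def St_PSH : Prop :=
  ∀ (V : Type) [AddCommGroup V] [Module F2 V] [Finite V] (H : Submodule F2 V) (s : V),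
    finrank F2 H + 1 = finrank F2 V → s ∉ H →
    finrank F2 (V ⧸ ln s) + 1 = finrank F2 V ∧
    (∀ w : V ⧸ ln s, ∃ h ∈ H, (ln s).mkQ h = w) ∧
    (∀ h ∈ H, ∀ h' ∈ H, (ln s).mkQ h = (ln s).mkQ h' → h = h') ∧
    (∀ y : V → ℝ, y 0 = 1 → (∀ v, v ∉ H → y v = 1) →
      (∀ h ∈ H, push (ln s) y ((ln s).mkQ h) = y h) ∧
      {w | push (ln s) y w ≠ 1} = (ln s).mkQ '' {v | y v ≠ 1} ∧
      {w | push (ln s) y w ≠ 1}.ncard = {v | y v ≠ 1}.ncard ∧
      (span F2 {v | y v ≠ 1} = H → span F2 {w | push (ln s) y w ≠ 1} = ⊤)) ∧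
    ∀ P : Set V, (0 : V) ∉ P → (∀ v ∈ P, v ∈ H) →
      push (ln s) (chi P) = chi ((ln s).mkQ '' P)

/-- [STB]: Theorem B from Theorem A.
Proof. Induction on the number of the `v` with `x v ≠ 1`, `x v ≠ -1` (`k` is fixed). If there is no
such `v` then `x = chi P` and Theorem A applies (`κ ^ n ≥ 0`). Let `g` be such an element (`g ≠ 0`),
`t := x g`, `-1 < t ≤ 1 - q`. Let `T := {v | x v ≠ 1, v ≠ g}`.
(1) `span T = ⊤`: by [AFF] `W x = (1 - t) / 2 * W (x with -1 at g) + (1 + t) / 2 * W (x with 1 at g)`,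
both are `≥ 0` by induction.
(2) `H := span T ≠ ⊤`: as `H ⊔ ln g = ⊤`, `H` is a hyperplane and `g ∉ H`. [COL]:
First case (`s ∉ H`): both terms are `≥ 0` by `TB δ (n - 1) _` ([ADQ], [PSH]; for the second
term use `push (ln g) x = push (ln g) (update x g 1)` as the class of `0` is dropped;
`{update x g 1 ≠ 1} = T` spans `H`).
Second case (`s ∈ H`): let `X := push (ln g) x` on `V / g`, `s' := mkQ s`, `l := 1 - q / (1 - t)`,
so `0 ≤ l ≤ 1` (`1 - t ≥ q`), and by [AFF]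
`W x = (1 - t) / δ * (W' X + (l - 1) * Ws' s' X) = (1 - t) / δ * W' (update X s' (l * X s'))`. If
`s' = 0` then `W' (update X 0 (l * X 0)) = l * W' X` (use `Ws' 0 X = W' X`), `≥ 0` by
`TB δ (n - 1) _`. If `s' ≠ 0` and `X s' ≠ 1` then `l * X s' ∈ [-1, 1 - q]` and the function satisfies
`Alw` and spans (`≠ 1` at the same elements): `TB δ (n - 1) _`. If `X s' = 1` then the new value is
`l ∈ [-1, 1]` and `W'` is a convex combination ([AFF]) of the values for `-1` and `1` at `s'`, both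
satisfy the hypotheses of `TB δ (n - 1) _`. -/
def St_STB : Prop :=
  ∀ (δ κ : ℝ), Par δ κ → ∀ n k : ℕ, (∀ n' < n, ∀ k', TB δ n' k') → TA δ κ n k → TB δ n k

/-- [COA]: Theorem A, the case of a coloop.
Proof. `H := span (P \ {e})` is a hyperplane, `e ∉ H`. [COL] for `x = chi P`, `x e = -1`. Write
`N := n - 1`. `push (ln e) (chi P) = push (ln e) (chi (P \ {e})) = chi P'`, `P' := mkQ '' (P \ {e})`
spans `V / e` and `0 ∉ P'` ([PSH]).
First case: `W = W_(V / s)(chi P'') + 2 / δ * W_(V / e)(chi P') ≥ (1 + 2 / δ) κ ^ N ≥ κ ^ n`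
(`κ δ ≤ 2` from `κ ^ 2 q = 4 - 6 q + q ^ 2 ≤ 4`).
Second case: with `l := 1 - q / 2`, `W = 2 / δ * W' (update X s' (l * X s'))`, `X = chi P'` ([AFF]).
(a) `s' = 0`: `W = 2 / δ * l * W' X ≥ (2 - q) / δ * κ ^ N`, `(2 - q) ^ 2 ≥ 4 - 6 q + q ^ 2`.
(b) `s' ≠ 0`, `s' ∉ P'`: the new value is `l = q / 4 * (-1) + (1 - q / 4) * 1`, so by [AFF]
`W' = q / 4 * W' (chi (P' ∪ {s'})) + (1 - q / 4) * W' (chi P') ≥ κ ^ N`.
(c) `s' ∈ P'`: the new value is `-l = (1 - α) * (-1) + α * (1 - q)`, `α = q / (2 (2 - q))`, so by [AFF]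
`W' = (1 - α) * W' (chi P') + α * W' (update X s' (1 - q)) ≥ (1 - α) κ ^ N` by `TA` and `TB` (`≥ 0`).
`2 / δ * (1 - α) ≥ κ` as `(4 - 3 q) ^ 2 ≥ (2 - q) ^ 2 (4 - 6 q + q ^ 2)` for `0 ≤ q ≤ 2 / 3` (the
difference is `q (16 - 23 q + 10 q ^ 2 - q ^ 3)`). -/
def St_COA : Prop :=
  ∀ (δ κ : ℝ), Par δ κ → ∀ (V : Type) [AddCommGroup V] [Module F2 V] [Finite V]
    (m : Submodule F2 V → ℝ), Adm δ m → ∀ n : ℕ, finrank F2 V = n + 1 →
    (∀ k, TA δ κ n k) → (∀ k, TB δ n k) → ∀ (P : Set V) (e : V), (0 : V) ∉ P → span F2 P = ⊤ →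
    e ∈ P → span F2 (P \ {e}) ≠ ⊤ → κ ^ (n + 1) ≤ W m (chi P)

/-! ### 3. Good contractions -/

/-- [GCO]: Theorem A, the case of a good contraction.
Proof. [DC] for `x = chi P`: `W = W (chi (P \ {e})) + 2 / δ * W_(V / e)(push (ln e) (chi P))`. For
`w ∉ ln e` the value of `push (ln e) (chi P)` at `mkQ w` is the product of the values at `w` and
`w + e`; it is `-1` exactly if one of them is in `P`; so `push (ln e) (chi P) = chi P'`,
`P' := mkQ '' {w ∈ P | w ≠ e, w + e ∉ P}`, `0 ∉ P'`. The set `{w ∈ P | w + e ∉ P}` (it contains `e`,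
as `0 ∉ P`) spans `V`, so `P'` spans `V / e`. So `W_(V / e) ≥ κ ^ n ≥ 0`. -/
def St_GCO : Prop :=
  ∀ (δ κ : ℝ), Par δ κ → ∀ (V : Type) [AddCommGroup V] [Module F2 V] [Finite V]
    (m : Submodule F2 V → ℝ), Adm δ m → ∀ n : ℕ, finrank F2 V = n + 1 →
    (∀ k, TA δ κ n k) → ∀ (P : Set V) (e : V), (0 : V) ∉ P → e ∈ P →
    span F2 {w | w ∈ P ∧ w + e ∉ P} = ⊤ → W m (chi (P \ {e})) ≤ W m (chi P)

/-! ### 4. The structure of the remaining case -/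

/-- [STR]: the structure lemma.
Proof. For `p : V` let `Φ p` be the space of the linear forms `φ` on `V` with `φ w = 0` for all `w ∈ P`
with `w + p ∉ P`, and `b p := finrank (Φ p)`. For `p ∈ P`: (i) `φ p = 0` for `φ ∈ Φ p` (`w = p`);
(ii) if `φ ∈ Φ p`, `w ∈ P`, `φ w = 1` then `w + p ∈ P`; (iii) `Φ p ≠ ⊥`, as `{w ∈ P | w + p ∉ P}` does
not span. Choose `e ∈ P` with `b := b e` minimal.
CLAIM 1. Let `e' ∈ P` with `b e' = b`, `h ∈ P`, `φ₀ ∈ Φ e'`, `φ₀ h = 1`. Then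
`{ψ ∈ Φ h | ψ e' = 0} = {φ ∈ Φ e' | φ h = 0}`, `b h = b`, and some `ψ ∈ Φ h` has `ψ e' = 1`. Proof: let
`ψ ∈ Φ h`, `ψ e' = 0`, `w ∈ P`, `w + e' ∉ P`, suppose `ψ w = 1`. By (ii) `w + h ∈ P`. If `w + h + e' ∈ P`
then by (ii) (`ψ (w + h + e') = 1`) `w + e' ∈ P`, no; so `w + h + e' ∉ P`, so `φ₀ (w + h) = 0`, and
`φ₀ w = 0`, so `φ₀ h = 0`, no. So `{ψ ∈ Φ h | ψ e' = 0} ≤ {φ ∈ Φ e' | φ h = 0}`, the second has
dimension `b - 1`, the first at least `b h - 1 ≥ b - 1`: equality, and all follows.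
`P` spans `V`, so the restrictions of the elements of `P` to `Φ e` span its dual: there are
`h_1, .., h_b ∈ P` which form a basis of the dual of `Φ e`; let `φ_1, .., φ_b` be the dual basis of
`Φ e`. By CLAIM 1 there is `ψ ∈ Φ h_1` with `ψ e = 1`; `φ_j ∈ Φ h_1` for `j ≥ 2`; adding such `φ_j` we
get `ψ h_j = 0` for all `j` (`ψ h_1 = 0` by (i)). So `Θ := span {ψ, φ_1, .., φ_b}` and
`F := span {e, h_1, .., h_b}` have dual bases, `finrank F = b + 1 ≥ 2`. `G := {v | θ v = 0 ∀ θ ∈ Θ}`,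
`IsCompl F G`.
CLAIM 2. `p ∈ P` and `{θ ∈ Θ | θ p = 0} ≤ Φ p` for every `p ∈ F`, `p ≠ 0`. Proof: for `p = e`, `h_1`
clear. For `p = h_j`, `j ≥ 2`: `φ_i ∈ Φ h_j` for `i ≠ j` (CLAIM 1 for `e`), and CLAIM 1 for
`e' = h_1` (`b h_1 = b`, `φ_j ∈ Φ h_1`, `φ_j h_j = 1`) gives `ψ ∈ Φ h_j`. If it is true for `p ≠ p'`
(both in `F`, not `0`) it is true for `p + p'`: there is `φ ∈ Θ` with `φ p = 0`, `φ p' = 1`, so
`φ ∈ Φ p` and `p' + p ∈ P` by (ii). Let `θ ∈ Θ`, `θ (p + p') = 0`, `w ∈ P`, `w + p + p' ∉ P`. If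
`θ p = θ p' = 0` and `θ w = 1` then `w + p ∈ P`, `θ (w + p) = 1`, `w + p + p' ∈ P`, no. If
`θ p = θ p' = 1` let `φ` be as before, `ψ' := θ + φ`, so `ψ' p = 1`, `ψ' p' = 0`, `ψ' ∈ Φ p'`; if
`θ w = 1` then either `φ w = 1`, `ψ' w = 0`: `w + p ∈ P`, `ψ' (w + p) = 1`, `w + p + p' ∈ P`, no; or
`φ w = 0`, `ψ' w = 1`: `w + p' ∈ P`, `φ (w + p') = 1`, `w + p' + p ∈ P`, no. Induction over the basis.
Let `c ∈ G`, `g ∈ F`, `g ≠ 0`, `c + g ∈ P`. For `p ∈ F`, `p ≠ 0`, `p ≠ g` there is `θ ∈ Θ`, `θ p = 0`,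
`θ g = 1`, so `θ ∈ Φ p`, `θ (c + g) = 1`, so `c + g + p ∈ P`. So `c + g' ∈ P` for all `g' ∈ F`,
`g' ≠ 0`. Last part: let `χ` be a linear form which vanishes on `F` and on the set; then `χ ∈ Φ e`
(let `w ∈ P`, `w + e ∉ P`, `w = c + g`. If `c = 0` then `χ w = 0`. Else if `c + f ∈ P` for all
`f ∈ F`, `f ≠ 0` then `g + e = 0`, so `c ∉ P` and `χ w = χ c = 0`; otherwise `g = 0`, `c = w ∈ P`,
`χ c = 0`), and `Φ e ≤ Θ` vanishes on `G`, so `χ = 0`. -/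
def St_STR : Prop :=
  ∀ (V : Type) [AddCommGroup V] [Module F2 V] [Finite V] (P : Set V), (0 : V) ∉ P →
    P.Nonempty → span F2 P = ⊤ → (∀ e ∈ P, span F2 {w | w ∈ P ∧ w + e ∉ P} ≠ ⊤) →
    ∃ F G : Submodule F2 V, IsCompl F G ∧ 2 ≤ finrank F2 F ∧ (∀ f ∈ F, f ≠ 0 → f ∈ P) ∧
      (∀ c ∈ G, (∀ f ∈ F, f ≠ 0 → c + f ∈ P) ∨ (∀ f ∈ F, f ≠ 0 → c + f ∉ P)) ∧
      span F2 {c | c ∈ G ∧ c ≠ 0 ∧ ¬ ((∀ f ∈ F, f ≠ 0 → c + f ∈ P) ↔ c ∈ P)} = G

/-- [PSF]: quotients by a line in `F`.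
Proof. `ln g = {0, g}`. The class of `v` is `{v, v + g}`. For `c ∈ G`, `c ≠ 0` the class of `c` meets
`G` only in `c`. -/
def St_PSF : Prop :=
  ∀ (V : Type) [AddCommGroup V] [Module F2 V] [Finite V] (F G : Submodule F2 V) (g : V),
    IsCompl F G → g ∈ F → g ≠ 0 →
    IsCompl (F.map (ln g).mkQ) (G.map (ln g).mkQ) ∧
    finrank F2 (F.map (ln g).mkQ) + 1 = finrank F2 F ∧
    finrank F2 (G.map (ln g).mkQ) = finrank F2 G ∧
    finrank F2 (V ⧸ ln g) + 1 = finrank F2 V ∧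
    (∀ z : V → ℝ, z 0 = 1 → (∀ v, v ∉ G → z v = 1) →
      (∀ c ∈ G, push (ln g) z ((ln g).mkQ c) = z c) ∧
      (∀ w, w ∉ G.map (ln g).mkQ → push (ln g) z w = 1) ∧
      (∀ t : ℝ, push (ln g) (setv F t z) = setv (F.map (ln g).mkQ) (t ^ 2) (push (ln g) z)) ∧
      ∀ F₁ : Submodule F2 V, F₁ ≤ F → finrank F2 F₁ + 1 = finrank F2 F → g ∉ F₁ → ∀ t : ℝ,
        push (ln g) (setv F₁ t z) = setv (F.map (ln g).mkQ) t (push (ln g) z)) ∧
    ∀ Z : Set V, (0 : V) ∉ Z → (∀ v ∈ Z, v ∈ G) → push (ln g) (chi Z) = chi ((ln g).mkQ '' Z)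

/-- [CC]: comparison of the values `0` and `1` on `F`: `w ≤ a` and `w ≥ - q / (1 - q) * a`.
Proof. Induction on `k := finrank F`, for all `V` of dimension `≤ N`. `a := W (setv F 0 z)`,
`w := W z` (`z = 1` on `F`). `a ≥ 0` by `TB` (`{setv F 0 z ≠ 1}` is `F \ 0` and `{z ≠ 1}`, spans).
`k = 0`: `a = w`. `k ≥ 1`: let `F₁` be a hyperplane of `F`, `N_g := 2 ^ (k - 1)` the number of the
`g ∈ F`, `g ∉ F₁`. For such `g` put `a_g := W_(V / g)(setv F' 0 z')`, `w_g := W_(V / g)(z')`,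
`F' = F.map mkQ`, `z' = push (ln g) z` ([PSF], [ADQ]); by induction in `V / g`
`0 ≤ a_g`, `w_g ≤ a_g`, `(1 - q) w_g ≥ - q a_g`. Let `u₀ := W (setv F₁ 0 z)`, `u₁ := w`. By [E2] and
[PSF] `a = u₀ + 1 / δ * ∑_g a_g`. Let `y := update z g (1 - q)`; by [DC] at `g` and [PSF] (last but
one part; `push` does not depend on the value at `g`), `q / δ = δ`:
`W (setv F₁ 0 y) = u₀ + δ a_g`, `W y = u₁ + δ w_g`. Induction hypothesis for `F₁`,
`G' := G ⊔ ln g`, `y` (`IsCompl F₁ G'`): `u₁ + δ w_g ≤ u₀ + δ a_g` and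
`(1 - q) (u₁ + δ w_g) ≥ - q (u₀ + δ a_g)`. Sum over `g`. Put `A := ∑_g a_g ≥ 0`.
`a - w = (u₀ - u₁) + A / δ ≥ A / δ - δ / N_g * ∑_g (a_g - w_g)`; if `k = 1` then `a_g = w_g`
(`F' = ⊥`); if `k ≥ 2` then `a_g - w_g ≤ a_g / (1 - q)` and `q / (2 (1 - q)) ≤ 1` (`q ≤ 2 / 3`).
`(1 - q) w + q a = (1 - q) u₁ + q u₀ + δ A ≥ - δ / N_g * ∑_g ((1 - q) w_g + q a_g) + δ A ≥
δ A (1 - 1 / N_g) ≥ 0` by `w_g ≤ a_g`. -/
def St_CC : Prop :=
  ∀ (δ κ : ℝ), Par δ κ → ∀ N : ℕ, (∀ n ≤ N, ∀ k, TB δ n k) →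
    ∀ (V : Type) [AddCommGroup V] [Module F2 V] [Finite V] (m : Submodule F2 V → ℝ), Adm δ m →
    finrank F2 V ≤ N → ∀ (F G : Submodule F2 V) (z : V → ℝ), IsCompl F G → Alw δ z →
    (∀ v, v ∉ G → z v = 1) → span F2 {v | z v ≠ 1} = G →
    0 ≤ W m (setv F 0 z) ∧ W m z ≤ W m (setv F 0 z) ∧
      - δ ^ 2 * W m (setv F 0 z) ≤ (1 - δ ^ 2) * W m z

/-- [LB]: lower bound for the value `0` on `F`.
Proof. Induction on `k := finrank F`, for all `V` of dimension `≤ N`. `k = 0`: `F = ⊥`, `G = ⊤`, Theorem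
A. `k ≥ 1`: `F₁`, `N_g`, `a_g`, `u₀` as in the proof of [CC] for `z = chi Z`. `a = u₀ + 1 / δ * ∑_g a_g`,
and `0 ≤ W (setv F₁ 0 (update z g (1 - q))) = u₀ + δ a_g` by `TB`. So
`a ≥ (1 / δ - δ / N_g) ∑_g a_g ≥ (N_g - q) / δ * L`, `L` the bound for the `a_g` (all `a_g ≥ L ≥ 0`),
`N_g = 2 ^ (k - 1)`. -/
def St_LB : Prop :=
  ∀ (δ κ : ℝ), Par δ κ → ∀ N : ℕ, (∀ n ≤ N, ∀ k, TB δ n k) → ∀ r : ℕ, (∀ k, TA δ κ r k) →
    ∀ (V : Type) [AddCommGroup V] [Module F2 V] [Finite V] (m : Submodule F2 V → ℝ), Adm δ m →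
    finrank F2 V ≤ N → ∀ (F G : Submodule F2 V) (Z : Set V), IsCompl F G → finrank F2 G = r →
    (0 : V) ∉ Z → (∀ v ∈ Z, v ∈ G) → span F2 Z = G →
    (∏ i ∈ Finset.range (finrank F2 F), ((2 : ℝ) ^ i - δ ^ 2) / δ) * κ ^ r ≤
      W m (setv F 0 (chi Z))

/-- [NUM]: the final inequality.
Proof. `m = 2`: equality (`κ ^ 2 q = 4 - 6 q + q ^ 2 = 4 (1 - q) - q (2 - q)`, `i = 0`: the product is
`1 - q`). From `m` to `m + 1`: the right side is multiplied by at least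
`2 * (2 ^ (m - 1) - q) ≥ 2 * (2 - q) ≥ 2 ≥ κ δ`. (`C := q (2 - q) ≤ 2 ^ m (1 - q)`:
`2 ^ (m + 1) (1 - q) - C ≥ 2 * (2 ^ m (1 - q) - C)`; for `m = 2`, `q ≤ 2 / 3`:
`4 (1 - q) - q (2 - q) = 4 - 6 q + q ^ 2 > 0`.) -/
def St_NUM : Prop :=
  ∀ (δ κ : ℝ), Par δ κ → ∀ m : ℕ, 2 ≤ m →
    (κ * δ) ^ m * (1 - δ ^ 2) ≤
      (2 ^ m * (1 - δ ^ 2) - δ ^ 2 * (2 - δ ^ 2)) *
        ∏ i ∈ Finset.range (m - 1), ((2 : ℝ) ^ i - δ ^ 2)

/-- [FIN]: Theorem A, the case `P = (F \ 0) ∪ Z`.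
Proof. `chi P = setv F (-1) (chi Z)`. Let `F₁` be a hyperplane of `F`, `a_g`, `w_g`, `u₀`, `u₁` as in
the proof of [CC] for `z = chi Z`, `μ := finrank F`, `N_g := 2 ^ (μ - 1)`. By [E1] (twice) and [E2]
`W (chi P) = 2 a - u₁`, `β := W (setv F₁ (-1) (chi Z)) = 2 u₀ - u₁`, `a = u₀ + 1 / δ * ∑_g a_g`, so
`W (chi P) = β + 2 / δ * ∑_g a_g`. For each `g` by `TB δ n k`, [DC], [PSF], [E1] in `V / g`:
`0 ≤ W (setv F₁ (-1) (update z g (1 - q))) = β + δ (2 a_g - w_g)` (the number of the elements with a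
value `≠ 1` is `2 ^ (μ - 1) + |Z| ≤ k`), and `(1 - q) w_g ≥ - q a_g` ([CC] for `N = n`), so
`β ≥ - δ (2 - q) / (1 - q) * a_g`. Averaging
`W (chi P) ≥ (2 / δ - δ (2 - q) / ((1 - q) N_g)) ∑_g a_g ≥ 1 / δ * (2 N_g - q (2 - q) / (1 - q)) * L`,
`L := (∏_(i < μ - 1) (2 ^ i - q) / δ) κ ^ (n + 1 - μ)` by [LB] in `V / g` (`finrank (V / g) = n`), and
[NUM]. -/
def St_FIN : Prop :=
  ∀ (δ κ : ℝ), Par δ κ → ∀ (V : Type) [AddCommGroup V] [Module F2 V] [Finite V]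
    (m : Submodule F2 V → ℝ), Adm δ m → ∀ n k : ℕ, finrank F2 V = n + 1 →
    (∀ n' ≤ n, ∀ k', TA δ κ n' k') → (∀ n' ≤ n, ∀ k', TB δ n' k') → TB δ (n + 1) k →
    ∀ (F G : Submodule F2 V) (Z P : Set V), IsCompl F G → 2 ≤ finrank F2 F →
    (0 : V) ∉ Z → (∀ v ∈ Z, v ∈ G) → span F2 Z = G → P = {v | v ∈ F ∧ v ≠ 0} ∪ Z →
    P.ncard ≤ k + 1 → κ ^ (n + 1) ≤ W m (chi P)

/-- [CNE]: Theorem A, the case `C ≠ ∅`.
Proof. The data of [STR]; some `c₀ ∈ G`, `c₀ ≠ 0` has `c₀ + f ∈ P` for all `f ∈ F`, `f ≠ 0`. Let `F₁` be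
a hyperplane of `F`, `Q := P \ (F \ F₁)`. `Q` spans: it contains `c₀ + f` for `f ∈ F`, `f ≠ 0`, the sums
of two of them are all the elements of `F` (`finrank F ≥ 2`). `Q` has less elements than `P`. So
`κ ^ n ≤ W (chi Q)` by `TA δ κ (n + 1) k`. By [E1], [E2] with `x = chi P`:
`W (chi P) = 2 W (setv F 0 x) - W (setv F 1 x)`, `W (chi Q) = 2 W (setv F₁ 0 x') - W (setv F₁ 1 x')`,
`x' := setv (F \ F₁) 1 x`, `setv F₁ 1 x' = setv F 1 x`, so
`W (chi P) = W (chi Q) + 2 / δ * ∑_g W_(V / g)(push (ln g) (setv F 0 x))`. For each `g` the function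
`push (ln g) (setv F 0 x)` is `0` on `F' \ 0`, `-1` on the classes of the elements of
`Z := {c ∈ G, c ≠ 0, not (c ∈ C ↔ c ∈ P)}`, `1` elsewhere (let `v = c + h`, `c ∈ G`, `c ≠ 0`, `h ∈ F`;
its class is `{c + h, c + h + g}`; if `c ∈ C`, then the product is `1` for `h ≠ 0, g` and
`- x c` for `h = 0` or `h = g`; if `c ∉ C` it is `x c` for `h = 0` or `h = g` and `1` otherwise), so
it satisfies `Alw` and spans (`Z` spans `G`) and `W_(V / g) ≥ 0` by `TB δ n _`. -/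
def St_CNE : Prop :=
  ∀ (δ κ : ℝ), Par δ κ → ∀ (V : Type) [AddCommGroup V] [Module F2 V] [Finite V]
    (m : Submodule F2 V → ℝ), Adm δ m → ∀ n k : ℕ, finrank F2 V = n + 1 →
    (∀ k', TB δ n k') → TA δ κ (n + 1) k →
    ∀ (F G : Submodule F2 V) (P : Set V), (0 : V) ∉ P → P.ncard ≤ k + 1 → span F2 P = ⊤ →
    IsCompl F G → 2 ≤ finrank F2 F → (∀ f ∈ F, f ≠ 0 → f ∈ P) →
    (∀ c ∈ G, (∀ f ∈ F, f ≠ 0 → c + f ∈ P) ∨ (∀ f ∈ F, f ≠ 0 → c + f ∉ P)) →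
    span F2 {c | c ∈ G ∧ c ≠ 0 ∧ ¬ ((∀ f ∈ F, f ≠ 0 → c + f ∈ P) ↔ c ∈ P)} = G →
    (∃ c ∈ G, c ≠ 0 ∧ ∀ f ∈ F, f ≠ 0 → c + f ∈ P) → κ ^ (n + 1) ≤ W m (chi P)

/-- [MAI]: the theorem.
Proof. Strong induction on `n`, then induction on `k`: `TA δ κ n k` and `TB δ n k`. `n = 0`: `V` is
trivial, `P = ∅`, `W = m ⊤ = 1`. `k = 0`: `P = ∅` spans, `n = 0`. `TB δ n k` from `TA δ κ n k` by
[STB]. `TA δ κ (n + 1) (k + 1)`: let `P` be given. If some `e ∈ P` has `span (P \ {e}) ≠ ⊤`: [COA].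
Otherwise if some `e ∈ P` has `span {w ∈ P | w + e ∉ P} = ⊤`: [GCO] and `TA δ κ (n + 1) k` for
`P \ {e}`. Otherwise [STR]; if some `c ∈ G`, `c ≠ 0` has `c + f ∈ P` for all `f`: [CNE]. Otherwise
`P = (F \ 0) ∪ Z`, `Z := P ∩ G` (the elements `c + f` with `c ≠ 0`, `f ≠ 0` are not in `P`), which is
the set of [STR] (for `c ≠ 0` the condition `∀ f ∈ F, ..` is false): [FIN]. -/
def St_MAI : Prop :=
  ∀ (δ κ : ℝ), Par δ κ → ∀ n k : ℕ, TA δ κ n k ∧ TB δ n k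

/-! ### 5. Symmetric matrices -/

/-- [MOB]: Moebius inversion, existence.
Proof. The map `m ↦ cc m` is an injective endomorphism (downward induction) of a free module;
better: define `m` by well-founded recursion on `>` (`m U := c U - ∑ U' > U, m U'`). -/
def St_MOB : Prop :=
  ∀ (V : Type) [AddCommGroup V] [Module F2 V] [Finite V] (R : Type) [CommRing R]
    (c : Submodule F2 V → R), ∃ m : Submodule F2 V → R, ∀ U, cc m U = c U

/-- [SYM]: symmetric maps give admissible functions. `R(U) := {φ | φ = 0 on U, S φ ∈ U}`,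
`ρ(U) := finrank R(U)`, `c(U) = (-δ) ^ (ρ(U) - dim U)`.
Proof. `top`: `ρ(⊤) = 0`. `hyp`: let `H = ker φ₀`, `s := S φ₀`. Case `s ∉ H` (`φ₀ s = 1`): for `U ≤ H`
`R(U) = R(U ⊔ ln s)` (if `φ ∈ R(U)` then `φ s = φ₀ (S φ) = 0`; if `φ ∈ R(U ⊔ ln s)`,
`S φ = u + ε s` then `ε = φ₀ (S φ) = φ s = 0`), and the dimension of `U ⊔ ln s` is larger by `1`. Case
`s ∈ H`: for `U ≤ H`, `e ∉ H` let `R' := R(U ⊔ ln s ⊔ ln e)`; for `φ ∈ R'` `φ₀ (S φ) = φ s = 0`, so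
`S φ ∈ U ⊔ ln s`. The map `T : R(U) → R'`, `φ ↦ φ + φ(e) φ₀` is well defined. If `s ∉ U` it is
bijective (for `ψ ∈ R'`, `S ψ = u + ε s`, `φ := ψ + ε φ₀`), the dimension of
`U ⊔ ln s ⊔ ln e` is `dim U + 2`; if `s ∈ U` it is surjective with kernel `{0, φ₀}`, the dimension is
`dim U + 1`. In both cases `ρ(U) - dim U = 2 + ρ(U ⊔ ln s ⊔ ln e) - dim (U ⊔ ln s ⊔ ln e)`. -/
def St_SYM : Prop :=
  ∀ (V : Type) [AddCommGroup V] [Module F2 V] [Finite V] (S : Dual F2 V →ₗ[F2] V),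
    (∀ φ ψ : Dual F2 V, φ (S ψ) = ψ (S φ)) → ∀ (δ : ℝ) (m : Submodule F2 V → ℝ), δ ≠ 0 →
    (∀ U : Submodule F2 V, (-δ) ^ finrank F2 U * cc m U =
      (-δ) ^ finrank F2 (U.dualAnnihilator ⊓ U.comap S : Submodule F2 (Dual F2 V))) → Adm δ m

/-- [KER]: the kernels of the matrices.
Proof. `V` is the range of `M`. A linear form `φ` on `V` is `v ↦ y ⬝ᵥ v` for some `y` (extend it), and
`w_φ := (φ (M c))_c = M y`; `S φ := w_φ + M w_φ ∈ V`. Symmetry: `φ (S ψ) = y ⬝ᵥ (M z + M M z)` for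
`ψ = (v ↦ z ⬝ᵥ v)`. Let `K := ker (M + D)`, `D c = 1` for `c ∉ B`, and `R := R(U_B)`. Map
`y ∈ K ↦ φ_y = (v ↦ y ⬝ᵥ v)`: for `b ∈ B` `φ_y (M b) = (M y) b = 0`; `y + M y` is supported on `B`
(for `c ∉ B` `(M y) c = y c`), so `S φ_y = M (y + M y) ∈ U_B`. Surjective onto `R`: let `φ = φ_(y₁) ∈ R`,
`M (y₁ + M y₁) = M z`, `z` supported on `B`; `y := M y₁ + z` has `M y = M y₁` (so `φ_y = φ`,
`(M y) b = 0` for `b ∈ B`) and `y + M y = z`, so `y ∈ K`. Kernel: `M y = 0` and `y` supported on `B`: the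
relations between the rows `M b`, `b ∈ B`, of dimension `|B| - dim U_B`. -/
def St_KER : Prop :=
  ∀ (E : Type) [Fintype E] [DecidableEq E] (M : Matrix E E F2), (∀ i j, M i j = M j i) →
    ∃ S : Dual F2 (rsp M) →ₗ[F2] rsp M, (∀ φ ψ : Dual F2 (rsp M), φ (S ψ) = ψ (S φ)) ∧
      ∀ (B : Finset E) (U : Submodule F2 (rsp M)), U = span F2 (rw' M '' (B : Set E)) →
        finrank F2 (LinearMap.ker
          (M + Matrix.diagonal fun c => if c ∈ B then (0 : F2) else 1).mulVecLin) +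
            finrank F2 U =
          finrank F2 (U.dualAnnihilator ⊓ U.comap S : Submodule F2 (Dual F2 (rsp M))) + B.card

end Pool.Agent.EQT
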